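import Pool.Agent.H48.WN.Wrp

/-!
# [H48 WN WIN] L1 bound of the window sum

PROOF. `wrp`, `L = log T ≥ 1`. For `σ ∈ [1/4, 3/4]`: `int_{T/2}^{3T} ‖Wn(σ+it)‖ dt ≤ int ‖K(y)‖ int_{T/2}^{3T} ‖Rp D4 (σ + i(t + y/L))‖ dt dy`
(Fubini for the non negative continuous integrand; the inner integral is bounded). If `|y|/L ≤ T/4` the inner integral is
`≤ int_{T/4}^{4T} ‖Rp‖‖D4‖` (substitution `t + y/L`, and `[T/2 - T/4, 3T + T/4] ⊂ [T/4, 4T]`). For all `y`: `‖Rp(s)‖ ≤ sum_{n ≤ N} log n ≤ N^2`,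
`‖D4(s)‖ ≤ N` for `Re s ≥ 0`, `N ≤ T^(b+3)`, so the inner integral is `≤ 3T · T^(3(b+3))`, and
`int_{|y| > LT/4} ‖K‖ ≤ C_A int_{|y| > T/4} (1+|y|)^(-A-2) dy ≤ C' T^(-A)`; take `A ≥ 3b + 11` and `T` large: this part is `≤ 1`.
So `C = int ‖K‖` (plus 1 to be positive).
-/

set_option autoImplicit false

namespace Pool.Agent.H48.WN

open Complex MeasureTheory Finset

theorem win_dp_cont (c : ℕ → ℂ) (w : ℝ → ℝ) (T : ℝ) (N : ℕ) : Continuous (Dp c w T N) := by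
  unfold Dp
  refine continuous_finsetSum _ fun n hn => ?_
  have hn0 : (n : ℂ) ≠ 0 := by
    have : 0 < n := (mem_Icc.1 hn).1
    exact_mod_cast this.ne'
  exact continuous_const.mul (continuous_neg.const_cpow (Or.inl hn0))

theorem win_wn_cont (b h T : ℝ) : Continuous (Wn b h T) := by
  unfold Wn
  refine continuous_finsetSum _ fun n hn => ?_
  have hn0 : (n : ℂ) ≠ 0 := by
    have : 0 < n := (mem_Icc.1 hn).1
    exact_mod_cast this.ne'
  have hz : Continuous (Zp b h (Real.log n / Real.log T) T) := by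
    unfold Zp
    exact win_dp_cont _ _ _ _
  exact (continuous_const.mul (continuous_neg.const_cpow (Or.inl hn0))).mul hz

theorem win_pow_le (n : ℕ) (hn : 1 ≤ n) (s : ℂ) (hs : 0 ≤ s.re) : ‖(n : ℂ) ^ (-s)‖ ≤ 1 := by
  rw [Complex.norm_natCast_cpow_of_pos hn]
  have h1 : (1 : ℝ) ≤ n := by exact_mod_cast hn
  apply Real.rpow_le_one_of_one_le_of_nonpos h1
  rw [Complex.neg_re]
  linarith

theorem win_rp_le (b h T : ℝ) (s : ℂ) (hs : 0 ≤ s.re) :
    ‖Rp b h T s‖ ≤ (NN b T : ℝ) * (NN b T : ℝ) := by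
  unfold Rp Dp
  refine (norm_sum_le _ _).trans ?_
  have h1 : ∀ n ∈ Icc 1 (NN b T), ‖La n * ((rr b h (Real.log n / Real.log T) : ℝ) : ℂ) *
      (n : ℂ) ^ (-s)‖ ≤ (NN b T : ℝ) := by
    intro n hn
    have hn1 := mem_Icc.1 hn
    have h2 : ‖La n‖ ≤ (NN b T : ℝ) := by
      unfold La
      rw [Complex.norm_real, Real.norm_eq_abs, abs_of_nonneg ArithmeticFunction.vonMangoldt_nonneg]
      refine ArithmeticFunction.vonMangoldt_le_log.trans ?_
      refine (Real.log_le_self (Nat.cast_nonneg n)).trans ?_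
      exact_mod_cast hn1.2
    have h3 : ‖((rr b h (Real.log n / Real.log T) : ℝ) : ℂ)‖ ≤ 1 := by
      rw [Complex.norm_real, Real.norm_eq_abs]
      exact rr_abs_le _ _ _
    have h4 := win_pow_le n hn1.1 s hs
    rw [norm_mul, norm_mul]
    calc ‖La n‖ * ‖((rr b h (Real.log n / Real.log T) : ℝ) : ℂ)‖ * ‖(n : ℂ) ^ (-s)‖
        ≤ (NN b T : ℝ) * 1 * 1 := by gcongr
      _ = (NN b T : ℝ) := by ring
  refine (sum_le_sum h1).trans ?_
  rw [sum_const, Nat.card_Icc, nsmul_eq_mul, Nat.add_sub_cancel]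

theorem win_d4_le (b h T : ℝ) (s : ℂ) (hs : 0 ≤ s.re) : ‖D4 b h T s‖ ≤ (NN b T : ℝ) := by
  unfold D4 Dp
  refine (norm_sum_le _ _).trans ?_
  have h1 : ∀ n ∈ Icc 1 (NN b T), ‖(1 : ℂ) * ((st (1 + 3 * h) h (Real.log n / Real.log T) : ℝ) : ℂ) *
      (n : ℂ) ^ (-s)‖ ≤ 1 := by
    intro n hn
    have hn1 := mem_Icc.1 hn
    have h3 : ‖((st (1 + 3 * h) h (Real.log n / Real.log T) : ℝ) : ℂ)‖ ≤ 1 := by
      rw [Complex.norm_real, Real.norm_eq_abs, abs_of_nonneg (st_nonneg _ _ _)]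
      exact st_le_one _ _ _
    have h4 := win_pow_le n hn1.1 s hs
    rw [norm_mul, norm_mul, norm_one, one_mul]
    calc ‖((st (1 + 3 * h) h (Real.log n / Real.log T) : ℝ) : ℂ)‖ * ‖(n : ℂ) ^ (-s)‖
        ≤ 1 * 1 := by gcongr
      _ = 1 := by ring
  refine (sum_le_sum h1).trans ?_
  rw [sum_const, Nat.card_Icc, nsmul_eq_mul, Nat.add_sub_cancel, mul_one]

theorem win_moment {K : ℝ → ℂ} (hK : Continuous K)
    (hKd : ∀ A : ℕ, ∃ C : ℝ, ∀ y : ℝ, ‖K y‖ ≤ C * (1 + |y|) ^ (-(A : ℝ))) (A : ℕ) :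
    Integrable (fun y : ℝ => ‖K y‖ * (1 + |y|) ^ A) := by
  obtain ⟨C, hC⟩ := hKd (A + 2)
  have h1 : Integrable (fun y : ℝ => C * (1 + ‖y‖) ^ (-(2 : ℝ))) :=
    (integrable_one_add_norm (by simp)).const_mul _
  refine h1.mono' (by fun_prop) (Filter.Eventually.of_forall fun y => ?_)
  have hy : 0 < 1 + |y| := by positivity
  rw [Real.norm_eq_abs, Real.norm_eq_abs, abs_of_nonneg (by positivity)]
  calc ‖K y‖ * (1 + |y|) ^ A ≤ C * (1 + |y|) ^ (-((A + 2 : ℕ) : ℝ)) * (1 + |y|) ^ A := by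
        gcongr
        exact hC y
    _ = C * ((1 + |y|) ^ (-((A + 2 : ℕ) : ℝ)) * (1 + |y|) ^ (A : ℝ)) := by
        rw [Real.rpow_natCast, mul_assoc]
    _ = C * (1 + |y|) ^ (-(2 : ℝ)) := by
        rw [← Real.rpow_add hy]
        congr 2
        push_cast
        ring

theorem win (b h : ℝ) (hb : 1 ≤ b) (hh : 0 < h) :
    ∃ C T0 : ℝ, 0 < C ∧ 10 ≤ T0 ∧ ∀ T : ℝ, T0 ≤ T → ∀ σ : ℝ, 1 / 4 ≤ σ → σ ≤ 3 / 4 →
      ∫ t in (T / 2)..(3 * T), ‖Wn b h T ((σ : ℂ) + (t : ℂ) * I)‖ ≤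
        C * (∫ t in (T / 4)..(4 * T), ‖Rp b h T ((σ : ℂ) + (t : ℂ) * I)‖ *
          ‖D4 b h T ((σ : ℂ) + (t : ℂ) * I)‖) + 1 := by
  obtain ⟨K, hK, hKi, hKd, hW⟩ := wrp b h hb hh
  obtain ⟨A, hA⟩ : ∃ A : ℕ, A = ⌈3 * b + 11⌉₊ := ⟨_, rfl⟩
  have hA1 : 3 * b + 11 ≤ A := by
    rw [hA]
    exact Nat.le_ceil _
  have hKA := win_moment hK hKd A
  obtain ⟨M, hM⟩ : ∃ M : ℝ, M = ∫ y : ℝ, ‖K y‖ * (1 + |y|) ^ A := ⟨_, rfl⟩
  have hM0 : 0 ≤ M := by
    rw [hM]
    exact integral_nonneg fun y => by positivity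
  have hK0 : 0 ≤ ∫ y : ℝ, ‖K y‖ := integral_nonneg fun y => norm_nonneg _
  refine ⟨(∫ y : ℝ, ‖K y‖) + 1, max 10 (3 * 4 ^ A * M), by linarith, le_max_left _ _, ?_⟩
  intro T hT σ hσ1 hσ2
  have hT10 : 10 ≤ T := (le_max_left _ _).trans hT
  have hTM : 3 * 4 ^ A * M ≤ T := (le_max_right _ _).trans hT
  have hT0 : 0 < T := by linarith
  obtain ⟨L, hL⟩ : ∃ L, L = Real.log T := ⟨_, rfl⟩
  have hL1 : 1 ≤ L := by
    rw [hL, Real.le_log_iff_exp_le hT0]
    have := Real.exp_one_lt_d9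
    linarith
  have hL0 : 0 < L := by linarith
  obtain ⟨P, hP⟩ : ∃ P : ℝ → ℝ, P = fun t : ℝ => ‖Rp b h T ((σ : ℂ) + (t : ℂ) * I)‖ *
      ‖D4 b h T ((σ : ℂ) + (t : ℂ) * I)‖ := ⟨_, rfl⟩
  have hline : Continuous (fun t : ℝ => (σ : ℂ) + (t : ℂ) * I) := by fun_prop
  have hPc : Continuous P := by
    rw [hP]
    have h1 : Continuous (Rp b h T) := win_dp_cont _ _ _ _
    have h2 : Continuous (D4 b h T) := win_dp_cont _ _ _ _
    exact (h1.comp hline).norm.mul (h2.comp hline).norm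
  have hP0 : ∀ t, 0 ≤ P t := by
    intro t
    rw [hP]
    positivity
  obtain ⟨B, hB⟩ : ∃ B : ℝ, B = T ^ (3 * (b + 3)) := ⟨_, rfl⟩
  have hB0 : 0 ≤ B := by
    rw [hB]
    positivity
  have hPB : ∀ t, P t ≤ B := by
    intro t
    rw [hP]
    have hre : 0 ≤ ((σ : ℂ) + (t : ℂ) * I).re := by
      simp
      linarith
    have h1 := win_rp_le b h T _ hre
    have h2 := win_d4_le b h T _ hre
    have h3 : (NN b T : ℝ) ≤ T ^ (b + 3) := Nat.floor_le (by positivity)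
    have h4 : B = T ^ (b + 3) * T ^ (b + 3) * T ^ (b + 3) := by
      rw [hB, ← Real.rpow_add hT0, ← Real.rpow_add hT0]
      congr 1
      ring
    rw [h4]
    calc ‖Rp b h T ((σ : ℂ) + (t : ℂ) * I)‖ * ‖D4 b h T ((σ : ℂ) + (t : ℂ) * I)‖
        ≤ ((NN b T : ℝ) * (NN b T : ℝ)) * (NN b T : ℝ) := by gcongr
      _ ≤ T ^ (b + 3) * T ^ (b + 3) * T ^ (b + 3) := by gcongr
  have hWP : ∀ t : ℝ, ‖Wn b h T ((σ : ℂ) + (t : ℂ) * I)‖ ≤ ∫ y : ℝ, ‖K y‖ * P (t + y / L) := by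
    intro t
    rw [hW T (by linarith)]
    refine (norm_integral_le_integral_norm _).trans (le_of_eq ?_)
    refine integral_congr_ae (Filter.Eventually.of_forall fun y => ?_)
    show ‖K y * (Rp b h T _ * D4 b h T _)‖ = ‖K y‖ * P (t + y / L)
    have h1 : (σ : ℂ) + (t : ℂ) * I + I * ((y / Real.log T : ℝ) : ℂ) =
        (σ : ℂ) + ((t + y / L : ℝ) : ℂ) * I := by
      rw [← hL]
      push_cast
      ring
    rw [h1, hP, norm_mul, norm_mul]
  -- the product integrand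
  obtain ⟨μ, hμ⟩ : ∃ μ : Measure ℝ, μ = volume.restrict (Set.Ioc (T / 2) (3 * T)) := ⟨_, rfl⟩
  have hfin : IsFiniteMeasure μ := by
    rw [hμ]
    exact ⟨by simp⟩
  have hprod : Integrable (Function.uncurry fun (t y : ℝ) => ‖K y‖ * P (t + y / L)) (μ.prod volume) := by
    have h1 : Integrable (fun p : ℝ × ℝ => B * ‖K p.2‖) (μ.prod volume) :=
      (integrable_const B).mul_prod hKi.norm
    refine h1.mono' (Continuous.aestronglyMeasurable ?_) (Filter.Eventually.of_forall fun p => ?_)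
    · unfold Function.uncurry
      exact (hK.comp continuous_snd).norm.mul (hPc.comp (by fun_prop))
    · unfold Function.uncurry
      rw [Real.norm_eq_abs, abs_of_nonneg (mul_nonneg (norm_nonneg _) (hP0 _)), mul_comm]
      exact mul_le_mul_of_nonneg_right (hPB _) (norm_nonneg _)
  have hle : T / 2 ≤ 3 * T := by linarith
  have h1 : ∫ t in (T / 2)..(3 * T), ‖Wn b h T ((σ : ℂ) + (t : ℂ) * I)‖ ≤
      ∫ t, (∫ y : ℝ, ‖K y‖ * P (t + y / L)) ∂μ := by
    rw [intervalIntegral.integral_of_le hle, hμ]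
    rw [hμ] at hprod
    refine integral_mono ?_ hprod.integral_prod_left hWP
    exact (((win_wn_cont b h T).comp hline).norm.integrableOn_Ioc)
  rw [integral_integral_swap hprod] at h1
  refine h1.trans ?_
  obtain ⟨J, hJ⟩ : ∃ J : ℝ, J = ∫ t in (T / 4)..(4 * T), P t := ⟨_, rfl⟩
  have hJ0 : 0 ≤ J := by
    rw [hJ]
    exact intervalIntegral.integral_nonneg (by linarith) fun t _ => hP0 t
  have h2 : ∀ y : ℝ, ∫ t, ‖K y‖ * P (t + y / L) ∂μ ≤
      J * ‖K y‖ + (3 * T * B * (T / 4) ^ (-(A : ℝ))) * (‖K y‖ * (1 + |y|) ^ A) := by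
    intro y
    have h3 : ∫ t, ‖K y‖ * P (t + y / L) ∂μ = ‖K y‖ * ∫ t in (T / 2)..(3 * T), P (t + y / L) := by
      rw [integral_const_mul, intervalIntegral.integral_of_le hle, hμ]
    rw [h3]
    have h4 : ∫ t in (T / 2)..(3 * T), P (t + y / L) ≤
        J + (3 * T * B * (T / 4) ^ (-(A : ℝ))) * (1 + |y|) ^ A := by
      by_cases h5 : |y| / L ≤ T / 4
      · have h6 : ∫ t in (T / 2)..(3 * T), P (t + y / L) ≤ J := by
          rw [intervalIntegral.integral_comp_add_right (fun t => P t), hJ]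
          have h7 : |y / L| ≤ T / 4 := by
            rw [abs_div, abs_of_pos hL0]
            exact h5
          rw [abs_le] at h7
          exact intervalIntegral.integral_mono_interval (by linarith) (by linarith) (by linarith)
            (Filter.Eventually.of_forall hP0) (hPc.intervalIntegrable _ _)
        have h7 : 0 ≤ (3 * T * B * (T / 4) ^ (-(A : ℝ))) * (1 + |y|) ^ A := by positivity
        linarith
      · push Not at h5
        have h6 : ∫ t in (T / 2)..(3 * T), P (t + y / L) ≤ ∫ t in (T / 2)..(3 * T), B :=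
          intervalIntegral.integral_mono_on hle ((hPc.comp (by fun_prop)).intervalIntegrable _ _)
            (continuous_const.intervalIntegrable _ _) fun t _ => hPB _
        rw [intervalIntegral.integral_const, smul_eq_mul] at h6
        have h7 : T / 4 ≤ 1 + |y| := by
          rw [lt_div_iff₀ hL0] at h5
          have h8 : T / 4 ≤ T / 4 * L := le_mul_of_one_le_right (by linarith) hL1
          linarith
        have h8 : 1 ≤ (T / 4) ^ (-(A : ℝ)) * (1 + |y|) ^ A := by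
          rw [Real.rpow_neg (by positivity), Real.rpow_natCast, ← div_eq_inv_mul,
            one_le_div (by positivity)]
          exact pow_le_pow_left₀ (by positivity) h7 A
        have h9 : (3 * T - T / 2) * B ≤ 3 * T * B := by
          gcongr
          linarith
        calc ∫ t in (T / 2)..(3 * T), P (t + y / L) ≤ (3 * T - T / 2) * B := h6
          _ ≤ 3 * T * B * 1 := by rw [mul_one]; exact h9
          _ ≤ 3 * T * B * ((T / 4) ^ (-(A : ℝ)) * (1 + |y|) ^ A) := by gcongr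
          _ ≤ J + (3 * T * B * (T / 4) ^ (-(A : ℝ))) * (1 + |y|) ^ A := by
              rw [← mul_assoc]
              linarith
    calc ‖K y‖ * ∫ t in (T / 2)..(3 * T), P (t + y / L)
        ≤ ‖K y‖ * (J + (3 * T * B * (T / 4) ^ (-(A : ℝ))) * (1 + |y|) ^ A) := by gcongr
      _ = _ := by ring
  have h3 : ∫ y, (∫ t, ‖K y‖ * P (t + y / L) ∂μ) ≤
      ∫ y, (J * ‖K y‖ + (3 * T * B * (T / 4) ^ (-(A : ℝ))) * (‖K y‖ * (1 + |y|) ^ A)) :=
    integral_mono hprod.integral_prod_right ((hKi.norm.const_mul _).add (hKA.const_mul _)) h2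
  refine h3.trans ?_
  rw [integral_add (hKi.norm.const_mul _) (hKA.const_mul _), integral_const_mul, integral_const_mul, ← hM]
  have h4 : 3 * T * B * (T / 4) ^ (-(A : ℝ)) * M ≤ 1 := by
    have h5 : (T / 4) ^ (-(A : ℝ)) = 4 ^ A * T ^ (-(A : ℝ)) := by
      rw [Real.div_rpow hT0.le (by norm_num), Real.rpow_neg (by norm_num : (0 : ℝ) ≤ 4), Real.rpow_natCast]
      field_simp
    have h6 : T * B * T ^ (-(A : ℝ)) ≤ T ^ (-(1 : ℝ)) := by
      have h7 : T * B * T ^ (-(A : ℝ)) = T ^ (1 + 3 * (b + 3) + -(A : ℝ)) := by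
        rw [hB, Real.rpow_add hT0, Real.rpow_add hT0, Real.rpow_one]
      rw [h7]
      apply Real.rpow_le_rpow_of_exponent_le (by linarith)
      linarith
    have h7 : T ^ (-(1 : ℝ)) = T⁻¹ := Real.rpow_neg_one T
    rw [h7] at h6
    calc 3 * T * B * (T / 4) ^ (-(A : ℝ)) * M = (3 * 4 ^ A * M) * (T * B * T ^ (-(A : ℝ))) := by
          rw [h5]
          ring
      _ ≤ T * T⁻¹ := by gcongr
      _ = 1 := mul_inv_cancel₀ hT0.ne'
  have h5 : J * ∫ y, ‖K y‖ ≤ ((∫ y, ‖K y‖) + 1) * J := by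
    rw [mul_comm]
    gcongr
    linarith
  have h6 : (∫ t in (T / 4)..(4 * T), ‖Rp b h T ((σ : ℂ) + (t : ℂ) * I)‖ *
          ‖D4 b h T ((σ : ℂ) + (t : ℂ) * I)‖) = J := by
    rw [hJ, hP]
  rw [h6]
  linarith

end Pool.Agent.H48.WN
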