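import Pool.Agent.H48.WN.Zap
import Pool.Agent.H2.Gap.ZUp

/-!
# [H48 WN ZAD] the derivative of zeta by smooth sums; a bound for zeta and its derivative

PROOF. (1) `e(z) = ζ(z) - Dp 1 φ T N z` is analytic for `Im z > 0`; on the closed ball of radius `1/16` around `s` all
points satisfy the hypotheses of `zap` (with `v = v1 = 0`), so `|e| ≤ T^(-(A+1))` there and Cauchy's estimate
(`Complex.norm_deriv_le_of_forall_mem_sphere_norm_le`) gives `|e'(s)| ≤ 16 T^(-(A+1)) ≤ T^(-A)`.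
`deriv (Dp 1 φ T N) s = - sum φ(log n/L) log n n^(-s)`.
(2) `zeta_upper` (`Pool/Agent/H2/Gap/ZUp.lean`): `|ζ(s)| ≤ C Im s` for `1/10 ≤ Re s ≤ 4`, `Im s ≥ 2`; Cauchy's estimate
on a ball of radius `1/40` gives the bound for the derivative.
-/

set_option autoImplicit false

namespace Pool.Agent.H48.WN

open Complex MeasureTheory Finset

private theorem hasDerivAt_dp (w : ℝ → ℝ) (T : ℝ) (N : ℕ) (s : ℂ) :
    HasDerivAt (Dp (fun _ => 1) w T N) (-Dp (fun n => ((Real.log n : ℝ) : ℂ)) w T N s) s := by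
  have h : HasDerivAt (fun z : ℂ => ∑ n ∈ Icc 1 N,
      (1 : ℂ) * ((w (Real.log n / Real.log T) : ℝ) : ℂ) * (n : ℂ) ^ (-z))
      (∑ n ∈ Icc 1 N, -(((Real.log n : ℝ) : ℂ) * ((w (Real.log n / Real.log T) : ℝ) : ℂ) *
        (n : ℂ) ^ (-s))) s := by
    apply HasDerivAt.fun_sum
    intro n hn
    have hn1 : 1 ≤ n := (Finset.mem_Icc.1 hn).1
    have hn0 : (n : ℂ) ≠ 0 := by
      exact_mod_cast (by omega : n ≠ 0)
    have h1 : HasDerivAt (fun z : ℂ => (n : ℂ) ^ (-z)) ((n : ℂ) ^ (-s) * Complex.log n * (-1)) s :=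
      (hasDerivAt_neg s).const_cpow (Or.inl hn0)
    have h2 := h1.const_mul ((1 : ℂ) * ((w (Real.log n / Real.log T) : ℝ) : ℂ))
    have e : -(((Real.log n : ℝ) : ℂ) * ((w (Real.log n / Real.log T) : ℝ) : ℂ) * (n : ℂ) ^ (-s)) =
        (1 : ℂ) * ((w (Real.log n / Real.log T) : ℝ) : ℂ) * ((n : ℂ) ^ (-s) * Complex.log n * (-1)) := by
      rw [Complex.natCast_log]
      ring
    rw [e]
    exact h2
  rw [Finset.sum_neg_distrib] at h
  exact h

theorem zad (φ : ℝ → ℝ) (hφ : ContDiff ℝ (⊤ : ℕ∞) φ) (β B : ℝ) (h1 : 1 < β)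
    (hβ : ∀ u ≤ β, φ u = 1) (hB : ∀ u, B ≤ u → φ u = 0) (A : ℕ) :
    ∃ T0 : ℝ, 3 ≤ T0 ∧ ∀ T : ℝ, T0 ≤ T → ∀ N : ℕ, T ^ B ≤ N →
      ∀ s : ℂ, 1 / 8 ≤ s.re → s.re ≤ 3 → T / 32 ≤ s.im → s.im ≤ 32 * T →
        ‖deriv riemannZeta s + Dp (fun n => ((Real.log n : ℝ) : ℂ)) φ T N s‖ ≤ T ^ (-(A : ℝ)) := by
  obtain ⟨T1, hT1, H1⟩ := zap φ hφ β B 0 le_rfl (by linarith) hβ hB (A + 1)
  refine ⟨max T1 16, le_trans hT1 (le_max_left _ _), ?_⟩
  intro T hT N hN s hs1 hs2 hs3 hs4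
  have hTT1 : T1 ≤ T := le_trans (le_max_left _ _) hT
  have hT16 : (16 : ℝ) ≤ T := le_trans (le_max_right _ _) hT
  have hball : ∀ z ∈ Metric.closedBall s (1 / 16), 1 / 16 ≤ z.re ∧ z.re ≤ 4 ∧ T / 64 ≤ z.im ∧ z.im ≤ 64 * T ∧
      z ≠ 1 := by
    intro z hz
    have hz' : ‖z - s‖ ≤ 1 / 16 := by
      rw [← dist_eq_norm]
      exact hz
    have hre : |z.re - s.re| ≤ 1 / 16 := by
      rw [← Complex.sub_re]
      exact (Complex.abs_re_le_norm _).trans hz'
    have him : |z.im - s.im| ≤ 1 / 16 := by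
      rw [← Complex.sub_im]
      exact (Complex.abs_im_le_norm _).trans hz'
    rw [abs_le] at hre him
    refine ⟨by linarith [hre.1], by linarith [hre.2], by linarith [him.1], by linarith [him.2], ?_⟩
    intro h
    have : z.im = 0 := by rw [h, Complex.one_im]
    linarith [him.1]
  have hd : ∀ z : ℂ, z ≠ 1 → HasDerivAt (fun z => riemannZeta z - Dp (fun _ => 1) φ T N z)
      (deriv riemannZeta z + Dp (fun n => ((Real.log n : ℝ) : ℂ)) φ T N z) z := by
    intro z hz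
    have h := (differentiableAt_riemannZeta hz).hasDerivAt.sub (hasDerivAt_dp φ T N z)
    rw [sub_neg_eq_add] at h
    exact h
  have hs1' : s ≠ 1 := (hball s (Metric.mem_closedBall_self (by norm_num))).2.2.2.2
  have hder := (hd s hs1').deriv
  have hC : ∀ z ∈ Metric.sphere s (1 / 16), ‖riemannZeta z - Dp (fun _ => 1) φ T N z‖ ≤
      T ^ (-((A + 1 : ℕ) : ℝ)) := by
    intro z hz
    obtain ⟨a1, a2, a3, a4, _⟩ := hball z (Metric.sphere_subset_closedBall hz)
    have := H1 T hTT1 0 le_rfl le_rfl N hN z a1 a2 a3 a4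
    simpa only [add_zero] using this
  have hDC : DiffContOnCl ℂ (fun z => riemannZeta z - Dp (fun _ => 1) φ T N z) (Metric.ball s (1 / 16)) := by
    apply DifferentiableOn.diffContOnCl
    intro z hz
    have hz' : z ∈ Metric.closedBall s (1 / 16) := Metric.closure_ball_subset_closedBall hz
    exact (hd z (hball z hz').2.2.2.2).differentiableAt.differentiableWithinAt
  have hmain := Complex.norm_deriv_le_of_forall_mem_sphere_norm_le (by norm_num) hDC hC
  rw [hder] at hmain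
  refine hmain.trans ?_
  have e6 : T ^ (-((A + 1 : ℕ) : ℝ)) = T ^ (-(A : ℝ)) * T⁻¹ := by
    rw [← Real.rpow_neg_one, ← Real.rpow_add (by linarith)]
    congr 1
    push_cast
    ring
  rw [e6]
  have e7 : T⁻¹ ≤ 1 / 16 := by
    rw [inv_le_comm₀ (by linarith) (by norm_num)]
    norm_num
    exact hT16
  have e8 : 0 ≤ T ^ (-(A : ℝ)) := Real.rpow_nonneg (by linarith) _
  calc T ^ (-(A : ℝ)) * T⁻¹ / (1 / 16) ≤ T ^ (-(A : ℝ)) * (1 / 16) / (1 / 16) := by
        gcongr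
    _ = T ^ (-(A : ℝ)) := by ring

theorem zeta_bd : ∃ C : ℝ, 1 ≤ C ∧ ∀ s : ℂ, 1 / 8 ≤ s.re → s.re ≤ 3 → 3 ≤ s.im →
    ‖riemannZeta s‖ ≤ C * s.im ∧ ‖deriv riemannZeta s‖ ≤ C * s.im := by
  obtain ⟨C, hC0, hC⟩ := H2.Gap.zeta_upper
  refine ⟨80 * C + 1, by linarith, fun s hs1 hs2 hs3 => ?_⟩
  have hball : ∀ z ∈ Metric.closedBall s (1 / 40), 1 / 10 ≤ z.re ∧ z.re ≤ 4 ∧ 2 ≤ z.im ∧
      z.im ≤ 2 * s.im ∧ z ≠ 1 := by
    intro z hz
    have hz' : ‖z - s‖ ≤ 1 / 40 := by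
      rw [← dist_eq_norm]
      exact hz
    have hre : |z.re - s.re| ≤ 1 / 40 := by
      rw [← Complex.sub_re]
      exact (Complex.abs_re_le_norm _).trans hz'
    have him : |z.im - s.im| ≤ 1 / 40 := by
      rw [← Complex.sub_im]
      exact (Complex.abs_im_le_norm _).trans hz'
    rw [abs_le] at hre him
    refine ⟨by linarith [hre.1], by linarith [hre.2], by linarith [him.1], by linarith [him.2], ?_⟩
    intro h
    have : z.im = 0 := by rw [h, Complex.one_im]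
    linarith [him.1]
  constructor
  · have := hC s (by linarith) (by linarith) (by linarith)
    nlinarith
  · have hDC : DiffContOnCl ℂ riemannZeta (Metric.ball s (1 / 40)) := by
      apply DifferentiableOn.diffContOnCl
      intro z hz
      have hz' : z ∈ Metric.closedBall s (1 / 40) := Metric.closure_ball_subset_closedBall hz
      exact (differentiableAt_riemannZeta (hball z hz').2.2.2.2).differentiableWithinAt
    have hbd : ∀ z ∈ Metric.sphere s (1 / 40), ‖riemannZeta z‖ ≤ C * (2 * s.im) := by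
      intro z hz
      obtain ⟨a1, a2, a3, a4, _⟩ := hball z (Metric.sphere_subset_closedBall hz)
      exact (hC z a1 a2 a3).trans (mul_le_mul_of_nonneg_left a4 hC0.le)
    have := Complex.norm_deriv_le_of_forall_mem_sphere_norm_le (by norm_num) hDC hbd
    refine this.trans ?_
    have : C * (2 * s.im) / (1 / 40) = 80 * C * s.im := by ring
    rw [this]
    nlinarith

end Pool.Agent.H48.WN
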