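import Mathlib

/-!
# [H48 WN POI] Poisson summation with the A-th derivative

PROOF. `g` is smooth with compact support, so a Schwartz function (`HasCompactSupport.toSchwartzMap`), and
`SchwartzMap.tsum_eq_tsum_fourier` at `x = 0` gives `sum_m g(m) = sum_k (F g)(k)` over the integers, both sums
absolutely convergent (Schwartz decay). `(F g)(0) = int g`. For `k ≠ 0`: the Fourier transform of the `A`-th
derivative is `(2 pi i k)^A (F g)(k)` (`Real.fourier_iteratedDeriv` or induction with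
`Real.fourier_deriv`), so `|F g (k)| ≤ (2 pi |k|)^(-A) int |g^(A)| ≤ (2 pi |k|)^(-2) int |g^(A)|` (as
`2 pi |k| ≥ 1`, `A ≥ 2`). Sum over `k ≠ 0`: `2 zeta(2)/(4 pi^2) = 1/12 ≤ 1`
(or crudely `sum_{k ≥ 1} 1/k^2 ≤ 2` and `4/(4 pi^2) ≤ 1`).
-/

set_option autoImplicit false

namespace Pool.Agent.H48.WN

open Complex MeasureTheory Finset

open scoped FourierTransform

private theorem poi_int (g : ℝ → ℂ) (hg : ContDiff ℝ (⊤ : ℕ∞) g) (hc : HasCompactSupport g) (n : ℕ) :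
    Integrable (iteratedDeriv n g) := by
  have h1 : Continuous (iteratedDeriv n g) :=
    hg.continuous_iteratedDeriv n (by exact_mod_cast le_top)
  refine h1.integrable_of_hasCompactSupport ?_
  have h2 : HasCompactSupport (iteratedFDeriv ℝ n g) := hc.iteratedFDeriv n
  have h3 := h2.comp_left (g := fun F : ContinuousMultilinearMap ℝ (fun _ : Fin n => ℝ) ℂ =>
    F fun _ => (1 : ℝ)) rfl
  exact h3

private theorem poi_bd (g : ℝ → ℂ) (hg : ContDiff ℝ (⊤ : ℕ∞) g) (hc : HasCompactSupport g) (A : ℕ)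
    (x : ℝ) : (2 * Real.pi * |x|) ^ A * ‖𝓕 g x‖ ≤ ∫ x, ‖iteratedDeriv A g x‖ := by
  have h1 := Real.fourier_iteratedDeriv (f := g) (N := (A : ℕ∞)) (n := A)
    (hg.of_le (by exact_mod_cast le_top)) (fun n _ => poi_int g hg hc n) le_rfl
  have h2 : ‖𝓕 (iteratedDeriv A g) x‖ ≤ ∫ x, ‖iteratedDeriv A g x‖ := by
    rw [Real.fourier_eq]
    refine (norm_integral_le_integral_norm _).trans (le_of_eq ?_)
    refine integral_congr_ae (Filter.Eventually.of_forall fun v => ?_)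
    exact Circle.norm_smul _ _
  rw [h1] at h2
  have h3 : ‖((2 * Real.pi * I * x : ℂ)) ^ A • 𝓕 g x‖ = (2 * Real.pi * |x|) ^ A * ‖𝓕 g x‖ := by
    rw [norm_smul, norm_pow]
    congr 2
    rw [norm_mul, norm_mul, norm_mul, Complex.norm_I, Complex.norm_real, Complex.norm_real,
      Real.norm_eq_abs, Real.norm_eq_abs, abs_of_pos Real.pi_pos, mul_one]
    norm_num
  rw [← h3]
  exact h2

theorem poi (g : ℝ → ℂ) (hg : ContDiff ℝ (⊤ : ℕ∞) g) (hc : HasCompactSupport g) (A : ℕ) (hA : 2 ≤ A) :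
    ‖(∑' m : ℤ, g m) - ∫ x, g x‖ ≤ ∫ x, ‖iteratedDeriv A g x‖ := by
  have hI : 0 ≤ ∫ x, ‖iteratedDeriv A g x‖ := integral_nonneg fun _ => norm_nonneg _
  have hP := SchwartzMap.tsum_eq_tsum_fourier (hc.toSchwartzMap hg) 0
  have hP2 : (∑' m : ℤ, g m) = ∑' n : ℤ, 𝓕 g (n : ℝ) := by
    have h1 : ∀ n : ℤ, (hc.toSchwartzMap hg) (0 + (n : ℝ)) = g n := by
      intro n
      rw [zero_add]
      rfl
    have h2 : ∀ n : ℤ, 𝓕 (hc.toSchwartzMap hg) (n : ℝ) * fourier n ((0 : ℝ) : UnitAddCircle) =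
        𝓕 g (n : ℝ) := by
      intro n
      have h3 : ((0 : ℝ) : UnitAddCircle) = 0 := rfl
      rw [h3, fourier_eval_zero, mul_one]
      rfl
    rw [tsum_congr h1, tsum_congr h2] at hP
    exact hP
  have hpi := Real.pi_pos
  have hpi3 := Real.pi_gt_three
  have hbd : ∀ n : ℤ, n ≠ 0 → ‖𝓕 g (n : ℝ)‖ ≤
      (∫ x, ‖iteratedDeriv A g x‖) / (4 * Real.pi ^ 2) * (1 / (n : ℝ) ^ 2) := by
    intro n hn
    have h1 := poi_bd g hg hc A (n : ℝ)
    have h2 : (1 : ℝ) ≤ |(n : ℝ)| := by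
      have h3 : (1 : ℤ) ≤ |n| := Int.one_le_abs hn
      exact_mod_cast h3
    have h4 : (1 : ℝ) ≤ 2 * Real.pi * |(n : ℝ)| := by nlinarith
    have h5 : (2 * Real.pi * |(n : ℝ)|) ^ 2 ≤ (2 * Real.pi * |(n : ℝ)|) ^ A :=
      pow_le_pow_right₀ h4 hA
    have h6 : (2 * Real.pi * |(n : ℝ)|) ^ 2 * ‖𝓕 g (n : ℝ)‖ ≤ ∫ x, ‖iteratedDeriv A g x‖ :=
      (mul_le_mul_of_nonneg_right h5 (norm_nonneg _)).trans h1
    have h7 : (0 : ℝ) < (n : ℝ) ^ 2 := by
      rw [← sq_abs]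
      positivity
    have h8 : (2 * Real.pi * |(n : ℝ)|) ^ 2 = 4 * Real.pi ^ 2 * (n : ℝ) ^ 2 := by
      rw [mul_pow, sq_abs]
      ring
    rw [h8] at h6
    rw [div_mul_div_comm, mul_one, le_div_iff₀ (by positivity)]
    calc ‖𝓕 g (n : ℝ)‖ * (4 * Real.pi ^ 2 * (n : ℝ) ^ 2) =
        4 * Real.pi ^ 2 * (n : ℝ) ^ 2 * ‖𝓕 g (n : ℝ)‖ := by ring
      _ ≤ _ := h6
  have hsum : HasSum (fun n : ℤ => (∫ x, ‖iteratedDeriv A g x‖) / (4 * Real.pi ^ 2) *
      (1 / (n : ℝ) ^ 2)) ((∫ x, ‖iteratedDeriv A g x‖) / (4 * Real.pi ^ 2) *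
        (Real.pi ^ 2 / 6 + Real.pi ^ 2 / 6 - 0)) := by
    refine HasSum.mul_left _ ?_
    have h1 : HasSum (fun n : ℕ => 1 / (((n : ℤ) : ℝ)) ^ 2) (Real.pi ^ 2 / 6) := by
      have h2 := hasSum_zeta_two
      simpa using h2
    have h3 : HasSum (fun n : ℕ => 1 / (((-(n : ℤ) : ℤ) : ℝ)) ^ 2) (Real.pi ^ 2 / 6) := by
      have h2 := hasSum_zeta_two
      simpa using h2
    have h4 := HasSum.of_nat_of_neg (f := fun n : ℤ => 1 / ((n : ℝ)) ^ 2) h1 h3
    have h5 : (1 : ℝ) / (((0 : ℤ) : ℝ)) ^ 2 = 0 := by simp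
    rw [h5] at h4
    exact h4
  have hF : Summable fun n : ℤ => 𝓕 g (n : ℝ) := by
    refine Summable.of_norm_bounded_eventually hsum.summable ?_
    have h1 : ({0} : Set ℤ)ᶜ ∈ Filter.cofinite := (Set.finite_singleton 0).compl_mem_cofinite
    filter_upwards [h1] with n hn
    exact hbd n hn
  have h0 : 𝓕 g (((0 : ℤ) : ℝ)) = ∫ x, g x := by
    rw [Real.fourier_eq]
    refine integral_congr_ae (Filter.Eventually.of_forall fun v => ?_)
    simp
  rw [hP2, hF.tsum_eq_add_tsum_ite 0, h0, add_sub_cancel_left]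
  refine (tsum_of_norm_bounded hsum fun n => ?_).trans ?_
  · by_cases hn : n = 0
    · rw [if_pos hn, norm_zero]
      positivity
    · rw [if_neg hn]
      exact hbd n hn
  · have h1 : (∫ x, ‖iteratedDeriv A g x‖) / (4 * Real.pi ^ 2) *
        (Real.pi ^ 2 / 6 + Real.pi ^ 2 / 6 - 0) = (∫ x, ‖iteratedDeriv A g x‖) / 12 := by
      field_simp
      ring
    rw [h1]
    linarith

end Pool.Agent.H48.WN
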