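import Pool.Agent.H48.WN.Defs

/-!
# [H48 WN ITR] from integers to real starting points and lengths

PROOF. `P = ⌊X⌋ - 1`; the three blocks `(P, 2P]`, `(2P, 4P]`, `(4P, 8P]` cover all integers from `⌊X⌋` to `8P ≥ 4X` (`X ≥ 10`), and `X/2 ≤ P`, `4P ≤ 4X`. For
`x ∈ [X, 4X]` let `n = ⌊x⌋`, `m = ⌊x+h⌋ - ⌊x⌋ ∈ {⌊h⌋, ⌊h⌋ + 1}` (both within `1` of `h`). `Ioc ⌊x⌋ ⌊x+h⌋ = Ioc n (n+m)`, and the integrals over `[x, x+h]` and `[n, n+m]` differ
by at most `2` (two intervals of length `≤ 1`, integrand `1/log t ≤ 1` for `t ≥ 3`; `max t 2 = t` there). So `(Pi x h)^2 ≤ 2 (EI n m)^2 + 8 ≤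
2 (EI n m0)^2 + 2 (EI n (m0+1))^2 + 8`, `m0 = ⌊h⌋`. Integrate over `x` (unit intervals `[n, n+1)`): `≤ 2 · 3V + 2 · 3V + 8 · 3X`.
-/

set_option autoImplicit false

namespace Pool.Agent.H48.WN

open Complex MeasureTheory Finset

private theorem itr_unit (g : ℕ → ℝ) (n : ℕ) :
    IntervalIntegrable (fun x : ℝ => g ⌊x⌋₊) volume n ((n + 1 : ℕ) : ℝ) ∧
      ∫ x in (n : ℝ)..((n + 1 : ℕ) : ℝ), g ⌊x⌋₊ = g n := by
  have hle : (n : ℝ) ≤ ((n + 1 : ℕ) : ℝ) := by push_cast; linarith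
  have hcon : ∀ x ∈ Set.Ioo (n : ℝ) ((n + 1 : ℕ) : ℝ), g ⌊x⌋₊ = g n := by
    intro x hx
    have h1 : ⌊x⌋₊ = n := by
      rw [Nat.floor_eq_iff (by linarith [hx.1, (n.cast_nonneg : (0 : ℝ) ≤ n)])]
      have h2 := hx.2
      push_cast at h2
      exact ⟨hx.1.le, h2⟩
    rw [h1]
  constructor
  · rw [intervalIntegrable_iff_integrableOn_Ioo_of_le hle]
    have h1 : IntegrableOn (fun _ : ℝ => g n) (Set.Ioo (n : ℝ) ((n + 1 : ℕ) : ℝ)) volume :=
      integrableOn_const (by simp) (by simp)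
    exact h1.congr_fun (fun x hx => (hcon x hx).symm) measurableSet_Ioo
  · rw [intervalIntegral.integral_of_le hle, integral_Ioc_eq_integral_Ioo,
      setIntegral_congr_fun measurableSet_Ioo hcon]
    simp

private theorem itr_sum (g : ℕ → ℝ) {a b : ℕ} (hab : a ≤ b) :
    IntervalIntegrable (fun x : ℝ => g ⌊x⌋₊) volume a b ∧
      ∫ x in (a : ℝ)..(b : ℝ), g ⌊x⌋₊ = ∑ n ∈ Ico a b, g n := by
  constructor
  · induction b, hab using Nat.le_induction with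
    | base => exact IntervalIntegrable.refl
    | succ b hb ih => exact ih.trans (itr_unit g b).1
  · rw [← intervalIntegral.sum_integral_adjacent_intervals_Ico (a := fun k : ℕ => (k : ℝ)) hab
      fun k _ => (itr_unit g k).1]
    exact sum_congr rfl fun n _ => (itr_unit g n).2

private theorem itr_g : Continuous (fun t : ℝ => 1 / Real.log (max t 2)) := by
  refine continuous_const.div ?_ ?_
  · refine Continuous.log (by fun_prop) fun t => ?_
    have := le_max_right t 2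
    positivity
  · intro t
    have h1 : (2 : ℝ) ≤ max t 2 := le_max_right t 2
    exact (Real.log_pos (by linarith)).ne'

private theorem itr_small {a b : ℝ} (ha : 3 ≤ a) (hab : a ≤ b) (hb : b ≤ a + 1) :
    0 ≤ ∫ t in a..b, 1 / Real.log (max t 2) ∧ ∫ t in a..b, 1 / Real.log (max t 2) ≤ 1 := by
  have h1 : ∀ t ∈ Set.Icc a b, 0 ≤ 1 / Real.log (max t 2) ∧ 1 / Real.log (max t 2) ≤ 1 := by
    intro t ht
    have h2 : (3 : ℝ) ≤ max t 2 := (ha.trans ht.1).trans (le_max_left _ _)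
    have h3 : 1 ≤ Real.log (max t 2) := by
      rw [Real.le_log_iff_exp_le (by linarith)]
      have := Real.exp_one_lt_d9
      linarith
    exact ⟨by positivity, by rw [div_le_one (by linarith)]; exact h3⟩
  constructor
  · exact intervalIntegral.integral_nonneg hab fun t ht => (h1 t ht).1
  · have h2 : ∫ t in a..b, 1 / Real.log (max t 2) ≤ ∫ t in a..b, (1 : ℝ) :=
      intervalIntegral.integral_mono_on hab (itr_g.intervalIntegrable _ _)
        intervalIntegrable_const fun t ht => (h1 t ht).2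
    rw [intervalIntegral.integral_const, smul_eq_mul, mul_one] at h2
    linarith

private theorem itr_pt {x h : ℝ} (hx : 3 ≤ x) (hh : 0 ≤ h) :
    |Pi x h - EI ⌊x⌋₊ (⌊x + h⌋₊ - ⌊x⌋₊)| ≤ 1 := by
  have h3x : (3 : ℝ) ≤ (⌊x⌋₊ : ℝ) := by
    have h1 : 3 ≤ ⌊x⌋₊ := Nat.le_floor (by exact_mod_cast hx)
    exact_mod_cast h1
  have hle : ⌊x⌋₊ ≤ ⌊x + h⌋₊ := Nat.floor_le_floor (by linarith)
  have hadd : ⌊x⌋₊ + (⌊x + h⌋₊ - ⌊x⌋₊) = ⌊x + h⌋₊ := by omega
  have hcast : (⌊x⌋₊ : ℝ) + ((⌊x + h⌋₊ - ⌊x⌋₊ : ℕ) : ℝ) = (⌊x + h⌋₊ : ℝ) := by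
    rw [← Nat.cast_add, hadd]
  have hle' : (⌊x⌋₊ : ℝ) ≤ (⌊x + h⌋₊ : ℝ) := by exact_mod_cast hle
  have e1 : ∫ t in (⌊x⌋₊ : ℝ)..(⌊x + h⌋₊ : ℝ), 1 / Real.log t =
      ∫ t in (⌊x⌋₊ : ℝ)..(⌊x + h⌋₊ : ℝ), 1 / Real.log (max t 2) := by
    refine intervalIntegral.integral_congr fun t ht => ?_
    rw [Set.uIcc_of_le hle'] at ht
    show 1 / Real.log t = 1 / Real.log (max t 2)
    rw [max_eq_left (by linarith [ht.1])]
  have i : ∀ a b : ℝ, IntervalIntegrable (fun t : ℝ => 1 / Real.log (max t 2)) volume a b :=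
    fun a b => itr_g.intervalIntegrable a b
  have f1 := Nat.floor_le (by linarith : 0 ≤ x)
  have f2 := Nat.lt_floor_add_one x
  have f3 := Nat.floor_le (by linarith : 0 ≤ x + h)
  have f4 := Nat.lt_floor_add_one (x + h)
  have b1 := itr_small h3x f1 f2.le
  have b2 := itr_small (h3x.trans hle') f3 f4.le
  have e2 : ∫ t in x..(x + h), 1 / Real.log (max t 2) =
      (∫ t in (⌊x⌋₊ : ℝ)..(⌊x + h⌋₊ : ℝ), 1 / Real.log (max t 2)) +
      (∫ t in (⌊x + h⌋₊ : ℝ)..(x + h), 1 / Real.log (max t 2)) -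
      ∫ t in (⌊x⌋₊ : ℝ)..x, 1 / Real.log (max t 2) := by
    rw [intervalIntegral.integral_add_adjacent_intervals (i _ _) (i _ _),
      intervalIntegral.integral_interval_sub_left (i _ _) (i _ _)]
  unfold Pi EI
  rw [hadd, hcast, e1, e2, abs_le]
  constructor <;> linarith [b1.1, b1.2, b2.1, b2.2]

private theorem itr_m {x h : ℝ} (hx : 0 ≤ x) (hh : 0 ≤ h) :
    ⌊x + h⌋₊ - ⌊x⌋₊ = ⌊h⌋₊ ∨ ⌊x + h⌋₊ - ⌊x⌋₊ = ⌊h⌋₊ + 1 := by
  have f1 := Nat.floor_le hx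
  have f2 := Nat.lt_floor_add_one x
  have f3 := Nat.floor_le hh
  have f4 := Nat.lt_floor_add_one h
  have h1 : ⌊x⌋₊ + ⌊h⌋₊ ≤ ⌊x + h⌋₊ := Nat.le_floor (by push_cast; linarith)
  have h2 : ⌊x + h⌋₊ < ⌊x⌋₊ + ⌊h⌋₊ + 2 := by
    rw [Nat.floor_lt (by linarith)]
    push_cast
    linarith
  omega

theorem itr (X h V : ℝ) (hX : 10 ≤ X) (hh : 0 ≤ h)
    (hV : ∀ X' m : ℕ, X / 2 ≤ X' → (X' : ℝ) ≤ 4 * X → h - 1 ≤ m → (m : ℝ) ≤ h + 1 →
      ∑ n ∈ Ioc X' (2 * X'), (EI n m) ^ 2 ≤ V) :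
    ∫ x in X..(4 * X), (Pi x h) ^ 2 ≤ 12 * V + 24 * X := by
  obtain ⟨P, hP⟩ : ∃ P, P + 1 = ⌊X⌋₊ := by
    have h1 : 1 ≤ ⌊X⌋₊ := Nat.le_floor (by push_cast; linarith)
    exact ⟨⌊X⌋₊ - 1, by omega⟩
  have f1 := Nat.floor_le (by linarith : 0 ≤ X)
  have f2 := Nat.lt_floor_add_one X
  rw [← hP] at f1 f2
  push_cast at f1 f2
  have g1 := Nat.floor_le hh
  have g2 := Nat.lt_floor_add_one h
  set m0 : ℕ := ⌊h⌋₊ with hm0
  set g : ℕ → ℝ := fun n => 2 * (EI n m0) ^ 2 + 2 * (EI n (m0 + 1)) ^ 2 with hg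
  have hg0 : ∀ n, 0 ≤ g n := fun n => by
    show 0 ≤ 2 * (EI n m0) ^ 2 + 2 * (EI n (m0 + 1)) ^ 2
    positivity
  have hab : P + 1 ≤ 8 * P + 1 := by omega
  obtain ⟨s1, s2⟩ := itr_sum g hab
  have hc1 : ((P + 1 : ℕ) : ℝ) ≤ X := by push_cast; linarith
  have hc2 : 4 * X ≤ ((8 * P + 1 : ℕ) : ℝ) := by push_cast; linarith
  have s3 : IntervalIntegrable (fun x : ℝ => g ⌊x⌋₊) volume X (4 * X) := by
    refine s1.mono_set ?_
    rw [Set.uIcc_of_le (by linarith : X ≤ 4 * X), Set.uIcc_of_le (by linarith)]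
    exact Set.Icc_subset_Icc hc1 hc2
  -- the sum
  have hsum : ∑ n ∈ Ico (P + 1) (8 * P + 1), g n ≤ 12 * V := by
    have hb : ∀ m : ℕ, h - 1 ≤ m → (m : ℝ) ≤ h + 1 →
        ∑ n ∈ Ioc P (8 * P), (EI n m) ^ 2 ≤ 3 * V := by
      intro m h1 h2
      have v1 := hV P m (by linarith) (by linarith) h1 h2
      have v2 := hV (2 * P) m (by push_cast; linarith) (by push_cast; linarith) h1 h2
      have v3 := hV (4 * P) m (by push_cast; linarith) (by push_cast; linarith) h1 h2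
      have w1 := sum_Ioc_consecutive (fun n => (EI n m) ^ 2) (by omega : P ≤ 2 * P)
        (by omega : 2 * P ≤ 2 * (2 * P))
      have w2 := sum_Ioc_consecutive (fun n => (EI n m) ^ 2) (by omega : P ≤ 2 * (2 * P))
        (by omega : 2 * (2 * P) ≤ 8 * P)
      have w3 : 2 * (4 * P) = 8 * P := by ring
      have w4 : 4 * P = 2 * (2 * P) := by ring
      rw [w3, w4] at v3
      linarith
    have h1 : Ico (P + 1) (8 * P + 1) = Ioc P (8 * P) := by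
      ext n
      rw [mem_Ico, mem_Ioc]
      omega
    rw [h1]
    have h2 : ∑ n ∈ Ioc P (8 * P), g n = 2 * ∑ n ∈ Ioc P (8 * P), (EI n m0) ^ 2 +
        2 * ∑ n ∈ Ioc P (8 * P), (EI n (m0 + 1)) ^ 2 := by
      rw [mul_sum, mul_sum, ← sum_add_distrib]
    have h3 := hb m0 (by linarith) (by linarith)
    have h4 := hb (m0 + 1) (by push_cast; linarith) (by push_cast; linarith)
    rw [h2]
    linarith
  have hint : ∫ x in X..(4 * X), g ⌊x⌋₊ ≤ 12 * V := by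
    refine le_trans ?_ hsum
    rw [← s2]
    exact intervalIntegral.integral_mono_interval hc1 (by linarith) hc2
      (Filter.Eventually.of_forall fun x => hg0 _) s1
  have hV0 : 0 ≤ V := by
    have h1 : 0 ≤ ∑ n ∈ Ico (P + 1) (8 * P + 1), g n := sum_nonneg fun n _ => hg0 n
    linarith
  by_cases hi : IntervalIntegrable (fun x => (Pi x h) ^ 2) volume X (4 * X)
  swap
  · rw [intervalIntegral.integral_undef hi]
    linarith
  have e1 : ∫ x in X..(4 * X), (Pi x h) ^ 2 ≤ ∫ x in X..(4 * X), (g ⌊x⌋₊ + 8) := by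
    refine intervalIntegral.integral_mono_on (by linarith) hi
      (s3.add intervalIntegrable_const) fun x hx => ?_
    have hx3 : 3 ≤ x := by linarith [hx.1]
    have p1 := itr_pt hx3 hh
    have p2 := itr_m (by linarith : 0 ≤ x) hh
    show (Pi x h) ^ 2 ≤ 2 * (EI ⌊x⌋₊ m0) ^ 2 + 2 * (EI ⌊x⌋₊ (m0 + 1)) ^ 2 + 8
    rw [abs_le] at p1
    have key : ∀ a b : ℝ, -1 ≤ a - b → a - b ≤ 1 → a ^ 2 ≤ 2 * b ^ 2 + 8 := by
      intro a b h1 h2
      nlinarith [sq_nonneg (a - 2 * b), sq_nonneg (a - b)]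
    rcases p2 with p2 | p2
    · rw [p2] at p1
      have := key _ _ p1.1 p1.2
      have h5 := sq_nonneg (EI ⌊x⌋₊ (m0 + 1))
      linarith
    · rw [p2] at p1
      have := key _ _ p1.1 p1.2
      have h5 := sq_nonneg (EI ⌊x⌋₊ m0)
      linarith
  rw [intervalIntegral.integral_add s3 intervalIntegrable_const, intervalIntegral.integral_const,
    smul_eq_mul] at e1
  linarith

end Pool.Agent.H48.WN
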