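import Pool.Agent.H48.WN.Coc

/-!
# [H48 WN PPW] prime powers

PROOF. `D(x) = Ps x h - Th x h = sum of Lam(n) over the proper prime powers n ∈ (x, x+h] ≥ 0`, `x ≤ 3X`, `h ≤ H ≤ X`, so `n ≤ 4X`. Pointwise: `Lam(n) ≤ log(4X)`; a
proper prime power is `m^k` with `2 ≤ k ≤ log(4X)/log 2`, and for each `k` the number of `m` with `x < m^k ≤ x+h` is at most
`h/sqrt(X) + 1`. So `D(x) ≤ 6 log^2 X (H/sqrt X + 1)`. Mean: `int_X^{3X} D(x) dx ≤ h · (sum of Lam(n) over proper prime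
powers n ≤ 4X) ≤ 8 H sqrt(X) log X` (Mathlib's bound for `psi - theta`). Product:
`int D^2 ≤ sup D · int D ≤ 48 log^3 X (H^2 + H sqrt X)`.
-/

set_option autoImplicit false

namespace Pool.Agent.H48.WN

open Complex MeasureTheory Finset

private theorem ppw_D (x h : ℝ) : Ps x h - Th x h =
    ∑ n ∈ (Ioc ⌊x⌋₊ ⌊x + h⌋₊).filter (fun n => ¬ n.Prime), ArithmeticFunction.vonMangoldt n := by
  unfold Ps Th
  have h1 := sum_filter_add_sum_filter_not (Ioc ⌊x⌋₊ ⌊x + h⌋₊) (fun n => n.Prime)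
    (fun n => ArithmeticFunction.vonMangoldt n)
  have h2 : ∑ n ∈ (Ioc ⌊x⌋₊ ⌊x + h⌋₊).filter (fun n => n.Prime), ArithmeticFunction.vonMangoldt n =
      ∑ p ∈ (Ioc ⌊x⌋₊ ⌊x + h⌋₊).filter Nat.Prime, Real.log p := by
    refine sum_congr rfl fun p hp => ?_
    rw [mem_filter] at hp
    exact ArithmeticFunction.vonMangoldt_apply_prime hp.2
  rw [← h1, h2]
  ring

private theorem ppw_diam (S : Finset ℕ) (δ : ℝ) (hδ : 0 ≤ δ)
    (h : ∀ m ∈ S, ∀ m' ∈ S, m < m' → (m' : ℝ) - m ≤ δ) : (S.card : ℝ) ≤ δ + 1 := by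
  rcases S.eq_empty_or_nonempty with rfl | hS
  · simp; linarith
  · set a := S.min' hS
    set b := S.max' hS
    have hab : a ≤ b := S.min'_le_max' hS
    have h1 : (b : ℝ) - a ≤ δ := by
      rcases hab.eq_or_lt with h2 | h2
      · rw [h2]; simpa using hδ
      · exact h a (S.min'_mem hS) b (S.max'_mem hS) h2
    have h2 : S ⊆ Icc a b := fun m hm => mem_Icc.2 ⟨S.min'_le m hm, S.le_max' m hm⟩
    have h3 := card_le_card h2
    rw [Nat.card_Icc] at h3
    have h4 : (S.card : ℝ) ≤ ((b + 1 - a : ℕ) : ℝ) := by exact_mod_cast h3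
    rw [Nat.cast_sub (by omega)] at h4
    push_cast at h4
    linarith

private theorem ppw_M (X x h : ℝ) (hX : 10 ≤ X) (hx : X ≤ x) (hh : 0 ≤ h) (k B : ℕ) (hk : 2 ≤ k) :
    ((((range B).filter (fun m : ℕ => x < (m : ℝ) ^ k ∧ (m : ℝ) ^ k ≤ x + h)).card : ℕ) : ℝ) ≤
      h / Real.sqrt X + 1 := by
  have hX0 : 0 < X := by linarith
  have hs : 0 < Real.sqrt X := Real.sqrt_pos.2 hX0
  refine ppw_diam _ _ (by positivity) fun m hm m' hm' hlt => ?_
  rw [mem_filter] at hm hm'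
  rw [le_div_iff₀ hs]
  have hltR : (m : ℝ) < m' := by exact_mod_cast hlt
  have hm1 : 1 ≤ m := by
    rcases Nat.eq_zero_or_pos m with h0 | h0
    · exfalso
      have h1 := hm.2.1
      rw [h0, Nat.cast_zero, zero_pow (by omega)] at h1
      linarith
    · exact h0
  have hm1R : (1 : ℝ) ≤ m := by exact_mod_cast hm1
  have h1 : Real.sqrt X ≤ (m : ℝ) ^ (k - 1) := by
    rw [Real.sqrt_le_left (by positivity), ← pow_mul]
    calc X ≤ (m : ℝ) ^ k := by linarith [hm.2.1]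
      _ ≤ (m : ℝ) ^ ((k - 1) * 2) := pow_le_pow_right₀ hm1R (by omega)
  have h2 : (m : ℝ) ^ (k - 1) * m = (m : ℝ) ^ k := by
    rw [← pow_succ]
    congr 1
    omega
  have h3 : (m : ℝ) ^ (k - 1) * m' ≤ (m' : ℝ) ^ k := by
    have h4 : (m' : ℝ) ^ (k - 1) * m' = (m' : ℝ) ^ k := by
      rw [← pow_succ]
      congr 1
      omega
    rw [← h4]
    exact mul_le_mul_of_nonneg_right (pow_le_pow_left₀ (by positivity) hltR.le _) (by positivity)
  have h5 : ((m' : ℝ) - m) * Real.sqrt X ≤ ((m' : ℝ) - m) * (m : ℝ) ^ (k - 1) :=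
    mul_le_mul_of_nonneg_left h1 (by linarith)
  nlinarith [hm.2.1, hm'.2.2]

private theorem ppw_log4 {X : ℝ} (hX : 10 ≤ X) : Real.log (4 * X) ≤ 2 * Real.log X := by
  rw [Real.log_mul (by norm_num) (by linarith)]
  have : Real.log 4 ≤ Real.log X := Real.log_le_log (by norm_num) (by linarith)
  linarith

private theorem ppw_one {X : ℝ} (hX : 10 ≤ X) : 1 ≤ Real.log X := by
  rw [Real.le_log_iff_exp_le (by linarith)]
  have := Real.exp_one_lt_d9
  linarith

private theorem ppw_sup (X x h : ℝ) (hX : 10 ≤ X) (hx : X ≤ x) (hx2 : x ≤ 3 * X) (hh : 0 ≤ h)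
    (hh2 : h ≤ X) : Ps x h - Th x h ≤ 6 * Real.log X ^ 2 * (h / Real.sqrt X + 1) := by
  have hX0 : 0 < X := by linarith
  have hs : 0 < Real.sqrt X := Real.sqrt_pos.2 hX0
  have hL := ppw_one hX
  have hL4 := ppw_log4 hX
  rw [ppw_D]
  set N := ⌊4 * X⌋₊ with hN
  set K := Nat.log 2 N with hK
  set P := (Ioc ⌊x⌋₊ ⌊x + h⌋₊).filter (fun n => ¬ n.Prime ∧ ArithmeticFunction.vonMangoldt n ≠ 0) with hP
  have hsum : ∑ n ∈ (Ioc ⌊x⌋₊ ⌊x + h⌋₊).filter (fun n => ¬ n.Prime), ArithmeticFunction.vonMangoldt n =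
      ∑ n ∈ P, ArithmeticFunction.vonMangoldt n := by
    symm
    refine sum_subset ?_ ?_
    · intro n hn
      rw [hP, mem_filter] at hn
      exact mem_filter.2 ⟨hn.1, hn.2.1⟩
    · intro n hn hn2
      rw [mem_filter] at hn
      by_contra h0
      exact hn2 (by rw [hP]; exact mem_filter.2 ⟨hn.1, hn.2, h0⟩)
  rw [hsum]
  have hx0 : 0 ≤ x := by linarith
  have hmem : ∀ n ∈ P, x < (n : ℝ) ∧ (n : ℝ) ≤ x + h ∧ (n : ℝ) ≤ 4 * X := by
    intro n hn
    rw [hP, mem_filter, mem_Ioc] at hn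
    have h1 : x < (n : ℝ) := (Nat.floor_lt hx0).1 hn.1.1
    have h2 : (n : ℝ) ≤ x + h := (Nat.le_floor_iff (by linarith)).1 hn.1.2
    exact ⟨h1, h2, by linarith⟩
  have hle : ∀ n ∈ P, ArithmeticFunction.vonMangoldt n ≤ Real.log (4 * X) := by
    intro n hn
    obtain ⟨h1, h2, h3⟩ := hmem n hn
    refine ArithmeticFunction.vonMangoldt_le_log.trans ?_
    exact Real.log_le_log (by linarith) h3
  have hsub : P ⊆ (Icc 2 K).biUnion fun k =>
      ((range (N + 1)).filter (fun m : ℕ => x < (m : ℝ) ^ k ∧ (m : ℝ) ^ k ≤ x + h)).image (fun m => m ^ k) := by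
    intro n hn
    obtain ⟨h1, h2, h3⟩ := hmem n hn
    have hn' := hn
    rw [hP, mem_filter, mem_Ioc] at hn'
    have hpp := ArithmeticFunction.vonMangoldt_ne_zero_iff.1 hn'.2.2
    obtain ⟨p, k, hp, hk, rfl⟩ := (isPrimePow_nat_iff _).1 hpp
    have hk2 : 2 ≤ k := by
      by_contra hlt
      have : k = 1 := by omega
      rw [this, pow_one] at hn'
      exact hn'.2.1 hp
    rw [mem_biUnion]
    have hnN : p ^ k ≤ N := by
      rw [hN]
      exact Nat.le_floor h3
    refine ⟨k, mem_Icc.2 ⟨hk2, ?_⟩, mem_image.2 ⟨p, mem_filter.2 ⟨mem_range.2 ?_, ?_⟩, rfl⟩⟩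
    · rw [hK]
      refine Nat.le_log_of_pow_le (by norm_num) (le_trans ?_ hnN)
      exact Nat.pow_le_pow_left hp.two_le k
    · have : p ≤ p ^ k := Nat.le_self_pow (by omega) p
      omega
    · push_cast at h1 h2
      exact ⟨h1, h2⟩
  have hcard : (P.card : ℝ) ≤ K * (h / Real.sqrt X + 1) := by
    have h1 := card_le_card hsub
    have h2 := h1.trans card_biUnion_le
    have h3 : (P.card : ℝ) ≤ ∑ k ∈ Icc 2 K, (h / Real.sqrt X + 1) := by
      calc (P.card : ℝ) ≤ ((∑ k ∈ Icc 2 K, (((range (N + 1)).filter (fun m : ℕ => x < (m : ℝ) ^ k ∧ (m : ℝ) ^ k ≤ x + h)).image (fun m => m ^ k)).card : ℕ) : ℝ) := by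
            exact_mod_cast h2
        _ = ∑ k ∈ Icc 2 K, ((((range (N + 1)).filter (fun m : ℕ => x < (m : ℝ) ^ k ∧ (m : ℝ) ^ k ≤ x + h)).image (fun m => m ^ k)).card : ℝ) := by
            push_cast
            rfl
        _ ≤ _ := by
            refine sum_le_sum fun k hk => ?_
            rw [mem_Icc] at hk
            refine le_trans ?_ (ppw_M X x h hX hx hh k (N + 1) hk.1)
            exact_mod_cast card_image_le
    refine h3.trans ?_
    rw [sum_const, nsmul_eq_mul]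
    refine mul_le_mul_of_nonneg_right ?_ (by positivity)
    rw [Nat.card_Icc]
    exact_mod_cast (by omega : K + 1 - 2 ≤ K)
  have hKL : (K : ℝ) ≤ 3 * Real.log X := by
    have hN0 : N ≠ 0 := by
      have : 1 ≤ N := by
        rw [hN]
        exact Nat.le_floor (by norm_num; linarith)
      omega
    have h1 : 2 ^ K ≤ N := Nat.pow_log_le_self 2 hN0
    have h2 : ((2 : ℝ)) ^ K ≤ 4 * X := by
      calc ((2 : ℝ)) ^ K = ((2 ^ K : ℕ) : ℝ) := by push_cast; rfl
        _ ≤ (N : ℝ) := by exact_mod_cast h1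
        _ ≤ 4 * X := Nat.floor_le (by linarith)
    have h3 := Real.log_le_log (by positivity) h2
    rw [Real.log_pow] at h3
    have h4 := Real.log_two_gt_d9
    have h5 : (K : ℝ) * 0.69 ≤ K * Real.log 2 := mul_le_mul_of_nonneg_left (by linarith) (by positivity)
    nlinarith
  calc ∑ n ∈ P, ArithmeticFunction.vonMangoldt n ≤ ∑ n ∈ P, Real.log (4 * X) := sum_le_sum hle
    _ = P.card * Real.log (4 * X) := by rw [sum_const, nsmul_eq_mul]
    _ ≤ (K * (h / Real.sqrt X + 1)) * (2 * Real.log X) := by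
        refine mul_le_mul hcard hL4 (Real.log_nonneg (by linarith)) (by positivity)
    _ ≤ ((3 * Real.log X) * (h / Real.sqrt X + 1)) * (2 * Real.log X) := by
        gcongr
    _ = _ := by ring

private noncomputable def ppw_G (N : ℕ) (h x : ℝ) : ℝ :=
  ∑ n ∈ (Ioc 0 N).filter (fun n => ¬ n.Prime),
    (Set.Ico ((n : ℝ) - h) n).indicator (fun _ => ArithmeticFunction.vonMangoldt n) x

private theorem ppw_G_int (N : ℕ) (h : ℝ) : Integrable (ppw_G N h) := by
  unfold ppw_G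
  refine integrable_finsetSum _ fun n _ => ?_
  exact (integrableOn_const (by simp)).integrable_indicator measurableSet_Ico

private theorem ppw_G_val (N : ℕ) (h : ℝ) (hh : 0 ≤ h) : ∫ x, ppw_G N h x =
    h * ∑ n ∈ (Ioc 0 N).filter (fun n => ¬ n.Prime), ArithmeticFunction.vonMangoldt n := by
  unfold ppw_G
  rw [integral_finsetSum]
  · rw [mul_sum]
    refine sum_congr rfl fun n _ => ?_
    rw [integral_indicator measurableSet_Ico, setIntegral_const, smul_eq_mul]
    congr 1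
    rw [Measure.real, Real.volume_Ico, ENNReal.toReal_ofReal (by linarith)]
    ring
  · intro n _
    exact (integrableOn_const (by simp)).integrable_indicator measurableSet_Ico

private theorem ppw_G_eq (X x h : ℝ) (hX : 10 ≤ X) (hx : X ≤ x) (hx2 : x ≤ 3 * X) (hh : 0 ≤ h)
    (hh2 : h ≤ X) : Ps x h - Th x h = ppw_G ⌊4 * X⌋₊ h x := by
  rw [ppw_D]
  unfold ppw_G
  simp only [Set.indicator_apply]
  rw [← sum_filter, filter_filter]
  refine sum_congr ?_ fun _ _ => rfl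
  ext n
  rw [mem_filter, mem_filter, mem_Ioc, mem_Ioc, Set.mem_Ico, Nat.floor_lt (by linarith),
    Nat.le_floor_iff (by linarith), Nat.le_floor_iff (by linarith)]
  constructor
  · rintro ⟨⟨h1, h2⟩, h3⟩
    refine ⟨⟨?_, by linarith⟩, h3, by linarith, h1⟩
    have : (0 : ℝ) < n := by linarith
    exact_mod_cast this
  · rintro ⟨⟨h1, h2⟩, h3, h4, h5⟩
    exact ⟨⟨h5, by linarith⟩, h3⟩

private theorem ppw_tot {X : ℝ} (hX : 10 ≤ X) :
    ∑ n ∈ (Ioc 0 ⌊4 * X⌋₊).filter (fun n => ¬ n.Prime), ArithmeticFunction.vonMangoldt n ≤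
      8 * Real.log X * Real.sqrt X := by
  have h1 := Chebyshev.psi_sub_theta_eq_sum_not_prime (4 * X)
  have h2 := Chebyshev.psi_sub_theta_le (x := 4 * X) (by linarith)
  rw [← h1]
  refine h2.trans ?_
  have h3 : Real.sqrt (4 * X) = 2 * Real.sqrt X := by
    rw [Real.sqrt_mul (by norm_num), show (4 : ℝ) = 2 ^ 2 by norm_num, Real.sqrt_sq (by norm_num)]
  rw [h3]
  have h4 := ppw_log4 hX
  have hs : 0 ≤ Real.sqrt X := Real.sqrt_nonneg _
  nlinarith

theorem ppw : ∃ C : ℝ, 0 < C ∧ ∀ X H : ℝ, 10 ≤ X → 0 ≤ H → H ≤ X → ∀ h : ℝ, 0 ≤ h → h ≤ H →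
    ∫ x in X..(3 * X), (Ps x h - Th x h) ^ 2 ≤ C * (Real.log X) ^ 4 * (H ^ 2 + H * Real.sqrt X) := by
  refine ⟨48, by norm_num, fun X H hX hH hHX h hh hhH => ?_⟩
  have hX0 : 0 < X := by linarith
  have hs : 0 < Real.sqrt X := Real.sqrt_pos.2 hX0
  have hL := ppw_one hX
  set S := 6 * Real.log X ^ 2 * (H / Real.sqrt X + 1) with hS
  have hS0 : 0 ≤ S := by positivity
  have hsup : ∀ x ∈ Set.Ioc X (3 * X), (Ps x h - Th x h) ≤ S := by
    intro x hx
    refine (ppw_sup X x h hX hx.1.le hx.2 hh (by linarith)).trans ?_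
    rw [hS]
    gcongr
  have hnn : ∀ x, 0 ≤ Ps x h - Th x h := by
    intro x
    rw [ppw_D]
    exact sum_nonneg fun n _ => ArithmeticFunction.vonMangoldt_nonneg
  rw [intervalIntegral.integral_of_le (by linarith)]
  calc ∫ x in Set.Ioc X (3 * X), (Ps x h - Th x h) ^ 2
      ≤ ∫ x in Set.Ioc X (3 * X), S * ppw_G ⌊4 * X⌋₊ h x := by
        refine integral_mono_of_nonneg (Filter.Eventually.of_forall fun x => by positivity)
          (((ppw_G_int _ _).const_mul S).integrableOn) ?_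
        rw [Filter.EventuallyLE, ae_restrict_iff' measurableSet_Ioc]
        refine Filter.Eventually.of_forall fun x hx => ?_
        rw [← ppw_G_eq X x h hX hx.1.le hx.2 hh (by linarith), sq]
        exact mul_le_mul_of_nonneg_right (hsup x hx) (hnn x)
    _ = S * ∫ x in Set.Ioc X (3 * X), ppw_G ⌊4 * X⌋₊ h x := by rw [integral_const_mul]
    _ ≤ S * ∫ x, ppw_G ⌊4 * X⌋₊ h x := by
        refine mul_le_mul_of_nonneg_left ?_ hS0
        refine setIntegral_le_integral (ppw_G_int _ _) (Filter.Eventually.of_forall fun x => ?_)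
        unfold ppw_G
        exact sum_nonneg fun n _ => Set.indicator_nonneg (fun _ _ => ArithmeticFunction.vonMangoldt_nonneg) _
    _ ≤ S * (H * (8 * Real.log X * Real.sqrt X)) := by
        refine mul_le_mul_of_nonneg_left ?_ hS0
        rw [ppw_G_val _ _ hh]
        exact mul_le_mul hhH (ppw_tot hX) (sum_nonneg fun n _ => ArithmeticFunction.vonMangoldt_nonneg) hH
    _ = 48 * Real.log X ^ 3 * (H ^ 2 + H * Real.sqrt X) := by
        rw [hS]
        field_simp
        ring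
    _ ≤ 48 * Real.log X ^ 4 * (H ^ 2 + H * Real.sqrt X) := by
        have : Real.log X ^ 3 ≤ Real.log X ^ 4 := pow_le_pow_right₀ hL (by norm_num)
        gcongr

end Pool.Agent.H48.WN
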