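import Pool.Agent.H48.WN.Zap
import Pool.Agent.H43.SI.Mvt

/-!
# [H48 WN DSQ] mean square of the cofactor

PROOF. `D4(s) = sum_{m ≤ N} st (1+3h) h (log m/L) m^(-s)`; the weight vanishes for `m ≥ T^(1+4h)`, so by `dp_trunc` (file `Zap`) the sum can be
taken to `N' = ⌈T^(1+4h)⌉` (`N = NN b T ≥ T^(b+3) - 1 ≥ T^(1+4h)`). `Pool.Agent.H43.SI.mvt` with `T' = 4T`, coefficients `w m^(-σ)`:
`int_{-4T}^{4T} ≤ C (4T + N') sum_{m ≤ N'} m^(-2σ) ≤ C · 6 T^(1+4h) · sum_{m ≤ N'} m^(-1+2d)`, and `sum_{m ≤ N'} m^(-1+2d) ≤ N'^(2d) sum 1/m ≤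
N'^(2d) (1 + log N')`, `N'^(2d) ≤ (2 T^(1+4h))^(2d) ≤ 2 T^(2d + 8dh)`, `8dh ≤ d`. So the total is `≤ C' (log T + 1) T^(1+4h+3d) ≤ T^(1+5h+4d)`
for `T ≥ T0(b,h,d)`.
-/

set_option autoImplicit false

namespace Pool.Agent.H48.WN

open Complex MeasureTheory Finset

private theorem harm (N : ℕ) : ∑ n ∈ Icc 1 N, (1 : ℝ) / n ≤ 1 + Real.log N := by
  have h1 := harmonic_le_one_add_log N
  have h2 : ((harmonic N : ℚ) : ℝ) = ∑ n ∈ Icc 1 N, (1 : ℝ) / n := by
    rw [harmonic_eq_sum_Icc]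
    push_cast
    refine Finset.sum_congr rfl fun n _ => ?_
    rw [one_div]
  rw [← h2]
  exact h1

/-- a power beats a logarithm -/
private theorem big_T (K δ : ℝ) (hδ : 0 < δ) : ∃ T0 : ℝ, 10 ≤ T0 ∧ ∀ T : ℝ, T0 ≤ T →
    K * (1 + Real.log T) ≤ T ^ δ := by
  obtain ⟨K', hK'⟩ : ∃ K' : ℝ, K' = (|K| + 1) * (1 + 2 / δ) := ⟨_, rfl⟩
  have hK0 : 0 < K' := by rw [hK']; positivity
  refine ⟨max 10 (K' ^ (2 / δ)), le_max_left _ _, fun T hT => ?_⟩
  have h10 : 10 ≤ T := (le_max_left _ _).trans hT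
  have hTK : K' ^ (2 / δ) ≤ T := (le_max_right _ _).trans hT
  have hT0 : 0 < T := by linarith
  have hT1 : 1 ≤ T := by linarith
  have h1 : Real.log T ≤ T ^ (δ / 2) / (δ / 2) := Real.log_le_rpow_div hT0.le (by positivity)
  have h2 : 1 ≤ T ^ (δ / 2) := Real.one_le_rpow hT1 (by positivity)
  have h3 : K' ≤ T ^ (δ / 2) := by
    calc K' = (K' ^ (2 / δ)) ^ (δ / 2) := by
          rw [← Real.rpow_mul hK0.le]
          have : 2 / δ * (δ / 2) = 1 := by field_simp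
          rw [this, Real.rpow_one]
      _ ≤ T ^ (δ / 2) := Real.rpow_le_rpow (by positivity) hTK (by positivity)
  have h4 : T ^ δ = T ^ (δ / 2) * T ^ (δ / 2) := by
    rw [← Real.rpow_add hT0]; congr 1; ring
  have h5 : 0 ≤ Real.log T := Real.log_nonneg hT1
  calc K * (1 + Real.log T) ≤ (|K| + 1) * (1 + Real.log T) :=
        mul_le_mul_of_nonneg_right (by linarith [le_abs_self K]) (by linarith)
    _ ≤ (|K| + 1) * (T ^ (δ / 2) + T ^ (δ / 2) / (δ / 2)) := by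
        refine mul_le_mul_of_nonneg_left (by linarith) (by positivity)
    _ = K' * T ^ (δ / 2) := by rw [hK']; field_simp
    _ ≤ T ^ (δ / 2) * T ^ (δ / 2) := mul_le_mul_of_nonneg_right h3 (by positivity)
    _ = _ := h4.symm

theorem dsq (b h d : ℝ) (hb : 1 ≤ b) (hh : 0 < h) (hh1 : h ≤ 1 / 100) (hd : 0 < d) (hd1 : d ≤ 1 / 8) :
    ∃ T0 : ℝ, 10 ≤ T0 ∧ ∀ T : ℝ, T0 ≤ T → ∀ σ : ℝ, 1 / 2 - d ≤ σ → σ ≤ 3 / 4 →
      ∫ t in (T / 4)..(4 * T), ‖D4 b h T ((σ : ℂ) + (t : ℂ) * I)‖ ^ 2 ≤ T ^ (1 + 5 * h + 4 * d) := by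
  obtain ⟨C, hC, hmvt⟩ := Pool.Agent.H43.SI.mvt
  obtain ⟨T0, hT0, hbig⟩ := big_T (24 * C) (h + d) (by positivity)
  refine ⟨T0, hT0, fun T hT σ hσ _ => ?_⟩
  have h10 : 10 ≤ T := hT0.trans hT
  have hTpos : 0 < T := by linarith
  have hT1 : 1 < T := by linarith
  obtain ⟨P, hP⟩ : ∃ P : ℝ, P = T ^ (1 + 4 * h) := ⟨_, rfl⟩
  have hP0 : 0 < P := by rw [hP]; positivity
  have hPT : T ≤ P := by
    calc T = T ^ (1 : ℝ) := (Real.rpow_one T).symm
      _ ≤ P := by rw [hP]; exact Real.rpow_le_rpow_of_exponent_le hT1.le (by linarith)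
  have hP1 : 1 ≤ P := by linarith
  obtain ⟨N', hN'⟩ : ∃ N' : ℕ, N' = ⌈P⌉₊ := ⟨_, rfl⟩
  have hN'1 : P ≤ N' := by rw [hN']; exact Nat.le_ceil P
  have hN'2 : (N' : ℝ) ≤ 2 * P := by
    have := (Nat.ceil_lt_add_one hP0.le).le
    rw [hN']; linarith
  have hN'pos : (0:ℝ) < N' := by linarith
  have hN'one : 1 ≤ N' := by
    have : 0 < N' := by exact_mod_cast hN'pos
    omega
  have hNN : P ≤ (NN b T : ℝ) := by
    unfold NN
    have h1 : T ^ (b + 3) < (⌊T ^ (b + 3)⌋₊ : ℝ) + 1 := Nat.lt_floor_add_one _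
    have h2 : T ^ (4 : ℝ) ≤ T ^ (b + 3) := Real.rpow_le_rpow_of_exponent_le hT1.le (by linarith)
    have h3 : P ≤ T ^ (2 : ℝ) := by
      rw [hP]; exact Real.rpow_le_rpow_of_exponent_le hT1.le (by linarith)
    have h4 : T ^ (4 : ℝ) = T ^ (4 : ℕ) := by exact_mod_cast Real.rpow_natCast T 4
    have h5 : T ^ (2 : ℝ) = T ^ (2 : ℕ) := by exact_mod_cast Real.rpow_natCast T 2
    rw [h4] at h2
    rw [h5] at h3
    have h6 : (100:ℝ) ≤ T ^ 2 := by nlinarith
    have h7 : T ^ 4 = T ^ 2 * T ^ 2 := by ring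
    nlinarith
  obtain ⟨w, hw⟩ : ∃ w : ℝ → ℝ, w = st (1 + 3 * h) h := ⟨_, rfl⟩
  obtain ⟨a, ha⟩ : ∃ a : ℕ → ℂ, a = fun n : ℕ => ((w (Real.log n / Real.log T) : ℝ) : ℂ) * (n : ℂ) ^ (-(σ : ℂ)) :=
    ⟨_, rfl⟩
  have hD : ∀ t : ℝ, D4 b h T ((σ : ℂ) + (t : ℂ) * I) =
      ∑ n ∈ Icc 1 N', a n * (n : ℂ) ^ (-((t : ℂ) * I)) := by
    intro t
    unfold D4
    rw [dp_trunc (fun _ => 1) (st (1 + 3 * h) h) (1 + 4 * h) T hT1
      (fun u hu => st_zero hh (by linarith)) (NN b T) N' (by rw [← hP]; exact hNN)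
      (by rw [← hP]; exact hN'1)]
    unfold Dp
    refine Finset.sum_congr rfl fun n hn => ?_
    have hn0 : (n : ℂ) ≠ 0 := by
      have := (Finset.mem_Icc.1 hn).1
      exact_mod_cast (by omega : n ≠ 0)
    rw [ha, hw, one_mul, neg_add, Complex.cpow_add _ _ hn0]
    ring
  have hcont : Continuous (fun t : ℝ => ‖∑ n ∈ Icc 1 N', a n * (n : ℂ) ^ (-((t : ℂ) * I))‖ ^ 2) := by
    refine (Continuous.norm ?_).pow 2
    refine continuous_finsetSum _ fun n hn => ?_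
    refine continuous_const.mul ?_
    have hn0 : (n : ℂ) ≠ 0 := by
      have := (Finset.mem_Icc.1 hn).1
      exact_mod_cast (by omega : n ≠ 0)
    refine Continuous.const_cpow (by fun_prop) (Or.inl hn0)
  have hI : ∫ t in (T / 4)..(4 * T), ‖D4 b h T ((σ : ℂ) + (t : ℂ) * I)‖ ^ 2 ≤
      ∫ t in (-(4 * T))..(4 * T), ‖∑ n ∈ Icc 1 N', a n * (n : ℂ) ^ (-((t : ℂ) * I))‖ ^ 2 := by
    simp only [hD]
    refine intervalIntegral.integral_mono_interval (by linarith) (by linarith) le_rfl ?_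
      (hcont.intervalIntegrable _ _)
    exact Filter.Eventually.of_forall fun t => by positivity
  have hM := hmvt N' (4 * T) a hN'one (by linarith)
  have hsum : ∑ n ∈ Icc 1 N', ‖a n‖ ^ 2 ≤ 2 * T ^ (3 * d) * (2 + 2 * Real.log T) := by
    have h1 : ∀ n ∈ Icc 1 N', ‖a n‖ ^ 2 ≤ (2 * T ^ (3 * d)) * ((1 : ℝ) / n) := by
      intro n hn
      have hn1 : 1 ≤ n := (Finset.mem_Icc.1 hn).1
      have hnN : n ≤ N' := (Finset.mem_Icc.1 hn).2
      have hnr : (1:ℝ) ≤ n := by exact_mod_cast hn1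
      have hnr0 : (0:ℝ) < n := by linarith
      have h2 : ‖a n‖ ≤ (n : ℝ) ^ (-σ) := by
        rw [ha]
        dsimp only
        rw [norm_mul, Complex.norm_real, Real.norm_eq_abs, hw, abs_of_nonneg (st_nonneg _ _ _)]
        have h3 : ‖(n : ℂ) ^ (-(σ : ℂ))‖ = (n : ℝ) ^ (-σ) := by
          rw [Complex.norm_natCast_cpow_of_pos (by omega)]
          simp
        rw [h3]
        calc _ ≤ 1 * (n : ℝ) ^ (-σ) := mul_le_mul_of_nonneg_right (st_le_one _ _ _) (by positivity)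
          _ = _ := one_mul _
      calc ‖a n‖ ^ 2 ≤ ((n : ℝ) ^ (-σ)) ^ 2 := pow_le_pow_left₀ (norm_nonneg _) h2 2
        _ = (n : ℝ) ^ (-σ * 2) := by
            rw [← Real.rpow_natCast, ← Real.rpow_mul hnr0.le]; norm_num
        _ ≤ (n : ℝ) ^ (2 * d - 1) := Real.rpow_le_rpow_of_exponent_le hnr (by linarith)
        _ = (n : ℝ) ^ (2 * d) * (1 / n) := by
            rw [Real.rpow_sub hnr0, Real.rpow_one]; ring
        _ ≤ (2 * T ^ (3 * d)) * ((1 : ℝ) / n) := by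
            refine mul_le_mul_of_nonneg_right ?_ (by positivity)
            calc (n : ℝ) ^ (2 * d) ≤ (2 * P) ^ (2 * d) := by
                  refine Real.rpow_le_rpow hnr0.le ?_ (by positivity)
                  have : (n : ℝ) ≤ N' := by exact_mod_cast hnN
                  linarith
              _ = 2 ^ (2 * d) * P ^ (2 * d) := Real.mul_rpow (by norm_num) hP0.le
              _ ≤ 2 ^ (1 : ℝ) * T ^ (3 * d) := by
                  refine mul_le_mul (Real.rpow_le_rpow_of_exponent_le (by norm_num) (by linarith))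
                    ?_ (by positivity) (by positivity)
                  rw [hP, ← Real.rpow_mul hTpos.le]
                  refine Real.rpow_le_rpow_of_exponent_le hT1.le ?_
                  nlinarith
              _ = _ := by rw [Real.rpow_one]
    calc _ ≤ ∑ n ∈ Icc 1 N', (2 * T ^ (3 * d)) * ((1 : ℝ) / n) := Finset.sum_le_sum h1
      _ = (2 * T ^ (3 * d)) * ∑ n ∈ Icc 1 N', ((1 : ℝ) / n) := by rw [Finset.mul_sum]
      _ ≤ (2 * T ^ (3 * d)) * (1 + Real.log N') :=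
          mul_le_mul_of_nonneg_left (harm N') (by positivity)
      _ ≤ _ := by
          refine mul_le_mul_of_nonneg_left ?_ (by positivity)
          have h3 : Real.log N' ≤ Real.log (2 * P) := Real.log_le_log hN'pos hN'2
          have h4 : Real.log (2 * P) = Real.log 2 + (1 + 4 * h) * Real.log T := by
            rw [Real.log_mul (by norm_num) hP0.ne', hP, Real.log_rpow hTpos]
          have h5 : Real.log 2 ≤ 1 := by
            have := Real.log_two_lt_d9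
            linarith
          have h6 : 0 ≤ Real.log T := Real.log_nonneg hT1.le
          have h7 : (1 + 4 * h) * Real.log T ≤ 2 * Real.log T :=
            mul_le_mul_of_nonneg_right (by linarith) h6
          linarith
  have hlogT : 0 ≤ Real.log T := Real.log_nonneg hT1.le
  calc _ ≤ _ := hI
    _ ≤ _ := hM
    _ ≤ C * (6 * P) * (2 * T ^ (3 * d) * (2 + 2 * Real.log T)) := by
        refine mul_le_mul ?_ hsum (Finset.sum_nonneg fun _ _ => by positivity) (by positivity)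
        exact mul_le_mul_of_nonneg_left (by linarith) hC.le
    _ = (24 * C * (1 + Real.log T)) * (P * T ^ (3 * d)) := by ring
    _ ≤ T ^ (h + d) * (P * T ^ (3 * d)) :=
        mul_le_mul_of_nonneg_right (hbig T hT) (by positivity)
    _ = T ^ (1 + 5 * h + 4 * d) := by
        rw [hP, ← Real.rpow_add hTpos, ← Real.rpow_add hTpos]
        congr 1
        ring

end Pool.Agent.H48.WN
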