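import Mathlib

/-!
# [H48 WN SUB] the square of an analytic function at a point against an area mean

PROOF. Cauchy's formula / mean value property on circles (`Complex.circleIntegral`-based:
`(2π)^(-1) int_0^(2π) G(z + ρ e^(iθ)) dθ = G(z)`, Mathlib `circleAverage` of an analytic function, or `DiffContOnCl.circleIntegral...`),
Cauchy-Schwarz: `‖G z‖^2 ≤ (2π)^(-1) int_0^(2π) ‖G(z+ρe^(iθ))‖^2 dθ` for `0 < ρ ≤ r`; multiply by `ρ`, integrate over `0 < ρ < r`
(polar coordinates): `(r^2/2)‖G z‖^2 ≤ (2π)^(-1) area integral over the disc ≤ (2π)^(-1) int over the square`, so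
`‖G z‖^2 ≤ (1/(π r^2)) int_square ≤ (1/r^2) int_square`.
Alternative without polar coordinates: `G^2` is analytic, and for analytic `F` on a neighbourhood of the closed square
`Q_ρ` of half side `ρ` around `z`, `F(z)` is an average over `∂Q_ρ`: `F(z) = (2πi)^(-1) int_{∂Q_ρ} F(w)/(w - z) dw`
(not in Mathlib for rectangles with a pole), so the circle version is better. A third way: subharmonicity of `‖G‖^2`
is in Mathlib for circle averages. The constant may be checked: `1/π < 1`, there is room.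
-/

set_option autoImplicit false

namespace Pool.Agent.H48.WN

open Complex MeasureTheory Finset

section

open MeasureTheory Metric Set Filter Topology

/-- Area mean value inequality. -/
private theorem sub_amv {F : ℂ → ℂ} {x : ℂ} {r : ℝ} (hF : DifferentiableOn ℂ F (ball x r)) :
    volume (ball (0 : ℂ) r) * ‖F x‖ₑ ≤ ∫⁻ z in ball x r, ‖F z‖ₑ := by
  obtain ⟨G, hG⟩ : ∃ G : ℂ → ENNReal, G = (ball (0 : ℂ) r).indicator (fun w => ‖F (x + w)‖ₑ) :=
    ⟨_, rfl⟩
  have hsub : ∀ w ∈ ball (0 : ℂ) r, x + w ∈ ball x r := by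
    intro w hw
    rw [mem_ball_zero_iff] at hw
    rw [mem_ball, dist_eq_norm, add_sub_cancel_left]
    exact hw
  have hcont : ContinuousOn (fun w => F (x + w)) (ball (0 : ℂ) r) :=
    hF.continuousOn.comp (by fun_prop) hsub
  have hGm : Measurable G := by
    have h1 : ContinuousOn (fun w => ‖F (x + w)‖ₑ) (ball (0 : ℂ) r) := hcont.enorm
    classical
    have h2 : G = (ball (0 : ℂ) r).piecewise (fun w => ‖F (x + w)‖ₑ) (fun _ => 0) := by
      rw [hG]
      exact (Set.piecewise_eq_indicator).symm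
    rw [h2]
    exact h1.measurable_piecewise continuousOn_const measurableSet_ball
  have hI : ∫⁻ z in ball x r, ‖F z‖ₑ = ∫⁻ w, G w := by
    rw [← lintegral_indicator measurableSet_ball,
      ← lintegral_add_left_eq_self (μ := (volume : Measure ℂ))
        ((ball x r).indicator fun z => ‖F z‖ₑ) x]
    refine lintegral_congr fun w => ?_
    rw [hG]
    by_cases h : w ∈ ball (0 : ℂ) r
    · rw [indicator_of_mem (hsub w h), indicator_of_mem h]
    · have h' : x + w ∉ ball x r := by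
        intro h1
        apply h
        rw [mem_ball, dist_eq_norm, add_sub_cancel_left] at h1
        rwa [mem_ball_zero_iff]
      rw [indicator_of_notMem h', indicator_of_notMem h]
  have hrot : ∀ θ : ℝ, ∫⁻ w, G (Complex.exp (θ * Complex.I) * w) = ∫⁻ w, G w := by
    intro θ
    have hom : ‖Complex.exp (θ * Complex.I)‖ = 1 := Complex.norm_exp_ofReal_mul_I θ
    have h1 : MeasurePreserving (fun w : ℂ => Complex.exp (θ * Complex.I) * w) volume volume := by
      let a : Circle := ⟨Complex.exp (θ * Complex.I), mem_sphere_zero_iff_norm.mpr hom⟩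
      exact (rotation a).measurePreserving
    exact h1.lintegral_comp hGm
  have hpt : ∀ w ∈ ball (0 : ℂ) r, ENNReal.ofReal (2 * Real.pi) * ‖F x‖ₑ ≤
      ∫⁻ θ in Ioc 0 (2 * Real.pi), G (Complex.exp ((θ : ℝ) * Complex.I) * w) := by
    intro w hw
    rw [mem_ball_zero_iff] at hw
    have habs : |‖w‖| = ‖w‖ := abs_of_nonneg (norm_nonneg w)
    have hcl : DiffContOnCl ℂ F (ball x |‖w‖|) := by
      rw [habs]
      refine (hF.mono ?_).diffContOnCl
      refine closure_ball_subset_closedBall.trans ?_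
      exact closedBall_subset_ball hw
    have h1 : Real.circleAverage F x ‖w‖ = F x := hcl.circleAverage
    rw [Real.circleAverage_eq_integral_add (Complex.arg w)] at h1
    have h2 : (∫ θ in (0 : ℝ)..2 * Real.pi, F (circleMap x ‖w‖ (θ + Complex.arg w))) =
        (2 * Real.pi) • F x := by
      rw [← h1, smul_smul, mul_inv_cancel₀ (by positivity), one_smul]
    have h3 : ∀ θ : ℝ, circleMap x ‖w‖ (θ + Complex.arg w) = x + Complex.exp (θ * Complex.I) * w := by
      intro θ
      rw [circleMap]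
      congr 1
      have h4 : (w : ℂ) = ‖w‖ * Complex.exp (Complex.arg w * Complex.I) :=
        (Complex.norm_mul_exp_arg_mul_I w).symm
      conv_rhs => rw [h4]
      push_cast
      rw [add_mul, Complex.exp_add]
      ring
    have h5 : ∀ θ : ℝ, G (Complex.exp (θ * Complex.I) * w) =
        ‖F (circleMap x ‖w‖ (θ + Complex.arg w))‖ₑ := by
      intro θ
      rw [h3, hG, indicator_of_mem]
      rw [mem_ball_zero_iff, norm_mul, Complex.norm_exp_ofReal_mul_I, one_mul]
      exact hw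
    calc ENNReal.ofReal (2 * Real.pi) * ‖F x‖ₑ = ‖(2 * Real.pi) • F x‖ₑ := by
          rw [enorm_smul, Real.enorm_eq_ofReal (by positivity)]
      _ = ‖∫ θ in (0 : ℝ)..2 * Real.pi, F (circleMap x ‖w‖ (θ + Complex.arg w))‖ₑ := by rw [h2]
      _ = ‖∫ θ in Ioc 0 (2 * Real.pi), F (circleMap x ‖w‖ (θ + Complex.arg w))‖ₑ := by
          rw [intervalIntegral.integral_of_le (by positivity)]
      _ ≤ ∫⁻ θ in Ioc 0 (2 * Real.pi), ‖F (circleMap x ‖w‖ (θ + Complex.arg w))‖ₑ :=
          enorm_integral_le_lintegral_enorm _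
      _ = _ := by
          refine lintegral_congr fun θ => ?_
          rw [h5]
  have hmeas : Measurable (Function.uncurry fun (θ : ℝ) (w : ℂ) =>
      G (Complex.exp ((θ : ℝ) * Complex.I) * w)) := by
    refine hGm.comp ?_
    have : Continuous (fun q : ℝ × ℂ => Complex.exp ((q.1 : ℝ) * Complex.I) * q.2) := by fun_prop
    exact this.measurable
  have hpi : (0 : ℝ) < 2 * Real.pi := by positivity
  have hfub : ENNReal.ofReal (2 * Real.pi) * ∫⁻ w, G w =
      ∫⁻ w, ∫⁻ θ in Ioc 0 (2 * Real.pi), G (Complex.exp ((θ : ℝ) * Complex.I) * w) := by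
    rw [← lintegral_lintegral_swap hmeas.aemeasurable]
    simp only [hrot]
    rw [lintegral_const, Measure.restrict_apply_univ, Real.volume_Ioc, sub_zero, mul_comm]
  have hkey : ENNReal.ofReal (2 * Real.pi) * (volume (ball (0 : ℂ) r) * ‖F x‖ₑ) ≤
      ENNReal.ofReal (2 * Real.pi) * ∫⁻ w, G w := by
    rw [hfub]
    calc ENNReal.ofReal (2 * Real.pi) * (volume (ball (0 : ℂ) r) * ‖F x‖ₑ)
        = ∫⁻ _w in ball (0 : ℂ) r, ENNReal.ofReal (2 * Real.pi) * ‖F x‖ₑ := by
          rw [lintegral_const, Measure.restrict_apply_univ]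
          ring
      _ ≤ ∫⁻ w in ball (0 : ℂ) r, ∫⁻ θ in Ioc 0 (2 * Real.pi),
            G (Complex.exp ((θ : ℝ) * Complex.I) * w) :=
          setLIntegral_mono' measurableSet_ball hpt
      _ ≤ _ := setLIntegral_le_lintegral _ _
  rw [hI]
  exact (ENNReal.mul_le_mul_iff_right (by simpa using hpi) ENNReal.ofReal_ne_top).mp hkey

private theorem sub_pt {F : ℂ → ℂ} {x : ℂ} {r K : ℝ} (hr : 0 < r) (hF : DifferentiableOn ℂ F (ball x r))
    (hK : 0 ≤ K) (h : ∫⁻ z in ball x r, ‖F z‖ₑ ≤ ENNReal.ofReal (Real.pi * r ^ 2 * K)) :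
    ‖F x‖ ≤ K := by
  have h1 := (sub_amv hF).trans h
  rw [Complex.volume_ball] at h1
  have h2 : ENNReal.ofReal r ^ 2 * (NNReal.pi : ENNReal) = ENNReal.ofReal (Real.pi * r ^ 2) := by
    rw [mul_comm Real.pi, ENNReal.ofReal_mul (by positivity), ENNReal.ofReal_pow hr.le]
    congr 1
    rw [← NNReal.coe_real_pi, ENNReal.ofReal_coe_nnreal]
  have hp : (0 : ℝ) < Real.pi * r ^ 2 := by positivity
  rw [h2, show ENNReal.ofReal (Real.pi * r ^ 2 * K) = ENNReal.ofReal (Real.pi * r ^ 2) *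
    ENNReal.ofReal K from ENNReal.ofReal_mul hp.le] at h1
  have h3 := (ENNReal.mul_le_mul_iff_right (by simpa using hp) ENNReal.ofReal_ne_top).mp h1
  rw [← ofReal_norm] at h3
  exact (ENNReal.ofReal_le_ofReal_iff hK).mp h3

end

theorem sub_sq (G : ℂ → ℂ) (z : ℂ) (r : ℝ) (hr : 0 < r)
    (hG : ∀ w : ℂ, |w.re - z.re| ≤ r → |w.im - z.im| ≤ r → DifferentiableAt ℂ G w) :
    ‖G z‖ ^ 2 ≤ (1 / r ^ 2) * ∫ x in (z.re - r)..(z.re + r), ∫ t in (z.im - r)..(z.im + r),
      ‖G ((x : ℂ) + (t : ℂ) * I)‖ ^ 2 := by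
  obtain ⟨Q, hQ⟩ : ∃ Q : Set ℂ, Q = {w : ℂ | |w.re - z.re| ≤ r ∧ |w.im - z.im| ≤ r} := ⟨_, rfl⟩
  have hball : Metric.closedBall z r ⊆ Q := by
    intro w hw
    rw [mem_closedBall_iff_norm] at hw
    rw [hQ]
    constructor
    · have := Complex.abs_re_le_norm (w - z)
      rw [Complex.sub_re] at this
      linarith
    · have := Complex.abs_im_le_norm (w - z)
      rw [Complex.sub_im] at this
      linarith
  have hd : ∀ w ∈ Q, DifferentiableAt ℂ G w := by
    intro w hw
    rw [hQ] at hw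
    exact hG w hw.1 hw.2
  have hF : DifferentiableOn ℂ (fun w => G w ^ 2) (Metric.ball z r) := by
    intro w hw
    exact ((hd w (hball (Metric.ball_subset_closedBall hw))).pow 2).differentiableWithinAt
  have hQpre : Q = Complex.measurableEquivRealProd ⁻¹'
      (Set.Icc (z.re - r) (z.re + r) ×ˢ Set.Icc (z.im - r) (z.im + r)) := by
    rw [hQ]
    ext w
    simp only [Set.mem_setOf_eq, Set.mem_preimage, Set.mem_prod, Set.mem_Icc,
      Complex.measurableEquivRealProd_apply, abs_le]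
    constructor
    · rintro ⟨⟨h1, h2⟩, h3, h4⟩
      refine ⟨⟨?_, ?_⟩, ?_, ?_⟩ <;> linarith
    · rintro ⟨⟨h1, h2⟩, h3, h4⟩
      refine ⟨⟨?_, ?_⟩, ?_, ?_⟩ <;> linarith
  have hcont : ContinuousOn (fun p : ℝ × ℝ => ‖G ((p.1 : ℂ) + (p.2 : ℂ) * I)‖ ^ 2)
      (Set.Icc (z.re - r) (z.re + r) ×ˢ Set.Icc (z.im - r) (z.im + r)) := by
    intro p hp
    have h1 : ContinuousAt G ((p.1 : ℂ) + (p.2 : ℂ) * I) := by
      apply (hd _ _).continuousAt
      rw [hQpre]
      simpa [Complex.measurableEquivRealProd_apply] using hp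
    have h2 : ContinuousAt (fun q : ℝ × ℝ => (q.1 : ℂ) + (q.2 : ℂ) * I) p := by fun_prop
    have h3 : ContinuousAt (fun q : ℝ × ℝ => G ((q.1 : ℂ) + (q.2 : ℂ) * I)) p :=
      ContinuousAt.comp (f := fun q : ℝ × ℝ => (q.1 : ℂ) + (q.2 : ℂ) * I) (g := G) h1 h2
    exact (h3.norm.pow 2).continuousWithinAt
  have hint : IntegrableOn (fun p : ℝ × ℝ => ‖G ((p.1 : ℂ) + (p.2 : ℂ) * I)‖ ^ 2)
      (Set.Icc (z.re - r) (z.re + r) ×ˢ Set.Icc (z.im - r) (z.im + r)) (volume.prod volume) :=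
    hcont.integrableOn_compact (isCompact_Icc.prod isCompact_Icc)
  have hdbl : ∫ p in Set.Icc (z.re - r) (z.re + r) ×ˢ Set.Icc (z.im - r) (z.im + r),
      ‖G ((p.1 : ℂ) + (p.2 : ℂ) * I)‖ ^ 2 = ∫ x in (z.re - r)..(z.re + r),
        ∫ t in (z.im - r)..(z.im + r), ‖G ((x : ℂ) + (t : ℂ) * I)‖ ^ 2 := by
    rw [Measure.volume_eq_prod, setIntegral_prod _ hint,
      intervalIntegral.integral_of_le (by linarith), integral_Icc_eq_integral_Ioc]
    apply setIntegral_congr_fun measurableSet_Ioc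
    intro x _
    simp only
    rw [intervalIntegral.integral_of_le (by linarith), integral_Icc_eq_integral_Ioc]
  have hl1 : ∫⁻ w in Q, ‖G w ^ 2‖ₑ = ∫⁻ p in
      Set.Icc (z.re - r) (z.re + r) ×ˢ Set.Icc (z.im - r) (z.im + r),
        ‖G ((p.1 : ℂ) + (p.2 : ℂ) * I) ^ 2‖ₑ := by
    rw [hQpre]
    have := Complex.volume_preserving_equiv_real_prod.setLIntegral_comp_preimage_emb
      Complex.measurableEquivRealProd.measurableEmbedding
      (fun p : ℝ × ℝ => ‖G ((p.1 : ℂ) + (p.2 : ℂ) * I) ^ 2‖ₑ)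
      (Set.Icc (z.re - r) (z.re + r) ×ˢ Set.Icc (z.im - r) (z.im + r))
    rw [← this]
    apply lintegral_congr
    intro w
    simp only [Complex.measurableEquivRealProd_apply, Complex.re_add_im]
  have hl2 : ∫⁻ p in Set.Icc (z.re - r) (z.re + r) ×ˢ Set.Icc (z.im - r) (z.im + r),
        ‖G ((p.1 : ℂ) + (p.2 : ℂ) * I) ^ 2‖ₑ = ENNReal.ofReal (∫ p in
          Set.Icc (z.re - r) (z.re + r) ×ˢ Set.Icc (z.im - r) (z.im + r),
            ‖G ((p.1 : ℂ) + (p.2 : ℂ) * I)‖ ^ 2) := by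
    rw [Measure.volume_eq_prod, ofReal_integral_eq_lintegral_ofReal hint (Filter.Eventually.of_forall fun p => by positivity)]
    apply lintegral_congr
    intro p
    rw [← ofReal_norm, norm_pow]
  obtain ⟨J, hJ⟩ : ∃ J : ℝ, J = ∫ x in (z.re - r)..(z.re + r),
      ∫ t in (z.im - r)..(z.im + r), ‖G ((x : ℂ) + (t : ℂ) * I)‖ ^ 2 := ⟨_, rfl⟩
  rw [← hJ] at hdbl ⊢
  have hJ0 : 0 ≤ J := by
    rw [← hdbl]
    exact integral_nonneg fun p => by positivity
  have hpi := Real.pi_pos
  have hfin := sub_pt (K := J / (Real.pi * r ^ 2)) hr hF (by positivity) (by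
    calc ∫⁻ w in Metric.ball z r, ‖G w ^ 2‖ₑ ≤ ∫⁻ w in Q, ‖G w ^ 2‖ₑ :=
          lintegral_mono_set (Metric.ball_subset_closedBall.trans hball)
      _ = ENNReal.ofReal J := by rw [hl1, hl2, hdbl]
      _ = ENNReal.ofReal (Real.pi * r ^ 2 * (J / (Real.pi * r ^ 2))) := by
          rw [mul_div_cancel₀]
          positivity)
  rw [norm_pow] at hfin
  refine hfin.trans ?_
  rw [div_mul_eq_mul_div, one_mul]
  apply div_le_div_of_nonneg_left hJ0 (by positivity)
  have : 1 ≤ Real.pi := by linarith [Real.pi_gt_three]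
  nlinarith [sq_nonneg r]

end Pool.Agent.H48.WN
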