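import Pool.Agent.H48.WN.Msg
import Pool.Agent.H48.WN.Sub

/-!
# [H48 WN GDH] good heights

PROOF. `L = log T`, `G = Gm d T` is differentiable at all points with `Im > 0` (not `s = 1`).
(1) For `s` with `1/2 + d ≤ Re s ≤ 2`, `|Im s - t0| ≤ L^2`: `sub_sq` with `r = d/2`: the square is contained in
`[1/2 + d/2, 3] × [t0 - (L^2+1), t0 + (L^2+1)]`, so `‖G s‖^2 ≤ (4/d^2) HH d T t0` (monotonicity of the double integral, non negative
continuous integrand).
(2) `int_T^(2T) HH dt0`: exchange: `= int_x int_{t0} int_{|u| ≤ L^2+1} ‖G(x + i(t0+u))‖^2 ≤ int_x 2(L^2+1) int_{T/4}^{4T} ‖G(x+it)‖^2 dt dx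
≤ 3 · 2 (L^2+1) T^(1 - d^2/8) ≤ T^(1 - d^2/16)` by `msg`, `T ≥ T0` (`L^2 + 1 ≤ T/4`).
(3) `HH ≥ 0` and `HH` is continuous in `t0` (continuous integrand on `Im > 0`; `t0 - L^2 - 1 ≥ T/2 > 0`).
-/

set_option autoImplicit false

namespace Pool.Agent.H48.WN

open Complex MeasureTheory Finset

private theorem gdh_diff (d T : ℝ) (s : ℂ) (hs : s ≠ 1) : DifferentiableAt ℂ (Gm d T) s := by
  have h1 : DifferentiableAt ℂ (Mo d T) s := by
    unfold Mo
    apply DifferentiableAt.fun_sum
    intro k hk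
    apply DifferentiableAt.const_mul
    apply DifferentiableAt.const_cpow differentiableAt_id.neg
    left
    have : 1 ≤ k := (Finset.mem_Icc.1 hk).1
    exact_mod_cast (by omega : k ≠ 0)
  have h2 : DifferentiableAt ℂ (fun z => riemannZeta z * Mo d T z - 1) s :=
    ((differentiableAt_riemannZeta hs).mul h1).sub_const 1
  exact h2

private noncomputable def gdhg (d T : ℝ) (x t : ℝ) : ℝ :=
  ‖Gm d T ((x : ℂ) + ((max t 1 : ℝ) : ℂ) * I)‖ ^ 2

private theorem gdh_cont (d T : ℝ) : Continuous (Function.uncurry (gdhg d T)) := by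
  rw [continuous_iff_continuousAt]
  rintro ⟨x, t⟩
  have hne : ((x : ℂ) + ((max t 1 : ℝ) : ℂ) * I) ≠ 1 := by
    intro h
    have := congrArg Complex.im h
    simp at this
    have h1 : (1 : ℝ) ≤ max t 1 := le_max_right _ _
    linarith
  have h1 : ContinuousAt (Gm d T) ((x : ℂ) + ((max t 1 : ℝ) : ℂ) * I) :=
    (gdh_diff d T _ hne).continuousAt
  have h2 : ContinuousAt (fun q : ℝ × ℝ => (q.1 : ℂ) + ((max q.2 1 : ℝ) : ℂ) * I) (x, t) := by
    fun_prop
  have h3 : ContinuousAt (fun q : ℝ × ℝ => Gm d T ((q.1 : ℂ) + ((max q.2 1 : ℝ) : ℂ) * I)) (x, t) :=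
    ContinuousAt.comp (f := fun q : ℝ × ℝ => (q.1 : ℂ) + ((max q.2 1 : ℝ) : ℂ) * I)
      (g := Gm d T) h1 h2
  exact h3.norm.pow 2

private theorem gdh_nonneg (d T x t : ℝ) : 0 ≤ gdhg d T x t := by
  unfold gdhg
  positivity

private theorem gdh_eq (d T x t : ℝ) (ht : 1 ≤ t) :
    ‖Gm d T ((x : ℂ) + (t : ℂ) * I)‖ ^ 2 = gdhg d T x t := by
  unfold gdhg
  rw [max_eq_left ht]

private theorem gdh_ex (d T : ℝ) : ∃ g : ℝ → ℝ → ℝ, Continuous (Function.uncurry g) ∧
    (∀ x t, 0 ≤ g x t) ∧
    ∀ x t : ℝ, 1 ≤ t → ‖Gm d T ((x : ℂ) + (t : ℂ) * I)‖ ^ 2 = g x t :=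
  ⟨gdhg d T, gdh_cont d T, gdh_nonneg d T, gdh_eq d T⟩

private theorem gdh_io (F : ℝ → ℝ → ℝ) (hF : Continuous (Function.uncurry F)) (a b c e : ℝ) :
    IntegrableOn (Function.uncurry F) (Set.uIoc a b ×ˢ Set.uIoc c e) := by
  have h : IntegrableOn (Function.uncurry F) (Set.uIcc a b ×ˢ Set.uIcc c e) :=
    hF.continuousOn.integrableOn_compact (isCompact_uIcc.prod isCompact_uIcc)
  exact h.mono_set (Set.prod_mono Set.uIoc_subset_uIcc Set.uIoc_subset_uIcc)

/-- growth facts -/
private theorem gdh_grow (d : ℝ) (hd : 0 < d) : ∃ T0 : ℝ, 10 ≤ T0 ∧ ∀ T : ℝ, T0 ≤ T →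
    (Real.log T) ^ 2 + 2 ≤ T / 4 ∧ 6 * ((Real.log T) ^ 2 + 1) ≤ T ^ (d ^ 2 / 16) := by
  have h1 : Filter.Tendsto (fun T : ℝ => (Real.log T) ^ 2 / T) Filter.atTop (nhds 0) := by
    have := Real.isLittleO_pow_log_id_atTop (n := 2)
    have h := this.tendsto_div_nhds_zero
    simpa using h
  have h2 : Filter.Tendsto (fun T : ℝ => (Real.log T) ^ 2 / T ^ (d ^ 2 / 16)) Filter.atTop (nhds 0) := by
    have := isLittleO_log_rpow_rpow_atTop 2 (show 0 < d ^ 2 / 16 by positivity)
    have h := this.tendsto_div_nhds_zero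
    refine h.congr' ?_
    filter_upwards [Filter.eventually_ge_atTop 1] with T hT
    norm_num
  have h3 : Filter.Tendsto (fun T : ℝ => T ^ (d ^ 2 / 16)) Filter.atTop Filter.atTop :=
    tendsto_rpow_atTop (by positivity)
  have e1 := h1.eventually (gt_mem_nhds (show (0 : ℝ) < 1 / 8 by norm_num))
  have e2 := h2.eventually (gt_mem_nhds (show (0 : ℝ) < 1 / 12 by norm_num))
  have e3 := h3.eventually_ge_atTop 12
  have e := (e1.and (e2.and (e3.and (Filter.eventually_ge_atTop (16 : ℝ)))))
  obtain ⟨A, hA⟩ := Filter.eventually_atTop.1 e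
  refine ⟨max A 16, by linarith [le_max_right A 16], fun T hT => ?_⟩
  obtain ⟨f1, f2, f3, f4⟩ := hA T (le_trans (le_max_left _ _) hT)
  have hT0 : 0 < T := by linarith
  have hp : 0 < T ^ (d ^ 2 / 16) := by positivity
  rw [div_lt_iff₀ hT0] at f1
  rw [div_lt_iff₀ hp] at f2
  constructor
  · linarith
  · linarith

theorem gdh (d : ℝ) (hd : 0 < d) (hd1 : d ≤ 1 / 8) : ∃ T0 : ℝ, 10 ≤ T0 ∧ ∀ T : ℝ, T0 ≤ T →
    ContinuousOn (fun t0 => HH d T t0) (Set.Icc T (2 * T)) ∧
    (∫ t0 in T..(2 * T), HH d T t0 ≤ T ^ (1 - d ^ 2 / 16)) ∧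
    ∀ t0 : ℝ, T ≤ t0 → t0 ≤ 2 * T → 0 ≤ HH d T t0 ∧
      ∀ s : ℂ, 1 / 2 + d ≤ s.re → s.re ≤ 2 → |s.im - t0| ≤ (Real.log T) ^ 2 →
        ‖Gm d T s‖ ^ 2 ≤ (4 / d ^ 2) * HH d T t0 := by
  obtain ⟨T1, hT1, hmsg⟩ := msg d hd hd1
  obtain ⟨T2, hT2, hgr⟩ := gdh_grow d hd
  refine ⟨max T1 T2, le_max_of_le_left hT1, fun T hT => ?_⟩
  have hTa : T1 ≤ T := le_trans (le_max_left _ _) hT
  have hTb : T2 ≤ T := le_trans (le_max_right _ _) hT
  obtain ⟨g1, g2⟩ := hgr T hTb
  have hT10 : 10 ≤ T := by linarith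
  obtain ⟨R, hR⟩ : ∃ R : ℝ, R = (Real.log T) ^ 2 + 1 := ⟨_, rfl⟩
  have hR1 : 1 ≤ R := by rw [hR]; nlinarith [sq_nonneg (Real.log T)]
  have hRT : R + 1 ≤ T / 4 := by rw [hR]; linarith
  obtain ⟨g, hcont, gnn, geq⟩ := gdh_ex d T
  have hHH : ∀ t0 : ℝ, T ≤ t0 → HH d T t0 =
      ∫ x in (1 / 2 + d / 2)..3, ∫ u in (-R)..R, g x (t0 + u) := by
    intro t0 ht0
    unfold HH
    rw [← hR]
    apply intervalIntegral.integral_congr
    intro x _
    simp only
    have h1 : ∫ u in (-R)..R, g x (t0 + u) = ∫ t in (t0 + -R)..(t0 + R), g x t :=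
      intervalIntegral.integral_comp_add_left (fun t => g x t) t0
    rw [h1, ← sub_eq_add_neg]
    apply intervalIntegral.integral_congr
    intro t ht
    rw [Set.uIcc_of_le (by linarith)] at ht
    exact geq x t (by linarith [ht.1])
  have hin : Continuous (fun p : ℝ × ℝ => ∫ u in (-R)..R, g p.2 (p.1 + u)) := by
    apply intervalIntegral.continuous_parametric_intervalIntegral_of_continuous'
    have : Continuous (fun q : (ℝ × ℝ) × ℝ => (q.1.2, q.1.1 + q.2)) := by fun_prop
    exact hcont.comp this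
  have hco : Continuous (fun t0 : ℝ => ∫ x in (1 / 2 + d / 2)..3, ∫ u in (-R)..R, g x (t0 + u)) := by
    apply intervalIntegral.continuous_parametric_intervalIntegral_of_continuous'
    exact hin
  refine ⟨?_, ?_, ?_⟩
  · apply hco.continuousOn.congr
    intro t0 ht0
    exact hHH t0 ht0.1
  · have e1 : ∫ t0 in T..(2 * T), HH d T t0 = ∫ t0 in T..(2 * T),
        ∫ x in (1 / 2 + d / 2)..3, ∫ u in (-R)..R, g x (t0 + u) := by
      apply intervalIntegral.integral_congr
      intro t0 ht0
      rw [Set.uIcc_of_le (by linarith)] at ht0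
      exact hHH t0 ht0.1
    have e2 : ∫ t0 in T..(2 * T), ∫ x in (1 / 2 + d / 2)..3, ∫ u in (-R)..R, g x (t0 + u) =
        ∫ x in (1 / 2 + d / 2)..3, ∫ t0 in T..(2 * T), ∫ u in (-R)..R, g x (t0 + u) := by
      apply intervalIntegral_intervalIntegral_swap
      exact gdh_io (fun t0 x => ∫ u in (-R)..R, g x (t0 + u)) hin _ _ _ _
    have e3 : ∀ x : ℝ, ∫ t0 in T..(2 * T), ∫ u in (-R)..R, g x (t0 + u) =
        ∫ u in (-R)..R, ∫ t0 in T..(2 * T), g x (t0 + u) := by
      intro x
      apply intervalIntegral_intervalIntegral_swap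
      have hc : Continuous (Function.uncurry fun t0 u : ℝ => g x (t0 + u)) := by
        have : Continuous (fun q : ℝ × ℝ => (x, q.1 + q.2)) := by fun_prop
        exact hcont.comp this
      exact gdh_io _ hc _ _ _ _
    have hcx : ∀ x : ℝ, Continuous (fun t : ℝ => g x t) := by
      intro x
      have : Continuous (fun t : ℝ => (x, t)) := by fun_prop
      exact hcont.comp this
    have e4 : ∀ x : ℝ, ∀ u ∈ Set.Icc (-R) R, ∫ t0 in T..(2 * T), g x (t0 + u) ≤
        ∫ t in (T / 4)..(4 * T), g x t := by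
      intro x u hu
      rw [intervalIntegral.integral_comp_add_right (fun t => g x t) u]
      apply intervalIntegral.integral_mono_interval (by linarith [hu.1]) (by linarith)
        (by linarith [hu.2])
      · exact Filter.Eventually.of_forall fun t => gnn x t
      · exact (hcx x).intervalIntegrable _ _
    have e5 : ∀ x ∈ Set.Icc (1 / 2 + d / 2) 3, ∫ t in (T / 4)..(4 * T), g x t ≤
        T ^ (1 - d ^ 2 / 8) := by
      intro x hx
      have h := hmsg T hTa x hx.1 hx.2
      refine le_trans (le_of_eq ?_) h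
      apply intervalIntegral.integral_congr
      intro t ht
      rw [Set.uIcc_of_le (by linarith)] at ht
      exact (geq x t (by linarith [ht.1])).symm
    have e6 : ∀ x ∈ Set.Icc (1 / 2 + d / 2) 3,
        ∫ t0 in T..(2 * T), ∫ u in (-R)..R, g x (t0 + u) ≤ 2 * R * T ^ (1 - d ^ 2 / 8) := by
      intro x hx
      rw [e3 x]
      have hcu : Continuous (fun u : ℝ => ∫ t0 in T..(2 * T), g x (t0 + u)) := by
        apply intervalIntegral.continuous_parametric_intervalIntegral_of_continuous'
        have : Continuous (fun q : ℝ × ℝ => (x, q.2 + q.1)) := by fun_prop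
        exact hcont.comp this
      calc ∫ u in (-R)..R, ∫ t0 in T..(2 * T), g x (t0 + u)
          ≤ ∫ _u in (-R)..R, T ^ (1 - d ^ 2 / 8) := by
            apply intervalIntegral.integral_mono_on (by linarith)
              (hcu.intervalIntegrable _ _) (intervalIntegrable_const)
            intro u hu
            exact (e4 x u hu).trans (e5 x hx)
        _ = 2 * R * T ^ (1 - d ^ 2 / 8) := by
            rw [intervalIntegral.integral_const, smul_eq_mul]
            ring
    rw [e1, e2]
    have hTp : 0 < T ^ (1 - d ^ 2 / 8) := by positivity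
    have hcx2 : Continuous (fun x : ℝ => ∫ t0 in T..(2 * T), ∫ u in (-R)..R, g x (t0 + u)) := by
      apply intervalIntegral.continuous_parametric_intervalIntegral_of_continuous'
      have : Continuous (fun q : ℝ × ℝ => (q.2, q.1)) := by fun_prop
      exact hin.comp this
    calc ∫ x in (1 / 2 + d / 2)..3, ∫ t0 in T..(2 * T), ∫ u in (-R)..R, g x (t0 + u)
        ≤ ∫ _x in (1 / 2 + d / 2)..3, 2 * R * T ^ (1 - d ^ 2 / 8) := by
          apply intervalIntegral.integral_mono_on (by linarith)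
            (hcx2.intervalIntegrable _ _) (intervalIntegrable_const)
          exact e6
      _ = (3 - (1 / 2 + d / 2)) * (2 * R * T ^ (1 - d ^ 2 / 8)) := by
          rw [intervalIntegral.integral_const, smul_eq_mul]
      _ ≤ 3 * (2 * R * T ^ (1 - d ^ 2 / 8)) := by
          apply mul_le_mul_of_nonneg_right (by linarith)
          positivity
      _ = (6 * R) * T ^ (1 - d ^ 2 / 8) := by ring
      _ ≤ T ^ (d ^ 2 / 16) * T ^ (1 - d ^ 2 / 8) := by
          apply mul_le_mul_of_nonneg_right _ hTp.le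
          rw [hR]
          exact g2
      _ = T ^ (1 - d ^ 2 / 16) := by
          rw [← Real.rpow_add (by linarith)]
          congr 1
          ring
  · intro t0 ht0 ht0'
    have hnn : 0 ≤ HH d T t0 := by
      rw [hHH t0 ht0]
      apply intervalIntegral.integral_nonneg (by linarith)
      intro x _
      apply intervalIntegral.integral_nonneg (by linarith)
      intro u _
      exact gnn x _
    refine ⟨hnn, ?_⟩
    intro s hs1 hs2 hs3
    have hsq := sub_sq (Gm d T) s (d / 2) (by linarith) (by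
      intro w _ hw
      apply gdh_diff
      rintro rfl
      rw [Complex.one_im] at hw
      rw [abs_le] at hw hs3
      nlinarith [hw.1, hw.2, hs3.1, hs3.2])
    have e0 : 1 / (d / 2) ^ 2 = 4 / d ^ 2 := by
      field_simp
      norm_num
    rw [e0] at hsq
    refine hsq.trans ?_
    apply mul_le_mul_of_nonneg_left _ (by positivity)
    rw [abs_le] at hs3
    have f1 : ∫ x in (s.re - d / 2)..(s.re + d / 2), ∫ t in (s.im - d / 2)..(s.im + d / 2),
        ‖Gm d T ((x : ℂ) + (t : ℂ) * I)‖ ^ 2 = ∫ x in (s.re - d / 2)..(s.re + d / 2),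
        ∫ t in (s.im - d / 2)..(s.im + d / 2), g x t := by
      apply intervalIntegral.integral_congr
      intro x _
      apply intervalIntegral.integral_congr
      intro t ht
      rw [Set.uIcc_of_le (by linarith)] at ht
      exact geq x t (by linarith [ht.1, hs3.1])
    have f2 : HH d T t0 = ∫ x in (1 / 2 + d / 2)..3, ∫ t in (t0 - R)..(t0 + R), g x t := by
      unfold HH
      rw [← hR]
      apply intervalIntegral.integral_congr
      intro x _
      apply intervalIntegral.integral_congr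
      intro t ht
      rw [Set.uIcc_of_le (by linarith)] at ht
      exact geq x t (by linarith [ht.1])
    rw [f1, f2]
    have hc1 : ∀ a b : ℝ, Continuous (fun x : ℝ => ∫ t in a..b, g x t) := by
      intro a b
      apply intervalIntegral.continuous_parametric_intervalIntegral_of_continuous'
      exact hcont
    have hcx : ∀ x : ℝ, Continuous (fun t : ℝ => g x t) := by
      intro x
      have : Continuous (fun t : ℝ => (x, t)) := by fun_prop
      exact hcont.comp this
    calc ∫ x in (s.re - d / 2)..(s.re + d / 2), ∫ t in (s.im - d / 2)..(s.im + d / 2), g x t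
        ≤ ∫ x in (s.re - d / 2)..(s.re + d / 2), ∫ t in (t0 - R)..(t0 + R), g x t := by
          apply intervalIntegral.integral_mono_on (by linarith)
            ((hc1 _ _).intervalIntegrable _ _) ((hc1 _ _).intervalIntegrable _ _)
          intro x _
          apply intervalIntegral.integral_mono_interval (by linarith [hs3.1]) (by linarith)
            (by linarith [hs3.2])
          · exact Filter.Eventually.of_forall fun t => gnn x t
          · exact (hcx x).intervalIntegrable _ _
      _ ≤ ∫ x in (1 / 2 + d / 2)..3, ∫ t in (t0 - R)..(t0 + R), g x t := by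
          apply intervalIntegral.integral_mono_interval (by linarith) (by linarith) (by linarith)
          · refine Filter.Eventually.of_forall fun x => ?_
            apply intervalIntegral.integral_nonneg (by linarith)
            intro t _
            exact gnn x t
          · exact (hc1 _ _).intervalIntegrable _ _

end Pool.Agent.H48.WN
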