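import Pool.Agent.H48.WN.Cnt
import Pool.Agent.H48.WN.Gdh
import Pool.Agent.H48.WN.Zad

/-!
# [H48 WN FLO] `ζ Q + ζ'` is never small

PROOF. `L = log T`, `f = ζ Q + ζ'`. For `t0 ∈ [T, 2T]` put `J(t0) = int_{|y| ≤ L^2} e^(-y^2) (‖f(s+)‖ + ‖f(s-)‖) dy`, `s± = 1/2 ± d + i(t0+y)`.
CLAIM: `L ≤ 8 T^(d/8) J(t0) + (16/d^2) L HH d T t0` for all `t0 ∈ [T, 2T]`. If `(16/d^2) HH ≥ 1` it is clear. Otherwise `‖Gm s‖^2 ≤ 1/4` on the
region `1/2 + d ≤ Re s ≤ 2`, `|Im s - t0| ≤ L^2` (`gdh`), so `‖ζ(s) M(s)‖ ≥ 1/2`, `ζ(s) ≠ 0` and `1/‖ζ(s)‖ ≤ 2‖M(s)‖ ≤ 4 T^(d/8)` (`mo_le`), and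
`‖ζ'/ζ‖ ≤ 4 T^(d/8) C · 3T ≤ T^3` (`zeta_bd`). `cnt` applies (with this `C0`): `L ≤ 2 int e^(-y^2) (‖f(s+)‖/‖ζ(s+)‖ + ‖f(s-)‖/‖ζ(s-)‖)`
because `Q + ζ'/ζ = f/ζ`; and `‖ζ(s-)‖ ≥ ‖ζ(s+)‖` (`lln`). So `L ≤ 8 T^(d/8) J(t0)`.
Integrate over `t0 ∈ [T, 2T]` (everything continuous): `L T ≤ 8 T^(d/8) int J + (16/d^2) L T^(1 - d^2/16)`; the last term is `≤ L T/2` for
`T ≥ T0(d)`. `int_T^(2T) J dt0 = int_{|y| ≤ L^2} e^(-y^2) int_{t0} .. ≤ 2 int_{T/2}^{3T} (‖f(1/2+d+it)‖ + ‖f(1/2-d+it)‖) dt`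
(`int e^(-y^2) ≤ 2`). So `int_{T/2}^{3T} (..) ≥ L T^(1 - d/8)/32 ≥ T^(1-d)`.
-/

set_option autoImplicit false

namespace Pool.Agent.H48.WN

open Complex MeasureTheory Finset

/-- the integrand -/
private noncomputable def fF (Q : ℂ → ℂ) (d t : ℝ) : ℝ :=
  ‖riemannZeta ((1 / 2 + d : ℝ) + (t : ℂ) * I) * Q ((1 / 2 + d : ℝ) + (t : ℂ) * I) +
      deriv riemannZeta ((1 / 2 + d : ℝ) + (t : ℂ) * I)‖ +
    ‖riemannZeta ((1 / 2 - d : ℝ) + (t : ℂ) * I) * Q ((1 / 2 - d : ℝ) + (t : ℂ) * I) +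
      deriv riemannZeta ((1 / 2 - d : ℝ) + (t : ℂ) * I)‖

private theorem fF_nn (Q : ℂ → ℂ) (d t : ℝ) : 0 ≤ fF Q d t :=
  add_nonneg (norm_nonneg _) (norm_nonneg _)

private theorem zc (x t : ℝ) (ht : 0 < t) :
    ContinuousAt (fun u : ℝ => riemannZeta ((x : ℂ) + (u : ℂ) * I)) t ∧
      ContinuousAt (fun u : ℝ => deriv riemannZeta ((x : ℂ) + (u : ℂ) * I)) t := by
  have hs : ((x : ℂ) + (t : ℂ) * I) ≠ 1 := by
    intro h
    have := congrArg Complex.im h
    simp at this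
    exact ht.ne' this
  have hA : AnalyticAt ℂ riemannZeta ((x : ℂ) + (t : ℂ) * I) := by
    have h1 : DifferentiableOn ℂ riemannZeta {1}ᶜ := fun z hz =>
      (differentiableAt_riemannZeta hz).differentiableWithinAt
    exact h1.analyticAt (isOpen_compl_singleton.mem_nhds hs)
  have hc : ContinuousAt (fun u : ℝ => (x : ℂ) + (u : ℂ) * I) t := by fun_prop
  exact ⟨ContinuousAt.comp (f := fun u : ℝ => (x : ℂ) + (u : ℂ) * I) hA.continuousAt hc,
    ContinuousAt.comp (f := fun u : ℝ => (x : ℂ) + (u : ℂ) * I) hA.deriv.continuousAt hc⟩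

private theorem fF_cont {Q : ℂ → ℂ} (hQ : Differentiable ℂ Q) (d : ℝ) :
    ContinuousOn (fF Q d) (Set.Ioi 0) := by
  intro t ht
  have ht' : 0 < t := ht
  have hq : ∀ x : ℝ, ContinuousAt (fun u : ℝ => Q ((x : ℂ) + (u : ℂ) * I)) t := by
    intro x
    have h1 : Continuous (fun u : ℝ => Q ((x : ℂ) + (u : ℂ) * I)) :=
      hQ.continuous.comp (by fun_prop)
    exact h1.continuousAt
  obtain ⟨h1, h2⟩ := zc (1 / 2 + d) t ht'
  obtain ⟨h3, h4⟩ := zc (1 / 2 - d) t ht'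
  have h5 := (((h1.mul (hq (1 / 2 + d))).add h2).norm).add
    (((h3.mul (hq (1 / 2 - d))).add h4).norm)
  exact h5.continuousWithinAt

private theorem gau (R : ℝ) (hR : 0 ≤ R) : ∫ y in (-R)..R, Real.exp (-y ^ 2) ≤ 2 := by
  have h1 : Integrable (fun y : ℝ => Real.exp (-y ^ 2)) := by
    have := integrable_exp_neg_mul_sq (b := 1) one_pos
    simpa using this
  have h2 : ∫ y : ℝ, Real.exp (-y ^ 2) = √Real.pi := by
    have := integral_gaussian 1
    simpa using this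
  rw [intervalIntegral.integral_of_le (by linarith)]
  refine (setIntegral_le_integral h1 (Filter.Eventually.of_forall fun y =>
    (Real.exp_pos _).le)).trans ?_
  rw [h2]
  rw [Real.sqrt_le_left (by norm_num)]
  have := Real.pi_le_four
  norm_num
  linarith

private theorem fub {F : ℝ → ℝ} (hF : ContinuousOn F (Set.Ioi 0)) (h0 : ∀ t, 0 ≤ F t) {T R : ℝ}
    (hT : 0 < T) (hR : 0 ≤ R) (hRT : R < T / 2) :
    IntervalIntegrable (fun t0 => ∫ y in (-R)..R, Real.exp (-y ^ 2) * F (t0 + y)) volume T (2 * T) ∧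
      ∫ t0 in T..(2 * T), (∫ y in (-R)..R, Real.exp (-y ^ 2) * F (t0 + y)) ≤
        2 * ∫ t in (T / 2)..(3 * T), F t := by
  have hT2 : T ≤ 2 * T := by linarith
  have hRR : -R ≤ R := by linarith
  have hcont : ContinuousOn (fun z : ℝ × ℝ => Real.exp (-z.2 ^ 2) * F (z.1 + z.2))
      (Set.Icc T (2 * T) ×ˢ Set.Icc (-R) R) := by
    refine ContinuousOn.mul (by fun_prop) ?_
    refine hF.comp (by fun_prop) ?_
    rintro ⟨a, b⟩ ⟨ha, hb⟩
    change 0 < a + b
    have h1 : T ≤ a := ha.1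
    have h2 : -R ≤ b := hb.1
    linarith
  have hint : Integrable (fun z : ℝ × ℝ => Real.exp (-z.2 ^ 2) * F (z.1 + z.2))
      ((volume.restrict (Set.Ioc T (2 * T))).prod (volume.restrict (Set.Ioc (-R) R))) := by
    rw [Measure.prod_restrict]
    have h1 := hcont.integrableOn_compact (μ := (volume : Measure ℝ).prod (volume : Measure ℝ))
      (isCompact_Icc.prod isCompact_Icc)
    exact h1.mono_set (Set.prod_mono Set.Ioc_subset_Icc_self Set.Ioc_subset_Icc_self)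
  have hin : ∀ t0 : ℝ, ∫ y in (-R)..R, Real.exp (-y ^ 2) * F (t0 + y) =
      ∫ y in Set.Ioc (-R) R, Real.exp (-y ^ 2) * F (t0 + y) := fun t0 =>
    intervalIntegral.integral_of_le hRR
  constructor
  · rw [intervalIntegrable_iff_integrableOn_Ioc_of_le hT2]
    simp only [hin]
    exact hint.integral_prod_left
  · rw [intervalIntegral.integral_of_le hT2]
    simp only [hin]
    rw [integral_integral_swap hint]
    have hFi : ∀ a b : ℝ, 0 < a → a ≤ b → IntervalIntegrable F volume a b := fun a b ha hab =>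
      (hF.mono (fun x hx => lt_of_lt_of_le ha (by
        rw [Set.uIcc_of_le hab] at hx
        exact hx.1))).intervalIntegrable
    have hK0 : 0 ≤ ∫ t in (T / 2)..(3 * T), F t :=
      intervalIntegral.integral_nonneg (by linarith) fun t _ => h0 t
    have hstep : ∀ y ∈ Set.Ioc (-R) R, ∫ t0 in Set.Ioc T (2 * T), Real.exp (-y ^ 2) * F (t0 + y) ≤
        Real.exp (-y ^ 2) * ∫ t in (T / 2)..(3 * T), F t := by
      intro y hy
      rw [integral_const_mul]
      refine mul_le_mul_of_nonneg_left ?_ (Real.exp_pos _).le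
      rw [← intervalIntegral.integral_of_le hT2,
        intervalIntegral.integral_comp_add_right (fun t => F t)]
      have hy1 := hy.1
      have hy2 := hy.2
      exact intervalIntegral.integral_mono_interval (by linarith) (by linarith) (by linarith)
        (Filter.Eventually.of_forall h0) (hFi _ _ (by linarith) (by linarith))
    have hge : Integrable (fun y : ℝ => Real.exp (-y ^ 2) * ∫ t in (T / 2)..(3 * T), F t)
        (volume.restrict (Set.Ioc (-R) R)) := by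
      have h1 : Continuous (fun y : ℝ => Real.exp (-y ^ 2) * ∫ t in (T / 2)..(3 * T), F t) := by
        fun_prop
      exact (h1.integrableOn_Icc (a := -R) (b := R)).mono_set Set.Ioc_subset_Icc_self
    calc ∫ y in Set.Ioc (-R) R, ∫ t0 in Set.Ioc T (2 * T), Real.exp (-y ^ 2) * F (t0 + y) ≤
        ∫ y in Set.Ioc (-R) R, Real.exp (-y ^ 2) * ∫ t in (T / 2)..(3 * T), F t := by
          refine integral_mono_of_nonneg ?_ hge ?_
          · exact Filter.Eventually.of_forall fun y => integral_nonneg fun t =>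
              mul_nonneg (Real.exp_pos _).le (h0 _)
          · filter_upwards [ae_restrict_mem measurableSet_Ioc] with y hy
            exact hstep y hy
      _ = (∫ y in Set.Ioc (-R) R, Real.exp (-y ^ 2)) * ∫ t in (T / 2)..(3 * T), F t := by
          rw [integral_mul_const]
      _ ≤ 2 * ∫ t in (T / 2)..(3 * T), F t := by
          refine mul_le_mul_of_nonneg_right ?_ hK0
          rw [← intervalIntegral.integral_of_le hRR]
          exact gau R hR

/-- `Q + ζ'/ζ` in terms of `ζ Q + ζ'` -/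
private theorem quo {z z' q : ℂ} {V : ℝ} (h : 1 ≤ V * ‖z‖) :
    ‖q + z' / z‖ ≤ V * ‖z * q + z'‖ := by
  have hz : z ≠ 0 := by
    rintro rfl
    rw [norm_zero, mul_zero] at h
    linarith
  have hn : 0 < ‖z‖ := norm_pos_iff.2 hz
  have e : q + z' / z = (z * q + z') / z := by
    field_simp
  rw [e, norm_div, div_le_iff₀ hn]
  have h1 := norm_nonneg (z * q + z')
  nlinarith

private theorem clm (d C0 : ℝ) (hd : 0 < d) (hd1 : d ≤ 1 / 8) : ∃ T0 : ℝ, 10 ≤ T0 ∧ ∀ T : ℝ, T0 ≤ T →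
    (Real.log T) ^ 2 ≤ T / 4 ∧ ContinuousOn (fun t0 => HH d T t0) (Set.Icc T (2 * T)) ∧
    (∫ t0 in T..(2 * T), HH d T t0 ≤ T ^ (1 - d ^ 2 / 16)) ∧
    ∀ Q : ℂ → ℂ, Differentiable ℂ Q →
    (∀ s : ℂ, 1 / 4 ≤ s.re → s.re ≤ 3 / 4 → T / 2 ≤ s.im → s.im ≤ 3 * T → ‖Q s‖ ≤ T ^ C0) →
    ∀ t0 : ℝ, T ≤ t0 → t0 ≤ 2 * T → Real.log T ≤ 8 * T ^ (d / 8) *
      (∫ y in (-(Real.log T) ^ 2)..((Real.log T) ^ 2), Real.exp (-y ^ 2) * fF Q d (t0 + y)) +
      (16 / d ^ 2) * Real.log T * HH d T t0 := by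
  obtain ⟨T1, hT1, h1⟩ := gdh d hd hd1
  obtain ⟨T2, hT2, h2⟩ := cnt C0
  obtain ⟨T3, C3, hT3, hC3, h3⟩ := lln
  obtain ⟨C, hC, hz⟩ := zeta_bd
  obtain ⟨T4, hT4⟩ : ∃ T4 : ℝ, ∀ T ≥ T4, (Real.log T) ^ 2 ≤ T / 4 := by
    have h5 := (Real.isLittleO_pow_log_id_atTop (n := 2)).bound (show (0 : ℝ) < 1 / 4 by norm_num)
    obtain ⟨a, ha⟩ := Filter.eventually_atTop.1 (h5.and (Filter.eventually_ge_atTop 0))
    refine ⟨a, fun T hT => ?_⟩
    obtain ⟨h6, h7⟩ := ha T hT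
    rw [Real.norm_of_nonneg (by positivity), id, Real.norm_of_nonneg h7] at h6
    linarith
  refine ⟨T1 + T2 + 2 * T3 + |T4| + 12 * C + 10, by
    have := abs_nonneg T4
    linarith, fun T hT => ?_⟩
  have hab := abs_nonneg T4
  have hab' := le_abs_self T4
  have hTa : T1 ≤ T := by linarith
  have hTb : T2 ≤ T := by linarith
  have hTc : 2 * T3 ≤ T := by linarith
  have hTd : T4 ≤ T := by linarith
  have hTe : 12 * C ≤ T := by linarith
  have hTf : 10 ≤ T := by linarith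
  have hT0 : 0 < T := by linarith
  obtain ⟨hco, hin, h1⟩ := h1 T hTa
  have hR4 := hT4 T hTd
  refine ⟨hR4, hco, hin, fun Q hQ hQb t0 ht1 ht2 => ?_⟩
  have h1 := (h1 t0 ht1 ht2)
  obtain ⟨hH0, h1⟩ := h1
  have h2 := h2 T hTb d t0 hd hd1 ht1 ht2 Q hQ hQb
  obtain ⟨R, hR⟩ : ∃ R, R = (Real.log T) ^ 2 := ⟨_, rfl⟩
  have hL0 : 0 ≤ Real.log T := Real.log_nonneg (by linarith)
  rw [← hR] at h1 h2 hR4 ⊢
  have hR0 : 0 ≤ R := by
    rw [hR]
    positivity
  have hTd8 : 0 < T ^ (d / 8) := Real.rpow_pos_of_pos hT0 _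
  have hJ0 : 0 ≤ ∫ y in (-R)..R, Real.exp (-y ^ 2) * fF Q d (t0 + y) :=
    intervalIntegral.integral_nonneg (by linarith) fun y _ =>
      mul_nonneg (Real.exp_pos _).le (fF_nn _ _ _)
  by_cases hH : 1 ≤ 16 / d ^ 2 * HH d T t0
  · have h4 : Real.log T * 1 ≤ Real.log T * (16 / d ^ 2 * HH d T t0) :=
      mul_le_mul_of_nonneg_left hH hL0
    have h5 : 0 ≤ 8 * T ^ (d / 8) * ∫ y in (-R)..R, Real.exp (-y ^ 2) * fF Q d (t0 + y) :=
      mul_nonneg (by positivity) hJ0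
    have h6 : Real.log T * (16 / d ^ 2 * HH d T t0) = 16 / d ^ 2 * Real.log T * HH d T t0 := by ring
    linarith
  · rw [not_le] at hH
    have hreg : ∀ s : ℂ, 1 / 2 + d ≤ s.re → s.re ≤ 2 → |s.im - t0| ≤ R →
        1 ≤ 4 * T ^ (d / 8) * ‖riemannZeta s‖ := by
      intro s hs1 hs2 hs3
      have h4 := h1 s hs1 hs2 hs3
      have h5 : ‖Gm d T s‖ ^ 2 ≤ (1 / 2) ^ 2 := by
        have e : 4 / d ^ 2 * HH d T t0 = (16 / d ^ 2 * HH d T t0) / 4 := by ring
        rw [e] at h4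
        linarith
      have h6 : ‖Gm d T s‖ ≤ 1 / 2 := by
        have := abs_le_of_sq_le_sq h5 (by norm_num)
        rwa [abs_of_nonneg (norm_nonneg _)] at this
      have h7 : (1 : ℝ) / 2 ≤ ‖riemannZeta s * Mo d T s‖ := by
        have e : (1 : ℂ) = riemannZeta s * Mo d T s - Gm d T s := by
          unfold Gm
          ring
        have h8 : (1 : ℝ) ≤ ‖riemannZeta s * Mo d T s‖ + ‖Gm d T s‖ := by
          have := norm_sub_le (riemannZeta s * Mo d T s) (Gm d T s)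
          rw [← e, norm_one] at this
          exact this
        linarith
      rw [norm_mul] at h7
      have h8 := mo_le d T hd (by linarith) s (by linarith)
      have h9 := mul_le_mul_of_nonneg_left h8 (norm_nonneg (riemannZeta s))
      linarith
    have hreg2 : ∀ s : ℂ, 1 / 2 + d ≤ s.re → s.re ≤ 2 → |s.im - t0| ≤ R →
        riemannZeta s ≠ 0 ∧ ‖deriv riemannZeta s / riemannZeta s‖ ≤ T ^ 3 := by
      intro s hs1 hs2 hs3
      have h4 := hreg s hs1 hs2 hs3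
      have h5 : riemannZeta s ≠ 0 := by
        intro h
        rw [h, norm_zero, mul_zero] at h4
        linarith
      refine ⟨h5, ?_⟩
      have h6 : 0 < ‖riemannZeta s‖ := norm_pos_iff.2 h5
      rw [norm_div, div_le_iff₀ h6]
      rw [abs_le] at hs3
      have h7 := (hz s (by linarith) (by linarith) (by linarith)).2
      have h8 : C * s.im ≤ C * (3 * T) := mul_le_mul_of_nonneg_left (by linarith) (by linarith)
      have h9 : C * (3 * T) * 1 ≤ C * (3 * T) * (4 * T ^ (d / 8) * ‖riemannZeta s‖) :=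
        mul_le_mul_of_nonneg_left h4 (by positivity)
      have h10 : T ^ (d / 8) ≤ T := by
        calc T ^ (d / 8) ≤ T ^ (1 : ℝ) :=
              Real.rpow_le_rpow_of_exponent_le (by linarith) (by linarith)
          _ = T := Real.rpow_one T
      have h11 : (12 * C) * T * T ^ (d / 8) ≤ T * T * T :=
        mul_le_mul (mul_le_mul_of_nonneg_right hTe hT0.le) h10 hTd8.le (by positivity)
      have h12 := mul_le_mul_of_nonneg_right h11 h6.le
      calc ‖deriv riemannZeta s‖ ≤ C * (3 * T) * (4 * T ^ (d / 8) * ‖riemannZeta s‖) := by linarith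
        _ = (12 * C) * T * T ^ (d / 8) * ‖riemannZeta s‖ := by ring
        _ ≤ T * T * T * ‖riemannZeta s‖ := h12
        _ = T ^ 3 * ‖riemannZeta s‖ := by ring
    have h2 := h2 hreg2
    have hRR : -R ≤ R := by linarith
    have hgi : Integrable (fun y : ℝ => Real.exp (-y ^ 2) * (4 * T ^ (d / 8) * fF Q d (t0 + y)))
        (volume.restrict (Set.Ioc (-R) R)) := by
      have h4 : ContinuousOn (fun y : ℝ => Real.exp (-y ^ 2) * (4 * T ^ (d / 8) * fF Q d (t0 + y)))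
          (Set.Icc (-R) R) := by
        refine ContinuousOn.mul (by fun_prop) (continuousOn_const.mul ?_)
        refine (fF_cont hQ d).comp (by fun_prop) ?_
        intro y hy
        change 0 < t0 + y
        have := hy.1
        linarith
      exact (h4.integrableOn_compact isCompact_Icc).mono_set Set.Ioc_subset_Icc_self
    have hle : (∫ y in (-R)..R, Real.exp (-y ^ 2) *
      (‖Q ((1 / 2 + d : ℝ) + ((t0 + y : ℝ) : ℂ) * I) +
          deriv riemannZeta ((1 / 2 + d : ℝ) + ((t0 + y : ℝ) : ℂ) * I) /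
            riemannZeta ((1 / 2 + d : ℝ) + ((t0 + y : ℝ) : ℂ) * I)‖ +
        ‖Q ((1 / 2 - d : ℝ) + ((t0 + y : ℝ) : ℂ) * I) +
          deriv riemannZeta ((1 / 2 - d : ℝ) + ((t0 + y : ℝ) : ℂ) * I) /
            riemannZeta ((1 / 2 - d : ℝ) + ((t0 + y : ℝ) : ℂ) * I)‖)) ≤
        ∫ y in (-R)..R, Real.exp (-y ^ 2) * (4 * T ^ (d / 8) * fF Q d (t0 + y)) := by
      rw [intervalIntegral.integral_of_le hRR, intervalIntegral.integral_of_le hRR]
      refine integral_mono_of_nonneg ?_ hgi ?_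
      · exact Filter.Eventually.of_forall fun y => mul_nonneg (Real.exp_pos _).le
          (add_nonneg (norm_nonneg _) (norm_nonneg _))
      · filter_upwards [ae_restrict_mem measurableSet_Ioc] with y hy
        refine mul_le_mul_of_nonneg_left ?_ (Real.exp_pos _).le
        have hy1 := hy.1
        have hy2 := hy.2
        have hre : (((1 / 2 + d : ℝ) : ℂ) + ((t0 + y : ℝ) : ℂ) * I).re = 1 / 2 + d := by simp
        have him : (((1 / 2 + d : ℝ) : ℂ) + ((t0 + y : ℝ) : ℂ) * I).im = t0 + y := by simp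
        have h4 := hreg (((1 / 2 + d : ℝ) : ℂ) + ((t0 + y : ℝ) : ℂ) * I) (by rw [hre])
          (by rw [hre]; linarith) (by
            rw [him, abs_le]
            constructor <;> linarith)
        have h5 : riemannZeta (((1 / 2 + d : ℝ) : ℂ) + ((t0 + y : ℝ) : ℂ) * I) ≠ 0 := by
          intro h
          rw [h, norm_zero, mul_zero] at h4
          linarith
        have h6 := (h3 d (t0 + y) hd hd1 (by linarith) h5).1
        have h7 : 1 ≤ 4 * T ^ (d / 8) * ‖riemannZeta (((1 / 2 - d : ℝ) : ℂ) +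
            ((t0 + y : ℝ) : ℂ) * I)‖ := h4.trans (mul_le_mul_of_nonneg_left h6 (by positivity))
        have h8 := quo (z' := deriv riemannZeta (((1 / 2 + d : ℝ) : ℂ) + ((t0 + y : ℝ) : ℂ) * I))
          (q := Q (((1 / 2 + d : ℝ) : ℂ) + ((t0 + y : ℝ) : ℂ) * I)) h4
        have h9 := quo (z' := deriv riemannZeta (((1 / 2 - d : ℝ) : ℂ) + ((t0 + y : ℝ) : ℂ) * I))
          (q := Q (((1 / 2 - d : ℝ) : ℂ) + ((t0 + y : ℝ) : ℂ) * I)) h7
        unfold fF
        rw [mul_add]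
        exact add_le_add h8 h9
    have heq : (∫ y in (-R)..R, Real.exp (-y ^ 2) * (4 * T ^ (d / 8) * fF Q d (t0 + y))) =
        4 * T ^ (d / 8) * ∫ y in (-R)..R, Real.exp (-y ^ 2) * fF Q d (t0 + y) := by
      rw [← intervalIntegral.integral_const_mul]
      refine intervalIntegral.integral_congr fun y _ => ?_
      ring
    rw [heq] at hle
    have h13 : 0 ≤ 16 / d ^ 2 * Real.log T * HH d T t0 := by positivity
    calc Real.log T ≤ 2 * (4 * T ^ (d / 8) *
          ∫ y in (-R)..R, Real.exp (-y ^ 2) * fF Q d (t0 + y)) :=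
          h2.trans (mul_le_mul_of_nonneg_left hle (by norm_num))
      _ = 8 * T ^ (d / 8) * (∫ y in (-R)..R, Real.exp (-y ^ 2) * fF Q d (t0 + y)) := by ring
      _ ≤ _ := le_add_of_nonneg_right h13

theorem flo (d C0 : ℝ) (hd : 0 < d) (hd1 : d ≤ 1 / 8) : ∃ T0 : ℝ, 10 ≤ T0 ∧ ∀ T : ℝ, T0 ≤ T →
    ∀ Q : ℂ → ℂ, Differentiable ℂ Q →
    (∀ s : ℂ, 1 / 4 ≤ s.re → s.re ≤ 3 / 4 → T / 2 ≤ s.im → s.im ≤ 3 * T → ‖Q s‖ ≤ T ^ C0) →
    T ^ (1 - d) ≤ ∫ t in (T / 2)..(3 * T),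
      (‖riemannZeta ((1 / 2 + d : ℝ) + (t : ℂ) * I) * Q ((1 / 2 + d : ℝ) + (t : ℂ) * I) +
          deriv riemannZeta ((1 / 2 + d : ℝ) + (t : ℂ) * I)‖ +
        ‖riemannZeta ((1 / 2 - d : ℝ) + (t : ℂ) * I) * Q ((1 / 2 - d : ℝ) + (t : ℂ) * I) +
          deriv riemannZeta ((1 / 2 - d : ℝ) + (t : ℂ) * I)‖) := by
  obtain ⟨T1, hT1, h1⟩ := clm d C0 hd hd1
  have hd2 : 0 < d ^ 2 / 16 := by positivity
  obtain ⟨T2, h2⟩ := Filter.eventually_atTop.1
    ((tendsto_rpow_atTop hd2).eventually_ge_atTop (32 / d ^ 2))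
  refine ⟨T1 + |T2| + Real.exp 32, by
    have := abs_nonneg T2
    have := Real.exp_pos 32
    linarith, fun T hT Q hQ hQb => ?_⟩
  have e1 := abs_nonneg T2
  have e2 := le_abs_self T2
  have e3 := Real.exp_pos 32
  have hTa : T1 ≤ T := by linarith
  have hT0 : 0 < T := by linarith
  have hT1' : 1 ≤ T := by linarith
  have hL : 32 ≤ Real.log T := (Real.le_log_iff_exp_le hT0).2 (by linarith)
  obtain ⟨hR4, hco, hin, h1⟩ := h1 T hTa
  have h1 := h1 Q hQ hQb
  have h2 := h2 T (by linarith)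
  obtain ⟨R, hR⟩ : ∃ R, R = (Real.log T) ^ 2 := ⟨_, rfl⟩
  rw [← hR] at h1 hR4
  have hR0 : 0 ≤ R := by
    rw [hR]
    positivity
  change T ^ (1 - d) ≤ ∫ t in (T / 2)..(3 * T), fF Q d t
  obtain ⟨hJi, hJ⟩ := fub (fF_cont hQ d) (fF_nn Q d) hT0 hR0 (by linarith)
  obtain ⟨K, hK⟩ : ∃ K, K = ∫ t in (T / 2)..(3 * T), fF Q d t := ⟨_, rfl⟩
  rw [← hK] at hJ ⊢
  have hHi : IntervalIntegrable (fun t0 => HH d T t0) volume T (2 * T) := by
    refine ContinuousOn.intervalIntegrable ?_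
    rw [Set.uIcc_of_le (by linarith)]
    exact hco
  obtain ⟨J, hJd⟩ : ∃ J : ℝ → ℝ, J = fun t0 =>
    ∫ y in (-R)..R, Real.exp (-y ^ 2) * fF Q d (t0 + y) := ⟨_, rfl⟩
  rw [← hJd] at hJi
  have hJ' : ∫ t0 in T..(2 * T), J t0 ≤ 2 * K := by
    rw [hJd]
    exact hJ
  have hmono : ∫ _t0 in T..(2 * T), Real.log T ≤ ∫ t0 in T..(2 * T),
      (8 * T ^ (d / 8) * J t0 + 16 / d ^ 2 * Real.log T * HH d T t0) := by
    refine intervalIntegral.integral_mono_on (by linarith) intervalIntegrable_const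
      ((hJi.const_mul _).add (hHi.const_mul _)) fun t0 ht0 => ?_
    rw [hJd]
    exact h1 t0 ht0.1 ht0.2
  rw [intervalIntegral.integral_add (hJi.const_mul _) (hHi.const_mul _),
    intervalIntegral.integral_const_mul, intervalIntegral.integral_const_mul,
    intervalIntegral.integral_const, smul_eq_mul] at hmono
  obtain ⟨V, hV⟩ : ∃ V, V = T ^ (d / 8) := ⟨_, rfl⟩
  have hV0 : 0 < V := by
    rw [hV]
    positivity
  rw [← hV] at hmono
  have h3 : 16 / d ^ 2 * Real.log T * T ^ (1 - d ^ 2 / 16) ≤ Real.log T * T / 2 := by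
    rw [Real.rpow_sub hT0, Real.rpow_one]
    have h4 : 0 < T ^ (d ^ 2 / 16) := Real.rpow_pos_of_pos hT0 _
    have h5 : 16 / d ^ 2 * Real.log T * (T / T ^ (d ^ 2 / 16)) =
        (32 / d ^ 2) / T ^ (d ^ 2 / 16) * (Real.log T * T / 2) := by
      field_simp
      ring
    rw [h5]
    have h6 : (32 / d ^ 2) / T ^ (d ^ 2 / 16) ≤ 1 := (div_le_one h4).2 h2
    have h7 : 0 ≤ Real.log T * T / 2 := by positivity
    exact mul_le_of_le_one_left h7 h6
  have h4 : 8 * V * ∫ t0 in T..(2 * T), J t0 ≤ 8 * V * (2 * K) :=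
    mul_le_mul_of_nonneg_left hJ' (by positivity)
  have h5 : 16 / d ^ 2 * Real.log T * ∫ t0 in T..(2 * T), HH d T t0 ≤
      16 / d ^ 2 * Real.log T * T ^ (1 - d ^ 2 / 16) :=
    mul_le_mul_of_nonneg_left hin (by positivity)
  have h6 : Real.log T * T / 2 ≤ 16 * V * K := by
    have e : (2 * T - T) * Real.log T = Real.log T * T := by ring
    rw [e] at hmono
    linarith
  have h7 : T ≤ V * K := by
    have h8 : 32 * T ≤ Real.log T * T := mul_le_mul_of_nonneg_right hL hT0.le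
    linarith
  have h8 : V * T ^ (1 - d) ≤ T := by
    rw [hV, ← Real.rpow_add hT0]
    calc T ^ (d / 8 + (1 - d)) ≤ T ^ (1 : ℝ) :=
          Real.rpow_le_rpow_of_exponent_le hT1' (by linarith)
      _ = T := Real.rpow_one T
  exact le_of_mul_le_mul_left (h8.trans h7) hV0

end Pool.Agent.H48.WN
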