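import Pool.Agent.H48.WN.Fid
import Pool.Agent.H48.WN.Win
import Pool.Agent.H48.WN.Dsq
import Pool.Agent.H48.WN.Flo

/-!
# [H48 WN RLO] the window polynomial is large in mean square

PROOF. `κ = ε/(100(b+2)) ≤ 1/300`, `h = d = κ`. `flo` with `Q = Qp b κ T` (a finite Dirichlet polynomial, entire), `C0 = b + 5`
(`‖Qp(s)‖ ≤ sum_{n ≤ N} log n ≤ N · N^(1/2).. ≤ T^(b+5)`; any bound `≤ N log N`, `N ≤ T^(b+3)`, `log N ≤ T`): `T^(1-κ) ≤ int_{T/2}^{3T} (‖ff(1/2+κ+it)‖ +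
‖ff(1/2-κ+it)‖) dt`. `fid`: `‖ff‖ ≤ ‖Wn‖ + T^(-1)`. `win`: `T^(1-κ) ≤ C int_{T/4}^{4T} (‖R+‖‖D+‖ + ‖R-‖‖D-‖) + 2 + 5`. Cauchy-Schwarz and
`dsq`: `≤ C (int ‖R+‖^2)^(1/2) T^((1+9κ)/2) + C (int ‖R-‖^2)^(1/2) T^((1+9κ)/2) + 7 ≤ 2 C (I)^(1/2) T^((1+9κ)/2) + 7` with `I` the right side of the
theorem. So `I ≥ (T^(1-κ) - 7)^2/(4 C^2 T^(1+9κ)) ≥ T^(1 - 12κ)` for `T ≥ T0`, and `12 κ ≤ 12 ε/300 ≤ ε/4`.
(An `inner_mul_le_norm_mul_norm`-free way: `2 ‖R‖‖D‖ ≤ λ ‖R‖^2 + λ^(-1) ‖D‖^2` with a suitable `λ > 0`.)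
-/

set_option autoImplicit false

namespace Pool.Agent.H48.WN

open Complex MeasureTheory Finset

private theorem dp_diff (c : ℕ → ℂ) (w : ℝ → ℝ) (T : ℝ) (N : ℕ) : Differentiable ℂ (Dp c w T N) := by
  unfold Dp
  refine Differentiable.fun_sum fun n hn => ?_
  have hn0 : (n : ℂ) ≠ 0 := by
    have := (Finset.mem_Icc.1 hn).1
    exact_mod_cast (by omega : n ≠ 0)
  exact (differentiable_const _).mul ((differentiable_id.neg).const_cpow (Or.inl hn0))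

private theorem line_cont {F : ℂ → ℂ} (hF : Continuous F) (σ : ℝ) :
    Continuous (fun t : ℝ => ‖F ((σ : ℂ) + (t : ℂ) * I)‖) :=
  (hF.comp (by fun_prop)).norm

private theorem wn_cont (b h T : ℝ) : Continuous (Wn b h T) := by
  unfold Wn
  refine continuous_finsetSum _ fun n hn => ?_
  have hn0 : (n : ℂ) ≠ 0 := by
    have := (Finset.mem_Icc.1 hn).1
    exact_mod_cast (by omega : n ≠ 0)
  refine Continuous.mul (continuous_const.mul (Continuous.const_cpow continuous_neg (Or.inl hn0))) ?_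
  unfold Zp
  exact (dp_diff _ _ _ _).continuous

private theorem qp_bd (b h T : ℝ) (hT : 10 ≤ T) (s : ℂ) (hs : 0 ≤ s.re) :
    ‖Qp b h T s‖ ≤ T ^ (2 * (b + 3)) := by
  have hTpos : 0 < T := by linarith
  have hN2 : (NN b T : ℝ) ≤ T ^ (b + 3) := by
    unfold NN
    exact Nat.floor_le (by positivity)
  have h1 : ∀ n ∈ Icc 1 (NN b T), ‖La n * ((st (b + h) h (Real.log n / Real.log T) : ℝ) : ℂ) *
      (n : ℂ) ^ (-s)‖ ≤ T ^ (b + 3) := by
    intro n hn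
    have hn1 : 1 ≤ n := (Finset.mem_Icc.1 hn).1
    have hnN : n ≤ NN b T := (Finset.mem_Icc.1 hn).2
    have hnr : (1:ℝ) ≤ n := by exact_mod_cast hn1
    have hnr0 : (0:ℝ) < n := by linarith
    have hnT : (n : ℝ) ≤ T ^ (b + 3) := by
      have : (n : ℝ) ≤ NN b T := by exact_mod_cast hnN
      linarith
    have h5 : ‖La n‖ ≤ T ^ (b + 3) := by
      unfold La
      rw [Complex.norm_real, Real.norm_eq_abs, abs_of_nonneg ArithmeticFunction.vonMangoldt_nonneg]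
      calc _ ≤ Real.log n := ArithmeticFunction.vonMangoldt_le_log
        _ ≤ n := Real.log_le_self hnr0.le
        _ ≤ _ := hnT
    have h6 : ‖(n : ℂ) ^ (-s)‖ ≤ 1 := by
      rw [Complex.norm_natCast_cpow_of_pos (by omega)]
      rw [Complex.neg_re]
      exact Real.rpow_le_one_of_one_le_of_nonpos hnr (by linarith)
    have h7 : ‖((st (b + h) h (Real.log n / Real.log T) : ℝ) : ℂ)‖ ≤ 1 := by
      rw [Complex.norm_real, Real.norm_eq_abs, abs_of_nonneg (st_nonneg _ _ _)]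
      exact st_le_one _ _ _
    rw [norm_mul, norm_mul]
    calc _ ≤ T ^ (b + 3) * 1 * 1 := by
          refine mul_le_mul (mul_le_mul h5 h7 (norm_nonneg _) (by positivity)) h6 (norm_nonneg _)
            (by positivity)
      _ = _ := by ring
  unfold Qp Dp
  refine (norm_sum_le _ _).trans ((Finset.sum_le_sum h1).trans ?_)
  rw [Finset.sum_const, nsmul_eq_mul, Nat.card_Icc, Nat.add_sub_cancel]
  calc (NN b T : ℝ) * T ^ (b + 3) ≤ T ^ (b + 3) * T ^ (b + 3) :=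
        mul_le_mul_of_nonneg_right hN2 (by positivity)
    _ = T ^ (2 * (b + 3)) := by
        rw [← Real.rpow_add hTpos]
        congr 1
        ring

/-- Cauchy-Schwarz with a parameter -/
private theorem cs_int {R D : ℝ → ℝ} (hR : Continuous R) (hD : Continuous D) {a b l : ℝ}
    (hab : a ≤ b) (hl : 0 < l) :
    ∫ t in a..b, R t * D t ≤ l / 2 * (∫ t in a..b, R t ^ 2) + 1 / (2 * l) * ∫ t in a..b, D t ^ 2 := by
  have h1 : ∫ t in a..b, R t * D t ≤ ∫ t in a..b, (l / 2 * R t ^ 2 + 1 / (2 * l) * D t ^ 2) := by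
    refine intervalIntegral.integral_mono_on hab ((hR.mul hD).intervalIntegrable _ _)
      (((continuous_const.mul (hR.pow 2)).add (continuous_const.mul (hD.pow 2))).intervalIntegrable _ _)
      fun t _ => ?_
    have h2 : l / 2 * R t ^ 2 + 1 / (2 * l) * D t ^ 2 - R t * D t = (l * R t - D t) ^ 2 / (2 * l) := by
      field_simp
      ring
    have h3 : 0 ≤ (l * R t - D t) ^ 2 / (2 * l) := by positivity
    linarith
  have i1 : IntervalIntegrable (fun t => l / 2 * R t ^ 2) volume a b :=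
    (continuous_const.mul (hR.pow 2)).intervalIntegrable _ _
  have i2 : IntervalIntegrable (fun t => 1 / (2 * l) * D t ^ 2) volume a b :=
    (continuous_const.mul (hD.pow 2)).intervalIntegrable _ _
  rw [intervalIntegral.integral_add i1 i2,
    intervalIntegral.integral_const_mul, intervalIntegral.integral_const_mul] at h1
  exact h1

private theorem fin_num {T κ C I1 I2 : ℝ} (hT : 784 ≤ T) (hκ : 0 < κ) (hκ1 : κ ≤ 1 / 2) (hC : 0 < C)
    (hbig : 4 * C ^ 2 ≤ T ^ κ)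
    (hmain : ∀ l : ℝ, 0 < l → T ^ (1 - κ) ≤ C * (l / 2 * (I1 + I2) + 1 / (2 * l) * (2 * T ^ (1 + 9 * κ))) + 7) :
    T ^ (1 - 12 * κ) ≤ I1 + I2 := by
  have hTpos : 0 < T := by linarith
  have hT1 : 1 ≤ T := by linarith
  have h1 := hmain (4 * C * T ^ (10 * κ)) (by positivity)
  have h2 : C * (1 / (2 * (4 * C * T ^ (10 * κ))) * (2 * T ^ (1 + 9 * κ))) = T ^ (1 - κ) / 4 := by
    have : T ^ (1 + 9 * κ) = T ^ (1 - κ) * T ^ (10 * κ) := by
      rw [← Real.rpow_add hTpos]; congr 1; ring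
    rw [this]
    have h3 : T ^ (10 * κ) ≠ 0 := by positivity
    field_simp
  have h4 : 28 ≤ T ^ (1 - κ) := by
    calc (28:ℝ) = (784 : ℝ) ^ (1 / 2 : ℝ) := by
          rw [show (784:ℝ) = 28 ^ (2 : ℝ) by norm_num, ← Real.rpow_mul (by norm_num)]
          norm_num
      _ ≤ T ^ (1 / 2 : ℝ) := Real.rpow_le_rpow (by norm_num) hT (by norm_num)
      _ ≤ T ^ (1 - κ) := Real.rpow_le_rpow_of_exponent_le hT1 (by linarith)
  have h5 : T ^ (1 - κ) / 2 ≤ (2 * C ^ 2) * T ^ (10 * κ) * (I1 + I2) := by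
    have h6 : C * (4 * C * T ^ (10 * κ) / 2 * (I1 + I2) + 1 / (2 * (4 * C * T ^ (10 * κ))) *
        (2 * T ^ (1 + 9 * κ))) = (2 * C ^ 2) * T ^ (10 * κ) * (I1 + I2) +
        C * (1 / (2 * (4 * C * T ^ (10 * κ))) * (2 * T ^ (1 + 9 * κ))) := by ring
    rw [h6, h2] at h1
    linarith
  have h7 : T ^ (1 - κ) = T ^ (1 - 12 * κ) * T ^ κ * T ^ (10 * κ) := by
    rw [← Real.rpow_add hTpos, ← Real.rpow_add hTpos]; congr 1; ring
  rw [h7] at h5
  have h8 : 0 < T ^ (10 * κ) := by positivity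
  have h9 : T ^ (1 - 12 * κ) * T ^ κ ≤ 4 * C ^ 2 * (I1 + I2) := by
    have : (T ^ (1 - 12 * κ) * T ^ κ) * T ^ (10 * κ) ≤ (4 * C ^ 2 * (I1 + I2)) * T ^ (10 * κ) := by
      linarith
    exact le_of_mul_le_mul_right this h8
  have h10 : 0 < T ^ (1 - 12 * κ) := by positivity
  have h11 : T ^ (1 - 12 * κ) * (4 * C ^ 2) ≤ (I1 + I2) * (4 * C ^ 2) := by
    calc _ ≤ T ^ (1 - 12 * κ) * T ^ κ := mul_le_mul_of_nonneg_left hbig h10.le
      _ ≤ _ := by linarith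
  exact le_of_mul_le_mul_right h11 (by positivity)

theorem rlo (b ε : ℝ) (hb : 1 ≤ b) (hε : 0 < ε) (hε1 : ε ≤ 1) :
    ∃ T0 : ℝ, 10 ≤ T0 ∧ ∀ T : ℝ, T0 ≤ T → T ^ (1 - ε / 4) ≤
      ∫ t in (T / 4)..(4 * T),
        (‖Rp b (ε / (100 * (b + 2))) T ((1 / 2 + ε / (100 * (b + 2)) : ℝ) + (t : ℂ) * I)‖ ^ 2 +
          ‖Rp b (ε / (100 * (b + 2))) T ((1 / 2 - ε / (100 * (b + 2)) : ℝ) + (t : ℂ) * I)‖ ^ 2) := by
  obtain ⟨κ, hκ⟩ : ∃ κ : ℝ, κ = ε / (100 * (b + 2)) := ⟨_, rfl⟩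
  rw [← hκ]
  have hκ0 : 0 < κ := by rw [hκ]; positivity
  have hκ300 : κ ≤ ε / 300 := by
    rw [hκ]
    exact div_le_div_of_nonneg_left hε.le (by norm_num) (by linarith)
  have hκ1 : κ ≤ 1 / 100 := by linarith
  obtain ⟨T1, hT1, hflo⟩ := flo κ (2 * (b + 3)) hκ0 (by linarith)
  obtain ⟨T2, hT2, hfid⟩ := fid b κ hb hκ0 hκ1
  obtain ⟨C, T3, hC, hT3, hwin⟩ := win b κ hb hκ0
  obtain ⟨T4, hT4, hdsq⟩ := dsq b κ κ hb hκ0 hκ1 hκ0 (by linarith)
  obtain ⟨T5, hT5⟩ := Filter.eventually_atTop.1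
    ((tendsto_rpow_atTop hκ0).eventually_ge_atTop (4 * C ^ 2))
  refine ⟨784 + |T1| + |T2| + |T3| + |T4| + |T5|, by
    have := abs_nonneg T1
    have := abs_nonneg T2
    have := abs_nonneg T3
    have := abs_nonneg T4
    have := abs_nonneg T5
    linarith, fun T hT => ?_⟩
  have a1 := abs_nonneg T1
  have a2 := abs_nonneg T2
  have a3 := abs_nonneg T3
  have a4 := abs_nonneg T4
  have a5 := abs_nonneg T5
  have b1 := le_abs_self T1
  have b2 := le_abs_self T2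
  have b3 := le_abs_self T3
  have b4 := le_abs_self T4
  have b5 := le_abs_self T5
  have hT784 : 784 ≤ T := by linarith
  have hTpos : 0 < T := by linarith
  have hT1' : 1 ≤ T := by linarith
  have hF := hflo T (by linarith) (Qp b κ T) (dp_diff _ _ _ _)
    (fun s hs1 _ _ _ => qp_bd b κ T (by linarith) s (by linarith))
  have hF' : T ^ (1 - κ) ≤ ∫ t in (T / 2)..(3 * T),
      (‖ff b κ T ((1 / 2 + κ : ℝ) + (t : ℂ) * I)‖ + ‖ff b κ T ((1 / 2 - κ : ℝ) + (t : ℂ) * I)‖) := hF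
  -- from ff to Wn
  have hW : ∫ t in (T / 2)..(3 * T),
      (‖ff b κ T ((1 / 2 + κ : ℝ) + (t : ℂ) * I)‖ + ‖ff b κ T ((1 / 2 - κ : ℝ) + (t : ℂ) * I)‖) ≤
      ∫ t in (T / 2)..(3 * T), (‖Wn b κ T ((1 / 2 + κ : ℝ) + (t : ℂ) * I)‖ +
        ‖Wn b κ T ((1 / 2 - κ : ℝ) + (t : ℂ) * I)‖ + 2 * T ^ (-(1 : ℝ))) := by
    rw [intervalIntegral.integral_of_le (by linarith), intervalIntegral.integral_of_le (by linarith)]
    refine integral_mono_of_nonneg ?_ ?_ ?_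
    · exact Filter.Eventually.of_forall fun t => add_nonneg (norm_nonneg _) (norm_nonneg _)
    · have hc : Continuous (fun t : ℝ => ‖Wn b κ T ((1 / 2 + κ : ℝ) + (t : ℂ) * I)‖ +
          ‖Wn b κ T ((1 / 2 - κ : ℝ) + (t : ℂ) * I)‖ + 2 * T ^ (-(1 : ℝ))) :=
        ((line_cont (wn_cont b κ T) (1 / 2 + κ)).add (line_cont (wn_cont b κ T) (1 / 2 - κ))).add
          continuous_const
      exact (hc.integrableOn_Icc (a := T / 2) (b := 3 * T)).mono_set Set.Ioc_subset_Icc_self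
    · filter_upwards [ae_restrict_mem measurableSet_Ioc] with t ht
      have ht1 := ht.1
      have ht2 := ht.2
      have key : ∀ σ : ℝ, 1 / 4 ≤ σ → σ ≤ 3 / 4 → ‖ff b κ T ((σ : ℂ) + (t : ℂ) * I)‖ ≤
          ‖Wn b κ T ((σ : ℂ) + (t : ℂ) * I)‖ + T ^ (-(1 : ℝ)) := by
        intro σ hσ1 hσ2
        have hre : ((σ : ℂ) + (t : ℂ) * I).re = σ := by simp
        have him : ((σ : ℂ) + (t : ℂ) * I).im = t := by simp
        have h1 := hfid T (by linarith) ((σ : ℂ) + (t : ℂ) * I) (by rw [hre]; exact hσ1)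
          (by rw [hre]; exact hσ2) (by rw [him]; linarith) (by rw [him]; linarith)
        have h2 : ff b κ T ((σ : ℂ) + (t : ℂ) * I) =
          (ff b κ T ((σ : ℂ) + (t : ℂ) * I) + Wn b κ T ((σ : ℂ) + (t : ℂ) * I)) -
            Wn b κ T ((σ : ℂ) + (t : ℂ) * I) := by ring
        rw [h2]
        refine (norm_sub_le _ _).trans ?_
        linarith
      have k1 := key (1 / 2 + κ) (by linarith) (by linarith)
      have k2 := key (1 / 2 - κ) (by linarith) (by linarith)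
      linarith
  have hW2 : ∫ t in (T / 2)..(3 * T), (‖Wn b κ T ((1 / 2 + κ : ℝ) + (t : ℂ) * I)‖ +
        ‖Wn b κ T ((1 / 2 - κ : ℝ) + (t : ℂ) * I)‖ + 2 * T ^ (-(1 : ℝ))) =
      (∫ t in (T / 2)..(3 * T), ‖Wn b κ T ((1 / 2 + κ : ℝ) + (t : ℂ) * I)‖) +
      (∫ t in (T / 2)..(3 * T), ‖Wn b κ T ((1 / 2 - κ : ℝ) + (t : ℂ) * I)‖) + 5 := by
    rw [intervalIntegral.integral_add, intervalIntegral.integral_add,
      intervalIntegral.integral_const, smul_eq_mul]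
    · have h1 : (3 * T - T / 2) * (2 * T ^ (-(1 : ℝ))) = 5 := by
        rw [Real.rpow_neg hTpos.le, Real.rpow_one]
        field_simp
        ring
      rw [h1]
    · exact (line_cont (wn_cont b κ T) (1 / 2 + κ)).intervalIntegrable _ _
    · exact (line_cont (wn_cont b κ T) (1 / 2 - κ)).intervalIntegrable _ _
    · exact ((line_cont (wn_cont b κ T) (1 / 2 + κ)).add
        (line_cont (wn_cont b κ T) (1 / 2 - κ))).intervalIntegrable _ _
    · exact intervalIntegrable_const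
  have hwp := hwin T (by linarith) (1 / 2 + κ) (by linarith) (by linarith)
  have hwm := hwin T (by linarith) (1 / 2 - κ) (by linarith) (by linarith)
  have hdp := hdsq T (by linarith) (1 / 2 + κ) (by linarith) (by linarith)
  have hdm := hdsq T (by linarith) (1 / 2 - κ) (by linarith) (by linarith)
  have hRc : ∀ σ : ℝ, Continuous (fun t : ℝ => ‖Rp b κ T ((σ : ℂ) + (t : ℂ) * I)‖) := fun σ =>
    line_cont (dp_diff _ _ _ _).continuous σ
  have hDc : ∀ σ : ℝ, Continuous (fun t : ℝ => ‖D4 b κ T ((σ : ℂ) + (t : ℂ) * I)‖) := fun σ =>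
    line_cont (dp_diff _ _ _ _).continuous σ
  have hexp : (1:ℝ) + 5 * κ + 4 * κ = 1 + 9 * κ := by ring
  rw [hexp] at hdp hdm
  have hfin := fin_num (T := T) (κ := κ) (C := C)
    (I1 := ∫ t in (T / 4)..(4 * T), ‖Rp b κ T ((1 / 2 + κ : ℝ) + (t : ℂ) * I)‖ ^ 2)
    (I2 := ∫ t in (T / 4)..(4 * T), ‖Rp b κ T ((1 / 2 - κ : ℝ) + (t : ℂ) * I)‖ ^ 2)
    hT784 hκ0 (by linarith) hC (hT5 T (by linarith)) (by
      intro l hl
      have c1 := cs_int (hRc (1 / 2 + κ)) (hDc (1 / 2 + κ)) (a := T / 4) (b := 4 * T) (by linarith) hl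
      have c2 := cs_int (hRc (1 / 2 - κ)) (hDc (1 / 2 - κ)) (a := T / 4) (b := 4 * T) (by linarith) hl
      have hl2 : 0 ≤ 1 / (2 * l) := by positivity
      have d1 := mul_le_mul_of_nonneg_left hdp hl2
      have d2 := mul_le_mul_of_nonneg_left hdm hl2
      have e1 : T ^ (1 - κ) ≤ C * (∫ t in (T / 4)..(4 * T),
          ‖Rp b κ T ((1 / 2 + κ : ℝ) + (t : ℂ) * I)‖ * ‖D4 b κ T ((1 / 2 + κ : ℝ) + (t : ℂ) * I)‖) +
          C * (∫ t in (T / 4)..(4 * T),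
          ‖Rp b κ T ((1 / 2 - κ : ℝ) + (t : ℂ) * I)‖ * ‖D4 b κ T ((1 / 2 - κ : ℝ) + (t : ℂ) * I)‖) + 7 := by
        rw [hW2] at hW
        linarith
      refine e1.trans ?_
      have f1 := mul_le_mul_of_nonneg_left (c1.trans (add_le_add_right d1 _)) hC.le
      have f2 := mul_le_mul_of_nonneg_left (c2.trans (add_le_add_right d2 _)) hC.le
      refine le_trans (add_le_add_left (add_le_add f1 f2) 7) (le_of_eq ?_)
      ring)
  have hgoal : ∫ t in (T / 4)..(4 * T),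
        (‖Rp b κ T ((1 / 2 + κ : ℝ) + (t : ℂ) * I)‖ ^ 2 +
          ‖Rp b κ T ((1 / 2 - κ : ℝ) + (t : ℂ) * I)‖ ^ 2) =
      (∫ t in (T / 4)..(4 * T), ‖Rp b κ T ((1 / 2 + κ : ℝ) + (t : ℂ) * I)‖ ^ 2) +
      ∫ t in (T / 4)..(4 * T), ‖Rp b κ T ((1 / 2 - κ : ℝ) + (t : ℂ) * I)‖ ^ 2 :=
    intervalIntegral.integral_add (((hRc (1 / 2 + κ)).pow 2).intervalIntegrable _ _)
      (((hRc (1 / 2 - κ)).pow 2).intervalIntegrable _ _)
  rw [hgoal]
  refine le_trans ?_ hfin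
  exact Real.rpow_le_rpow_of_exponent_le hT1' (by linarith)

end Pool.Agent.H48.WN
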