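import Pool.Agent.H48.WN.Defs

/-!
# [H48 WN SHI] short lengths from lengths in `[H, 2H]`

PROOF. `F x (h + H) = F x h + F (x+h) H`, so `F x h ^2 ≤ 2 F x (h+H)^2 + 2 F (x+h) H^2`, `h + H ∈ [H, 2H]`. Integrate over `[X, 3X]`; the second integral is
`int_{X+h}^{3X+h} F y H^2 dy ≤ int_X^{4X}` as `h ≤ H ≤ X`. Total `2V + 2V`.
-/

set_option autoImplicit false

namespace Pool.Agent.H48.WN

open Complex MeasureTheory Finset

private theorem shi_int {F : ℝ → ℝ → ℝ} (hF : Cocy F) {a b h : ℝ} (ha : 0 ≤ a) (hab : a ≤ b)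
    (hh : 0 ≤ h) : IntervalIntegrable (fun x => (F x h) ^ 2) volume a b := by
  obtain ⟨M, hM⟩ := hF.bdd (max b h)
  rw [intervalIntegrable_iff_integrableOn_Ioc_of_le hab]
  have h0 : Measurable (fun x : ℝ => F x h) :=
    hF.meas.comp (measurable_id.prodMk measurable_const)
  refine Measure.integrableOn_of_bounded (M := M ^ 2) (by simp)
    (h0.pow_const 2).aestronglyMeasurable ?_
  refine (ae_restrict_iff' measurableSet_Ioc).2 (Filter.Eventually.of_forall fun x hx => ?_)
  rw [Real.norm_eq_abs, abs_pow]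
  exact pow_le_pow_left₀ (abs_nonneg _) (hM x h (ha.trans hx.1.le)
    (hx.2.trans (le_max_left _ _)) hh (le_max_right _ _)) 2

theorem shi (F : ℝ → ℝ → ℝ) (hF : Cocy F) (X H V : ℝ) (hX : 0 < X) (hH : 0 < H) (hHX : H ≤ X)
    (hV : ∀ h : ℝ, H ≤ h → h ≤ 2 * H → ∫ x in X..(4 * X), (F x h) ^ 2 ≤ V) :
    ∀ h : ℝ, 0 ≤ h → h ≤ H → ∫ x in X..(3 * X), (F x h) ^ 2 ≤ 4 * V := by
  intro h hh0 hhH
  have hmeas : Measurable (fun x : ℝ => x + h) := measurable_id.add_const h
  have i1 := shi_int hF hX.le (by linarith : X ≤ 3 * X) hh0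
  have i2 := shi_int hF hX.le (by linarith : X ≤ 3 * X) (by linarith : 0 ≤ h + H)
  have i2' := shi_int hF hX.le (by linarith : X ≤ 4 * X) (by linarith : 0 ≤ h + H)
  have i3' := shi_int hF hX.le (by linarith : X ≤ 4 * X) hH.le
  have i3 : IntervalIntegrable (fun x => (F (x + h) H) ^ 2) volume X (3 * X) := by
    have h1 := shi_int hF (by linarith : 0 ≤ X + h) (by linarith : X + h ≤ 3 * X + h) hH.le
    have h2 := h1.comp_add_right h
    simpa using h2
  have e1 : ∫ x in X..(3 * X), (F (x + h) H) ^ 2 ≤ V := by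
    rw [intervalIntegral.integral_comp_add_right (fun x => (F x H) ^ 2) h]
    refine le_trans ?_ (hV H le_rfl (by linarith))
    exact intervalIntegral.integral_mono_interval (by linarith) (by linarith) (by linarith)
      (Filter.Eventually.of_forall fun x => sq_nonneg _) i3'
  have e2 : ∫ x in X..(3 * X), (F x (h + H)) ^ 2 ≤ V := by
    refine le_trans ?_ (hV (h + H) (by linarith) (by linarith))
    exact intervalIntegral.integral_mono_interval le_rfl (by linarith) (by linarith)
      (Filter.Eventually.of_forall fun x => sq_nonneg _) i2'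
  have e3 : ∫ x in X..(3 * X), (F x h) ^ 2 ≤
      ∫ x in X..(3 * X), (2 * (F x (h + H)) ^ 2 + 2 * (F (x + h) H) ^ 2) := by
    refine intervalIntegral.integral_mono_on (by linarith) i1 ((i2.const_mul 2).add
      (i3.const_mul 2)) fun x hx => ?_
    have h1 := hF.add x h H (by linarith [hx.1]) hh0 hH.le
    rw [h1]
    nlinarith [sq_nonneg (F x h + 2 * F (x + h) H)]
  rw [intervalIntegral.integral_add (i2.const_mul 2) (i3.const_mul 2),
    intervalIntegral.integral_const_mul, intervalIntegral.integral_const_mul] at e3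
  linarith

end Pool.Agent.H48.WN
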