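import Pool.Agent.H48.WN.Coc

/-!
# [H48 WN THT] from pi to theta

PROOF. For `x ≥ 2`, `h ≥ 0`: `Th x h = log(x+h) Pi x h - int_0^h Pi x t /(x+t) dt`. Proof: Abel summation `sum_{x<p≤x+h} log p = log(x+h) π(x,h) - int_0^h π(x,t)/(x+t) dt`, and
with `J(t) = int_x^{x+t} du/log u`: `h = int_0^h log(x+t) J'(t) dt = log(x+h) J(h) - int_0^h J(t)/(x+t) dt` (`max u 2 = u` for `u ≥ 2`). So for `x ∈ [X, 3X]`, `h ≤ H ≤ X`:
`|Th x h| ≤ log(4X) |Pi x h| + X^(-1) int_0^h |Pi x t| dt`, `Th^2 ≤ 2 log^2(4X) Pi^2 + 2 X^(-2) H int_0^H Pi x t^2 dt`; integrate over `x` and exchange: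
`≤ 2 log^2(4X) V + 2 X^(-2) H^2 V ≤ C log^2 X · V`.
-/

set_option autoImplicit false

namespace Pool.Agent.H48.WN

open Complex MeasureTheory Finset

private noncomputable def tS (u : ℝ) : ℝ := ∑ k ∈ Icc 0 ⌊u⌋₊, (if k.Prime then (1 : ℝ) else 0)

private theorem tS_diff {x u : ℝ} (hxu : x ≤ u) :
    (((Ioc ⌊x⌋₊ ⌊u⌋₊).filter Nat.Prime).card : ℝ) = tS u - tS x := by
  have h1 : ⌊x⌋₊ ≤ ⌊u⌋₊ := Nat.floor_le_floor hxu
  have h2 : Icc 0 ⌊u⌋₊ = Icc 0 ⌊x⌋₊ ∪ Ioc ⌊x⌋₊ ⌊u⌋₊ := by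
    ext k
    simp only [mem_union, mem_Icc, mem_Ioc]
    omega
  have h3 : Disjoint (Icc 0 ⌊x⌋₊) (Ioc ⌊x⌋₊ ⌊u⌋₊) := by
    rw [disjoint_left]
    intro k hk hk'
    rw [mem_Icc] at hk
    rw [mem_Ioc] at hk'
    omega
  unfold tS
  rw [h2, sum_union h3, add_sub_cancel_left, card_filter]
  push_cast
  rfl

private theorem tS_mono : Monotone tS := by
  intro x u hxu
  have h := tS_diff hxu
  have h0 : (0 : ℝ) ≤ (((Ioc ⌊x⌋₊ ⌊u⌋₊).filter Nat.Prime).card : ℝ) := Nat.cast_nonneg _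
  linarith

private theorem tg_cont : Continuous (fun u : ℝ => 1 / Real.log (max u 2)) := by
  have h2 : ∀ u : ℝ, (2 : ℝ) ≤ max u 2 := fun u => le_max_right _ _
  refine Continuous.div continuous_const (Continuous.log (continuous_id.max continuous_const) ?_) ?_
  · intro u
    have := h2 u
    exact ne_of_gt (lt_of_lt_of_le (by norm_num) this)
  · intro u
    have := h2 u
    exact (Real.log_pos (lt_of_lt_of_le (by norm_num) this)).ne'

private noncomputable def tv (x u : ℝ) : ℝ := ∫ s in x..u, 1 / Real.log (max s 2)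

private theorem tv_der (x u : ℝ) : HasDerivAt (tv x) (1 / Real.log (max u 2)) u :=
  (tg_cont.integral_hasStrictDerivAt x u).hasDerivAt

private theorem tv_cont (x : ℝ) : Continuous (tv x) :=
  continuous_iff_continuousAt.2 fun u => (tv_der x u).continuousAt

private theorem tPi {x u : ℝ} (hxu : x ≤ u) : Pi x (u - x) = tS u - tS x - tv x u := by
  unfold Pi tv
  rw [add_sub_cancel, tS_diff hxu]

private theorem inv_cont {x h : ℝ} (hx : 2 ≤ x) (hh : 0 ≤ h) :
    ContinuousOn (fun u : ℝ => u⁻¹) (Set.uIcc x (x + h)) := by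
  refine continuousOn_inv₀.mono ?_
  intro u hu
  rw [Set.uIcc_of_le (by linarith)] at hu
  have : 0 < u := by linarith [hu.1]
  exact this.ne'

private theorem th_abel {x h : ℝ} (hx : 2 ≤ x) (hh : 0 ≤ h) :
    ∑ p ∈ (Ioc ⌊x⌋₊ ⌊x + h⌋₊).filter Nat.Prime, Real.log p =
      Real.log (x + h) * tS (x + h) - Real.log x * tS x - ∫ u in x..(x + h), u⁻¹ * tS u := by
  have h1 := sum_mul_eq_sub_sub_integral_mul (f := Real.log) (a := x) (b := x + h)
    (fun k : ℕ => if k.Prime then (1 : ℝ) else 0) (by linarith) (by linarith)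
    (fun t ht => Real.differentiableAt_log (by linarith [ht.1] : (0 : ℝ) < t).ne')
    (by
      rw [Real.deriv_log']
      have := inv_cont hx hh
      rw [Set.uIcc_of_le (by linarith)] at this
      exact this.integrableOn_Icc)
  have h2 : ∑ p ∈ (Ioc ⌊x⌋₊ ⌊x + h⌋₊).filter Nat.Prime, Real.log p =
      ∑ k ∈ Ioc ⌊x⌋₊ ⌊x + h⌋₊, Real.log k * (if k.Prime then (1 : ℝ) else 0) := by
    rw [sum_filter]
    refine sum_congr rfl fun k _ => ?_
    split_ifs
    · rw [mul_one]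
    · rw [mul_zero]
  rw [h2, h1, intervalIntegral.integral_of_le (by linarith), Real.deriv_log']
  rfl

private theorem th_len {x h : ℝ} (hx : 2 ≤ x) (hh : 0 ≤ h) :
    h = Real.log (x + h) * tv x (x + h) - ∫ u in x..(x + h), u⁻¹ * tv x u := by
  have hpos : ∀ u ∈ Set.uIcc x (x + h), 2 ≤ u := by
    intro u hu
    rw [Set.uIcc_of_le (by linarith)] at hu
    linarith [hu.1]
  have h1 := intervalIntegral.integral_mul_deriv_eq_deriv_mul (a := x) (b := x + h) (u := Real.log)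
    (v := tv x) (u' := fun u => u⁻¹) (v' := fun u => 1 / Real.log (max u 2))
    (fun u hu => Real.hasDerivAt_log (by linarith [hpos u hu] : (0 : ℝ) < u).ne')
    (fun u _ => tv_der x u) (inv_cont hx hh).intervalIntegrable
    (tg_cont.intervalIntegrable _ _)
  have h2 : ∫ u in x..(x + h), Real.log u * (1 / Real.log (max u 2)) = h := by
    have h3 : ∫ u in x..(x + h), Real.log u * (1 / Real.log (max u 2)) = ∫ _u in x..(x + h), (1 : ℝ) := by
      refine intervalIntegral.integral_congr fun u hu => ?_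
      have h4 := hpos u hu
      rw [max_eq_left h4, mul_one_div, div_self (Real.log_pos (by linarith)).ne']
    rw [h3, intervalIntegral.integral_const, smul_eq_mul, mul_one, add_sub_cancel_left]
  have h3 : tv x x = 0 := intervalIntegral.integral_same
  rw [h2, h3, mul_zero, sub_zero] at h1
  exact h1

private theorem th_id {x h : ℝ} (hx : 2 ≤ x) (hh : 0 ≤ h) :
    Th x h = Real.log (x + h) * Pi x h - ∫ t in (0 : ℝ)..h, Pi x t / (x + t) := by
  have hx0 : 0 < x := by linarith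
  have e1 : ∫ t in (0 : ℝ)..h, Pi x t / (x + t) = ∫ u in x..(x + h), Pi x (u - x) / u := by
    have h1 := intervalIntegral.integral_comp_add_left (a := 0) (b := h) (fun u => Pi x (u - x) / u) x
    simp only [add_sub_cancel_left, add_zero] at h1
    exact h1
  have i1 : IntervalIntegrable (fun u => u⁻¹ * tS u) volume x (x + h) :=
    (tS_mono.intervalIntegrable).continuousOn_mul (inv_cont hx hh)
  have i2 : IntervalIntegrable (fun u => u⁻¹ * tS x) volume x (x + h) :=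
    (intervalIntegrable_const).continuousOn_mul (inv_cont hx hh)
  have i3 : IntervalIntegrable (fun u => u⁻¹ * tv x u) volume x (x + h) :=
    ((tv_cont x).intervalIntegrable _ _).continuousOn_mul (inv_cont hx hh)
  have e2 : ∫ u in x..(x + h), Pi x (u - x) / u = (∫ u in x..(x + h), u⁻¹ * tS u) -
      (∫ u in x..(x + h), u⁻¹ * tS x) - ∫ u in x..(x + h), u⁻¹ * tv x u := by
    rw [← intervalIntegral.integral_sub i1 i2, ← intervalIntegral.integral_sub (i1.sub i2) i3]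
    refine intervalIntegral.integral_congr fun u hu => ?_
    rw [Set.uIcc_of_le (by linarith)] at hu
    rw [tPi hu.1]
    ring
  have e3 : ∫ u in x..(x + h), u⁻¹ * tS x = (Real.log (x + h) - Real.log x) * tS x := by
    rw [intervalIntegral.integral_mul_const, integral_inv_of_pos hx0 (by linarith),
      Real.log_div (by linarith) hx0.ne']
  have e4 : Pi x h = tS (x + h) - tS x - tv x (x + h) := by
    have := tPi (x := x) (u := x + h) (by linarith)
    rwa [add_sub_cancel_left] at this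
  have e5 := th_abel hx hh
  have e6 := th_len hx hh
  unfold Th
  rw [e5, e1, e2, e3, e4]
  linarith

private theorem ii_bdd {f : ℝ → ℝ} {a b M : ℝ} (hab : a ≤ b) (hf : Measurable f)
    (hb : ∀ t ∈ Set.Icc a b, |f t| ≤ M) : IntervalIntegrable f volume a b := by
  rw [intervalIntegrable_iff_integrableOn_Ioc_of_le hab]
  exact IntegrableOn.of_bound measure_Ioc_lt_top hf.aestronglyMeasurable M
    ((ae_restrict_mem measurableSet_Ioc).mono fun t ht => hb t (Set.Ioc_subset_Icc_self ht))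

private theorem t_cs {a : ℝ → ℝ} {h : ℝ} (hh : 0 ≤ h) (ha : IntervalIntegrable a volume 0 h)
    (ha2 : IntervalIntegrable (fun t => a t ^ 2) volume 0 h) :
    (∫ t in (0 : ℝ)..h, a t) ^ 2 ≤ h * ∫ t in (0 : ℝ)..h, a t ^ 2 := by
  obtain ⟨J, hJ⟩ : ∃ J : ℝ, J = ∫ t in (0 : ℝ)..h, a t := ⟨_, rfl⟩
  rcases hh.eq_or_lt with h0 | h0
  · rw [← h0]
    simp
  have h1 : 0 ≤ ∫ t in (0 : ℝ)..h, (h * a t - J) ^ 2 :=
    intervalIntegral.integral_nonneg hh fun _ _ => sq_nonneg _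
  have h2 : ∫ t in (0 : ℝ)..h, (h * a t - J) ^ 2 =
      h ^ 2 * (∫ t in (0 : ℝ)..h, a t ^ 2) - 2 * h * J * J + J ^ 2 * h := by
    have e : ∀ t, (h * a t - J) ^ 2 = h ^ 2 * a t ^ 2 - 2 * h * J * a t + J ^ 2 := fun t => by ring
    simp only [e]
    rw [intervalIntegral.integral_add ((ha2.const_mul _).sub (ha.const_mul _)) intervalIntegrable_const,
      intervalIntegral.integral_sub (ha2.const_mul _) (ha.const_mul _), intervalIntegral.integral_const_mul,
      intervalIntegral.integral_const_mul, intervalIntegral.integral_const, ← hJ, smul_eq_mul, sub_zero]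
    ring
  rw [h2] at h1
  rw [← hJ]
  have h3 : 0 ≤ h * (h * (∫ t in (0 : ℝ)..h, a t ^ 2) - J ^ 2) := by
    have : h * (h * (∫ t in (0 : ℝ)..h, a t ^ 2) - J ^ 2) =
        h ^ 2 * (∫ t in (0 : ℝ)..h, a t ^ 2) - 2 * h * J * J + J ^ 2 * h := by ring
    rw [this]
    exact h1
  have h4 : 0 ≤ h * (∫ t in (0 : ℝ)..h, a t ^ 2) - J ^ 2 := nonneg_of_mul_nonneg_right h3 h0
  linarith

private theorem coc_m1 {F : ℝ → ℝ → ℝ} (hF : Cocy F) (h : ℝ) : Measurable fun x => F x h :=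
  hF.meas.comp (measurable_id.prodMk measurable_const)

private theorem coc_m2 {F : ℝ → ℝ → ℝ} (hF : Cocy F) (x : ℝ) : Measurable fun t => F x t :=
  hF.meas.comp (measurable_const.prodMk measurable_id)

private theorem th_pt {X x h : ℝ} (hX : 10 ≤ X) (hx : X ≤ x) (hx3 : x ≤ 3 * X) (hh : 0 ≤ h) (hhX : h ≤ X) :
    (Th x h) ^ 2 ≤ 2 * (Real.log (4 * X)) ^ 2 * (Pi x h) ^ 2 +
      2 * (h / X ^ 2) * ∫ t in (0 : ℝ)..h, (Pi x t) ^ 2 := by
  obtain ⟨M, hM⟩ := pi_coc.bdd (3 * X)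
  have hPb : ∀ t ∈ Set.Icc (0 : ℝ) h, |Pi x t| ≤ M := fun t ht =>
    hM x t (by linarith) hx3 ht.1 (by linarith [ht.2])
  have hX0 : 0 < X := by linarith
  have hM0 : 0 ≤ M := (abs_nonneg _).trans (hPb 0 ⟨le_rfl, hh⟩)
  have hpos : ∀ t ∈ Set.Icc (0 : ℝ) h, X ≤ x + t := fun t ht => by linarith [ht.1]
  have hmP := coc_m2 pi_coc x
  have iP2 : IntervalIntegrable (fun t => (Pi x t) ^ 2) volume 0 h := by
    refine ii_bdd (M := M ^ 2) hh (hmP.pow_const 2) fun t ht => ?_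
    rw [abs_pow]
    exact pow_le_pow_left₀ (abs_nonneg _) (hPb t ht) 2
  have hma : Measurable fun t => Pi x t / (x + t) := hmP.div (measurable_const.add measurable_id)
  have hab : ∀ t ∈ Set.Icc (0 : ℝ) h, |Pi x t / (x + t)| ≤ |Pi x t| / X := by
    intro t ht
    have h1 := hpos t ht
    rw [abs_div, abs_of_pos (show 0 < x + t by linarith)]
    exact div_le_div_of_nonneg_left (abs_nonneg _) hX0 h1
  have ia : IntervalIntegrable (fun t => Pi x t / (x + t)) volume 0 h := by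
    refine ii_bdd (M := M / X) hh hma fun t ht => ?_
    exact (hab t ht).trans (div_le_div_of_nonneg_right (hPb t ht) hX0.le)
  have ia2 : IntervalIntegrable (fun t => (Pi x t / (x + t)) ^ 2) volume 0 h := by
    refine ii_bdd (M := (M / X) ^ 2) hh (hma.pow_const 2) fun t ht => ?_
    rw [abs_pow]
    exact pow_le_pow_left₀ (abs_nonneg _)
      ((hab t ht).trans (div_le_div_of_nonneg_right (hPb t ht) hX0.le)) 2
  have hcs := t_cs hh ia ia2
  have hmono : ∫ t in (0 : ℝ)..h, (Pi x t / (x + t)) ^ 2 ≤ ∫ t in (0 : ℝ)..h, (1 / X ^ 2) * (Pi x t) ^ 2 := by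
    refine intervalIntegral.integral_mono_on hh ia2 (iP2.const_mul _) fun t ht => ?_
    have h1 := pow_le_pow_left₀ (abs_nonneg _) (hab t ht) 2
    rw [sq_abs] at h1
    refine h1.trans (le_of_eq ?_)
    rw [div_pow, sq_abs]
    ring
  rw [intervalIntegral.integral_const_mul] at hmono
  have h2 : (∫ t in (0 : ℝ)..h, Pi x t / (x + t)) ^ 2 ≤ (h / X ^ 2) * ∫ t in (0 : ℝ)..h, (Pi x t) ^ 2 := by
    refine hcs.trans ((mul_le_mul_of_nonneg_left hmono hh).trans (le_of_eq ?_))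
    ring
  rw [th_id (by linarith) hh]
  have hlog : |Real.log (x + h)| ≤ Real.log (4 * X) := by
    rw [abs_of_nonneg (Real.log_nonneg (by linarith))]
    exact Real.log_le_log (by linarith) (by linarith)
  have hlog2 : (Real.log (x + h)) ^ 2 ≤ (Real.log (4 * X)) ^ 2 := by
    rw [← sq_abs (Real.log (x + h))]
    exact pow_le_pow_left₀ (abs_nonneg _) hlog 2
  have h3 : (Real.log (x + h)) ^ 2 * (Pi x h) ^ 2 ≤ (Real.log (4 * X)) ^ 2 * (Pi x h) ^ 2 :=
    mul_le_mul_of_nonneg_right hlog2 (sq_nonneg _)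
  nlinarith [sq_nonneg (Real.log (x + h) * Pi x h + ∫ t in (0 : ℝ)..h, Pi x t / (x + t))]

theorem tht : ∃ C : ℝ, 0 < C ∧ ∀ X H V : ℝ, 10 ≤ X → 0 ≤ H → H ≤ X →
    (∀ h : ℝ, 0 ≤ h → h ≤ H → ∫ x in X..(3 * X), (Pi x h) ^ 2 ≤ V) →
    ∀ h : ℝ, 0 ≤ h → h ≤ H → ∫ x in X..(3 * X), (Th x h) ^ 2 ≤ C * (Real.log X) ^ 2 * V := by
  refine ⟨10, by norm_num, ?_⟩
  intro X H V hX hH hHX hV h hh hhH
  have hX0 : 0 < X := by linarith
  have hX3 : X ≤ 3 * X := by linarith
  have hhX : h ≤ X := hhH.trans hHX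
  obtain ⟨M, hM⟩ := pi_coc.bdd (3 * X)
  obtain ⟨M', hM'⟩ := th_coc.bdd (3 * X)
  have hPb : ∀ x ∈ Set.Icc X (3 * X), ∀ t ∈ Set.Icc (0 : ℝ) h, |Pi x t| ≤ M := fun x hx t ht =>
    hM x t (by linarith [hx.1]) hx.2 ht.1 (by linarith [ht.2])
  have hM0 : 0 ≤ M := (abs_nonneg _).trans (hPb X ⟨le_rfl, hX3⟩ 0 ⟨le_rfl, hh⟩)
  have hV0 : 0 ≤ V :=
    (intervalIntegral.integral_nonneg hX3 fun _ _ => sq_nonneg _).trans (hV h hh hhH)
  have iTh : IntervalIntegrable (fun x => (Th x h) ^ 2) volume X (3 * X) := by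
    refine ii_bdd (M := M' ^ 2) hX3 ((coc_m1 th_coc h).pow_const 2) fun x hx => ?_
    rw [abs_pow]
    exact pow_le_pow_left₀ (abs_nonneg _) (hM' x h (by linarith [hx.1]) hx.2 hh (by linarith)) 2
  have iPi : IntervalIntegrable (fun x => (Pi x h) ^ 2) volume X (3 * X) := by
    refine ii_bdd (M := M ^ 2) hX3 ((coc_m1 pi_coc h).pow_const 2) fun x hx => ?_
    rw [abs_pow]
    exact pow_le_pow_left₀ (abs_nonneg _) (hPb x hx h ⟨hh, le_rfl⟩) 2
  have hmQ : Measurable fun x => ∫ t in (0 : ℝ)..h, (Pi x t) ^ 2 := by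
    have h1 : StronglyMeasurable (Function.uncurry fun x t => (Pi x t) ^ 2) :=
      (pi_coc.meas.pow_const 2).stronglyMeasurable
    have h2 := (h1.integral_prod_right (ν := volume.restrict (Set.Ioc 0 h))).measurable
    have h3 : (fun x => ∫ t in (0 : ℝ)..h, (Pi x t) ^ 2) =
        fun x => ∫ t, (Pi x t) ^ 2 ∂(volume.restrict (Set.Ioc 0 h)) := by
      funext x
      rw [intervalIntegral.integral_of_le hh]
    rw [h3]
    exact h2
  have iQ : IntervalIntegrable (fun x => ∫ t in (0 : ℝ)..h, (Pi x t) ^ 2) volume X (3 * X) := by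
    refine ii_bdd (M := M ^ 2 * |h - 0|) hX3 hmQ fun x hx => ?_
    rw [← Real.norm_eq_abs]
    refine intervalIntegral.norm_integral_le_of_norm_le_const fun t ht => ?_
    rw [Set.uIoc_of_le hh] at ht
    rw [Real.norm_eq_abs, abs_pow]
    exact pow_le_pow_left₀ (abs_nonneg _) (hPb x hx t ⟨ht.1.le, ht.2⟩) 2
  have hswap : ∫ x in X..(3 * X), ∫ t in (0 : ℝ)..h, (Pi x t) ^ 2 =
      ∫ t in (0 : ℝ)..h, ∫ x in X..(3 * X), (Pi x t) ^ 2 := by
    apply intervalIntegral_intervalIntegral_swap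
    rw [Set.uIoc_of_le hX3, Set.uIoc_of_le hh]
    have hfin : volume (Set.Ioc X (3 * X) ×ˢ Set.Ioc 0 h) < ⊤ :=
      lt_of_le_of_lt (measure_mono (Set.prod_mono Set.Ioc_subset_Icc_self Set.Ioc_subset_Icc_self))
        (isCompact_Icc.prod isCompact_Icc).measure_lt_top
    refine IntegrableOn.of_bound hfin (pi_coc.meas.pow_const 2).aestronglyMeasurable (M ^ 2) ?_
    refine (ae_restrict_mem (measurableSet_Ioc.prod measurableSet_Ioc)).mono fun z hz => ?_
    rw [Set.mem_prod] at hz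
    show |(Pi z.1 z.2) ^ 2| ≤ M ^ 2
    rw [abs_pow]
    exact pow_le_pow_left₀ (abs_nonneg _)
      (hPb z.1 (Set.Ioc_subset_Icc_self hz.1) z.2 (Set.Ioc_subset_Icc_self hz.2)) 2
  have hin : ∫ t in (0 : ℝ)..h, ∫ x in X..(3 * X), (Pi x t) ^ 2 ≤ V * h := by
    have h1 : ‖∫ t in (0 : ℝ)..h, ∫ x in X..(3 * X), (Pi x t) ^ 2‖ ≤ V * |h - 0| := by
      refine intervalIntegral.norm_integral_le_of_norm_le_const fun t ht => ?_
      rw [Set.uIoc_of_le hh] at ht
      have h2 : 0 ≤ ∫ x in X..(3 * X), (Pi x t) ^ 2 :=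
        intervalIntegral.integral_nonneg hX3 fun _ _ => sq_nonneg _
      rw [Real.norm_of_nonneg h2]
      exact hV t ht.1.le (ht.2.trans hhH)
    rw [sub_zero, abs_of_nonneg hh] at h1
    exact (le_abs_self _).trans h1
  have hmain : ∫ x in X..(3 * X), (Th x h) ^ 2 ≤ ∫ x in X..(3 * X),
      (2 * (Real.log (4 * X)) ^ 2 * (Pi x h) ^ 2 + 2 * (h / X ^ 2) * ∫ t in (0 : ℝ)..h, (Pi x t) ^ 2) := by
    refine intervalIntegral.integral_mono_on hX3 iTh ((iPi.const_mul _).add (iQ.const_mul _)) fun x hx => ?_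
    exact th_pt hX hx.1 hx.2 hh hhX
  rw [intervalIntegral.integral_add (iPi.const_mul _) (iQ.const_mul _), intervalIntegral.integral_const_mul,
    intervalIntegral.integral_const_mul, hswap] at hmain
  refine hmain.trans ?_
  have hlX : 1 ≤ Real.log X := by
    rw [Real.le_log_iff_exp_le hX0]
    exact (Real.exp_one_lt_d9.le.trans (by norm_num)).trans hX
  have hl4 : Real.log (4 * X) ≤ 2 * Real.log X := by
    rw [Real.log_mul (by norm_num) hX0.ne']
    have : Real.log 4 ≤ Real.log X := Real.log_le_log (by norm_num) (by linarith)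
    linarith
  have hl40 : 0 ≤ Real.log (4 * X) := Real.log_nonneg (by linarith)
  have hl42 : (Real.log (4 * X)) ^ 2 ≤ (2 * Real.log X) ^ 2 := pow_le_pow_left₀ hl40 hl4 2
  have g1 : 2 * (Real.log (4 * X)) ^ 2 * ∫ x in X..(3 * X), (Pi x h) ^ 2 ≤ 2 * (2 * Real.log X) ^ 2 * V := by
    refine mul_le_mul (by linarith) (hV h hh hhH)
      (intervalIntegral.integral_nonneg hX3 fun _ _ => sq_nonneg _) (by positivity)
  have g2 : 2 * (h / X ^ 2) * ∫ t in (0 : ℝ)..h, ∫ x in X..(3 * X), (Pi x t) ^ 2 ≤ 2 * V := by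
    have h1 : 0 ≤ 2 * (h / X ^ 2) := by positivity
    refine (mul_le_mul_of_nonneg_left hin h1).trans ?_
    have h2 : 2 * (h / X ^ 2) * (V * h) = 2 * V * (h ^ 2 / X ^ 2) := by ring
    rw [h2]
    have h3 : h ^ 2 / X ^ 2 ≤ 1 := by
      rw [div_le_one (by positivity)]
      exact pow_le_pow_left₀ hh hhX 2
    calc 2 * V * (h ^ 2 / X ^ 2) ≤ 2 * V * 1 := mul_le_mul_of_nonneg_left h3 (by positivity)
      _ = 2 * V := mul_one _
  have g3 : 2 * V ≤ 2 * (Real.log X) ^ 2 * V := by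
    have h1 : 1 ≤ (Real.log X) ^ 2 := one_le_pow₀ hlX
    have h2 := mul_le_mul_of_nonneg_right h1 hV0
    linarith
  calc _ ≤ 2 * (2 * Real.log X) ^ 2 * V + 2 * (Real.log X) ^ 2 * V := by linarith
    _ = 10 * (Real.log X) ^ 2 * V := by ring

end Pool.Agent.H48.WN
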