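import Pool.Agent.H48.WN.Upb
import Pool.Agent.H48.WN.Rlo
import Pool.Agent.H48.WN.Shi
import Pool.Agent.H48.WN.Itr
import Pool.Agent.H48.WN.Tht
import Pool.Agent.H48.WN.Ppw

/-!
# [H48 WN MAIN1] square root errors in every window

PROOF. We may take `ε ≤ 1` (a smaller `ε` gives a stronger statement for `T ≥ 1`: `T^(b+1+ε)` and `T^(-ε)` are monotone; if `ε > 1` use `ε = 1`). Suppose for some large `T` no such
`X, H` exist: (*) for all naturals `X', m` with `T^b ≤ X' ≤ T^(b+1+ε)`, `X' ≤ m T ≤ 64 X'`: `sum_{X' < n ≤ 2X'} EI^2 < X' m T^(-ε)`.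
`T1 = T/4`, `b' = b + ε/2`, `ε' = ε/4`, `κ = ε'/(100(b'+2))`. Let `X` be real with `T1^(b') ≤ X ≤ T1^(b'+1+6κ)`; `H0 = 2X/T1 = 8X/T ≤ X`.
(1) `itr` for `h ∈ [H0, 2H0]`: for naturals `X' ∈ [X/2, 4X]`, `m ∈ [h-1, h+1]`: `T^b ≤ X/2` (as `(T/4)^(b+ε/2)/2 ≥ T^b`, `T` large), `4X ≤ T^(b+1+ε)` (`ε/2 + 6κ < ε`), `m T ≥ 8X - T ≥ 4X ≥ X'`
(`T ≤ X`), `m T ≤ 16 X + T ≤ 17X ≤ 32 X ≤ 64 X'`. So by (*) the sum is `≤ 4X · (17X/T) T^(-ε)`, and `int_X^{4X} (Pi x h)^2 ≤ 12·68 X^2 T^(-1-ε) + 24 X ≤ C X^2 T^(-1-ε/2)` because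
`X ≥ (T/4)^(1+ε/2)`.
(2) `shi` (`pi_coc`): the same with factor 4 for all `h ∈ [0, H0]` on `[X, 3X]`. (3) `tht`, `ppw`: `Ps^2 ≤ 2 Th^2 + 2 (Ps-Th)^2`:
`int_X^{3X} (Ps x h)^2 ≤ C log^2 X X^2 T^(-1-ε/2) + C log^4 X (H0^2 + H0 sqrt X) ≤ W X^2`, `W = T^(-1-ε/2) (log T)^5` for `T` large: `H0^2 = 64 X^2/T^2`,
`H0 sqrt X = 8 X^2/(T sqrt X) ≤ 8 X^2 T^(-3/2)`, `log X ≤ (b+3) log T`, `ε ≤ 1`.
(4) `upb` at `T1, b', h = d = κ` for both signs: `int ≤ C log T (W T^(2 + 2κ(b'+2)) + T^(2 - b'(1-2κ))) + 1`. Here `2κ(b'+2) = ε/200`, so the first term is `≤ T^(1 - ε/2 + ε/200) (log T)^7`, and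
`b'(1-2κ) ≥ 1 + ε/2 - ε/100` (`b' ≥ 1 + ε/2`, `2κ b' ≤ ε/200`), so the second is `≤ T^(1-ε/2+ε/100) log T`. Both (and the constant factors from `T1 = T/4`) are `≤ T1^(1-ε/16)/8` for `T` large.
(5) `rlo` at `T1, b', ε'`: the sum of the two integrals is `≥ T1^(1-ε/16)`. Contradiction.
-/

set_option autoImplicit false

namespace Pool.Agent.H48.WN

open Complex MeasureTheory Finset

private lemma m1_int {F : ℝ → ℝ → ℝ} (hF : Cocy F) (h X Y : ℝ) (hh : 0 ≤ h) (hX : 0 ≤ X) (hXY : X ≤ Y) :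
    IntervalIntegrable (fun x => (F x h) ^ 2) volume X Y := by
  obtain ⟨M, hM⟩ := hF.bdd (max Y h)
  have hm : Measurable (fun x : ℝ => (F x h) ^ 2) := by
    have : (fun x : ℝ => (F x h) ^ 2) = fun x => (Function.uncurry F (x, h)) ^ 2 := rfl
    rw [this]
    exact (hF.meas.comp (by fun_prop)).pow_const 2
  rw [intervalIntegrable_iff_integrableOn_Ioc_of_le hXY]
  refine Measure.integrableOn_of_bounded (M := M ^ 2) (by simp) hm.aestronglyMeasurable ?_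
  refine (ae_restrict_iff' measurableSet_Ioc).mpr (Filter.Eventually.of_forall fun x hx => ?_)
  have h1 := hM x h (hX.trans hx.1.le) (hx.2.trans (le_max_left _ _)) hh (le_max_right _ _)
  rw [Real.norm_eq_abs, abs_of_nonneg (sq_nonneg _), ← sq_abs]
  exact pow_le_pow_left₀ (abs_nonneg _) h1 2

/-- from `Pi` to `Ps` -/
private lemma m1_ps (C3 C4 : ℝ)
    (h3 : ∀ X H V : ℝ, 10 ≤ X → 0 ≤ H → H ≤ X →
      (∀ h : ℝ, 0 ≤ h → h ≤ H → ∫ x in X..(3 * X), (Pi x h) ^ 2 ≤ V) →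
      ∀ h : ℝ, 0 ≤ h → h ≤ H → ∫ x in X..(3 * X), (Th x h) ^ 2 ≤ C3 * (Real.log X) ^ 2 * V)
    (h4 : ∀ X H : ℝ, 10 ≤ X → 0 ≤ H → H ≤ X → ∀ h : ℝ, 0 ≤ h → h ≤ H →
      ∫ x in X..(3 * X), (Ps x h - Th x h) ^ 2 ≤ C4 * (Real.log X) ^ 4 * (H ^ 2 + H * Real.sqrt X))
    (X H V : ℝ) (hX : 10 ≤ X) (hH : 0 < H) (hHX : H ≤ X)
    (hV : ∀ h : ℝ, H ≤ h → h ≤ 2 * H → ∫ x in X..(4 * X), (Pi x h) ^ 2 ≤ V) (k : ℝ) (hk : 0 ≤ k) (hk1 : k ≤ H) :
    ∫ x in X..(3 * X), (Ps x k) ^ 2 ≤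
      2 * (C3 * (Real.log X) ^ 2 * (4 * V)) + 2 * (C4 * (Real.log X) ^ 4 * (H ^ 2 + H * Real.sqrt X)) := by
  have hX0 : 0 < X := by linarith
  have e1 := shi Pi pi_coc X H V hX0 hH hHX hV
  have e2 := h3 X H (4 * V) hX hH.le hHX e1 k hk hk1
  have e3 := h4 X H hX hH.le hHX k hk hk1
  have hle : X ≤ 3 * X := by linarith
  have i1 := m1_int th_coc k X (3 * X) hk hX0.le hle
  have i2 := m1_int ps_coc k X (3 * X) hk hX0.le hle
  have cd : Cocy (fun x h => Ps x h - Th x h) := by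
    refine ⟨?_, ?_, ?_⟩
    · intro x h1 h2 hx hh1 hh2
      have a1 := ps_coc.add x h1 h2 hx hh1 hh2
      have a2 := th_coc.add x h1 h2 hx hh1 hh2
      show Ps x (h1 + h2) - Th x (h1 + h2) = (Ps x h1 - Th x h1) + (Ps (x + h1) h2 - Th (x + h1) h2)
      rw [a1, a2]
      ring
    · have : Function.uncurry (fun x h => Ps x h - Th x h) =
          fun p => Function.uncurry Ps p - Function.uncurry Th p := rfl
      rw [this]
      exact ps_coc.meas.sub th_coc.meas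
    · intro R
      obtain ⟨M1, hM1⟩ := ps_coc.bdd R
      obtain ⟨M2, hM2⟩ := th_coc.bdd R
      refine ⟨M1 + M2, fun x h hx hxR hh hhR => ?_⟩
      have b1 := hM1 x h hx hxR hh hhR
      have b2 := hM2 x h hx hxR hh hhR
      calc |Ps x h - Th x h| ≤ |Ps x h| + |Th x h| := abs_sub _ _
        _ ≤ M1 + M2 := add_le_add b1 b2
  have i3 := m1_int cd k X (3 * X) hk hX0.le hle
  have e4 : ∫ x in X..(3 * X), (Ps x k) ^ 2 ≤ ∫ x in X..(3 * X), (2 * (Th x k) ^ 2 + 2 * (Ps x k - Th x k) ^ 2) := by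
    refine intervalIntegral.integral_mono_on hle i2 ((i1.const_mul 2).add (i3.const_mul 2)) ?_
    intro x _
    nlinarith [sq_nonneg (Th x k - (Ps x k - Th x k))]
  rw [intervalIntegral.integral_add (i1.const_mul 2) (i3.const_mul 2),
    intervalIntegral.integral_const_mul, intervalIntegral.integral_const_mul] at e4
  linarith

/-- numbers: the window bound for `Ps` -/
private lemma m1_num (C3 C4 b ε T X : ℝ) (hC3 : 0 < C3) (hC4 : 0 < C4) (hb : 1 ≤ b) (hε : 0 < ε) (hε1 : ε ≤ 1)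
    (hT : 40 ≤ T) (hX1 : T ^ (1 + ε / 2) ≤ 8 * X) (hX2 : X ≤ T ^ (b + 3)) (hXT : T ≤ X)
    (hL : 2 * (C3 * ((b + 3) ^ 2 * 4032)) + 2 * (C4 * ((b + 3) ^ 4 * 80)) + 1 ≤ Real.log T) :
    2 * (C3 * (Real.log X) ^ 2 * (4 * (12 * (4 * X * (17 * X / T) * T ^ (-ε)) + 24 * X))) +
      2 * (C4 * (Real.log X) ^ 4 * ((8 * X / T) ^ 2 + 8 * X / T * Real.sqrt X)) ≤
      T ^ (-1 - ε / 2) * (Real.log T) ^ 5 * X ^ 2 := by
  have hT0 : 0 < T := by linarith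
  have hX0 : 0 < X := by linarith
  have hlT : 1 ≤ Real.log T := by nlinarith [mul_pos hC3 (by positivity : (0:ℝ) < (b+3)^2 * 4032), mul_pos hC4 (by positivity : (0:ℝ) < (b+3)^4 * 80)]
  have hlX0 : 0 ≤ Real.log X := Real.log_nonneg (by linarith)
  have hlX : Real.log X ≤ (b + 3) * Real.log T := by
    have := Real.log_le_log hX0 hX2
    rwa [Real.log_rpow hT0] at this
  have hb3 : 0 ≤ b + 3 := by linarith
  set W := T ^ (-1 - ε / 2) with hW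
  have hW0 : 0 < W := Real.rpow_pos_of_pos hT0 _
  have w1 : T ^ (-ε) / T ≤ W := by
    have : T ^ (-ε) / T = T ^ (-1 - ε) := by
      rw [show (-1 - ε : ℝ) = -ε - 1 by ring, Real.rpow_sub hT0, Real.rpow_one]
    rw [this]
    exact Real.rpow_le_rpow_of_exponent_le (by linarith) (by linarith)
  have w2 : X ≤ 8 * X ^ 2 * W := by
    have h1 : T ^ (1 + ε / 2) * W = 1 := by
      rw [hW, ← Real.rpow_add hT0]
      rw [show (1 + ε / 2 + (-1 - ε / 2) : ℝ) = 0 by ring, Real.rpow_zero]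
    have h2 : 1 ≤ 8 * X * W := by
      rw [← h1]
      exact mul_le_mul_of_nonneg_right hX1 hW0.le
    nlinarith
  have w3 : 1 / T ^ 2 ≤ W := by
    have : (1 : ℝ) / T ^ 2 = T ^ (-2 : ℝ) := by
      rw [Real.rpow_neg hT0.le, one_div]
      norm_num
    rw [this]
    exact Real.rpow_le_rpow_of_exponent_le (by linarith) (by linarith)
  have w4 : Real.sqrt X / (T * X) ≤ W := by
    have hs : Real.sqrt X / (T * X) = 1 / (T * Real.sqrt X) := by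
      have h2 : Real.sqrt X * Real.sqrt X = X := Real.mul_self_sqrt hX0.le
      have h3 : 0 < Real.sqrt X := Real.sqrt_pos.mpr hX0
      rw [div_eq_div_iff (by positivity) (by positivity)]
      nlinarith
    rw [hs]
    have h1 : Real.sqrt T ≤ Real.sqrt X := Real.sqrt_le_sqrt hXT
    have h3 : 0 < Real.sqrt T := Real.sqrt_pos.mpr hT0
    have h2 : 1 / (T * Real.sqrt X) ≤ 1 / (T * Real.sqrt T) := by
      apply one_div_le_one_div_of_le (by positivity)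
      exact mul_le_mul_of_nonneg_left h1 hT0.le
    refine h2.trans ?_
    have h4 : (1 : ℝ) / (T * Real.sqrt T) = T ^ (-(3 / 2) : ℝ) := by
      rw [Real.rpow_neg hT0.le, one_div, Real.sqrt_eq_rpow]
      congr 1
      rw [show (3 / 2 : ℝ) = 1 + 1 / 2 by norm_num, Real.rpow_add hT0, Real.rpow_one]
    rw [h4]
    exact Real.rpow_le_rpow_of_exponent_le (by linarith) (by linarith)
  -- first bracket
  have a1 : 4 * (12 * (4 * X * (17 * X / T) * T ^ (-ε)) + 24 * X) ≤ 4032 * (W * X ^ 2) := by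
    have h1 : 4 * X * (17 * X / T) * T ^ (-ε) = 68 * X ^ 2 * (T ^ (-ε) / T) := by
      field_simp
      ring
    rw [h1]
    have h2 : 68 * X ^ 2 * (T ^ (-ε) / T) ≤ 68 * X ^ 2 * W := mul_le_mul_of_nonneg_left w1 (by positivity)
    nlinarith
  have a2 : (8 * X / T) ^ 2 + 8 * X / T * Real.sqrt X ≤ 80 * (W * X ^ 2) := by
    have h1 : (8 * X / T) ^ 2 = 64 * X ^ 2 * (1 / T ^ 2) := by
      field_simp
      ring
    have h2 : 8 * X / T * Real.sqrt X = 8 * X ^ 2 * (Real.sqrt X / (T * X)) := by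
      field_simp
    rw [h1, h2]
    have h3 : 64 * X ^ 2 * (1 / T ^ 2) ≤ 64 * X ^ 2 * W := mul_le_mul_of_nonneg_left w3 (by positivity)
    have h4 : 8 * X ^ 2 * (Real.sqrt X / (T * X)) ≤ 8 * X ^ 2 * W := mul_le_mul_of_nonneg_left w4 (by positivity)
    nlinarith [mul_pos (pow_pos hX0 2) hW0]
  have l2 : (Real.log X) ^ 2 ≤ (b + 3) ^ 2 * (Real.log T) ^ 2 := by
    have := pow_le_pow_left₀ hlX0 hlX 2
    rwa [mul_pow] at this
  have l4 : (Real.log X) ^ 4 ≤ (b + 3) ^ 4 * (Real.log T) ^ 4 := by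
    have := pow_le_pow_left₀ hlX0 hlX 4
    rwa [mul_pow] at this
  have p0 : 0 < W * X ^ 2 := by positivity
  have c1 : C3 * (Real.log X) ^ 2 * (4 * (12 * (4 * X * (17 * X / T) * T ^ (-ε)) + 24 * X)) ≤
      C3 * ((b + 3) ^ 2 * (Real.log T) ^ 2) * (4032 * (W * X ^ 2)) := by
    have hpos : 0 ≤ 4 * (12 * (4 * X * (17 * X / T) * T ^ (-ε)) + 24 * X) := by positivity
    exact mul_le_mul (mul_le_mul_of_nonneg_left l2 hC3.le) a1 hpos (by positivity)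
  have c2 : C4 * (Real.log X) ^ 4 * ((8 * X / T) ^ 2 + 8 * X / T * Real.sqrt X) ≤
      C4 * ((b + 3) ^ 4 * (Real.log T) ^ 4) * (80 * (W * X ^ 2)) := by
    have hpos : 0 ≤ (8 * X / T) ^ 2 + 8 * X / T * Real.sqrt X := by positivity
    exact mul_le_mul (mul_le_mul_of_nonneg_left l4 hC4.le) a2 hpos (by positivity)
  have d2 : (Real.log T) ^ 2 ≤ (Real.log T) ^ 4 := pow_le_pow_right₀ hlT (by norm_num)
  have k1 : C3 * ((b + 3) ^ 2 * (Real.log T) ^ 2) * (4032 * (W * X ^ 2)) ≤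
      C3 * ((b + 3) ^ 2 * 4032) * ((Real.log T) ^ 4 * (W * X ^ 2)) := by
    have : C3 * ((b + 3) ^ 2 * (Real.log T) ^ 2) * (4032 * (W * X ^ 2)) =
        C3 * ((b + 3) ^ 2 * 4032) * ((Real.log T) ^ 2 * (W * X ^ 2)) := by ring
    rw [this]
    apply mul_le_mul_of_nonneg_left _ (by positivity)
    exact mul_le_mul_of_nonneg_right d2 p0.le
  have k2 : C4 * ((b + 3) ^ 4 * (Real.log T) ^ 4) * (80 * (W * X ^ 2)) =
      C4 * ((b + 3) ^ 4 * 80) * ((Real.log T) ^ 4 * (W * X ^ 2)) := by ring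
  have tot : 2 * (C3 * ((b + 3) ^ 2 * 4032) * ((Real.log T) ^ 4 * (W * X ^ 2))) +
      2 * (C4 * ((b + 3) ^ 4 * 80) * ((Real.log T) ^ 4 * (W * X ^ 2))) ≤ Real.log T * ((Real.log T) ^ 4 * (W * X ^ 2)) := by
    have q0 : 0 ≤ (Real.log T) ^ 4 * (W * X ^ 2) := by positivity
    have := mul_le_mul_of_nonneg_right hL q0
    nlinarith
  have fin : Real.log T * ((Real.log T) ^ 4 * (W * X ^ 2)) = W * (Real.log T) ^ 5 * X ^ 2 := by ring
  rw [← fin]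
  rw [k2] at c2
  linarith

private lemma m1_log (C a : ℝ) (ha : 0 < a) (hC : 0 < C) : ∃ S0 : ℝ, 4 ≤ S0 ∧ ∀ S : ℝ, S0 ≤ S →
    C * (Real.log S) ^ 6 < S ^ a := by
  have h := (isLittleO_log_rpow_rpow_atTop 6 ha).bound (show (0 : ℝ) < 1 / (2 * C) by positivity)
  rw [Filter.eventually_atTop] at h
  obtain ⟨S1, hS1⟩ := h
  refine ⟨max S1 4, le_max_right _ _, fun S hS => ?_⟩
  have h4 : 4 ≤ S := (le_max_right _ _).trans hS
  have h1 := hS1 S ((le_max_left _ _).trans hS)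
  have hl : 0 ≤ Real.log S := Real.log_nonneg (by linarith)
  have hp : 0 < S ^ a := Real.rpow_pos_of_pos (by linarith) _
  have e6 : Real.log S ^ (6 : ℝ) = (Real.log S) ^ 6 := by
    rw [show (6 : ℝ) = ((6 : ℕ) : ℝ) by norm_num, Real.rpow_natCast]
  rw [e6, Real.norm_of_nonneg (pow_nonneg hl 6), Real.norm_of_nonneg hp.le] at h1
  have h2 : C * (Real.log S) ^ 6 ≤ C * (1 / (2 * C) * S ^ a) := mul_le_mul_of_nonneg_left h1 hC.le
  have h3 : C * (1 / (2 * C) * S ^ a) = S ^ a / 2 := by field_simp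
  rw [h3] at h2
  linarith

private lemma m1_large (a c : ℝ) (ha : 0 < a) : ∃ T0 : ℝ, ∀ T : ℝ, T0 ≤ T → c ≤ T ^ a := by
  have h := (tendsto_rpow_atTop ha).eventually_ge_atTop c
  rw [Filter.eventually_atTop] at h
  exact h

/-- the final comparison, `S = T/4` -/
private lemma m1_fin (b ε κ C1 : ℝ) (hb : 1 ≤ b) (hε : 0 < ε) (hε1 : ε ≤ 1) (hC1 : 0 < C1) (hκ : 0 < κ)
    (hκ1 : 2 * κ * (b + ε / 2 + 2) = ε / 200) :
    ∃ S0 : ℝ, 4 ≤ S0 ∧ ∀ S : ℝ, S0 ≤ S →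
      2 * (C1 * Real.log S * ((4 * S) ^ (-1 - ε / 2) * (Real.log (4 * S)) ^ 5 * S ^ (2 + 2 * κ * (b + ε / 2 + 2)) +
        S ^ (2 - (b + ε / 2) * (1 - 2 * κ))) + 1) < S ^ (1 - ε / 4 / 4) := by
  obtain ⟨S0, hS0, h⟩ := m1_log (2 * (33 * C1 + 1)) (3 * ε / 16) (by positivity) (by positivity)
  refine ⟨S0, hS0, fun S hS => ?_⟩
  have h4 : 4 ≤ S := hS0.trans hS
  have hS00 : 0 < S := by linarith
  have hl1 : 1 ≤ Real.log S := by
    rw [Real.le_log_iff_exp_le hS00]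
    have := Real.exp_one_lt_d9
    linarith
  have h6 := h S hS
  have hp : 0 < S ^ (1 - ε / 4) := Real.rpow_pos_of_pos hS00 _
  have a1 : (4 * S) ^ (-1 - ε / 2) ≤ S ^ (-1 - ε / 2) :=
    Real.rpow_le_rpow_of_nonpos hS00 (by linarith) (by linarith)
  have a2 : Real.log (4 * S) ≤ 2 * Real.log S := by
    rw [Real.log_mul (by norm_num) hS00.ne']
    have : Real.log 4 ≤ Real.log S := Real.log_le_log (by norm_num) h4
    linarith
  have a3 : (Real.log (4 * S)) ^ 5 ≤ 32 * (Real.log S) ^ 5 := by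
    have h0 : 0 ≤ Real.log (4 * S) := Real.log_nonneg (by linarith)
    calc (Real.log (4 * S)) ^ 5 ≤ (2 * Real.log S) ^ 5 := pow_le_pow_left₀ h0 a2 5
      _ = _ := by ring
  have a4 : S ^ (-1 - ε / 2) * S ^ (2 + 2 * κ * (b + ε / 2 + 2)) ≤ S ^ (1 - ε / 4) := by
    rw [← Real.rpow_add hS00]
    apply Real.rpow_le_rpow_of_exponent_le (by linarith)
    rw [hκ1]
    linarith
  have a5 : S ^ (2 - (b + ε / 2) * (1 - 2 * κ)) ≤ S ^ (1 - ε / 4) := by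
    apply Real.rpow_le_rpow_of_exponent_le (by linarith)
    have : (b + ε / 2) * (2 * κ) ≤ ε / 200 := by nlinarith
    nlinarith
  have b1 : (4 * S) ^ (-1 - ε / 2) * (Real.log (4 * S)) ^ 5 * S ^ (2 + 2 * κ * (b + ε / 2 + 2)) ≤
      32 * (Real.log S) ^ 5 * S ^ (1 - ε / 4) := by
    have h5 : 0 ≤ (Real.log (4 * S)) ^ 5 := pow_nonneg (Real.log_nonneg (by linarith)) 5
    calc (4 * S) ^ (-1 - ε / 2) * (Real.log (4 * S)) ^ 5 * S ^ (2 + 2 * κ * (b + ε / 2 + 2))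
        ≤ S ^ (-1 - ε / 2) * (32 * (Real.log S) ^ 5) * S ^ (2 + 2 * κ * (b + ε / 2 + 2)) := by
          apply mul_le_mul_of_nonneg_right _ (Real.rpow_nonneg hS00.le _)
          exact mul_le_mul a1 a3 h5 (Real.rpow_nonneg hS00.le _)
      _ = 32 * (Real.log S) ^ 5 * (S ^ (-1 - ε / 2) * S ^ (2 + 2 * κ * (b + ε / 2 + 2))) := by ring
      _ ≤ _ := mul_le_mul_of_nonneg_left a4 (by positivity)
  have l5 : 1 ≤ (Real.log S) ^ 5 := one_le_pow₀ hl1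
  have l6 : 1 ≤ (Real.log S) ^ 6 := one_le_pow₀ hl1
  have b2 : (4 * S) ^ (-1 - ε / 2) * (Real.log (4 * S)) ^ 5 * S ^ (2 + 2 * κ * (b + ε / 2 + 2)) +
        S ^ (2 - (b + ε / 2) * (1 - 2 * κ)) ≤ 33 * (Real.log S) ^ 5 * S ^ (1 - ε / 4) := by
    nlinarith
  have b3 : C1 * Real.log S * ((4 * S) ^ (-1 - ε / 2) * (Real.log (4 * S)) ^ 5 * S ^ (2 + 2 * κ * (b + ε / 2 + 2)) +
        S ^ (2 - (b + ε / 2) * (1 - 2 * κ))) ≤ 33 * C1 * ((Real.log S) ^ 6 * S ^ (1 - ε / 4)) := by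
    have := mul_le_mul_of_nonneg_left b2 (show 0 ≤ C1 * Real.log S by positivity)
    refine this.trans (le_of_eq ?_)
    ring
  have b4 : (1 : ℝ) ≤ (Real.log S) ^ 6 * S ^ (1 - ε / 4) := by
    have : (1 : ℝ) ≤ S ^ (1 - ε / 4) := Real.one_le_rpow (by linarith) (by linarith)
    nlinarith
  have b5 : S ^ (1 - ε / 4 / 4) = S ^ (3 * ε / 16) * S ^ (1 - ε / 4) := by
    rw [← Real.rpow_add hS00]
    congr 1
    ring
  rw [b5]
  have b6 := mul_lt_mul_of_pos_right h6 hp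
  nlinarith

private lemma m1_core (b ε : ℝ) (hb : 1 ≤ b) (hε : 0 < ε) (hε1 : ε ≤ 1) : ∃ T0 : ℝ, 1 ≤ T0 ∧ ∀ T : ℝ, T0 ≤ T →
    ∃ X H : ℕ, T ^ b ≤ X ∧ (X : ℝ) ≤ T ^ (b + 1 + ε) ∧ (X : ℝ) ≤ H * T ∧ (H : ℝ) * T ≤ 64 * X ∧
      (X : ℝ) * H * T ^ (-ε) ≤ ∑ n ∈ Ioc X (2 * X), (EI n H) ^ 2 := by
  set b' : ℝ := b + ε / 2 with hb'
  set κ : ℝ := ε / 4 / (100 * (b' + 2)) with hκ
  have hb'1 : 1 ≤ b' := by rw [hb']; linarith
  have hb2 : 0 < 100 * (b' + 2) := by linarith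
  have hκ0 : 0 < κ := by rw [hκ]; positivity
  have hκe : 2 * κ * (b' + 2) = ε / 200 := by
    rw [hκ]
    field_simp
    ring
  have hκ1 : κ ≤ 1 / 100 := by nlinarith
  obtain ⟨C1, T1, hC1, hT1, hupb⟩ := upb b' κ κ hb'1 hκ0 hκ1 hκ0 (by linarith)
  obtain ⟨T2, hT2, hrlo⟩ := rlo b' (ε / 4) hb'1 (by linarith) (by linarith)
  obtain ⟨C3, hC3, htht⟩ := tht
  obtain ⟨C4, hC4, hppw⟩ := ppw
  obtain ⟨S0, hS0, hfin⟩ := m1_fin b ε κ C1 hb hε hε1 hC1 hκ0 hκe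
  obtain ⟨T3, hT3⟩ := m1_large (ε / 2) (2 * 4 ^ (b + ε / 2)) (by linarith)
  obtain ⟨T4, hT4⟩ := m1_large (ε / 4) 4 (by linarith)
  obtain ⟨T5, hT5⟩ := m1_large 1 (Real.exp (2 * (C3 * ((b + 3) ^ 2 * 4032)) + 2 * (C4 * ((b + 3) ^ 4 * 80)) + 1)) one_pos
  refine ⟨max 40 (max (4 * T1) (max (4 * T2) (max (4 * S0) (max T3 (max T4 T5))))), by
    exact le_trans (by norm_num) (le_max_left _ _), fun T hT => ?_⟩
  simp only [max_le_iff] at hT
  obtain ⟨g40, gT1, gT2, gS0, gT3, gT4, gT5⟩ := hT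
  have hT0 : 0 < T := by linarith
  have hT1' : 1 ≤ T := by linarith
  by_contra hcon
  push Not at hcon
  set S : ℝ := T / 4 with hS
  have hS10 : 10 ≤ S := by rw [hS]; linarith
  have hS0' : 0 < S := by linarith
  have h4S : 4 * S = T := by rw [hS]; ring
  have hb0 : 0 ≤ b := by linarith
  -- exponents
  have ha : 2 * T ^ b ≤ S ^ b' := by
    have h1 := hT3 T gT3
    have h2 : S ^ b' = T ^ b' / 4 ^ b' := by
      rw [hS, Real.div_rpow hT0.le (by norm_num)]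
    have h3 : T ^ b' = T ^ b * T ^ (ε / 2) := by
      rw [hb', Real.rpow_add hT0]
    have h4 : (0 : ℝ) < 4 ^ b' := Real.rpow_pos_of_pos (by norm_num) _
    rw [h2, h3, le_div_iff₀ h4]
    have h5 : 0 < T ^ b := Real.rpow_pos_of_pos hT0 _
    calc 2 * T ^ b * 4 ^ b' = T ^ b * (2 * 4 ^ (b + ε / 2)) := by rw [hb']; ring
      _ ≤ _ := mul_le_mul_of_nonneg_left h1 h5.le
  have hbb : 4 * S ^ (b' + 1 + 6 * κ) ≤ T ^ (b + 1 + ε) := by
    have h1 := hT4 T gT4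
    have h2 : S ^ (b' + 1 + 6 * κ) ≤ T ^ (b' + 1 + 6 * κ) :=
      Real.rpow_le_rpow hS0'.le (by linarith) (by linarith)
    have h3 : T ^ (b' + 1 + 6 * κ) * T ^ (ε / 4) ≤ T ^ (b + 1 + ε) := by
      rw [← Real.rpow_add hT0]
      apply Real.rpow_le_rpow_of_exponent_le hT1'
      have : 6 * κ ≤ ε / 4 := by nlinarith
      rw [hb']
      linarith
    have h5 : 0 < T ^ (b' + 1 + 6 * κ) := Real.rpow_pos_of_pos hT0 _
    nlinarith
  have hTb : T ≤ T ^ b := by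
    conv_lhs => rw [← Real.rpow_one T]
    exact Real.rpow_le_rpow_of_exponent_le hT1' hb
  have hlog : 2 * (C3 * ((b + 3) ^ 2 * 4032)) + 2 * (C4 * ((b + 3) ^ 4 * 80)) + 1 ≤ Real.log T := by
    have h1 := hT5 T gT5
    rw [Real.rpow_one] at h1
    rwa [Real.le_log_iff_exp_le hT0]
  -- the window bound
  set W : ℝ := T ^ (-1 - ε / 2) * (Real.log T) ^ 5 with hW
  have hlT : 0 ≤ Real.log T := Real.log_nonneg hT1'
  have hW0 : 0 ≤ W := by positivity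
  have hwin : ∀ X : ℝ, S ^ b' ≤ X → X ≤ S ^ (b' + 1 + 6 * κ) → ∀ k : ℝ, 0 ≤ k → k ≤ 2 * X / S →
      ∫ x in X..(3 * X), (Ps x k) ^ 2 ≤ W * X ^ 2 := by
    intro X hX1 hX2 k hk0 hk1
    have hXb : 2 * T ^ b ≤ X := ha.trans hX1
    have hXT : T ≤ X := by
      have : 0 < T ^ b := Real.rpow_pos_of_pos hT0 _
      linarith
    have hX10 : 10 ≤ X := by linarith
    have hX0 : 0 < X := by linarith
    have hH : 8 * X / T = 2 * X / S := by
      rw [hS]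
      field_simp
      norm_num
    have hHpos : 0 < 8 * X / T := by positivity
    have hHX : 8 * X / T ≤ X := by
      rw [div_le_iff₀ hT0]
      nlinarith
    have hV : ∀ h : ℝ, 8 * X / T ≤ h → h ≤ 2 * (8 * X / T) →
        ∫ x in X..(4 * X), (Pi x h) ^ 2 ≤ 12 * (4 * X * (17 * X / T) * T ^ (-ε)) + 24 * X := by
      intro h hh1 hh2
      apply itr X h _ hX10 (hHpos.le.trans hh1)
      intro X' m hX'1 hX'2 hm1 hm2
      have hTh1 : 8 * X ≤ h * T := by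
        rw [div_le_iff₀ hT0] at hh1
        exact hh1
      have hTh2 : h * T ≤ 16 * X := by
        have : h ≤ 16 * X / T := by
          refine hh2.trans (le_of_eq ?_)
          ring
        rwa [le_div_iff₀ hT0] at this
      have q1 : T ^ b ≤ X' := by linarith
      have q2 : (X' : ℝ) ≤ T ^ (b + 1 + ε) := by linarith
      have q3 : (X' : ℝ) ≤ m * T := by nlinarith
      have q4 : (m : ℝ) * T ≤ 17 * X := by nlinarith
      have q5 : (m : ℝ) * T ≤ 64 * X' := by linarith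
      have q6 := (hcon X' m q1 q2 q3 q5).le
      refine q6.trans ?_
      have q7 : (m : ℝ) ≤ 17 * X / T := by rwa [le_div_iff₀ hT0]
      have q8 : 0 ≤ T ^ (-ε) := Real.rpow_nonneg hT0.le _
      apply mul_le_mul_of_nonneg_right _ q8
      exact mul_le_mul hX'2 q7 (by positivity) (by positivity)
    have r1 := m1_ps C3 C4 htht hppw X (8 * X / T) _ hX10 hHpos hHX hV k hk0 (by rw [hH]; exact hk1)
    refine r1.trans ?_
    apply m1_num C3 C4 b ε T X hC3 hC4 hb hε hε1 g40 _ _ hXT hlog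
    · -- T^(1+ε/2) ≤ 8 X
      have s1 : S ^ (1 + ε / 2) ≤ X := by
        refine le_trans ?_ hX1
        apply Real.rpow_le_rpow_of_exponent_le (by linarith)
        rw [hb']
        linarith
      have s2 : S ^ (1 + ε / 2) = T ^ (1 + ε / 2) / 4 ^ (1 + ε / 2) := by
        rw [hS, Real.div_rpow hT0.le (by norm_num)]
      have s3 : (4 : ℝ) ^ (1 + ε / 2) ≤ 8 := by
        have : (4 : ℝ) ^ (1 + ε / 2) ≤ 4 ^ (3 / 2 : ℝ) :=
          Real.rpow_le_rpow_of_exponent_le (by norm_num) (by linarith)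
        refine this.trans (le_of_eq ?_)
        rw [show (4 : ℝ) = 2 ^ (2 : ℝ) by norm_num, ← Real.rpow_mul (by norm_num)]
        norm_num
      have s4 : (0 : ℝ) < 4 ^ (1 + ε / 2) := Real.rpow_pos_of_pos (by norm_num) _
      rw [s2, div_le_iff₀ s4] at s1
      nlinarith
    · refine hX2.trans ?_
      have : S ^ (b' + 1 + 6 * κ) ≤ T ^ (b' + 1 + 6 * κ) :=
        Real.rpow_le_rpow hS0'.le (by linarith) (by linarith)
      refine this.trans ?_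
      apply Real.rpow_le_rpow_of_exponent_le hT1'
      rw [hb']
      linarith
  have u1 := hupb S (by linarith) W hW0 hwin (1 / 2 + κ) (Or.inl rfl)
  have u2 := hupb S (by linarith) W hW0 hwin (1 / 2 - κ) (Or.inr rfl)
  have u3 := hrlo S (by linarith)
  have u4 := hfin S (by linarith)
  have c1 : ∀ σ : ℝ, Continuous (fun t : ℝ => ‖Rp b' κ S ((σ : ℂ) + (t : ℂ) * I)‖ ^ 2) := by
    intro σ
    unfold Rp Dp
    apply Continuous.pow
    apply Continuous.norm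
    apply continuous_finset_sum
    intro n hn
    have hn0 : (n : ℂ) ≠ 0 := by
      rw [mem_Icc] at hn
      exact_mod_cast (by omega : n ≠ 0)
    apply Continuous.mul continuous_const
    exact Continuous.const_cpow (by fun_prop) (Or.inl hn0)
  have u5 : ∫ t in (S / 4)..(4 * S),
        (‖Rp b' κ S ((1 / 2 + κ : ℝ) + (t : ℂ) * I)‖ ^ 2 +
          ‖Rp b' κ S ((1 / 2 - κ : ℝ) + (t : ℂ) * I)‖ ^ 2) =
      (∫ t in (S / 4)..(4 * S), ‖Rp b' κ S (((1 / 2 + κ : ℝ) : ℂ) + (t : ℂ) * I)‖ ^ 2) +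
      ∫ t in (S / 4)..(4 * S), ‖Rp b' κ S (((1 / 2 - κ : ℝ) : ℂ) + (t : ℂ) * I)‖ ^ 2 :=
    intervalIntegral.integral_add ((c1 _).intervalIntegrable _ _) ((c1 _).intervalIntegrable _ _)
  rw [u5] at u3
  have hW' : W = (4 * S) ^ (-1 - ε / 2) * (Real.log (4 * S)) ^ 5 := by rw [h4S]
  rw [← hW'] at u4
  linarith

theorem main1 (b ε : ℝ) (hb : 1 ≤ b) (hε : 0 < ε) : ∃ T0 : ℝ, 1 ≤ T0 ∧ ∀ T : ℝ, T0 ≤ T → ∃ X H : ℕ,
    T ^ b ≤ X ∧ (X : ℝ) ≤ T ^ (b + 1 + ε) ∧ (X : ℝ) ≤ H * T ∧ (H : ℝ) * T ≤ 64 * X ∧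
      (X : ℝ) * H * T ^ (-ε) ≤ ∑ n ∈ Ioc X (2 * X), (EI n H) ^ 2 := by
  rcases le_or_gt ε 1 with h | h
  · exact m1_core b ε hb hε h
  · obtain ⟨T0, hT0, hm⟩ := m1_core b 1 hb one_pos le_rfl
    refine ⟨T0, hT0, fun T hT => ?_⟩
    obtain ⟨X, H, h1, h2, h3, h4, h5⟩ := hm T hT
    have hT1 : 1 ≤ T := hT0.trans hT
    refine ⟨X, H, h1, h2.trans ?_, h3, h4, le_trans ?_ h5⟩
    · exact Real.rpow_le_rpow_of_exponent_le hT1 (by linarith)
    · apply mul_le_mul_of_nonneg_left _ (by positivity)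
      exact Real.rpow_le_rpow_of_exponent_le hT1 (by linarith)

end Pool.Agent.H48.WN
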