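import Pool.Agent.H48.WN.Defs

/-!
# [H48 WN COC] `Ps`, `Pi`, `Th` are cocycles

PROOF. Additivity: for `x, h1, h2 ≥ 0`: `⌊x⌋ ≤ ⌊x+h1⌋ ≤ ⌊x+h1+h2⌋`, `Ioc` is a disjoint union (`Finset.sum_Ioc_consecutive`, for the card use the sum of
`if p.Prime then 1 else 0`); the integral of `1/log(max t 2)` (continuous, between `0` and `1/log 2`) is additive. Measurability:
`⌊x⌋₊` and `⌊x+h⌋₊` are measurable maps to `ℕ` and the sum is a function of the pair (countable range: `measurable_from_top` / `measurable_of_countable` composed);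
`(x,h) ↦ int_x^{x+h}` is continuous (`intervalIntegral.continuous_primitive`-type). Bounded: everything is at most `(2R+1)^2 + 2 R` etc.
-/

set_option autoImplicit false

namespace Pool.Agent.H48.WN

open Complex MeasureTheory Finset

private theorem coc_gen (c : ℕ → ℝ) {K : ℝ → ℝ} (hK : Continuous K) :
    Cocy (fun x h => (∑ n ∈ Ioc ⌊x⌋₊ ⌊x + h⌋₊, c n) - (K (x + h) - K x)) where
  add := by
    intro x h1 h2 hx hh1 hh2
    have e1 : ⌊x⌋₊ ≤ ⌊x + h1⌋₊ := Nat.floor_le_floor (by linarith)
    have e2 : ⌊x + h1⌋₊ ≤ ⌊x + h1 + h2⌋₊ := Nat.floor_le_floor (by linarith)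
    have e3 := sum_Ioc_consecutive c e1 e2
    rw [← add_assoc, ← e3]
    ring
  meas := by
    have m1 : Measurable (fun q : ℕ × ℕ => ∑ n ∈ Ioc q.1 q.2, c n) := measurable_of_countable _
    have m2 : Measurable (fun p : ℝ × ℝ => ((⌊p.1⌋₊, ⌊p.1 + p.2⌋₊) : ℕ × ℕ)) :=
      (Nat.measurable_floor.comp measurable_fst).prodMk
        (Nat.measurable_floor.comp (measurable_fst.add measurable_snd))
    have m3 : Measurable (fun p : ℝ × ℝ => K (p.1 + p.2) - K p.1) := by
      have : Continuous (fun p : ℝ × ℝ => K (p.1 + p.2) - K p.1) := by fun_prop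
      exact this.measurable
    exact (m1.comp m2).sub m3
  bdd := by
    intro R
    obtain ⟨C, hC⟩ := (isCompact_Icc (a := (0 : ℝ)) (b := 2 * R)).exists_bound_of_continuousOn
      hK.continuousOn
    refine ⟨(∑ n ∈ range (⌊2 * R⌋₊ + 1), |c n|) + (C + C), fun x h h1 h2 h3 h4 => ?_⟩
    have e1 : |∑ n ∈ Ioc ⌊x⌋₊ ⌊x + h⌋₊, c n| ≤ ∑ n ∈ range (⌊2 * R⌋₊ + 1), |c n| := by
      refine (abs_sum_le_sum_abs _ _).trans ?_
      refine sum_le_sum_of_subset_of_nonneg ?_ fun n _ _ => abs_nonneg _
      intro n hn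
      rw [mem_Ioc] at hn
      rw [mem_range]
      have : ⌊x + h⌋₊ ≤ ⌊2 * R⌋₊ := Nat.floor_le_floor (by linarith)
      omega
    have e2 : |K (x + h)| ≤ C := by
      have := hC (x + h) ⟨by linarith, by linarith⟩
      rwa [Real.norm_eq_abs] at this
    have e3 : |K x| ≤ C := by
      have := hC x ⟨h1, by linarith⟩
      rwa [Real.norm_eq_abs] at this
    refine (abs_sub _ _).trans (add_le_add e1 ?_)
    exact (abs_sub _ _).trans (add_le_add e2 e3)

theorem ps_coc : Cocy Ps := by
  have h1 := coc_gen (fun n => ArithmeticFunction.vonMangoldt n) continuous_id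
  have h2 : Ps = fun x h => (∑ n ∈ Ioc ⌊x⌋₊ ⌊x + h⌋₊, ArithmeticFunction.vonMangoldt n) -
      (id (x + h) - id x) := by
    funext x h
    unfold Ps
    simp only [id]
    ring
  rw [h2]
  exact h1

theorem pi_coc : Cocy Pi := by
  have hg : Continuous (fun t : ℝ => 1 / Real.log (max t 2)) := by
    refine continuous_const.div ?_ ?_
    · refine Continuous.log (by fun_prop) fun t => ?_
      have := le_max_right t 2
      positivity
    · intro t
      have h1 : (2 : ℝ) ≤ max t 2 := le_max_right t 2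
      exact (Real.log_pos (by linarith)).ne'
  have h1 := coc_gen (fun n => if n.Prime then 1 else 0)
    (K := fun x => ∫ t in (0 : ℝ)..x, 1 / Real.log (max t 2))
    (intervalIntegral.continuous_primitive (fun a b => hg.intervalIntegrable a b) 0)
  have h2 : Pi = fun x h => (∑ n ∈ Ioc ⌊x⌋₊ ⌊x + h⌋₊, (if n.Prime then (1 : ℝ) else 0)) -
      ((∫ t in (0 : ℝ)..(x + h), 1 / Real.log (max t 2)) -
        ∫ t in (0 : ℝ)..x, 1 / Real.log (max t 2)) := by
    funext x h
    unfold Pi
    rw [intervalIntegral.integral_interval_sub_left (hg.intervalIntegrable _ _)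
      (hg.intervalIntegrable _ _), ← sum_filter, sum_const, nsmul_eq_mul, mul_one]
  rw [h2]
  exact h1

theorem th_coc : Cocy Th := by
  have h1 := coc_gen (fun n => if n.Prime then Real.log n else 0) continuous_id
  have h2 : Th = fun x h => (∑ n ∈ Ioc ⌊x⌋₊ ⌊x + h⌋₊, (if n.Prime then Real.log n else 0)) -
      (id (x + h) - id x) := by
    funext x h
    unfold Th
    rw [sum_filter]
    simp only [id]
    ring
  rw [h2]
  exact h1

end Pool.Agent.H48.WN
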