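import Pool.Agent.H48.WN.Dig

/-!
# [H48 WN GFE] the factor of the functional equation

PROOF. `GG s = Gammaℝ s / Gammaℝ (1 - s)`, `Gammaℝ s = π^(-s/2) Γ(s/2)` (`Complex.Gammaℝ_def`). Functional equation:
`completedRiemannZeta (1 - s) = completedRiemannZeta s` and `riemannZeta s = completedRiemannZeta s / Gammaℝ s` for
`s ≠ 0` (`riemannZeta_def_of_ne_zero`), `Gammaℝ s ≠ 0` for `Im s > 0` (`Gamma` has no zeros). So
`ζ(1-s) = GG s · ζ(s)`. `logDeriv Gammaℝ s = -(log π)/2 + digamma(s/2)/2`. For `1/2 ≤ Re s ≤ 3/4` the point `s/2` has real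
part in `[1/4, 3/8]` and large imaginary part: by `dig`, `|digamma(s/2) - log(Im s/2)| ≤ C`. `(1-s)/2` is the
conjugate of `w = (1 - conj s)/2`, `Re w ∈ [1/8, 1/4]`, `Im w = Im s/2`, and `digamma (conj w) = conj (digamma w)`
(`Complex.Gamma_conj` and `deriv_conj_conj`), so also `|digamma((1-s)/2) - log(Im s/2)| ≤ C`. `logDeriv GG s = logDeriv Gammaℝ s +
logDeriv Gammaℝ (1-s)`, so it is `log (Im s)` up to `C + log 2 + log π`.
`|GG s| ≥ 1`: on `Re s = 1/2`, `1 - s = conj s`, `Gammaℝ (conj s) = conj (Gammaℝ s)`, so `|GG s| = 1`. For fixed `t ≥ T0`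
the function `x ↦ log |GG(x + it)|` has derivative `Re logDeriv GG(x+it) ≥ log t - C ≥ 0`, so it increases on `[1/2, 3/4]`.
(E.g. `x ↦ ‖GG‖^2 = GG · conj GG` has derivative `2 Re(logDeriv GG) ‖GG‖^2 ≥ 0`.)
-/

set_option autoImplicit false

namespace Pool.Agent.H48.WN

open Complex MeasureTheory Finset

noncomputable def GG (s : ℂ) : ℂ := Gammaℝ s / Gammaℝ (1 - s)

/-- the logarithmic derivative of `Gammaℝ` -/
private noncomputable def dR (s : ℂ) : ℂ := -((Real.log Real.pi : ℝ) : ℂ) / 2 + digamma (s / 2) / 2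

private theorem gr_ne {s : ℂ} (h : s.im ≠ 0) : Gammaℝ s ≠ 0 := by
  intro h0
  obtain ⟨n, hn⟩ := Gammaℝ_eq_zero_iff.1 h0
  apply h
  rw [hn]
  simp

private theorem half_ne {s : ℂ} (h : s.im ≠ 0) (m : ℕ) : s / 2 ≠ -(m : ℂ) := by
  intro h0
  apply h
  have : s = -(2 * (m : ℂ)) := by
    rw [show s = 2 * (s / 2) by ring, h0]
    ring
  rw [this]
  simp

private theorem gr_deriv {s : ℂ} (h : s.im ≠ 0) : HasDerivAt Gammaℝ (Gammaℝ s * dR s) s := by
  have hpi : (Real.pi : ℂ) ≠ 0 := by exact_mod_cast Real.pi_ne_zero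
  have h1 : HasDerivAt (fun z : ℂ => (Real.pi : ℂ) ^ (-z / 2))
      ((Real.pi : ℂ) ^ (-s / 2) * Complex.log Real.pi * (-1 / 2)) s :=
    ((hasDerivAt_id s).neg.div_const 2).const_cpow (Or.inl hpi)
  have hG : HasDerivAt Complex.Gamma (deriv Complex.Gamma (s / 2)) (s / 2) :=
    (Complex.differentiableAt_Gamma (s / 2) (half_ne h)).hasDerivAt
  have h2 : HasDerivAt (fun z : ℂ => Complex.Gamma (z / 2)) (deriv Complex.Gamma (s / 2) * (1 / 2)) s :=
    hG.comp s ((hasDerivAt_id s).div_const 2)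
  have hne : Complex.Gamma (s / 2) ≠ 0 := Complex.Gamma_ne_zero (half_ne h)
  have h3 := h1.mul h2
  have e : Gammaℝ s * dR s = (Real.pi : ℂ) ^ (-s / 2) * Complex.log Real.pi * (-1 / 2) *
      Complex.Gamma (s / 2) + (Real.pi : ℂ) ^ (-s / 2) * (deriv Complex.Gamma (s / 2) * (1 / 2)) := by
    unfold dR
    rw [Gammaℝ_def, digamma, logDeriv_apply, Complex.ofReal_log Real.pi_pos.le]
    field_simp
  rw [e]
  exact h3

private theorem gg_deriv {s : ℂ} (h : s.im ≠ 0) : HasDerivAt GG (GG s * (dR s + dR (1 - s))) s := by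
  have h' : (1 - s).im ≠ 0 := by
    simpa using h
  have h1 := gr_deriv h
  have h2 : HasDerivAt (fun z : ℂ => Gammaℝ (1 - z)) (Gammaℝ (1 - s) * dR (1 - s) * (-1)) s := by
    have h3 : HasDerivAt (fun z : ℂ => 1 - z) (-1) s := by
      simpa using (hasDerivAt_id s).const_sub 1
    exact (gr_deriv h').comp s h3
  have hne : Gammaℝ (1 - s) ≠ 0 := gr_ne h'
  have h4 := h1.div h2 hne
  have e : GG s * (dR s + dR (1 - s)) = (Gammaℝ s * dR s * Gammaℝ (1 - s) -
      Gammaℝ s * (Gammaℝ (1 - s) * dR (1 - s) * (-1))) / Gammaℝ (1 - s) ^ 2 := by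
    unfold GG
    field_simp
    ring
  rw [e]
  exact h4

private theorem gg_ne {s : ℂ} (h : s.im ≠ 0) : GG s ≠ 0 := by
  have h' : (1 - s).im ≠ 0 := by
    simpa using h
  exact div_ne_zero (gr_ne h) (gr_ne h')

private theorem digamma_conj (w : ℂ) : digamma ((starRingEnd ℂ) w) = (starRingEnd ℂ) (digamma w) := by
  unfold digamma
  rw [logDeriv_apply, logDeriv_apply, map_div₀, Complex.Gamma_conj]
  congr 1
  have h : (fun z : ℂ => (starRingEnd ℂ) (Complex.Gamma ((starRingEnd ℂ) z))) = Complex.Gamma := by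
    funext z
    rw [Complex.Gamma_conj, Complex.conj_conj]
  have h2 : deriv (⇑(starRingEnd ℂ) ∘ Complex.Gamma ∘ ⇑(starRingEnd ℂ)) = deriv Complex.Gamma :=
    congrArg deriv h
  have h3 := congrFun (deriv_conj_conj (f := Complex.Gamma)) ((starRingEnd ℂ) w)
  rw [h2] at h3
  rw [h3]
  simp

private theorem dig_two {C : ℝ} (hC : ∀ s : ℂ, 1 / 8 ≤ s.re → s.re ≤ 4 → 1 / 4 ≤ s.im →
    ‖Complex.digamma s - ((Real.log s.im : ℝ) : ℂ)‖ ≤ C) {s : ℂ} (h1 : 1 / 2 ≤ s.re)
    (h2 : s.re ≤ 3 / 4) (h3 : 10 ≤ s.im) :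
    ‖dR s + dR (1 - s) - ((Real.log s.im : ℝ) : ℂ)‖ ≤ C + Real.log 2 + Real.log Real.pi := by
  have hlog : Real.log (s.im / 2) = Real.log s.im - Real.log 2 := Real.log_div (by linarith) two_ne_zero
  have hre : (s / 2).re = s.re / 2 := by simp
  have him : (s / 2).im = s.im / 2 := by simp
  have a1 := hC (s / 2) (by rw [hre]; linarith) (by rw [hre]; linarith) (by rw [him]; linarith)
  rw [him] at a1
  have hwre : ((1 - (starRingEnd ℂ) s) / 2).re = (1 - s.re) / 2 := by simp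
  have hwim : ((1 - (starRingEnd ℂ) s) / 2).im = s.im / 2 := by simp
  have a2 := hC ((1 - (starRingEnd ℂ) s) / 2) (by rw [hwre]; linarith) (by rw [hwre]; linarith)
    (by rw [hwim]; linarith)
  rw [hwim] at a2
  have hcc : (1 - s) / 2 = (starRingEnd ℂ) ((1 - (starRingEnd ℂ) s) / 2) := by
    have h2c : (starRingEnd ℂ) 2 = 2 := map_ofNat _ 2
    rw [map_div₀, h2c, map_sub, map_one, Complex.conj_conj]
  have a3 : ‖digamma ((1 - s) / 2) - ((Real.log (s.im / 2) : ℝ) : ℂ)‖ ≤ C := by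
    rw [hcc, digamma_conj]
    have : (starRingEnd ℂ) (digamma ((1 - (starRingEnd ℂ) s) / 2)) - ((Real.log (s.im / 2) : ℝ) : ℂ) =
        (starRingEnd ℂ) (digamma ((1 - (starRingEnd ℂ) s) / 2) - ((Real.log (s.im / 2) : ℝ) : ℂ)) := by
      rw [map_sub, Complex.conj_ofReal]
    rw [this, RCLike.norm_conj]
    exact a2
  have e : dR s + dR (1 - s) - ((Real.log s.im : ℝ) : ℂ) =
      (digamma (s / 2) - ((Real.log (s.im / 2) : ℝ) : ℂ)) / 2 +
      (digamma ((1 - s) / 2) - ((Real.log (s.im / 2) : ℝ) : ℂ)) / 2 -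
      ((Real.log 2 + Real.log Real.pi : ℝ) : ℂ) := by
    unfold dR
    rw [hlog]
    push_cast
    ring
  rw [e]
  have hn : ‖((Real.log 2 + Real.log Real.pi : ℝ) : ℂ)‖ = Real.log 2 + Real.log Real.pi := by
    rw [Complex.norm_real, Real.norm_eq_abs, abs_of_nonneg]
    have := Real.log_nonneg (by norm_num : (1 : ℝ) ≤ 2)
    have := Real.log_nonneg (by linarith [Real.pi_gt_three] : (1 : ℝ) ≤ Real.pi)
    linarith
  have n1 : ‖(digamma (s / 2) - ((Real.log (s.im / 2) : ℝ) : ℂ)) / 2‖ ≤ C / 2 := by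
    rw [norm_div]
    simp only [Complex.norm_ofNat]
    linarith
  have n2 : ‖(digamma ((1 - s) / 2) - ((Real.log (s.im / 2) : ℝ) : ℂ)) / 2‖ ≤ C / 2 := by
    rw [norm_div]
    simp only [Complex.norm_ofNat]
    linarith
  refine (norm_sub_le _ _).trans ?_
  rw [hn]
  have := norm_add_le ((digamma (s / 2) - ((Real.log (s.im / 2) : ℝ) : ℂ)) / 2)
    ((digamma ((1 - s) / 2) - ((Real.log (s.im / 2) : ℝ) : ℂ)) / 2)
  linarith

private theorem norm_gr {s : ℂ} : ‖Gammaℝ s‖ = Real.pi ^ (-s.re / 2) * ‖Complex.Gamma (s / 2)‖ := by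
  rw [Gammaℝ_def, norm_mul, Complex.norm_cpow_eq_rpow_re_of_pos Real.pi_pos]
  congr 2
  simp

private theorem norm_gg_half {s : ℂ} (h : s.re = 1 / 2) (hi : s.im ≠ 0) : ‖GG s‖ = 1 := by
  have h' : (1 - s).im ≠ 0 := by
    simpa using hi
  have e : (1 - s) = (starRingEnd ℂ) s := by
    apply Complex.ext
    · simp [h]; norm_num
    · simp
  have e2 : ‖Gammaℝ (1 - s)‖ = ‖Gammaℝ s‖ := by
    rw [norm_gr, norm_gr, e]
    have : (starRingEnd ℂ) s / 2 = (starRingEnd ℂ) (s / 2) := by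
      have h2c : (starRingEnd ℂ) 2 = 2 := map_ofNat _ 2
      rw [map_div₀, h2c]
    rw [this, Complex.Gamma_conj, RCLike.norm_conj]
    simp
  unfold GG
  rw [norm_div, e2, div_self]
  exact norm_ne_zero_iff.2 (gr_ne hi)

theorem gfe : ∃ T0 C : ℝ, 10 ≤ T0 ∧ 0 < C ∧ ∀ s : ℂ, 1 / 2 ≤ s.re → s.re ≤ 3 / 4 → T0 ≤ s.im →
    riemannZeta (1 - s) = GG s * riemannZeta s ∧ 1 ≤ ‖GG s‖ ∧ DifferentiableAt ℂ GG s ∧
      ‖logDeriv GG s - ((Real.log s.im : ℝ) : ℂ)‖ ≤ C := by
  obtain ⟨C, hC0, hC⟩ := dig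
  obtain ⟨C1, hC1⟩ : ∃ C1 : ℝ, C1 = C + Real.log 2 + Real.log Real.pi := ⟨_, rfl⟩
  have hl2 : 0 ≤ Real.log 2 := Real.log_nonneg (by norm_num)
  have hlp : 0 ≤ Real.log Real.pi := Real.log_nonneg (by linarith [Real.pi_gt_three])
  have hC1pos : 0 < C1 := by rw [hC1]; linarith
  refine ⟨max 10 (Real.exp C1), C1, le_max_left _ _, hC1pos, ?_⟩
  intro s hs1 hs2 hs3
  have ht : (10 : ℝ) ≤ s.im := le_trans (le_max_left _ _) hs3
  have hte : Real.exp C1 ≤ s.im := le_trans (le_max_right _ _) hs3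
  have hi : s.im ≠ 0 := by linarith
  have hi' : (1 - s).im ≠ 0 := by
    simpa using hi
  have hlogt : C1 ≤ Real.log s.im := by
    rw [Real.le_log_iff_exp_le (by linarith)]
    exact hte
  have hs0 : s ≠ 0 := by
    intro h
    rw [h] at hi
    simp at hi
  have hs1' : (1 - s) ≠ 0 := by
    intro h
    rw [h] at hi'
    simp at hi'
  refine ⟨?_, ?_, (gg_deriv hi).differentiableAt, ?_⟩
  · rw [riemannZeta_def_of_ne_zero hs0, riemannZeta_def_of_ne_zero hs1', completedRiemannZeta_one_sub]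
    unfold GG
    have := gr_ne hi
    have := gr_ne hi'
    field_simp
  · -- monotonicity in the real part
    obtain ⟨t, ht'⟩ : ∃ t : ℝ, t = s.im := ⟨_, rfl⟩
    rw [← ht'] at ht hlogt
    let γ : ℝ → ℂ := fun x => (x : ℂ) + (t : ℂ) * I
    have hγre : ∀ x, (γ x).re = x := fun x => by simp [γ]
    have hγim : ∀ x, (γ x).im = t := fun x => by simp [γ]
    have hγd : ∀ x, HasDerivAt γ 1 x := fun x => by
      have := (Complex.ofRealCLM.hasDerivAt (x := x)).add_const ((t : ℂ) * I)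
      rw [Complex.ofRealCLM_apply, Complex.ofReal_one] at this
      exact this
    have hγi : ∀ x, (γ x).im ≠ 0 := fun x => by rw [hγim]; linarith
    have hF : ∀ x, HasDerivAt (fun x => GG (γ x)) (GG (γ x) * (dR (γ x) + dR (1 - γ x))) x := fun x => by
      have := (gg_deriv (hγi x)).comp x (hγd x)
      rw [mul_one] at this
      exact this
    have hN : ∀ x, HasDerivAt (fun x => ‖GG (γ x)‖ ^ 2)
        (2 * (‖GG (γ x)‖ ^ 2 * (dR (γ x) + dR (1 - γ x)).re)) x := fun x => by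
      have h := (hF x).norm_sq
      have e : inner ℝ (GG (γ x)) (GG (γ x) * (dR (γ x) + dR (1 - γ x))) =
          ‖GG (γ x)‖ ^ 2 * (dR (γ x) + dR (1 - γ x)).re := by
        rw [Complex.inner, mul_right_comm, Complex.mul_conj, Complex.re_ofReal_mul,
          Complex.normSq_eq_norm_sq]
      rw [e] at h
      exact h
    have hmono : MonotoneOn (fun x => ‖GG (γ x)‖ ^ 2) (Set.Icc (1 / 2) (3 / 4)) := by
      apply monotoneOn_of_deriv_nonneg (convex_Icc _ _)
      · exact fun x _ => (hN x).continuousAt.continuousWithinAt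
      · exact fun x _ => (hN x).differentiableAt.differentiableWithinAt
      · intro x hx
        rw [interior_Icc] at hx
        rw [(hN x).deriv]
        have hd := dig_two hC (s := γ x) (by rw [hγre]; linarith [hx.1]) (by rw [hγre]; linarith [hx.2])
          (by rw [hγim]; exact ht)
        rw [hγim, ← hC1] at hd
        have hre := (Complex.abs_re_le_norm (dR (γ x) + dR (1 - γ x) - ((Real.log t : ℝ) : ℂ))).trans hd
        rw [Complex.sub_re, Complex.ofReal_re, abs_le] at hre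
        have : 0 ≤ (dR (γ x) + dR (1 - γ x)).re := by linarith [hre.1]
        positivity
    have hγs : γ s.re = s := by
      apply Complex.ext
      · rw [hγre]
      · rw [hγim, ht']
    have h1 := hmono (Set.mem_Icc.2 ⟨le_rfl, by norm_num⟩ : (1 / 2 : ℝ) ∈ Set.Icc (1 / 2) (3 / 4))
      (Set.mem_Icc.2 ⟨hs1, hs2⟩) hs1
    have h2 : ‖GG (γ (1 / 2))‖ = 1 := norm_gg_half (by rw [hγre]) (hγi _)
    have h3 : ‖GG (γ (1 / 2))‖ ^ 2 ≤ ‖GG (γ s.re)‖ ^ 2 := h1
    rw [h2, hγs] at h3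
    nlinarith [norm_nonneg (GG s)]
  · rw [logDeriv_apply, (gg_deriv hi).deriv, mul_div_cancel_left₀ _ (gg_ne hi), hC1]
    exact dig_two hC hs1 hs2 ht

end Pool.Agent.H48.WN
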