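import Pool.Agent.H48.WN.Defs

/-!
# [H48 WN TRA] transfer between lengths (integers)

PROOF. `EI n (m1 + m2) = EI n m1 + EI (n + m1) m2` for `n ≥ 2` (disjoint union, additivity of the integral of `1/log`).
(a) Up: `EI n m = EI n (m + M) - EI (n+m) M`, for `m ≤ M ≤ X`: `sum_{X<n≤2X} EI n m^2 ≤ 2 sum_{X<n≤2X} EI n (m+M)^2 + 2 sum_{X+m < n ≤ 2X+m} EI n M^2`; the last range is contained in `(X, 3X] ⊂ (X, 2X] ∪ (2X, 4X]`.
So one of: `sum_{(X,2X]} EI n (m+M)^2`, `sum_{(X,2X]} EI n M^2`, `sum_{(2X,4X]} EI n M^2` is `≥ S/8` (`S ≤ 2a + 2b + 2c`).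
(b) Down: `m = q M + r` with `q ≥ 1`, `0 ≤ r < M`: `EI n m = sum_{j < q-1} EI (n + jM) M + EI (n + (q-1)M) (M + r)`: `q` terms, so `EI n m^2 ≤ q (..)`, sum over `n`: all shifted ranges lie in `(X, 2X + m] ⊂ (X, 3X]`:
`S ≤ q ((q-1) A + B)` with `A = sum_{(X,4X]} EI n M^2`, `B = sum_{(X,4X]} EI n (M+r)^2`. So one of `A, B` is `≥ S/q^2`, and one of its two halves `(X,2X]`, `(2X,4X]` is `≥ S/(2q^2)`.
-/

set_option autoImplicit false

namespace Pool.Agent.H48.WN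

open Complex MeasureTheory Finset

private theorem ei_int {n : ℕ} (hn : 2 ≤ n) (a : ℕ) :
    IntervalIntegrable (fun t : ℝ => 1 / Real.log t) volume (n : ℝ) ((n : ℝ) + a) := by
  apply ContinuousOn.intervalIntegrable
  intro t ht
  have hnr : (2 : ℝ) ≤ n := by exact_mod_cast hn
  have har : (0 : ℝ) ≤ a := Nat.cast_nonneg _
  rw [Set.uIcc_of_le (by linarith)] at ht
  have ht2 : 2 ≤ t := hnr.trans ht.1
  have hlog : Real.log t ≠ 0 := (Real.log_pos (by linarith)).ne'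
  apply ContinuousAt.continuousWithinAt
  exact continuousAt_const.div (Real.continuousAt_log (by linarith)) hlog

private theorem ei_add {n : ℕ} (hn : 2 ≤ n) (a b : ℕ) : EI n (a + b) = EI n a + EI (n + a) b := by
  unfold EI
  have h1 : ((Ioc n (n + (a + b))).filter Nat.Prime).card =
      ((Ioc n (n + a)).filter Nat.Prime).card + ((Ioc (n + a) (n + a + b)).filter Nat.Prime).card := by
    rw [card_filter, card_filter, card_filter, ← add_assoc,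
      sum_Ioc_consecutive _ (Nat.le_add_right _ _) (Nat.le_add_right _ _)]
  have h2 : ∫ t in (n : ℝ)..(n + ((a + b : ℕ) : ℝ)), 1 / Real.log t =
      (∫ t in (n : ℝ)..(n + (a : ℝ)), 1 / Real.log t) +
        ∫ t in (((n + a : ℕ) : ℝ))..(((n + a : ℕ) : ℝ) + (b : ℝ)), 1 / Real.log t := by
    have e1 : (n : ℝ) + ((a + b : ℕ) : ℝ) = ((n + a : ℕ) : ℝ) + (b : ℝ) := by
      push_cast
      ring
    have e2 : (n : ℝ) + (a : ℝ) = ((n + a : ℕ) : ℝ) := by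
      push_cast
      ring
    rw [e1, e2]
    symm
    apply intervalIntegral.integral_add_adjacent_intervals
    · rw [← e2]
      exact ei_int hn a
    · exact ei_int (by omega) b
  rw [h1, h2]
  push_cast
  ring

private theorem sh_le (g : ℕ → ℝ) (hg : ∀ n, 0 ≤ g n) (X s : ℕ) (hs : s ≤ X) :
    ∑ n ∈ Ioc X (2 * X), g (n + s) ≤ ∑ n ∈ Ioc X (4 * X), g n := by
  have hinj : Set.InjOn (fun n : ℕ => n + s) ((Ioc X (2 * X) : Finset ℕ) : Set ℕ) := by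
    intro a _ b _ h
    simp only at h
    omega
  rw [← sum_image (f := g) (g := fun n : ℕ => n + s) hinj]
  refine sum_le_sum_of_subset_of_nonneg ?_ (fun n _ _ => hg n)
  intro n hn
  rw [mem_image] at hn
  obtain ⟨k, hk, rfl⟩ := hn
  rw [mem_Ioc] at hk ⊢
  omega

private theorem sp_eq (g : ℕ → ℝ) (X : ℕ) :
    ∑ n ∈ Ioc X (4 * X), g n = ∑ n ∈ Ioc X (2 * X), g n + ∑ n ∈ Ioc (2 * X) (2 * (2 * X)), g n := by
  rw [sum_Ioc_consecutive _ (by omega) (by omega)]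
  congr 2
  omega

theorem tra_up (X m M : ℕ) (hX : 2 ≤ X) (hm : m ≤ M) (hM : M ≤ X) : ∃ X' H : ℕ, (X' = X ∨ X' = 2 * X) ∧
    M ≤ H ∧ H ≤ 2 * M ∧ (∑ n ∈ Ioc X (2 * X), (EI n m) ^ 2) / 8 ≤ ∑ n ∈ Ioc X' (2 * X'), (EI n H) ^ 2 := by
  obtain ⟨S, hS⟩ : ∃ S : ℝ, S = ∑ n ∈ Ioc X (2 * X), (EI n m) ^ 2 := ⟨_, rfl⟩
  have hS0 : 0 ≤ S := by rw [hS]; exact sum_nonneg fun _ _ => sq_nonneg _
  have ha0 : 0 ≤ ∑ n ∈ Ioc X (2 * X), (EI n (m + M)) ^ 2 := sum_nonneg fun _ _ => sq_nonneg _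
  have hle : S ≤ 2 * ∑ n ∈ Ioc X (2 * X), (EI n (m + M)) ^ 2 +
      2 * (∑ n ∈ Ioc X (2 * X), (EI n M) ^ 2 + ∑ n ∈ Ioc (2 * X) (2 * (2 * X)), (EI n M) ^ 2) := by
    rw [hS, ← sp_eq (fun n => (EI n M) ^ 2) X]
    have h1 : ∑ n ∈ Ioc X (2 * X), (EI n m) ^ 2 ≤
        ∑ n ∈ Ioc X (2 * X), (2 * (EI n (m + M)) ^ 2 + 2 * (EI (n + m) M) ^ 2) := by
      refine sum_le_sum fun n hn => ?_
      rw [mem_Ioc] at hn
      have h2 := ei_add (show 2 ≤ n by omega) m M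
      have h3 : EI n m = EI n (m + M) - EI (n + m) M := by linarith
      rw [h3]
      nlinarith [sq_nonneg (EI n (m + M) + EI (n + m) M)]
    refine h1.trans ?_
    rw [sum_add_distrib, ← mul_sum, ← mul_sum]
    have h4 := sh_le (fun n => (EI n M) ^ 2) (fun n => sq_nonneg _) X m (hm.trans hM)
    linarith
  rw [← hS]
  by_cases h1 : S / 8 ≤ ∑ n ∈ Ioc X (2 * X), (EI n (m + M)) ^ 2
  · exact ⟨X, m + M, Or.inl rfl, by omega, by omega, h1⟩
  by_cases h2 : S / 8 ≤ ∑ n ∈ Ioc X (2 * X), (EI n M) ^ 2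
  · exact ⟨X, M, Or.inl rfl, le_rfl, by omega, h2⟩
  by_cases h3 : S / 8 ≤ ∑ n ∈ Ioc (2 * X) (2 * (2 * X)), (EI n M) ^ 2
  · exact ⟨2 * X, M, Or.inr rfl, le_rfl, by omega, h3⟩
  exfalso
  rw [not_le] at h1 h2 h3
  linarith

private theorem ei_many (M t : ℕ) (k : ℕ) : ∀ n : ℕ, 2 ≤ n →
    EI n (k * M + t) = ∑ j ∈ range k, EI (n + j * M) M + EI (n + k * M) t := by
  induction k with
  | zero =>
    intro n _
    simp
  | succ k ih =>
    intro n hn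
    have e : (k + 1) * M + t = k * M + (M + t) := by ring
    rw [e, sum_range_succ]
    have h1 := ih n hn
    have h2 : EI n (k * M + (M + t)) = EI n (k * M + M) + EI (n + (k * M + M)) t := by
      rw [← add_assoc]
      exact ei_add hn _ _
    have h3 : EI n (k * M + M) = EI n (k * M) + EI (n + k * M) M := ei_add hn _ _
    have h4 : EI n (k * M + t) = EI n (k * M) + EI (n + k * M) t := ei_add hn _ _
    have e2 : n + (k * M + M) = n + (k + 1) * M := by ring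
    rw [h2, h3, e2]
    linarith

private theorem many_sq (M t k : ℕ) {n : ℕ} (hn : 2 ≤ n) :
    (EI n (k * M + t)) ^ 2 ≤ ((k : ℝ) + 1) * (∑ j ∈ range k, (EI (n + j * M) M) ^ 2 + (EI (n + k * M) t) ^ 2) := by
  rw [ei_many M t k n hn]
  have h1 := sq_sum_le_card_mul_sum_sq (s := range (k + 1))
    (f := fun j => if j < k then EI (n + j * M) M else EI (n + k * M) t)
  rw [sum_range_succ, sum_range_succ, card_range, if_neg (lt_irrefl k)] at h1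
  have h2 : ∑ j ∈ range k, (if j < k then EI (n + j * M) M else EI (n + k * M) t) =
      ∑ j ∈ range k, EI (n + j * M) M := by
    refine sum_congr rfl fun j hj => ?_
    rw [if_pos (mem_range.1 hj)]
  have h3 : ∑ j ∈ range k, (if j < k then EI (n + j * M) M else EI (n + k * M) t) ^ 2 =
      ∑ j ∈ range k, (EI (n + j * M) M) ^ 2 := by
    refine sum_congr rfl fun j hj => ?_
    rw [if_pos (mem_range.1 hj)]
  rw [h2, h3] at h1
  push_cast at h1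
  exact h1

theorem tra_down (X m M : ℕ) (hX : 2 ≤ X) (hM : 1 ≤ M) (hm : M ≤ m) (hmX : m ≤ X) : ∃ X' H : ℕ,
    (X' = X ∨ X' = 2 * X) ∧ M ≤ H ∧ H ≤ 2 * M ∧
    (∑ n ∈ Ioc X (2 * X), (EI n m) ^ 2) / (2 * ((m : ℝ) / M) ^ 2) ≤ ∑ n ∈ Ioc X' (2 * X'), (EI n H) ^ 2 := by
  obtain ⟨S, hS⟩ : ∃ S : ℝ, S = ∑ n ∈ Ioc X (2 * X), (EI n m) ^ 2 := ⟨_, rfl⟩
  have hS0 : 0 ≤ S := by rw [hS]; exact sum_nonneg fun _ _ => sq_nonneg _
  obtain ⟨k, hk⟩ : ∃ k : ℕ, m / M = k + 1 := by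
    have : 1 ≤ m / M := by
      rw [Nat.le_div_iff_mul_le (by omega)]
      omega
    exact ⟨m / M - 1, by omega⟩
  obtain ⟨r, hr⟩ : ∃ r : ℕ, r = m % M := ⟨_, rfl⟩
  have hrM : r < M := by rw [hr]; exact Nat.mod_lt _ (by omega)
  have hmk : m = k * M + (M + r) := by
    have h1 := Nat.div_add_mod m M
    rw [hk, ← hr] at h1
    have h2 : M * (k + 1) = k * M + M := by ring
    omega
  have hkX : k * M ≤ X := by omega
  obtain ⟨A, hA⟩ : ∃ A : ℝ, A = ∑ n ∈ Ioc X (4 * X), (EI n M) ^ 2 := ⟨_, rfl⟩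
  obtain ⟨B, hB⟩ : ∃ B : ℝ, B = ∑ n ∈ Ioc X (4 * X), (EI n (M + r)) ^ 2 := ⟨_, rfl⟩
  have hA0 : 0 ≤ A := by rw [hA]; exact sum_nonneg fun _ _ => sq_nonneg _
  have hB0 : 0 ≤ B := by rw [hB]; exact sum_nonneg fun _ _ => sq_nonneg _
  have hle : S ≤ ((k : ℝ) + 1) * (k * A + B) := by
    have h1 : S ≤ ∑ n ∈ Ioc X (2 * X), ((k : ℝ) + 1) *
        (∑ j ∈ range k, (EI (n + j * M) M) ^ 2 + (EI (n + k * M) (M + r)) ^ 2) := by
      rw [hS]
      refine sum_le_sum fun n hn => ?_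
      rw [mem_Ioc] at hn
      rw [hmk]
      exact many_sq M (M + r) k (by omega)
    refine h1.trans ?_
    rw [← mul_sum]
    refine mul_le_mul_of_nonneg_left ?_ (by positivity)
    rw [sum_add_distrib, sum_comm]
    refine add_le_add ?_ ?_
    · have h2 : ∀ j ∈ range k, ∑ n ∈ Ioc X (2 * X), (EI (n + j * M) M) ^ 2 ≤ A := by
        intro j hj
        rw [mem_range] at hj
        rw [hA]
        have h3 : j * M ≤ k * M := Nat.mul_le_mul_right M hj.le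
        exact sh_le (fun n => (EI n M) ^ 2) (fun n => sq_nonneg _) X (j * M) (by omega)
      have h4 := sum_le_sum h2
      rw [sum_const, card_range, nsmul_eq_mul] at h4
      exact h4
    · rw [hB]
      exact sh_le (fun n => (EI n (M + r)) ^ 2) (fun n => sq_nonneg _) X (k * M) hkX
  rw [← hS]
  have hMr : (0 : ℝ) < M := by exact_mod_cast hM
  have hq : (k : ℝ) + 1 ≤ (m : ℝ) / M := by
    rw [le_div_iff₀ hMr, hmk]
    push_cast
    have : (0 : ℝ) ≤ r := Nat.cast_nonneg _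
    linarith
  have hk0 : (0 : ℝ) ≤ k := Nat.cast_nonneg _
  have hq2 : ((k : ℝ) + 1) ^ 2 ≤ ((m : ℝ) / M) ^ 2 := pow_le_pow_left₀ (by linarith) hq 2
  have hq1 : (0 : ℝ) < ((k : ℝ) + 1) ^ 2 := by positivity
  have hc : S / (2 * ((m : ℝ) / M) ^ 2) ≤ S / (2 * ((k : ℝ) + 1) ^ 2) :=
    div_le_div_of_nonneg_left hS0 (by positivity) (by linarith)
  obtain ⟨Z, hZ⟩ : ∃ Z : ℝ, Z = S / (2 * ((k : ℝ) + 1) ^ 2) := ⟨_, rfl⟩
  have hZS : S = Z * (2 * ((k : ℝ) + 1) ^ 2) := by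
    rw [hZ, div_mul_cancel₀]
    positivity
  rw [← hZ] at hc
  have hAs := sp_eq (fun n => (EI n M) ^ 2) X
  have hBs := sp_eq (fun n => (EI n (M + r)) ^ 2) X
  rw [← hA] at hAs
  rw [← hB] at hBs
  by_cases h1 : Z ≤ ∑ n ∈ Ioc X (2 * X), (EI n M) ^ 2
  · exact ⟨X, M, Or.inl rfl, le_rfl, by omega, hc.trans h1⟩
  by_cases h2 : Z ≤ ∑ n ∈ Ioc (2 * X) (2 * (2 * X)), (EI n M) ^ 2
  · exact ⟨2 * X, M, Or.inr rfl, le_rfl, by omega, hc.trans h2⟩
  by_cases h3 : Z ≤ ∑ n ∈ Ioc X (2 * X), (EI n (M + r)) ^ 2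
  · exact ⟨X, M + r, Or.inl rfl, by omega, by omega, hc.trans h3⟩
  by_cases h4 : Z ≤ ∑ n ∈ Ioc (2 * X) (2 * (2 * X)), (EI n (M + r)) ^ 2
  · exact ⟨2 * X, M + r, Or.inr rfl, by omega, by omega, hc.trans h4⟩
  exfalso
  rw [not_le] at h1 h2 h3 h4
  have hAZ : A < 2 * Z := by linarith
  have hBZ : B < 2 * Z := by linarith
  have h5 : (k : ℝ) * A + B < ((k : ℝ) + 1) * (2 * Z) := by
    have := mul_le_mul_of_nonneg_left hAZ.le hk0
    linarith
  have h6 : S < ((k : ℝ) + 1) * (((k : ℝ) + 1) * (2 * Z)) :=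
    hle.trans_lt (mul_lt_mul_of_pos_left h5 (by linarith))
  have h7 : ((k : ℝ) + 1) * (((k : ℝ) + 1) * (2 * Z)) = Z * (2 * ((k : ℝ) + 1) ^ 2) := by ring
  rw [h7, ← hZS] at h6
  exact lt_irrefl _ h6

end Pool.Agent.H48.WN
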