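import Pool.Agent.H48.WN.Defs

/-!
# [H48 WN FIX] from the variable length `η x` to fixed lengths

PROOF. (1) For `x ∈ [X, 2X]`, `H' ∈ [2ηX, 3ηX]`: `H' - ηx ≥ 0` and `F x H' = F x (ηx) + F (x + ηx) (H' - ηx)`, so
`F x (ηx)^2 ≤ 2 F x H'^2 + 2 F (x+ηx) (H' - ηx)^2`. Average over `H'` (length `ηX`): first part `≤ 2V` (hypothesis with `h = H' ≤ 4ηX`, the range `[X,2X] ⊂ [X,3X]`).
Second: for fixed `x` substitute `h = H' - ηx ∈ [0, 3ηX]`: `≤ (2/(ηX)) int_{x ∈ [X,2X]} int_{h ∈ [0,3ηX]} F((1+η)x) h^2`; exchange, for fixed `h` substitute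
`z = (1+η)x ∈ [X, 3X]` (`2(1+η) ≤ 3`), `dx ≤ dz`: `≤ (2/(ηX)) · 3ηX · V = 6V`. (`F^2 ≥ 0`, measurable and bounded, so all integrals exist: `Cocy.meas`, `Cocy.bdd`.)
(2) `η/x ≤ η/X`, inner range `⊂ [0, 2ηX]`; exchange: `≤ (η/X) · 2ηX · V`.
-/

set_option autoImplicit false

namespace Pool.Agent.H48.WN

open Complex MeasureTheory Finset

private theorem fix_int {F : ℝ → ℝ → ℝ} (hF : Cocy F) {a b h : ℝ} (ha : 0 ≤ a) (hab : a ≤ b)
    (hh : 0 ≤ h) : IntervalIntegrable (fun x => (F x h) ^ 2) volume a b := by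
  obtain ⟨M, hM⟩ := hF.bdd (max b h)
  rw [intervalIntegrable_iff_integrableOn_Ioc_of_le hab]
  have h0 : Measurable (fun x : ℝ => F x h) :=
    hF.meas.comp (measurable_id.prodMk measurable_const)
  refine Measure.integrableOn_of_bounded (M := M ^ 2) (by simp)
    (h0.pow_const 2).aestronglyMeasurable ?_
  refine (ae_restrict_iff' measurableSet_Ioc).2 (Filter.Eventually.of_forall fun x hx => ?_)
  rw [Real.norm_eq_abs, abs_pow]
  exact pow_le_pow_left₀ (abs_nonneg _) (hM x h (ha.trans hx.1.le)
    (hx.2.trans (le_max_left _ _)) hh (le_max_right _ _)) 2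


private theorem fix_swap {G : ℝ → ℝ → ℝ} (hG : Measurable (Function.uncurry G)) {a b c d M : ℝ}
    (hab : a ≤ b) (hcd : c ≤ d) (hM : ∀ x ∈ Set.Ioc a b, ∀ y ∈ Set.Ioc c d, |G x y| ≤ M) :
    IntervalIntegrable (fun x => ∫ y in c..d, G x y) volume a b ∧
      ∫ x in a..b, ∫ y in c..d, G x y = ∫ y in c..d, ∫ x in a..b, G x y := by
  have h1 : Integrable (Function.uncurry G)
      ((volume.restrict (Set.Ioc a b)).prod (volume.restrict (Set.Ioc c d))) := by
    rw [Measure.prod_restrict]
    refine Measure.integrableOn_of_bounded (M := M) ?_ hG.aestronglyMeasurable ?_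
    · rw [Measure.prod_prod]
      exact (ENNReal.mul_lt_top (by simp) (by simp)).ne
    · refine (ae_restrict_iff' (measurableSet_Ioc.prod measurableSet_Ioc)).2
        (Filter.Eventually.of_forall fun p hp => ?_)
      exact hM p.1 hp.1 p.2 hp.2
  constructor
  · rw [intervalIntegrable_iff_integrableOn_Ioc_of_le hab]
    have h2 := h1.integral_prod_left
    simp only [intervalIntegral.integral_of_le hcd]
    exact h2
  · simp only [intervalIntegral.integral_of_le hcd, intervalIntegral.integral_of_le hab]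
    exact integral_integral_swap h1

private theorem fix_bd {F : ℝ → ℝ → ℝ} (hF : Cocy F) (R : ℝ) : ∃ M : ℝ, ∀ x h : ℝ, 0 ≤ x →
    x ≤ R → 0 ≤ h → h ≤ R → |(F x h) ^ 2| ≤ M := by
  obtain ⟨M, hM⟩ := hF.bdd R
  refine ⟨M ^ 2, fun x h h1 h2 h3 h4 => ?_⟩
  rw [abs_pow]
  exact pow_le_pow_left₀ (abs_nonneg _) (hM x h h1 h2 h3 h4) 2

theorem fixh (F : ℝ → ℝ → ℝ) (hF : Cocy F) (X η V : ℝ) (hX : 0 < X) (hη : 0 < η) (hη1 : η ≤ 1 / 4)
    (hV : ∀ h : ℝ, 0 ≤ h → h ≤ 4 * η * X → ∫ x in X..(3 * X), (F x h) ^ 2 ≤ V) :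
    ∫ x in X..(2 * X), (F x (η * x)) ^ 2 ≤ 8 * V := by
  have hηX : 0 < η * X := mul_pos hη hX
  have hηX1 : η * X ≤ X / 4 := by nlinarith
  have hV0 : 0 ≤ V := by
    refine le_trans ?_ (hV 0 le_rfl (by positivity))
    exact intervalIntegral.integral_nonneg (by linarith) fun x _ => sq_nonneg _
  by_cases hint : IntervalIntegrable (fun x => (F x (η * x)) ^ 2) volume X (2 * X)
  swap
  · rw [intervalIntegral.integral_undef hint]
    linarith
  obtain ⟨M, hM⟩ := fix_bd hF (4 * X)
  have hmF : Measurable (fun p : ℝ × ℝ => (F p.1 p.2) ^ 2) := by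
    have := hF.meas.pow_const 2
    exact this
  -- the two double integrals
  obtain ⟨s1, s2⟩ := fix_swap (G := fun x h => (F x h) ^ 2) (a := X) (b := 2 * X)
    (c := 2 * (η * X)) (d := 3 * (η * X)) (M := M) hmF (by linarith) (by linarith) (by
      intro x hx y hy
      exact hM x y (by linarith [hx.1]) (by linarith [hx.2]) (by linarith [hy.1])
        (by linarith [hy.2]))
  have hmF2 : Measurable (Function.uncurry fun x h => (F (x + η * x) h) ^ 2) := by
    have h1 : Measurable (fun p : ℝ × ℝ => (p.1 + η * p.1, p.2)) := by fun_prop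
    exact hmF.comp h1
  obtain ⟨t1, t2⟩ := fix_swap (G := fun x h => (F (x + η * x) h) ^ 2) (a := X) (b := 2 * X)
    (c := 0) (d := 3 * (η * X)) (M := M) hmF2 (by linarith) (by linarith) (by
      intro x hx y hy
      have h1 : 0 ≤ η * x := mul_nonneg hη.le (by linarith [hx.1])
      have h2 : η * x ≤ 1 / 4 * x := mul_le_mul_of_nonneg_right hη1 (by linarith [hx.1])
      exact hM _ y (by linarith [hx.1]) (by linarith [hx.2]) hy.1.le (by linarith [hy.2]))
  have e1 : ∫ y in (2 * (η * X))..(3 * (η * X)), ∫ x in X..(2 * X), (F x y) ^ 2 ≤ η * X * V := by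
    have h1 : ∫ y in (2 * (η * X))..(3 * (η * X)), ∫ x in X..(2 * X), (F x y) ^ 2 ≤
        ∫ y in (2 * (η * X))..(3 * (η * X)), V := by
      by_cases hi : IntervalIntegrable (fun y => ∫ x in X..(2 * X), (F x y) ^ 2) volume
          (2 * (η * X)) (3 * (η * X))
      · refine intervalIntegral.integral_mono_on (by linarith) hi
          intervalIntegrable_const fun y hy => ?_
        refine le_trans ?_ (hV y (by linarith [hy.1]) (by linarith [hy.2]))
        exact intervalIntegral.integral_mono_interval le_rfl (by linarith) (by linarith)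
          (Filter.Eventually.of_forall fun x => sq_nonneg _)
          (fix_int hF hX.le (by linarith) (by linarith [hy.1]))
      · rw [intervalIntegral.integral_undef hi]
        exact intervalIntegral.integral_nonneg (by linarith) fun x _ => hV0
    refine h1.trans (le_of_eq ?_)
    rw [intervalIntegral.integral_const, smul_eq_mul]
    ring
  have e2 : ∫ y in (0 : ℝ)..(3 * (η * X)), ∫ x in X..(2 * X), (F (x + η * x) y) ^ 2 ≤
      3 * (η * X) * V := by
    have h1 : ∫ y in (0 : ℝ)..(3 * (η * X)), ∫ x in X..(2 * X), (F (x + η * x) y) ^ 2 ≤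
        ∫ y in (0 : ℝ)..(3 * (η * X)), V := by
      by_cases hi : IntervalIntegrable (fun y => ∫ x in X..(2 * X), (F (x + η * x) y) ^ 2) volume
          0 (3 * (η * X))
      · refine intervalIntegral.integral_mono_on (by linarith) hi
          intervalIntegrable_const fun y hy => ?_
        have h2 : ∫ x in X..(2 * X), (F (x + η * x) y) ^ 2 =
            (1 + η)⁻¹ * ∫ z in ((1 + η) * X)..((1 + η) * (2 * X)), (F z y) ^ 2 := by
          have h3 := intervalIntegral.integral_comp_mul_left (a := X) (b := 2 * X)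
            (fun z => (F z y) ^ 2) (c := 1 + η) (by positivity)
          rw [smul_eq_mul] at h3
          rw [← h3]
          refine intervalIntegral.integral_congr fun x _ => ?_
          show (F (x + η * x) y) ^ 2 = (F ((1 + η) * x) y) ^ 2
          rw [show x + η * x = (1 + η) * x by ring]
        have h3 : 0 ≤ ∫ z in ((1 + η) * X)..((1 + η) * (2 * X)), (F z y) ^ 2 :=
          intervalIntegral.integral_nonneg (by nlinarith) fun x _ => sq_nonneg _
        have h4 : ∫ z in ((1 + η) * X)..((1 + η) * (2 * X)), (F z y) ^ 2 ≤ V := by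
          refine le_trans ?_ (hV y (by linarith [hy.1]) (by linarith [hy.2]))
          exact intervalIntegral.integral_mono_interval (by nlinarith) (by nlinarith)
            (by nlinarith) (Filter.Eventually.of_forall fun x => sq_nonneg _)
            (fix_int hF hX.le (by linarith) (by linarith [hy.1]))
        rw [h2]
        have h5 : (1 + η)⁻¹ ≤ 1 := inv_le_one_of_one_le₀ (by linarith)
        calc (1 + η)⁻¹ * ∫ z in ((1 + η) * X)..((1 + η) * (2 * X)), (F z y) ^ 2
            ≤ 1 * ∫ z in ((1 + η) * X)..((1 + η) * (2 * X)), (F z y) ^ 2 :=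
              mul_le_mul_of_nonneg_right h5 h3
          _ ≤ V := by rw [one_mul]; exact h4
      · rw [intervalIntegral.integral_undef hi]
        exact intervalIntegral.integral_nonneg (by linarith) fun x _ => hV0
    refine h1.trans (le_of_eq ?_)
    rw [intervalIntegral.integral_const, smul_eq_mul]
    ring
  -- pointwise
  have e3 : ∫ x in X..(2 * X), η * X * (F x (η * x)) ^ 2 ≤
      ∫ x in X..(2 * X), (2 * (∫ y in (2 * (η * X))..(3 * (η * X)), (F x y) ^ 2) +
        2 * ∫ y in (0 : ℝ)..(3 * (η * X)), (F (x + η * x) y) ^ 2) := by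
    refine intervalIntegral.integral_mono_on (by linarith) (hint.const_mul _)
      ((s1.const_mul 2).add (t1.const_mul 2)) fun x hx => ?_
    have hx0 : 0 ≤ x := by linarith [hx.1]
    have hηx : 0 ≤ η * x := mul_nonneg hη.le hx0
    have hηx2 : η * x ≤ 2 * (η * X) := by nlinarith [hx.2]
    have hηx1 : η * X ≤ η * x := mul_le_mul_of_nonneg_left hx.1 hη.le
    have hηx3 : η * x ≤ 1 / 4 * x := mul_le_mul_of_nonneg_right hη1 hx0
    have m1 : Measurable (fun y : ℝ => (F x y) ^ 2) :=
      hmF.comp (measurable_const.prodMk measurable_id)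
    have m2 : Measurable (fun y : ℝ => (F (x + η * x) y) ^ 2) :=
      hmF.comp (measurable_const.prodMk measurable_id)
    have bint : ∀ {z a b : ℝ}, 0 ≤ z → z ≤ 4 * X → 0 ≤ a → a ≤ b → b ≤ 4 * X →
        IntervalIntegrable (fun y => (F z y) ^ 2) volume a b := by
      intro z a b hz1 hz2 ha hab hb
      rw [intervalIntegrable_iff_integrableOn_Ioc_of_le hab]
      refine Measure.integrableOn_of_bounded (M := M) (by simp)
        (hmF.comp (measurable_const.prodMk measurable_id)).aestronglyMeasurable ?_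
      refine (ae_restrict_iff' measurableSet_Ioc).2 (Filter.Eventually.of_forall fun y hy => ?_)
      exact hM z y hz1 hz2 (by linarith [hy.1]) (by linarith [hy.2])
    have j1 := bint (z := x) (a := 2 * (η * X)) (b := 3 * (η * X)) hx0 (by linarith [hx.2])
      (by linarith) (by linarith) (by linarith)
    have j2 := bint (z := x + η * x) (a := 2 * (η * X) - η * x) (b := 3 * (η * X) - η * x)
      (by linarith) (by linarith [hx.2]) (by linarith) (by linarith) (by linarith)
    have j3 : IntervalIntegrable (fun y => (F (x + η * x) (y - η * x)) ^ 2) volume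
        (2 * (η * X)) (3 * (η * X)) := by
      have := j2.comp_sub_right (η * x)
      simpa using this
    have k1 : η * X * (F x (η * x)) ^ 2 = ∫ y in (2 * (η * X))..(3 * (η * X)),
        (F x (η * x)) ^ 2 := by
      rw [intervalIntegral.integral_const, smul_eq_mul]
      ring
    have k2 : ∫ y in (2 * (η * X))..(3 * (η * X)), (F x (η * x)) ^ 2 ≤
        ∫ y in (2 * (η * X))..(3 * (η * X)), (2 * (F x y) ^ 2 +
          2 * (F (x + η * x) (y - η * x)) ^ 2) := by
      refine intervalIntegral.integral_mono_on (by linarith) intervalIntegrable_const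
        ((j1.const_mul 2).add (j3.const_mul 2)) fun y hy => ?_
      have h1 := hF.add x (η * x) (y - η * x) hx0 hηx (by linarith [hy.1])
      rw [add_sub_cancel] at h1
      rw [h1]
      nlinarith [sq_nonneg (F x (η * x) + 2 * F (x + η * x) (y - η * x))]
    rw [intervalIntegral.integral_add (j1.const_mul 2) (j3.const_mul 2),
      intervalIntegral.integral_const_mul, intervalIntegral.integral_const_mul,
      intervalIntegral.integral_comp_sub_right (fun y => (F (x + η * x) y) ^ 2) (η * x)] at k2
    have k3 : ∫ y in (2 * (η * X) - η * x)..(3 * (η * X) - η * x), (F (x + η * x) y) ^ 2 ≤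
        ∫ y in (0 : ℝ)..(3 * (η * X)), (F (x + η * x) y) ^ 2 :=
      intervalIntegral.integral_mono_interval (by linarith) (by linarith) (by linarith)
        (Filter.Eventually.of_forall fun x => sq_nonneg _)
        (bint (by linarith) (by linarith [hx.2]) le_rfl (by linarith) (by linarith))
    rw [k1]
    linarith
  rw [intervalIntegral.integral_const_mul, intervalIntegral.integral_add (s1.const_mul 2)
    (t1.const_mul 2), intervalIntegral.integral_const_mul, intervalIntegral.integral_const_mul,
    s2, t2] at e3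
  have e4 : η * X * ∫ x in X..(2 * X), (F x (η * x)) ^ 2 ≤ η * X * (8 * V) := by
    refine e3.trans ?_
    linarith
  exact le_of_mul_le_mul_left e4 hηX

theorem fixi (F : ℝ → ℝ → ℝ) (hF : Cocy F) (X η V : ℝ) (hX : 0 < X) (hη : 0 < η) (hη1 : η ≤ 1 / 4)
    (hV : ∀ h : ℝ, 0 ≤ h → h ≤ 4 * η * X → ∫ x in X..(3 * X), (F x h) ^ 2 ≤ V) :
    ∫ x in X..(2 * X), ((η / x) * ∫ k in (0 : ℝ)..(η * x), (F x k) ^ 2) ≤ 2 * η ^ 2 * V := by
  have hηX : 0 < η * X := mul_pos hη hX
  have hηX1 : η * X ≤ X / 4 := by nlinarith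
  have hV0 : 0 ≤ V := by
    refine le_trans ?_ (hV 0 le_rfl (by positivity))
    exact intervalIntegral.integral_nonneg (by linarith) fun x _ => sq_nonneg _
  by_cases hint : IntervalIntegrable (fun x => (η / x) * ∫ k in (0 : ℝ)..(η * x), (F x k) ^ 2)
      volume X (2 * X)
  swap
  · rw [intervalIntegral.integral_undef hint]
    positivity
  obtain ⟨M, hM⟩ := fix_bd hF (4 * X)
  have hmF : Measurable (fun p : ℝ × ℝ => (F p.1 p.2) ^ 2) := by
    have := hF.meas.pow_const 2
    exact this
  obtain ⟨s1, s2⟩ := fix_swap (G := fun x h => (F x h) ^ 2) (a := X) (b := 2 * X)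
    (c := 0) (d := 2 * (η * X)) (M := M) hmF (by linarith) (by linarith) (by
      intro x hx y hy
      exact hM x y (by linarith [hx.1]) (by linarith [hx.2]) hy.1.le (by linarith [hy.2]))
  have e1 : ∫ y in (0 : ℝ)..(2 * (η * X)), ∫ x in X..(2 * X), (F x y) ^ 2 ≤
      2 * (η * X) * V := by
    have h1 : ∫ y in (0 : ℝ)..(2 * (η * X)), ∫ x in X..(2 * X), (F x y) ^ 2 ≤
        ∫ y in (0 : ℝ)..(2 * (η * X)), V := by
      by_cases hi : IntervalIntegrable (fun y => ∫ x in X..(2 * X), (F x y) ^ 2) volume
          0 (2 * (η * X))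
      · refine intervalIntegral.integral_mono_on (by linarith) hi
          intervalIntegrable_const fun y hy => ?_
        refine le_trans ?_ (hV y (by linarith [hy.1]) (by linarith [hy.2]))
        exact intervalIntegral.integral_mono_interval le_rfl (by linarith) (by linarith)
          (Filter.Eventually.of_forall fun x => sq_nonneg _)
          (fix_int hF hX.le (by linarith) (by linarith [hy.1]))
      · rw [intervalIntegral.integral_undef hi]
        exact intervalIntegral.integral_nonneg (by linarith) fun x _ => hV0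
    refine h1.trans (le_of_eq ?_)
    rw [intervalIntegral.integral_const, smul_eq_mul]
    ring
  have e3 : ∫ x in X..(2 * X), ((η / x) * ∫ k in (0 : ℝ)..(η * x), (F x k) ^ 2) ≤
      ∫ x in X..(2 * X), ((η / X) * ∫ y in (0 : ℝ)..(2 * (η * X)), (F x y) ^ 2) := by
    refine intervalIntegral.integral_mono_on (by linarith) hint (s1.const_mul _) fun x hx => ?_
    have hx0 : 0 < x := by linarith [hx.1]
    have hηx : 0 ≤ η * x := mul_nonneg hη.le hx0.le
    have hηx2 : η * x ≤ 2 * (η * X) := by nlinarith [hx.2]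
    have j1 : IntervalIntegrable (fun y => (F x y) ^ 2) volume 0 (2 * (η * X)) := by
      rw [intervalIntegrable_iff_integrableOn_Ioc_of_le (by linarith)]
      refine Measure.integrableOn_of_bounded (M := M)
        (by rw [Real.volume_Ioc]; exact ENNReal.ofReal_ne_top)
        (hmF.comp (measurable_const.prodMk measurable_id)).aestronglyMeasurable ?_
      refine (ae_restrict_iff' measurableSet_Ioc).2 (Filter.Eventually.of_forall fun y hy => ?_)
      exact hM x y hx0.le (by linarith [hx.2]) hy.1.le (by linarith [hy.2])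
    have k1 : ∫ k in (0 : ℝ)..(η * x), (F x k) ^ 2 ≤
        ∫ y in (0 : ℝ)..(2 * (η * X)), (F x y) ^ 2 :=
      intervalIntegral.integral_mono_interval le_rfl hηx hηx2
        (Filter.Eventually.of_forall fun x => sq_nonneg _) j1
    have k2 : 0 ≤ ∫ k in (0 : ℝ)..(η * x), (F x k) ^ 2 :=
      intervalIntegral.integral_nonneg hηx fun x _ => sq_nonneg _
    have k3 : η / x ≤ η / X := div_le_div_of_nonneg_left hη.le hX hx.1
    exact mul_le_mul k3 k1 k2 (by positivity)
  rw [intervalIntegral.integral_const_mul, s2] at e3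
  refine e3.trans ?_
  have h1 : η / X * (2 * (η * X) * V) = 2 * η ^ 2 * V := by
    field_simp
  rw [← h1]
  exact mul_le_mul_of_nonneg_left e1 (by positivity)

end Pool.Agent.H48.WN
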