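import Pool.Agent.H48.WN.Defs

/-!
# [H48 WN GDV] derivatives of `ψ(log x/L + v) x^(-s)`

PROOF. Put `h_0(y) = ψ(y/L + v)` and `h_(j+1)(y) = h_j'(y) - (s + j) h_j(y)`. For `x > 0`:
`g = gf ψ L v s` satisfies `g^(j)(x) = h_j(log x) x^(-s-j)` (induction: derivative of `h_j(log x) x^(-s-j)` is
`(h_j'(log x) - (s+j) h_j(log x)) x^(-s-j-1)`), and `g = 0` on `x ≤ exp(L(β - v))`, a positive number, so `g` is
smooth on the whole line (near `x ≤ 0` it is locally zero: for `x < exp(L(β-v))`, `x > 0`: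
`log x/L + v < β`, so `ψ = 0`); `g = 0` for `x ≥ exp(L(B - v))`: compact support.
Bound: all derivatives `ψ^(i)`, `i ≤ A`, are bounded (they vanish outside `[β, B]` and are continuous); by induction
`h_A` is a sum of terms `(product of at most A factors (s + j)) L^(-i) ψ^(i)(y/L + v)`, so
`|h_A(y)| ≤ C (1 + |s|)^A` with `C` depending only on `ψ, A` (as `|s + j| ≤ (1 + A)(1 + |s|)`, `L ≥ 1`). A
convenient induction: for every `j` and every derivative order `i` with `i + j ≤ A`: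
`sup |iteratedDeriv i h_j| ≤ C_(i,j) (1+|s|)^j`. Hence with `X0 = exp(L(β - v)) `:
`int |g^(A)| ≤ C (1+|s|)^A int_{X0}^∞ x^(-σ-A) dx = C (1+|s|)^A X0^(1-σ-A)/(σ+A-1) ≤ C (1+|s|)^A X0^(1-σ-A)`
since `σ ≥ 0`, `A ≥ 2` (`integral_Ioi_rpow_of_lt`).
-/

set_option autoImplicit false

namespace Pool.Agent.H48.WN

open Complex MeasureTheory Finset

/-- `ψ` and its derivatives are bounded and vanish outside of `[β, B]` -/
private theorem gdv_out {ψ : ℝ → ℝ} {β B : ℝ} (hβ : ∀ u ≤ β, ψ u = 0)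
    (hB : ∀ u, B ≤ u → ψ u = 0) (i : ℕ) :
    (∀ u < β, iteratedDeriv i ψ u = 0) ∧ ∀ u, B < u → iteratedDeriv i ψ u = 0 := by
  induction i with
  | zero =>
    constructor
    · intro u hu
      rw [iteratedDeriv_zero]
      exact hβ u hu.le
    · intro u hu
      rw [iteratedDeriv_zero]
      exact hB u hu.le
  | succ i ih =>
    constructor
    · intro u hu
      rw [iteratedDeriv_succ]
      have h1 : iteratedDeriv i ψ =ᶠ[nhds u] fun _ => 0 := by
        filter_upwards [isOpen_Iio.mem_nhds hu] with w hw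
        exact ih.1 w hw
      rw [h1.deriv_eq]
      simp
    · intro u hu
      rw [iteratedDeriv_succ]
      have h1 : iteratedDeriv i ψ =ᶠ[nhds u] fun _ => 0 := by
        filter_upwards [isOpen_Ioi.mem_nhds hu] with w hw
        exact ih.2 w hw
      rw [h1.deriv_eq]
      simp

private theorem gdv_bd {ψ : ℝ → ℝ} (hψ : ContDiff ℝ (⊤ : ℕ∞) ψ) {β B : ℝ} (hβ : ∀ u ≤ β, ψ u = 0)
    (hB : ∀ u, B ≤ u → ψ u = 0) (i : ℕ) :
    ∃ M : ℝ, 0 ≤ M ∧ ∀ u, |iteratedDeriv i ψ u| ≤ M := by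
  have hc : Continuous (iteratedDeriv i ψ) := hψ.continuous_iteratedDeriv i (by exact_mod_cast le_top)
  obtain ⟨M, hM⟩ := (isCompact_Icc (a := β) (b := B)).exists_bound_of_continuousOn hc.continuousOn
  refine ⟨max M 0, le_max_right _ _, fun u => ?_⟩
  have ho := gdv_out hβ hB i
  by_cases h1 : u < β
  · rw [ho.1 u h1, abs_zero]
    exact le_max_right _ _
  · by_cases h2 : B < u
    · rw [ho.2 u h2, abs_zero]
      exact le_max_right _ _
    · push Not at h1 h2
      have := hM u ⟨h1, h2⟩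
      rw [Real.norm_eq_abs] at this
      exact this.trans (le_max_left _ _)

/-- the functions `h_j` and their derivatives -/
private noncomputable def gdvh (ψ : ℝ → ℝ) (L v : ℝ) (s : ℂ) : ℕ → ℕ → ℝ → ℂ
  | 0, i, y => (((L⁻¹) ^ i * iteratedDeriv i ψ (y / L + v) : ℝ) : ℂ)
  | j + 1, i, y => gdvh ψ L v s j (i + 1) y - (s + j) * gdvh ψ L v s j i y

private theorem gdvh_deriv {ψ : ℝ → ℝ} (hψ : ContDiff ℝ (⊤ : ℕ∞) ψ) (L v : ℝ) (s : ℂ) (j : ℕ) :
    ∀ (i : ℕ) (y : ℝ), HasDerivAt (gdvh ψ L v s j i) (gdvh ψ L v s j (i + 1) y) y := by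
  induction j with
  | zero =>
    intro i y
    have h1 : HasDerivAt (iteratedDeriv i ψ) (iteratedDeriv (i + 1) ψ (y / L + v)) (y / L + v) := by
      have h2 : Differentiable ℝ (iteratedDeriv i ψ) :=
        hψ.differentiable_iteratedDeriv i (by exact_mod_cast WithTop.coe_lt_top _)
      rw [iteratedDeriv_succ]
      exact (h2 _).hasDerivAt
    have h2 : HasDerivAt (fun y : ℝ => y / L + v) (1 / L) y :=
      ((hasDerivAt_id y).div_const L).add_const v
    have h3 := (h1.comp y h2).const_mul ((L⁻¹) ^ i)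
    have h4 := h3.ofReal_comp
    have h5 : gdvh ψ L v s 0 (i + 1) y =
        (((L⁻¹) ^ i * (iteratedDeriv (i + 1) ψ (y / L + v) * (1 / L)) : ℝ) : ℂ) := by
      simp only [gdvh]
      congr 1
      rw [pow_succ]
      ring
    rw [h5]
    exact h4
  | succ j ih =>
    intro i y
    exact (ih (i + 1) y).sub ((ih i y).const_mul (s + j))

private theorem gdvh_zero {ψ : ℝ → ℝ} {β B : ℝ} (hβ : ∀ u ≤ β, ψ u = 0)
    (hB : ∀ u, B ≤ u → ψ u = 0) {L v : ℝ} (hL : 1 ≤ L) (s : ℂ) (j : ℕ) :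
    ∀ (i : ℕ) (y : ℝ), y < L * (β - v) → gdvh ψ L v s j i y = 0 := by
  induction j with
  | zero =>
    intro i y hy
    have h1 : y / L + v < β := by
      have : y / L < β - v := by
        rw [div_lt_iff₀ (by linarith)]
        linarith
      linarith
    simp only [gdvh]
    rw [(gdv_out hβ hB i).1 _ h1, mul_zero]
    simp
  | succ j ih =>
    intro i y hy
    simp only [gdvh]
    rw [ih _ y hy, ih _ y hy, mul_zero, sub_zero]

private theorem gdvh_bd {ψ : ℝ → ℝ} (hψ : ContDiff ℝ (⊤ : ℕ∞) ψ) {β B : ℝ} (hβ : ∀ u ≤ β, ψ u = 0)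
    (hB : ∀ u, B ≤ u → ψ u = 0) (j : ℕ) :
    ∀ i : ℕ, ∃ K : ℝ, 0 ≤ K ∧ ∀ L v : ℝ, 1 ≤ L → ∀ (s : ℂ) (y : ℝ),
      ‖gdvh ψ L v s j i y‖ ≤ K * (1 + ‖s‖) ^ j := by
  induction j with
  | zero =>
    intro i
    obtain ⟨M, hM0, hM⟩ := gdv_bd hψ hβ hB i
    refine ⟨M, hM0, fun L v hL s y => ?_⟩
    simp only [gdvh]
    rw [pow_zero, mul_one, Complex.norm_real, Real.norm_eq_abs, abs_mul]
    have h1 : |L⁻¹ ^ i| ≤ 1 := by
      rw [abs_of_nonneg (by positivity)]
      exact pow_le_one₀ (by positivity) (inv_le_one_of_one_le₀ hL)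
    calc |L⁻¹ ^ i| * |iteratedDeriv i ψ (y / L + v)| ≤ 1 * M :=
          mul_le_mul h1 (hM _) (abs_nonneg _) zero_le_one
      _ = M := one_mul M
  | succ j ih =>
    intro i
    obtain ⟨K1, hK1, h1⟩ := ih (i + 1)
    obtain ⟨K2, hK2, h2⟩ := ih i
    refine ⟨K1 + (1 + j) * K2, by positivity, fun L v hL s y => ?_⟩
    simp only [gdvh]
    refine (norm_sub_le _ _).trans ?_
    rw [norm_mul]
    have h3 := h1 L v hL s y
    have h4 := h2 L v hL s y
    have h5 : ‖s + (j : ℂ)‖ ≤ (1 + j) * (1 + ‖s‖) := by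
      refine (norm_add_le _ _).trans ?_
      rw [Complex.norm_natCast]
      have : 0 ≤ (j : ℝ) * ‖s‖ := by positivity
      nlinarith
    have h6 : (1 : ℝ) ≤ 1 + ‖s‖ := by linarith [norm_nonneg s]
    have h7 : (1 + ‖s‖) ^ j ≤ (1 + ‖s‖) ^ (j + 1) := pow_le_pow_right₀ h6 (by omega)
    calc ‖gdvh ψ L v s j (i + 1) y‖ + ‖s + (j : ℂ)‖ * ‖gdvh ψ L v s j i y‖
        ≤ K1 * (1 + ‖s‖) ^ j + (1 + j) * (1 + ‖s‖) * (K2 * (1 + ‖s‖) ^ j) :=
          add_le_add h3 (mul_le_mul h5 h4 (norm_nonneg _) (by positivity))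
      _ ≤ K1 * (1 + ‖s‖) ^ (j + 1) + (1 + j) * (1 + ‖s‖) * (K2 * (1 + ‖s‖) ^ j) :=
          add_le_add (mul_le_mul_of_nonneg_left h7 hK1) le_rfl
      _ = (K1 + (1 + j) * K2) * (1 + ‖s‖) ^ (j + 1) := by
          rw [pow_succ]
          ring

/-- the `j`-th derivative -/
private noncomputable def gdvG (ψ : ℝ → ℝ) (L v : ℝ) (s : ℂ) (j : ℕ) (x : ℝ) : ℂ :=
  if x ≤ 0 then 0 else gdvh ψ L v s j 0 (Real.log x) * cexp (-(s + j) * (Real.log x : ℂ))

private theorem gdvG_zero {ψ : ℝ → ℝ} {β B : ℝ} (hβ : ∀ u ≤ β, ψ u = 0)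
    (hB : ∀ u, B ≤ u → ψ u = 0) {L v : ℝ} (hL : 1 ≤ L) (s : ℂ) (j : ℕ) {x : ℝ}
    (hx : x < Real.exp (L * (β - v))) : gdvG ψ L v s j x = 0 := by
  unfold gdvG
  split_ifs with h
  · rfl
  · push Not at h
    have h1 : Real.log x < L * (β - v) := by
      rw [← Real.log_exp (L * (β - v))]
      exact Real.log_lt_log h hx
    rw [gdvh_zero hβ hB hL s j 0 _ h1, zero_mul]

private theorem gdvG_deriv {ψ : ℝ → ℝ} (hψ : ContDiff ℝ (⊤ : ℕ∞) ψ) {β B : ℝ} (hβ : ∀ u ≤ β, ψ u = 0)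
    (hB : ∀ u, B ≤ u → ψ u = 0) {L v : ℝ} (hL : 1 ≤ L) (s : ℂ) (j : ℕ) (x : ℝ) :
    HasDerivAt (gdvG ψ L v s j) (gdvG ψ L v s (j + 1) x) x := by
  by_cases hx : x < Real.exp (L * (β - v))
  · rw [gdvG_zero hβ hB hL s (j + 1) hx]
    have h1 : gdvG ψ L v s j =ᶠ[nhds x] fun _ => 0 := by
      filter_upwards [isOpen_Iio.mem_nhds hx] with w hw
      exact gdvG_zero hβ hB hL s j hw
    exact (hasDerivAt_const x (0 : ℂ)).congr_of_eventuallyEq h1
  · push Not at hx
    have hx0 : 0 < x := (Real.exp_pos _).trans_le hx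
    have hlog : HasDerivAt Real.log x⁻¹ x := Real.hasDerivAt_log hx0.ne'
    have h1 := (gdvh_deriv hψ L v s j 0 (Real.log x)).scomp x hlog
    have h2 : HasDerivAt (fun x : ℝ => -(s + j) * (Real.log x : ℂ))
        (-(s + j) * ((x⁻¹ : ℝ) : ℂ)) x := (hlog.ofReal_comp).const_mul (-(s + j))
    have h3 := h2.cexp
    have h4 := h1.mul h3
    have h5 : gdvG ψ L v s j =ᶠ[nhds x] fun x => gdvh ψ L v s j 0 (Real.log x) *
        cexp (-(s + j) * (Real.log x : ℂ)) := by
      filter_upwards [isOpen_Ioi.mem_nhds hx0] with w hw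
      unfold gdvG
      rw [if_neg (not_le.2 hw)]
    refine HasDerivAt.congr_of_eventuallyEq ?_ h5
    have h6 : gdvG ψ L v s (j + 1) x = (x⁻¹ • gdvh ψ L v s j (0 + 1) (Real.log x)) *
        cexp (-(s + j) * (Real.log x : ℂ)) + gdvh ψ L v s j 0 (Real.log x) *
        (cexp (-(s + j) * (Real.log x : ℂ)) * (-(s + j) * ((x⁻¹ : ℝ) : ℂ))) := by
      unfold gdvG
      rw [if_neg (not_le.2 hx0)]
      have h7 : cexp (-(s + (j + 1 : ℕ)) * (Real.log x : ℂ)) =
          cexp (-(s + j) * (Real.log x : ℂ)) * ((x⁻¹ : ℝ) : ℂ) := by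
        have h8 : -(s + (j + 1 : ℕ)) * (Real.log x : ℂ) =
            -(s + j) * (Real.log x : ℂ) + ((-Real.log x : ℝ) : ℂ) := by
          push_cast
          ring
        rw [h8, Complex.exp_add, ← Complex.ofReal_exp, Real.exp_neg, Real.exp_log hx0]
      rw [h7]
      simp only [gdvh, Complex.real_smul]
      ring
    rw [h6]
    exact h4

theorem gdv (ψ : ℝ → ℝ) (hψ : ContDiff ℝ (⊤ : ℕ∞) ψ) (β B : ℝ) (hβ : ∀ u ≤ β, ψ u = 0)
    (hB : ∀ u, B ≤ u → ψ u = 0) (A : ℕ) (hA : 2 ≤ A) :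
    ∃ C : ℝ, 0 < C ∧ ∀ L v : ℝ, 1 ≤ L → v < β → ∀ s : ℂ, 0 ≤ s.re →
      ContDiff ℝ (⊤ : ℕ∞) (gf ψ L v s) ∧ HasCompactSupport (gf ψ L v s) ∧
      ∫ x, ‖iteratedDeriv A (gf ψ L v s) x‖ ≤
        C * (1 + ‖s‖) ^ A * Real.exp (L * (β - v) * (1 - s.re - A)) := by
  obtain ⟨K, hK0, hK⟩ := gdvh_bd hψ hβ hB A 0
  refine ⟨K + 1, by positivity, fun L v hL hv s hs => ?_⟩
  have hA2 : (2 : ℝ) ≤ A := by exact_mod_cast hA
  have hL0 : 0 < L := by linarith
  have hX : 0 < Real.exp (L * (β - v)) := Real.exp_pos _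
  -- the function is `gdvG 0`
  have h0 : gf ψ L v s = gdvG ψ L v s 0 := by
    funext x
    unfold gf gdvG
    split_ifs with h
    · rfl
    · push Not at h
      simp only [gdvh]
      rw [pow_zero, one_mul, iteratedDeriv_zero, Nat.cast_zero, add_zero,
        Complex.cpow_def_of_ne_zero (by exact_mod_cast h.ne'), ← Complex.ofReal_log h.le]
      congr 2
      ring
  have hit : ∀ j : ℕ, iteratedDeriv j (gf ψ L v s) = gdvG ψ L v s j := by
    intro j
    induction j with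
    | zero => rw [iteratedDeriv_zero, h0]
    | succ j ih =>
      rw [iteratedDeriv_succ, ih]
      funext x
      exact (gdvG_deriv hψ hβ hB hL s j x).deriv
  refine ⟨?_, ?_, ?_⟩
  · apply contDiff_of_differentiable_iteratedDeriv
    intro m _
    rw [hit m]
    exact fun x => (gdvG_deriv hψ hβ hB hL s m x).differentiableAt
  · refine HasCompactSupport.intro (isCompact_Icc (a := Real.exp (L * (β - v)))
      (b := Real.exp (L * (B - v)))) fun x hx => ?_
    by_cases h1 : x < Real.exp (L * (β - v))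
    · rw [h0]
      exact gdvG_zero hβ hB hL s 0 h1
    · push Not at h1
      have h2 : Real.exp (L * (B - v)) < x := by
        by_contra h
        push Not at h
        exact hx ⟨h1, h⟩
      have hx0 : 0 < x := hX.trans_le h1
      unfold gf
      rw [if_neg (not_le.2 hx0)]
      have h3 : L * (B - v) < Real.log x := by
        rw [← Real.log_exp (L * (B - v))]
        exact Real.log_lt_log (Real.exp_pos _) h2
      have h4 : B ≤ Real.log x / L + v := by
        have : B - v < Real.log x / L := by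
          rw [lt_div_iff₀ hL0]
          linarith
        linarith
      rw [hB _ h4]
      simp
  · rw [hit A]
    obtain ⟨a, ha⟩ : ∃ a : ℝ, a = -(s.re + A) := ⟨_, rfl⟩
    have ha1 : a < -1 := by rw [ha]; linarith
    have hint : IntegrableOn (fun x : ℝ => (K * (1 + ‖s‖) ^ A) * x ^ a)
        (Set.Ici (Real.exp (L * (β - v)))) := by
      rw [integrableOn_Ici_iff_integrableOn_Ioi]
      exact (integrableOn_Ioi_rpow_of_lt ha1 hX).const_mul _
    have hle : ∫ x, ‖gdvG ψ L v s A x‖ ≤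
        ∫ x, (Set.Ici (Real.exp (L * (β - v)))).indicator
          (fun x : ℝ => (K * (1 + ‖s‖) ^ A) * x ^ a) x := by
      apply integral_mono_of_nonneg
      · exact Filter.Eventually.of_forall fun x => norm_nonneg _
      · exact hint.integrable_indicator measurableSet_Ici
      · refine Filter.Eventually.of_forall fun x => ?_
        simp only
        by_cases h1 : x < Real.exp (L * (β - v))
        · rw [gdvG_zero hβ hB hL s A h1, norm_zero,
            Set.indicator_of_notMem (by rw [Set.mem_Ici]; linarith)]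
        · push Not at h1
          have hx0 : 0 < x := hX.trans_le h1
          rw [Set.indicator_of_mem (Set.mem_Ici.2 h1)]
          unfold gdvG
          rw [if_neg (not_le.2 hx0), norm_mul]
          have h2 : ‖cexp (-(s + A) * (Real.log x : ℂ))‖ = x ^ a := by
            rw [Complex.norm_exp, Real.rpow_def_of_pos hx0]
            congr 1
            rw [Complex.re_mul_ofReal, ha]
            simp
            ring
          rw [h2]
          exact mul_le_mul_of_nonneg_right (hK L v hL s _) (Real.rpow_nonneg hx0.le _)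
    refine hle.trans ?_
    rw [integral_indicator measurableSet_Ici, integral_Ici_eq_integral_Ioi,
      MeasureTheory.integral_const_mul, integral_Ioi_rpow_of_lt ha1 hX]
    have h3 : Real.exp (L * (β - v)) ^ (a + 1) = Real.exp (L * (β - v) * (1 - s.re - A)) := by
      rw [← Real.exp_mul, ha]
      congr 1
      ring
    rw [h3]
    obtain ⟨X, hXd⟩ : ∃ X, X = Real.exp (L * (β - v) * (1 - s.re - A)) := ⟨_, rfl⟩
    have hX0 : 0 < X := by rw [hXd]; exact Real.exp_pos _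
    rw [← hXd]
    have h4 : -X / (a + 1) ≤ X := by
      have h5 : 1 ≤ -(a + 1) := by rw [ha]; linarith
      rw [← neg_div_neg_eq, neg_neg, div_le_iff₀ (by linarith)]
      nlinarith
    have h5 : 0 ≤ (1 + ‖s‖) ^ A := by positivity
    calc K * (1 + ‖s‖) ^ A * (-X / (a + 1)) ≤ K * (1 + ‖s‖) ^ A * X :=
          mul_le_mul_of_nonneg_left h4 (by positivity)
      _ ≤ (K + 1) * (1 + ‖s‖) ^ A * X := by
          apply mul_le_mul_of_nonneg_right _ hX0.le
          exact mul_le_mul_of_nonneg_right (by linarith) h5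

end Pool.Agent.H48.WN
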