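import Pool.Agent.H48.WN.Defs

/-!
# [H48 WN INT0] the integral of `ψ(log x/L + v) x^(-s)` is tiny

PROOF. Substitute `x = e^y`: the integral is `int_ℝ ψ(y/L + v) e^((1-s) y) dy` (the integrand `gf` is `0` for
`x ≤ 0`; `ψ(y/L+v) = 0` unless `L(β - v) ≤ y ≤ L(B - v)`, an interval contained in `[0, L B]`). Integrate by parts
`A` times (compact support, no boundary terms; `1 - s ≠ 0` since `Im s ≠ 0`): `int h e^((1-s)y) =
-(1-s)^(-1) int h' e^((1-s)y)`, so the value is `(-1)^A (1-s)^(-A) L^(-A) int ψ^(A)(y/L+v) e^((1-s)y) dy`.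
`|1 - s| ≥ |Im s|`, `|ψ^(A)| ≤ C`, `|e^((1-s)y)| = e^((1-σ) y) ≤ e^(L B)` for `0 ≤ y ≤ L B` (for `σ ≥ 1` it is
`≤ 1`, for `0 ≤ σ < 1` it is `≤ e^y`), the length of the range is `≤ L (B - β) `, `L^(-A) ≤ 1`.
If `B < β` then `ψ = 0` and everything is trivial; if `B < 0` also.
-/

set_option autoImplicit false

namespace Pool.Agent.H48.WN

open Complex MeasureTheory Finset

private theorem i0_out {ψ : ℝ → ℝ} {β B : ℝ} (hβ : ∀ u ≤ β, ψ u = 0)
    (hB : ∀ u, B ≤ u → ψ u = 0) (i : ℕ) :
    (∀ u < β, iteratedDeriv i ψ u = 0) ∧ ∀ u, B < u → iteratedDeriv i ψ u = 0 := by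
  induction i with
  | zero =>
    constructor
    · intro u hu
      rw [iteratedDeriv_zero]
      exact hβ u hu.le
    · intro u hu
      rw [iteratedDeriv_zero]
      exact hB u hu.le
  | succ i ih =>
    constructor
    · intro u hu
      rw [iteratedDeriv_succ]
      have h1 : iteratedDeriv i ψ =ᶠ[nhds u] fun _ => 0 := by
        filter_upwards [isOpen_Iio.mem_nhds hu] with w hw
        exact ih.1 w hw
      rw [h1.deriv_eq]
      simp
    · intro u hu
      rw [iteratedDeriv_succ]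
      have h1 : iteratedDeriv i ψ =ᶠ[nhds u] fun _ => 0 := by
        filter_upwards [isOpen_Ioi.mem_nhds hu] with w hw
        exact ih.2 w hw
      rw [h1.deriv_eq]
      simp

private theorem i0_bd {ψ : ℝ → ℝ} (hψ : ContDiff ℝ (⊤ : ℕ∞) ψ) {β B : ℝ} (hβ : ∀ u ≤ β, ψ u = 0)
    (hB : ∀ u, B ≤ u → ψ u = 0) (i : ℕ) :
    ∃ M : ℝ, 0 ≤ M ∧ ∀ u, |iteratedDeriv i ψ u| ≤ M := by
  have hc : Continuous (iteratedDeriv i ψ) := hψ.continuous_iteratedDeriv i (by exact_mod_cast le_top)
  obtain ⟨M, hM⟩ := (isCompact_Icc (a := β) (b := B)).exists_bound_of_continuousOn hc.continuousOn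
  refine ⟨max M 0, le_max_right _ _, fun u => ?_⟩
  have ho := i0_out hβ hB i
  by_cases h1 : u < β
  · rw [ho.1 u h1, abs_zero]
    exact le_max_right _ _
  · by_cases h2 : B < u
    · rw [ho.2 u h2, abs_zero]
      exact le_max_right _ _
    · push Not at h1 h2
      have := hM u ⟨h1, h2⟩
      rw [Real.norm_eq_abs] at this
      exact this.trans (le_max_left _ _)

/-- `H(log x) x^w` on the line -/
private noncomputable def i0F (H : ℝ → ℂ) (w : ℂ) (x : ℝ) : ℂ :=
  if x ≤ 0 then 0 else H (Real.log x) * cexp (w * (Real.log x : ℂ))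

private theorem i0F_lt {H : ℝ → ℂ} {y0 : ℝ} (h0 : ∀ y < y0, H y = 0) (w : ℂ) {x : ℝ}
    (hx : x < Real.exp y0) : i0F H w x = 0 := by
  unfold i0F
  split_ifs with h
  · rfl
  · push Not at h
    have h1 : Real.log x < y0 := by
      rw [← Real.log_exp y0]
      exact Real.log_lt_log h hx
    rw [h0 _ h1, zero_mul]

private theorem i0F_gt {H : ℝ → ℂ} {y1 : ℝ} (h0 : ∀ y, y1 < y → H y = 0) (w : ℂ) {x : ℝ}
    (hx : Real.exp y1 < x) : i0F H w x = 0 := by
  unfold i0F
  split_ifs with h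
  · rfl
  · push Not at h
    have h1 : y1 < Real.log x := by
      rw [← Real.log_exp y1]
      exact Real.log_lt_log (Real.exp_pos _) hx
    rw [h0 _ h1, zero_mul]

private theorem i0F_deriv {H H' : ℝ → ℂ} (hH : ∀ y, HasDerivAt H (H' y) y) {y0 : ℝ}
    (h0 : ∀ y < y0, H y = 0) (h0' : ∀ y < y0, H' y = 0) (w : ℂ) (x : ℝ) :
    HasDerivAt (i0F H w) (i0F H' (w - 1) x + w * i0F H (w - 1) x) x := by
  by_cases hx : x < Real.exp y0
  · rw [i0F_lt h0 _ hx, i0F_lt h0' _ hx, mul_zero, add_zero]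
    have h1 : i0F H w =ᶠ[nhds x] fun _ => 0 := by
      filter_upwards [isOpen_Iio.mem_nhds hx] with z hz
      exact i0F_lt h0 _ hz
    exact (hasDerivAt_const x (0 : ℂ)).congr_of_eventuallyEq h1
  · push Not at hx
    have hx0 : 0 < x := (Real.exp_pos _).trans_le hx
    have hlog : HasDerivAt Real.log x⁻¹ x := Real.hasDerivAt_log hx0.ne'
    have h1 := (hH (Real.log x)).scomp x hlog
    have h2 : HasDerivAt (fun x : ℝ => w * (Real.log x : ℂ))
        (w * ((x⁻¹ : ℝ) : ℂ)) x := (hlog.ofReal_comp).const_mul w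
    have h4 := h1.mul h2.cexp
    have h5 : i0F H w =ᶠ[nhds x] fun x => H (Real.log x) * cexp (w * (Real.log x : ℂ)) := by
      filter_upwards [isOpen_Ioi.mem_nhds hx0] with z hz
      unfold i0F
      rw [if_neg (not_le.2 hz)]
    refine HasDerivAt.congr_of_eventuallyEq ?_ h5
    have h6 : i0F H' (w - 1) x + w * i0F H (w - 1) x = (x⁻¹ • H' (Real.log x)) *
        cexp (w * (Real.log x : ℂ)) + H (Real.log x) *
        (cexp (w * (Real.log x : ℂ)) * (w * ((x⁻¹ : ℝ) : ℂ))) := by
      unfold i0F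
      rw [if_neg (not_le.2 hx0), if_neg (not_le.2 hx0)]
      have h7 : cexp ((w - 1) * (Real.log x : ℂ)) =
          cexp (w * (Real.log x : ℂ)) * ((x⁻¹ : ℝ) : ℂ) := by
        have h8 : (w - 1) * (Real.log x : ℂ) =
            w * (Real.log x : ℂ) + ((-Real.log x : ℝ) : ℂ) := by
          push_cast
          ring
        rw [h8, Complex.exp_add, ← Complex.ofReal_exp, Real.exp_neg, Real.exp_log hx0]
      rw [h7]
      simp only [Complex.real_smul]
      ring
    rw [h6]
    exact h4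

private theorem i0F_int {H H' : ℝ → ℂ} (hH : ∀ y, HasDerivAt H (H' y) y) {y0 y1 : ℝ}
    (h0 : ∀ y < y0, H y = 0) (h0' : ∀ y < y0, H' y = 0) (h1 : ∀ y, y1 < y → H y = 0) (w : ℂ) :
    Integrable (i0F H w) := by
  have hc : Continuous (i0F H w) :=
    continuous_iff_continuousAt.2 fun x => (i0F_deriv hH h0 h0' w x).continuousAt
  apply hc.integrable_of_hasCompactSupport
  refine HasCompactSupport.intro (isCompact_Icc (a := Real.exp y0) (b := Real.exp y1)) fun x hx => ?_
  by_cases h2 : x < Real.exp y0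
  · exact i0F_lt h0 w h2
  · push Not at h2
    have h3 : Real.exp y1 < x := by
      by_contra h
      push Not at h
      exact hx ⟨h2, h⟩
    exact i0F_gt h1 w h3

/-- the functions -/
private noncomputable def i0H (ψ : ℝ → ℝ) (L v : ℝ) (i : ℕ) (y : ℝ) : ℂ :=
  (((L⁻¹) ^ i * iteratedDeriv i ψ (y / L + v) : ℝ) : ℂ)

private theorem i0H_deriv {ψ : ℝ → ℝ} (hψ : ContDiff ℝ (⊤ : ℕ∞) ψ) (L v : ℝ) (i : ℕ) (y : ℝ) :
    HasDerivAt (i0H ψ L v i) (i0H ψ L v (i + 1) y) y := by
  have h1 : HasDerivAt (iteratedDeriv i ψ) (iteratedDeriv (i + 1) ψ (y / L + v)) (y / L + v) := by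
    have h2 : Differentiable ℝ (iteratedDeriv i ψ) :=
      hψ.differentiable_iteratedDeriv i (by exact_mod_cast WithTop.coe_lt_top _)
    rw [iteratedDeriv_succ]
    exact (h2 _).hasDerivAt
  have h2 : HasDerivAt (fun y : ℝ => y / L + v) (1 / L) y :=
    ((hasDerivAt_id y).div_const L).add_const v
  have h3 := (h1.comp y h2).const_mul ((L⁻¹) ^ i)
  have h4 := h3.ofReal_comp
  have h5 : i0H ψ L v (i + 1) y =
      (((L⁻¹) ^ i * (iteratedDeriv (i + 1) ψ (y / L + v) * (1 / L)) : ℝ) : ℂ) := by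
    simp only [i0H]
    congr 1
    rw [pow_succ]
    ring
  rw [h5]
  exact h4

theorem int0 (ψ : ℝ → ℝ) (hψ : ContDiff ℝ (⊤ : ℕ∞) ψ) (β B : ℝ) (hβ : ∀ u ≤ β, ψ u = 0)
    (hB : ∀ u, B ≤ u → ψ u = 0) (A : ℕ) :
    ∃ C : ℝ, 0 < C ∧ ∀ L v : ℝ, 1 ≤ L → 0 ≤ v → v < β → ∀ s : ℂ, 0 ≤ s.re → 1 ≤ |s.im| →
      ‖∫ x, gf ψ L v s x‖ ≤ C * L * (|s.im| ^ A)⁻¹ * Real.exp (L * |B|) := by
  obtain ⟨M, hM0, hM⟩ := i0_bd hψ hβ hB A
  refine ⟨M + 1, by positivity, fun L v hL hv0 hv s hs him => ?_⟩
  have hL0 : 0 < L := by linarith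
  have hz0 : ∀ (i : ℕ) (y : ℝ), y < L * (β - v) → i0H ψ L v i y = 0 := by
    intro i y hy
    have h1 : y / L + v < β := by
      have : y / L < β - v := by
        rw [div_lt_iff₀ hL0]
        linarith
      linarith
    unfold i0H
    rw [(i0_out hβ hB i).1 _ h1, mul_zero]
    simp
  have hz1 : ∀ (i : ℕ) (y : ℝ), L * (B - v) < y → i0H ψ L v i y = 0 := by
    intro i y hy
    have h1 : B < y / L + v := by
      have : B - v < y / L := by
        rw [lt_div_iff₀ hL0]
        linarith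
      linarith
    unfold i0H
    rw [(i0_out hβ hB i).2 _ h1, mul_zero]
    simp
  have h0 : gf ψ L v s = i0F (i0H ψ L v 0) (-s) := by
    funext x
    unfold gf i0F
    split_ifs with h
    · rfl
    · push Not at h
      simp only [i0H]
      rw [pow_zero, one_mul, iteratedDeriv_zero,
        Complex.cpow_def_of_ne_zero (by exact_mod_cast h.ne'), ← Complex.ofReal_log h.le]
      congr 2
      ring
  obtain ⟨w, hw⟩ : ∃ w : ℂ, w = 1 - s := ⟨_, rfl⟩
  have hwn : |s.im| ≤ ‖w‖ := by
    have h1 := Complex.abs_im_le_norm w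
    rw [hw] at h1 ⊢
    simpa using h1
  have hw0 : w ≠ 0 := by
    intro h
    rw [h, norm_zero] at hwn
    linarith
  have hint : ∀ i : ℕ, Integrable (i0F (i0H ψ L v i) (-s)) := fun i =>
    i0F_int (i0H_deriv hψ L v i) (hz0 i) (hz0 (i + 1)) (hz1 i) (-s)
  have hstep : ∀ i : ℕ, w * ∫ x, i0F (i0H ψ L v i) (-s) x =
      -∫ x, i0F (i0H ψ L v (i + 1)) (-s) x := by
    intro i
    have h1 : ∀ x, HasDerivAt (i0F (i0H ψ L v i) w) (i0F (i0H ψ L v (i + 1)) (-s) x +
        w * i0F (i0H ψ L v i) (-s) x) x := by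
      intro x
      have h2 := i0F_deriv (i0H_deriv hψ L v i) (hz0 i) (hz0 (i + 1)) w x
      have h3 : w - 1 = -s := by rw [hw]; ring
      rwa [h3] at h2
    have h2 := integral_eq_zero_of_hasDerivAt_of_integrable h1
      ((hint (i + 1)).add ((hint i).const_mul w))
      (i0F_int (i0H_deriv hψ L v i) (hz0 i) (hz0 (i + 1)) (hz1 i) w)
    rw [integral_add (hint (i + 1)) ((hint i).const_mul w), integral_const_mul] at h2
    linear_combination h2
  have hpow : ∀ i : ℕ, ‖w‖ ^ i * ‖∫ x, i0F (i0H ψ L v 0) (-s) x‖ =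
      ‖∫ x, i0F (i0H ψ L v i) (-s) x‖ := by
    intro i
    induction i with
    | zero => rw [pow_zero, one_mul]
    | succ i ih =>
      have h1 := congrArg norm (hstep i)
      rw [norm_mul, norm_neg] at h1
      rw [← h1, ← ih, pow_succ]
      ring
  -- the bound of the last integral
  have hA : ‖∫ x, i0F (i0H ψ L v A) (-s) x‖ ≤ M * Real.exp (L * |B|) := by
    have h1 : ‖∫ x, i0F (i0H ψ L v A) (-s) x‖ ≤
        ∫ x, (Set.Icc (0 : ℝ) (Real.exp (L * |B|))).indicator (fun _ => M) x := by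
      refine norm_integral_le_of_norm_le ?_ (Filter.Eventually.of_forall fun x => ?_)
      · rw [integrable_indicator_iff measurableSet_Icc]
        exact integrableOn_const (by
          rw [Real.volume_Icc]
          exact ENNReal.ofReal_ne_top) (by simp)
      · by_cases h2 : x < Real.exp (L * (β - v))
        · rw [i0F_lt (hz0 A) _ h2, norm_zero]
          exact Set.indicator_nonneg (fun _ _ => hM0) _
        · push Not at h2
          have hx0 : 0 < x := (Real.exp_pos _).trans_le h2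
          by_cases h3 : Real.exp (L * |B|) < x
          · have h4 : Real.exp (L * (B - v)) < x := by
              refine lt_of_le_of_lt ?_ h3
              apply Real.exp_le_exp.2
              apply mul_le_mul_of_nonneg_left _ hL0.le
              linarith [le_abs_self B]
            rw [i0F_gt (hz1 A) _ h4, norm_zero]
            exact Set.indicator_nonneg (fun _ _ => hM0) _
          · push Not at h3
            rw [Set.indicator_of_mem (Set.mem_Icc.2 ⟨hx0.le, h3⟩)]
            unfold i0F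
            rw [if_neg (not_le.2 hx0), norm_mul]
            have hx1 : 1 ≤ x := by
              refine le_trans ?_ h2
              apply Real.one_le_exp
              exact mul_nonneg hL0.le (by linarith)
            have h5 : ‖cexp (-s * (Real.log x : ℂ))‖ ≤ 1 := by
              rw [Complex.norm_exp, Complex.re_mul_ofReal]
              apply Real.exp_le_one_iff.2
              have h6 : 0 ≤ Real.log x := Real.log_nonneg hx1
              have h7 : (-s).re = -s.re := rfl
              rw [h7]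
              nlinarith
            have h6 : ‖i0H ψ L v A (Real.log x)‖ ≤ M := by
              unfold i0H
              rw [Complex.norm_real, Real.norm_eq_abs, abs_mul]
              have h1 : |L⁻¹ ^ A| ≤ 1 := by
                rw [abs_of_nonneg (by positivity)]
                exact pow_le_one₀ (by positivity) (inv_le_one_of_one_le₀ hL)
              calc |L⁻¹ ^ A| * |iteratedDeriv A ψ (Real.log x / L + v)| ≤ 1 * M :=
                    mul_le_mul h1 (hM _) (abs_nonneg _) zero_le_one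
                _ = M := one_mul M
            calc ‖i0H ψ L v A (Real.log x)‖ * ‖cexp (-s * (Real.log x : ℂ))‖ ≤ M * 1 :=
                  mul_le_mul h6 h5 (norm_nonneg _) hM0
              _ = M := mul_one M
    refine h1.trans (le_of_eq ?_)
    rw [integral_indicator measurableSet_Icc, setIntegral_const, smul_eq_mul,
      Real.volume_real_Icc_of_le (Real.exp_pos _).le, sub_zero, mul_comm]
  have hwp : 0 < |s.im| ^ A := by
    have : 0 < |s.im| := by linarith
    positivity
  have hfin : |s.im| ^ A * ‖∫ x, gf ψ L v s x‖ ≤ M * Real.exp (L * |B|) := by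
    rw [h0]
    refine le_trans ?_ hA
    rw [← hpow A]
    exact mul_le_mul_of_nonneg_right (pow_le_pow_left₀ (abs_nonneg _) hwn A) (norm_nonneg _)
  have h8 : ‖∫ x, gf ψ L v s x‖ ≤ M * Real.exp (L * |B|) * (|s.im| ^ A)⁻¹ := by
    rw [← div_eq_mul_inv, le_div_iff₀ hwp]
    linarith
  refine h8.trans ?_
  have h9 : M ≤ (M + 1) * L := by nlinarith
  have h10 : 0 ≤ Real.exp (L * |B|) * (|s.im| ^ A)⁻¹ := by positivity
  calc M * Real.exp (L * |B|) * (|s.im| ^ A)⁻¹ = M * (Real.exp (L * |B|) * (|s.im| ^ A)⁻¹) := by ring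
    _ ≤ ((M + 1) * L) * (Real.exp (L * |B|) * (|s.im| ^ A)⁻¹) := mul_le_mul_of_nonneg_right h9 h10
    _ = (M + 1) * L * (|s.im| ^ A)⁻¹ * Real.exp (L * |B|) := by ring

end Pool.Agent.H48.WN
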