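import Pool.Agent.H48.WN.Poi
import Pool.Agent.H48.WN.Gdv
import Pool.Agent.H48.WN.Int0

/-!
# [H48 WN SMT] smooth sums of `m^(-s)` beyond `T^(1+)` are tiny

PROOF. `L = log T ≥ 1`, `g = gf ψ L v s`. For an integer `m`: `g m = 0` if `m ≤ 0`, and for `m ≥ 1` it is
`ψ(log m/L + v) m^(-s)`; it vanishes if `log m / L + v ≥ B`, in particular for `m > N` (`N ≥ T^B`, `v ≥ 0`), so
`sum'_{m : ℤ} g m = Dp (fun _ => 1) (fun u => ψ (u + v)) T N s`. By `poi` and `gdv`, `int0`: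
`|Dp| ≤ |int g| + int |g^(A1)| ≤ C L (T/64)^(-A2) e^(L|B|) + C (1 + |s|)^(A1) T^((β - v)(1 - σ - A1))`.
First term: choose `A2 = A + ⌈|B|⌉ + 2`. Second: `1 + |s| ≤ 70 T`, `β - v ≥ β - v1 = 1 + κ` with `κ > 0`,
`1 - σ - A1 ≤ 1 - A1 < 0`: it is `≤ C 70^(A1) T^(A1) T^((1+κ)(1-A1)) = C' T^(1 + κ - κ A1)`; choose
`A1 ≥ (A + 3 + κ)/κ` and `≥ 2`. Both are `≤ T^(-A)/2` for `T ≥ T0`.
-/

set_option autoImplicit false

namespace Pool.Agent.H48.WN

open Complex MeasureTheory Finset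

private theorem smt_sum (ψ : ℝ → ℝ) (B : ℝ) (hB : ∀ u, B ≤ u → ψ u = 0) {T : ℝ} (hT : 3 ≤ T)
    {v : ℝ} (hv : 0 ≤ v) {N : ℕ} (hN : T ^ B ≤ N) (s : ℂ) :
    ∑' m : ℤ, gf ψ (Real.log T) v s m = Dp (fun _ => 1) (fun u => ψ (u + v)) T N s := by
  have hL : 0 < Real.log T := Real.log_pos (by linarith)
  have h1 : ∀ m : ℤ, m ∉ (Icc 1 N).map Nat.castEmbedding → gf ψ (Real.log T) v s m = 0 := by
    intro m hm
    unfold gf
    by_cases h0 : (m : ℝ) ≤ 0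
    · rw [if_pos h0]
    · rw [if_neg h0]
      have hm0 : 0 < m := by
        rw [not_le] at h0
        exact_mod_cast h0
      obtain ⟨n, rfl⟩ := Int.eq_ofNat_of_zero_le hm0.le
      have hn0 : 1 ≤ n := by
        have h2 : (0 : ℤ) < (n : ℤ) := hm0
        omega
      have hnN : N < n := by
        by_contra h2
        rw [not_lt] at h2
        exact hm (mem_map.2 ⟨n, mem_Icc.2 ⟨hn0, h2⟩, rfl⟩)
      have h3 : T ^ B ≤ ((n : ℤ) : ℝ) := by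
        refine hN.trans ?_
        have h4 : (N : ℝ) ≤ (n : ℝ) := by exact_mod_cast hnN.le
        simpa using h4
      have h5 : B ≤ Real.log ((n : ℤ) : ℝ) / Real.log T := by
        rw [le_div_iff₀ hL]
        have h6 := Real.log_le_log (Real.rpow_pos_of_pos (by linarith) B) h3
        rw [Real.log_rpow (by linarith)] at h6
        exact h6
      rw [hB _ (by linarith), Complex.ofReal_zero, zero_mul]
  rw [tsum_eq_sum h1, sum_map]
  unfold Dp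
  refine sum_congr rfl fun n hn => ?_
  have hn1 : 1 ≤ n := (mem_Icc.1 hn).1
  have hn2 : ¬ ((((n : ℕ) : ℤ) : ℝ)) ≤ 0 := by
    rw [not_le]
    have h2 : (1 : ℝ) ≤ (n : ℝ) := by exact_mod_cast hn1
    have h3 : ((((n : ℕ) : ℤ) : ℝ)) = (n : ℝ) := by simp
    rw [h3]
    linarith
  show gf ψ (Real.log T) v s (((n : ℕ) : ℤ) : ℝ) = _
  unfold gf
  rw [if_neg hn2]
  simp

theorem smt (ψ : ℝ → ℝ) (hψ : ContDiff ℝ (⊤ : ℕ∞) ψ) (β B v1 : ℝ) (h0 : 0 ≤ v1) (h1 : 1 < β - v1)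
    (hβ : ∀ u ≤ β, ψ u = 0) (hB : ∀ u, B ≤ u → ψ u = 0) (A : ℕ) :
    ∃ T0 : ℝ, 3 ≤ T0 ∧ ∀ T : ℝ, T0 ≤ T → ∀ v : ℝ, 0 ≤ v → v ≤ v1 → ∀ N : ℕ, T ^ B ≤ N →
      ∀ s : ℂ, 0 ≤ s.re → s.re ≤ 4 → T / 64 ≤ s.im → s.im ≤ 64 * T →
        ‖Dp (fun _ => 1) (fun u => ψ (u + v)) T N s‖ ≤ T ^ (-(A : ℝ)) := by
  obtain ⟨κ, hκ⟩ : ∃ κ, κ = β - v1 - 1 := ⟨_, rfl⟩
  have hκ0 : 0 < κ := by rw [hκ]; linarith
  obtain ⟨A1, hA1, hA1'⟩ : ∃ A1 : ℕ, 2 ≤ A1 ∧ (A : ℝ) + 3 + κ ≤ κ * A1 := by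
    obtain ⟨n, hn⟩ := exists_nat_ge (((A : ℝ) + 3 + κ) / κ)
    refine ⟨max 2 n, le_max_left _ _, ?_⟩
    rw [div_le_iff₀ hκ0] at hn
    have h2 : (n : ℝ) ≤ ((max 2 n : ℕ) : ℝ) := by exact_mod_cast le_max_right _ _
    calc (A : ℝ) + 3 + κ ≤ n * κ := hn
      _ ≤ κ * ((max 2 n : ℕ) : ℝ) := by
        rw [mul_comm]
        exact mul_le_mul_of_nonneg_left h2 hκ0.le
  obtain ⟨A2, hA2⟩ : ∃ A2 : ℕ, (A : ℝ) + |B| + 2 ≤ A2 := exists_nat_ge _
  obtain ⟨C1, hC1, hg⟩ := gdv ψ hψ β B hβ hB A1 hA1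
  obtain ⟨C2, hC2, hi⟩ := int0 ψ hψ β B hβ hB A2
  refine ⟨max 64 (max (2 * (C2 * 64 ^ A2)) (2 * (C1 * 70 ^ A1))),
    le_trans (by norm_num) (le_max_left _ _), ?_⟩
  intro T hT v hv hv1 N hN s hs0 hs4 hst hst'
  have hT64 : 64 ≤ T := (le_max_left _ _).trans hT
  have hT3 : 3 ≤ T := by linarith
  have hTa : 2 * (C2 * 64 ^ A2) ≤ T := (le_max_left _ _).trans ((le_max_right _ _).trans hT)
  have hTb : 2 * (C1 * 70 ^ A1) ≤ T := (le_max_right _ _).trans ((le_max_right _ _).trans hT)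
  have hT0 : 0 < T := by linarith
  have hT1 : 1 ≤ T := by linarith
  have hL1 : 1 ≤ Real.log T := by
    rw [Real.le_log_iff_exp_le hT0]
    exact (Real.exp_one_lt_d9.le.trans (by norm_num)).trans hT3
  have hvβ : v < β := by linarith
  obtain ⟨hgc, hgs, hgb⟩ := hg (Real.log T) v hL1 hvβ s hs0
  have him : T / 64 ≤ |s.im| := hst.trans (le_abs_self _)
  have him1 : 1 ≤ |s.im| := by linarith
  have hexp : ∀ y : ℝ, Real.exp (Real.log T * y) = T ^ y := fun y =>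
    (Real.rpow_def_of_pos hT0 y).symm
  rw [← smt_sum ψ B hB hT3 hv hN s]
  have hp := poi (gf ψ (Real.log T) v s) hgc hgs A1 hA1
  have h2 : ‖∑' m : ℤ, gf ψ (Real.log T) v s m‖ ≤ ‖∫ x, gf ψ (Real.log T) v s x‖ +
      ∫ x, ‖iteratedDeriv A1 (gf ψ (Real.log T) v s) x‖ := by
    have h3 : ∑' m : ℤ, gf ψ (Real.log T) v s m = (∫ x, gf ψ (Real.log T) v s x) +
        ((∑' m : ℤ, gf ψ (Real.log T) v s m) - ∫ x, gf ψ (Real.log T) v s x) := by ring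
    rw [h3]
    exact (norm_add_le _ _).trans (add_le_add le_rfl hp)
  have hTA : T ^ (-(A : ℝ) - 1) = T ^ (-(A : ℝ)) / T := by
    rw [Real.rpow_sub hT0, Real.rpow_one]
  -- the derivative
  have hb2 : ∫ x, ‖iteratedDeriv A1 (gf ψ (Real.log T) v s) x‖ ≤ T ^ (-(A : ℝ)) / 2 := by
    refine hgb.trans ?_
    have h3 : 1 + ‖s‖ ≤ 70 * T := by
      have h4 : ‖s‖ ≤ |s.re| + |s.im| := Complex.norm_le_abs_re_add_abs_im s
      rw [abs_of_nonneg hs0, abs_of_nonneg (by linarith : 0 ≤ s.im)] at h4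
      linarith
    have h5 : Real.log T * (β - v) * (1 - s.re - A1) ≤ Real.log T * ((1 + κ) * (1 - A1)) := by
      rw [mul_assoc]
      refine mul_le_mul_of_nonneg_left ?_ (by linarith)
      have h6 : (2 : ℝ) ≤ A1 := by exact_mod_cast hA1
      have h7 : 1 + κ ≤ β - v := by rw [hκ]; linarith
      nlinarith
    have h8 : Real.exp (Real.log T * (β - v) * (1 - s.re - A1)) ≤ T ^ ((1 + κ) * (1 - A1)) := by
      rw [← hexp]
      exact Real.exp_le_exp.2 h5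
    have h9 : (1 + ‖s‖) ^ A1 ≤ 70 ^ A1 * T ^ (A1 : ℝ) := by
      rw [Real.rpow_natCast, ← mul_pow]
      exact pow_le_pow_left₀ (by positivity) h3 A1
    calc C1 * (1 + ‖s‖) ^ A1 * Real.exp (Real.log T * (β - v) * (1 - s.re - A1)) ≤
        C1 * (70 ^ A1 * T ^ (A1 : ℝ)) * T ^ ((1 + κ) * (1 - A1)) := by
          refine mul_le_mul (mul_le_mul_of_nonneg_left h9 hC1.le) h8 (Real.exp_pos _).le
            (by positivity)
      _ = C1 * 70 ^ A1 * T ^ ((A1 : ℝ) + (1 + κ) * (1 - A1)) := by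
          rw [Real.rpow_add hT0]
          ring
      _ ≤ C1 * 70 ^ A1 * T ^ (-(A : ℝ) - 1) := by
          refine mul_le_mul_of_nonneg_left ?_ (by positivity)
          refine Real.rpow_le_rpow_of_exponent_le hT1 ?_
          nlinarith
      _ ≤ T ^ (-(A : ℝ)) / 2 := by
          rw [hTA, mul_div_assoc', div_le_div_iff₀ hT0 two_pos]
          have h10 : 0 < T ^ (-(A : ℝ)) := Real.rpow_pos_of_pos hT0 _
          nlinarith
  -- the integral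
  have hb1 : ‖∫ x, gf ψ (Real.log T) v s x‖ ≤ T ^ (-(A : ℝ)) / 2 := by
    refine (hi (Real.log T) v hL1 hv hvβ s hs0 him1).trans ?_
    have h3 : Real.log T ≤ T := (Real.log_le_sub_one_of_pos hT0).trans (by linarith)
    have h4 : (|s.im| ^ A2)⁻¹ ≤ 64 ^ A2 * T ^ (-(A2 : ℝ)) := by
      have h5 : (T / 64) ^ A2 ≤ |s.im| ^ A2 := pow_le_pow_left₀ (by positivity) him A2
      have h6 : 0 < (T / 64) ^ A2 := by positivity
      refine (inv_anti₀ h6 h5).trans (le_of_eq ?_)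
      rw [Real.rpow_neg hT0.le, Real.rpow_natCast, div_pow, inv_div, div_eq_mul_inv]
    rw [hexp]
    calc C2 * Real.log T * (|s.im| ^ A2)⁻¹ * T ^ |B| ≤
        C2 * T * (64 ^ A2 * T ^ (-(A2 : ℝ))) * T ^ |B| := by
          refine mul_le_mul_of_nonneg_right ?_ (Real.rpow_nonneg hT0.le _)
          exact mul_le_mul (mul_le_mul_of_nonneg_left h3 hC2.le) h4 (by positivity) (by positivity)
      _ = C2 * 64 ^ A2 * T ^ (1 + -(A2 : ℝ) + |B|) := by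
          rw [Real.rpow_add hT0, Real.rpow_add hT0, Real.rpow_one]
          ring
      _ ≤ C2 * 64 ^ A2 * T ^ (-(A : ℝ) - 1) := by
          refine mul_le_mul_of_nonneg_left ?_ (by positivity)
          exact Real.rpow_le_rpow_of_exponent_le hT1 (by linarith)
      _ ≤ T ^ (-(A : ℝ)) / 2 := by
          rw [hTA, mul_div_assoc', div_le_div_iff₀ hT0 two_pos]
          have h10 : 0 < T ^ (-(A : ℝ)) := Real.rpow_pos_of_pos hT0 _
          nlinarith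
  linarith

end Pool.Agent.H48.WN
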