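import Pool.Agent.H48.WN.Defs

/-!
# [H48 WN WGT] removing the smooth weights

PROOF. `g(y) = rr b h (log y/L) y^(-σ)` for `y ≥ 1`, `L = log T ≥ 1`: `|g(y)| ≤ y^(-σ)`, `|g'(y)| ≤ C y^(-σ-1)` (`rr b h` is smooth with bounded derivative,
`C` depends on `b, h` only; `σ ≤ 1`). `H = ηx`. `A(t) = sum_{x < n ≤ t} (Lam(n) - 1)` for `x ≤ t ≤ x+H`; `Ps x (t-x) = sum_{x<n≤t} Lam(n) - (t - x)` and
`|(⌊t⌋ - ⌊x⌋) - (t - x)| ≤ 1`, so `|A(t)| ≤ |Ps x (t-x)| + 1`. Abel summation (Mathlib `sum_mul_eq_sub_integral_mul`-type, on `(x, x+H]`):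
`S = A(x+H) g(x+H) - int_x^{x+H} A(t) g'(t) dt`. So `|S| ≤ x^(-σ)(|Ps x H| + 1) + C x^(-σ-1) int_0^H (|Ps x h'| + 1) dh'`. Square, Cauchy-Schwarz
`(int_0^H (|Ps|+1))^2 ≤ 2 H int_0^H Ps^2 + 2H^2`, and `x^(-2) H · int = (η/x) int`, `x^(-2) H^2 = η^2 ≤ 1`.
-/

set_option autoImplicit false

namespace Pool.Agent.H48.WN

open Complex MeasureTheory Finset

/-- step functions are integrable -/
theorem wgt_flo (G : ℕ → ℝ) (a b : ℝ) :
    IntervalIntegrable (fun t : ℝ => G ⌊t⌋₊) volume a b := by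
  have hm : Measurable (fun t : ℝ => G ⌊t⌋₊) :=
    (measurable_from_top (f := G)).comp Nat.measurable_floor
  rw [intervalIntegrable_iff]
  refine Measure.integrableOn_of_bounded (M := ∑ i ∈ range (⌊max a b⌋₊ + 1), |G i|)
    measure_Ioc_lt_top.ne hm.aestronglyMeasurable ?_
  rw [ae_restrict_iff' measurableSet_uIoc]
  refine ae_of_all _ fun t ht => ?_
  have h1 : t ≤ max a b := ht.2
  rw [Real.norm_eq_abs]
  exact Finset.single_le_sum (f := fun i => |G i|) (fun i _ => abs_nonneg _)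
    (mem_range.2 (Nat.lt_succ_of_le (Nat.floor_le_floor h1)))

/-- Cauchy-Schwarz on an interval -/
theorem wgt_cs {f : ℝ → ℝ} {a b : ℝ} (hab : a < b) (hf : IntervalIntegrable f volume a b)
    (hf2 : IntervalIntegrable (fun t => f t ^ 2) volume a b) :
    (∫ t in a..b, f t) ^ 2 ≤ (b - a) * ∫ t in a..b, f t ^ 2 := by
  set I := ∫ t in a..b, f t with hI
  have hba : 0 < b - a := sub_pos.2 hab
  set c := I / (b - a) with hc
  have h1 : 0 ≤ ∫ t in a..b, (f t ^ 2 - 2 * c * f t + c ^ 2) := by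
    refine intervalIntegral.integral_nonneg hab.le fun t _ => ?_
    nlinarith [sq_nonneg (f t - c)]
  have h2 : ∫ t in a..b, (f t ^ 2 - 2 * c * f t + c ^ 2) =
      (∫ t in a..b, f t ^ 2) - 2 * c * I + (b - a) * c ^ 2 := by
    rw [intervalIntegral.integral_add (hf2.sub (hf.const_mul (2 * c))) intervalIntegrable_const,
      intervalIntegral.integral_sub hf2 (hf.const_mul (2 * c)), intervalIntegral.integral_const_mul,
      intervalIntegral.integral_const, smul_eq_mul]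
  rw [h2] at h1
  have h3 : I = c * (b - a) := by
    rw [hc]
    field_simp
  have h4 : c ^ 2 * (b - a) ≤ ∫ t in a..b, f t ^ 2 := by
    have : 2 * c * I = 2 * c ^ 2 * (b - a) := by
      rw [h3]
      ring
    nlinarith
  calc I ^ 2 = (b - a) * (c ^ 2 * (b - a)) := by
        rw [h3]
        ring
    _ ≤ (b - a) * ∫ t in a..b, f t ^ 2 := mul_le_mul_of_nonneg_left h4 hba.le

/-- the derivative of the window function is bounded -/
theorem wgt_rrd (b h : ℝ) (hh : 0 < h) : ∃ C : ℝ, 0 ≤ C ∧ ∀ u : ℝ, |deriv (rr b h) u| ≤ C := by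
  have h1 : HasCompactSupport (rr b h) := by
    refine HasCompactSupport.intro (isCompact_Icc (a := b + h) (b := b + 1 + 5 * h)) ?_
    intro u hu
    rw [Set.mem_Icc, not_and_or, not_le, not_le] at hu
    rcases hu with hu | hu
    · exact rr_zero_left hh hu.le
    · exact rr_zero_right hh hu.le
  have h2 : Continuous (deriv (rr b h)) :=
    (rr_contDiff b h).continuous_deriv (by simp)
  obtain ⟨C, hC⟩ := h2.bounded_above_of_compact_support h1.deriv
  exact ⟨C, (norm_nonneg _).trans (hC 0), fun u => hC u⟩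

/-- the weight and its derivative -/
theorem wgt_gd (b h : ℝ) {L σ : ℝ} {y : ℝ} (hy : 0 < y) :
    HasDerivAt (fun y : ℝ => rr b h (Real.log y / L) * y ^ (-σ))
      (deriv (rr b h) (Real.log y / L) * (y⁻¹ / L) * y ^ (-σ) +
        rr b h (Real.log y / L) * (-σ * y ^ (-σ - 1))) y := by
  have h1 : HasDerivAt (fun y : ℝ => Real.log y / L) (y⁻¹ / L) y :=
    (Real.hasDerivAt_log hy.ne').div_const L
  have h2 : HasDerivAt (rr b h) (deriv (rr b h) (Real.log y / L)) (Real.log y / L) :=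
    (((rr_contDiff b h).differentiable (by simp)) _).hasDerivAt
  have h3 : HasDerivAt (fun y : ℝ => y ^ (-σ)) (-σ * y ^ (-σ - 1)) y :=
    Real.hasDerivAt_rpow_const (Or.inl hy.ne')
  exact (HasDerivAt.comp y h2 h1).mul h3

theorem wgt (b h : ℝ) (hb : 1 ≤ b) (hh : 0 < h) : ∃ C : ℝ, 0 < C ∧ ∀ T : ℝ, 3 ≤ T → ∀ σ : ℝ, 1 / 4 ≤ σ →
    σ ≤ 3 / 4 → ∀ x : ℝ, 1 ≤ x → ∀ η : ℝ, 0 < η → η ≤ 1 →
      (∑ n ∈ Ioc ⌊x⌋₊ ⌊x + η * x⌋₊, (ArithmeticFunction.vonMangoldt n - 1) *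
        (rr b h (Real.log n / Real.log T) * (n : ℝ) ^ (-σ))) ^ 2 ≤
        C * x ^ (-(2 * σ)) * ((Ps x (η * x)) ^ 2 + 1 + (η / x) * ∫ k in (0 : ℝ)..(η * x), (Ps x k) ^ 2) := by
  obtain ⟨C0, hC0, hC⟩ := wgt_rrd b h hh
  set D : ℝ := C0 + 1 with hD
  have hD1 : 1 ≤ D := by linarith
  refine ⟨4 * (1 + D ^ 2), by positivity, fun T hT σ hσ hσ1 x hx η hη hη1 => ?_⟩
  set L := Real.log T with hL
  have hL1 : 1 ≤ L := by
    rw [hL, Real.le_log_iff_exp_le (by linarith)]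
    exact (Real.exp_one_lt_d9.le.trans (by norm_num)).trans hT
  have hx0 : 0 < x := by linarith
  set H := η * x with hH
  have hH0 : 0 < H := mul_pos hη hx0
  have hHx : H ≤ x := by nlinarith
  set g : ℝ → ℝ := fun y => rr b h (Real.log y / L) * y ^ (-σ) with hg
  set g' : ℝ → ℝ := fun y => deriv (rr b h) (Real.log y / L) * (y⁻¹ / L) * y ^ (-σ) +
        rr b h (Real.log y / L) * (-σ * y ^ (-σ - 1)) with hg'
  have hgd : ∀ y : ℝ, 0 < y → HasDerivAt g (g' y) y := fun y hy => wgt_gd b h hy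
  have hpw : ∀ y : ℝ, x ≤ y → y ^ (-σ) ≤ x ^ (-σ) := fun y hy =>
    Real.rpow_le_rpow_of_nonpos hx0 hy (by linarith)
  have hpw1 : ∀ y : ℝ, x ≤ y → y ^ (-σ - 1) ≤ x ^ (-σ - 1) := fun y hy =>
    Real.rpow_le_rpow_of_nonpos hx0 hy (by linarith)
  have hgb : ∀ y : ℝ, x ≤ y → |g y| ≤ x ^ (-σ) := by
    intro y hy
    have hy0 : 0 < y := hx0.trans_le hy
    rw [hg]
    simp only
    rw [abs_mul, abs_of_pos (Real.rpow_pos_of_pos hy0 _)]
    calc |rr b h (Real.log y / L)| * y ^ (-σ) ≤ 1 * y ^ (-σ) :=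
          mul_le_mul_of_nonneg_right (rr_abs_le _ _ _) (Real.rpow_pos_of_pos hy0 _).le
      _ ≤ x ^ (-σ) := by
          rw [one_mul]
          exact hpw y hy
  have hgb' : ∀ y : ℝ, x ≤ y → |g' y| ≤ D * x ^ (-σ - 1) := by
    intro y hy
    have hy0 : 0 < y := hx0.trans_le hy
    have e1 : y⁻¹ / L * y ^ (-σ) = y ^ (-σ - 1) / L := by
      rw [Real.rpow_sub_one hy0.ne']
      field_simp
    have hyp := Real.rpow_pos_of_pos hy0 (-σ - 1)
    have h1 : |deriv (rr b h) (Real.log y / L) * (y⁻¹ / L) * y ^ (-σ)| ≤ C0 * y ^ (-σ - 1) := by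
      rw [mul_assoc, e1, abs_mul]
      refine mul_le_mul (hC _) ?_ (abs_nonneg _) hC0
      rw [abs_of_pos (by positivity)]
      exact div_le_self hyp.le hL1
    have h2 : |rr b h (Real.log y / L) * (-σ * y ^ (-σ - 1))| ≤ y ^ (-σ - 1) := by
      rw [abs_mul, abs_mul, abs_of_pos hyp, abs_neg, abs_of_pos (by linarith : (0 : ℝ) < σ)]
      have h3 := rr_abs_le b h (Real.log y / L)
      have h4 := abs_nonneg (rr b h (Real.log y / L))
      calc |rr b h (Real.log y / L)| * (σ * y ^ (-σ - 1)) ≤ 1 * (1 * y ^ (-σ - 1)) := by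
            apply mul_le_mul h3 _ (by positivity) zero_le_one
            exact mul_le_mul_of_nonneg_right (by linarith) hyp.le
        _ = y ^ (-σ - 1) := by ring
    calc |g' y| ≤ C0 * y ^ (-σ - 1) + y ^ (-σ - 1) := (abs_add_le _ _).trans (add_le_add h1 h2)
      _ = D * y ^ (-σ - 1) := by
          rw [hD]
          ring
      _ ≤ D * x ^ (-σ - 1) := mul_le_mul_of_nonneg_left (hpw1 y hy) (by linarith)
  -- Abel summation
  set c : ℕ → ℝ := fun k => if k ≤ ⌊x⌋₊ then 0 else ArithmeticFunction.vonMangoldt k - 1 with hc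
  set G : ℕ → ℝ := fun m => ∑ k ∈ Icc 0 m, c k with hG
  have hGx : G ⌊x⌋₊ = 0 := by
    rw [hG]
    refine Finset.sum_eq_zero fun k hk => ?_
    rw [mem_Icc] at hk
    rw [hc]
    simp only
    rw [if_pos hk.2]
  have hGm : ∀ m : ℕ, ⌊x⌋₊ ≤ m → G m = ∑ k ∈ Ioc ⌊x⌋₊ m, (ArithmeticFunction.vonMangoldt k - 1) := by
    intro m hm
    rw [hG]
    simp only
    have hs : Ioc ⌊x⌋₊ m ⊆ Icc 0 m := by
      intro k hk
      rw [mem_Ioc] at hk
      rw [mem_Icc]
      exact ⟨Nat.zero_le _, hk.2⟩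
    rw [← Finset.sum_subset hs]
    · refine Finset.sum_congr rfl fun k hk => ?_
      rw [mem_Ioc] at hk
      rw [hc]
      simp only
      rw [if_neg (by omega)]
    · intro k hk1 hk2
      rw [mem_Icc] at hk1
      rw [mem_Ioc] at hk2
      rw [hc]
      simp only
      rw [if_pos (by omega)]
  have hfl : ∀ t : ℝ, x ≤ t → ⌊x⌋₊ ≤ ⌊t⌋₊ := fun t ht => Nat.floor_le_floor ht
  have hxH : x ≤ x + H := by linarith
  have hcont : ContinuousOn g' (Set.Icc x (x + H)) := by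
    have hne : ∀ y ∈ Set.Icc x (x + H), y ≠ 0 := fun y hy => (hx0.trans_le hy.1).ne'
    have hlog : ContinuousOn (fun y : ℝ => Real.log y / L) (Set.Icc x (x + H)) :=
      (Real.continuousOn_log.mono fun y hy => hne y hy).div_const L
    have hd : Continuous (deriv (rr b h)) := (rr_contDiff b h).continuous_deriv (by simp)
    have hr : Continuous (rr b h) := (rr_contDiff b h).continuous
    have hp : ∀ q : ℝ, ContinuousOn (fun y : ℝ => y ^ q) (Set.Icc x (x + H)) := fun q =>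
      continuousOn_id.rpow_const fun y hy => Or.inl (hne y hy)
    have hi : ContinuousOn (fun y : ℝ => y⁻¹ / L) (Set.Icc x (x + H)) :=
      (continuousOn_inv₀.mono fun y hy => hne y hy).div_const L
    exact (((hd.comp_continuousOn hlog).mul hi).mul (hp _)).add
      ((hr.comp_continuousOn hlog).mul ((hp _).const_smul (-σ)))
  have hdd : ∀ y ∈ Set.Icc x (x + H), deriv g y = g' y := fun y hy =>
    (hgd y (hx0.trans_le hy.1)).deriv
  have hint : IntegrableOn (deriv g) (Set.Icc x (x + H)) := by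
    refine (hcont.integrableOn_compact isCompact_Icc).congr_fun (fun y hy => (hdd y hy).symm)
      measurableSet_Icc
  have hab := sum_mul_eq_sub_sub_integral_mul c hx0.le hxH
    (fun t ht => (hgd t (hx0.trans_le ht.1)).differentiableAt) hint
  have hS : ∑ n ∈ Ioc ⌊x⌋₊ ⌊x + H⌋₊, (ArithmeticFunction.vonMangoldt n - 1) *
        (rr b h (Real.log n / L) * (n : ℝ) ^ (-σ)) = ∑ k ∈ Ioc ⌊x⌋₊ ⌊x + H⌋₊, g k * c k := by
    refine Finset.sum_congr rfl fun k hk => ?_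
    rw [mem_Ioc] at hk
    rw [hc]
    simp only
    rw [if_neg (by omega)]
    ring
  rw [hS, hab]
  have hGx' : ∑ k ∈ Icc 0 ⌊x⌋₊, c k = 0 := hGx
  rw [hGx', mul_zero, sub_zero]
  -- comparison of G and Ps
  have hGP : ∀ t : ℝ, x ≤ t → |G ⌊t⌋₊| ≤ |Ps x (t - x)| + 1 := by
    intro t ht
    have ht0 : 0 ≤ t := hx0.le.trans ht
    rw [hGm _ (hfl t ht), Finset.sum_sub_distrib]
    unfold Ps
    rw [show x + (t - x) = t by ring]
    have h1 : ∑ k ∈ Ioc ⌊x⌋₊ ⌊t⌋₊, (1 : ℝ) = (⌊t⌋₊ : ℝ) - ⌊x⌋₊ := by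
      rw [Finset.sum_const, Nat.card_Ioc, nsmul_eq_mul, mul_one, Nat.cast_sub (hfl t ht)]
    rw [h1]
    have h2 := Nat.floor_le hx0.le
    have h3 := Nat.lt_floor_add_one x
    have h4 := Nat.floor_le ht0
    have h5 := Nat.lt_floor_add_one t
    set V := ∑ n ∈ Ioc ⌊x⌋₊ ⌊t⌋₊, ArithmeticFunction.vonMangoldt n with hV
    have h6 : V - ((⌊t⌋₊ : ℝ) - ⌊x⌋₊) = (V - (t - x)) + ((t - ⌊t⌋₊) - (x - ⌊x⌋₊)) := by ring
    rw [h6]
    refine (abs_add_le _ _).trans (add_le_add le_rfl ?_)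
    rw [abs_le]
    constructor <;> linarith
  -- integrals
  have hPsI : IntervalIntegrable (fun t => (Ps x (t - x)) ^ 2) volume x (x + H) := by
    have h1 := (wgt_flo (fun m => (∑ n ∈ Ioc ⌊x⌋₊ m, ArithmeticFunction.vonMangoldt n) ^ 2) x (x + H))
    have h2 := (wgt_flo (fun m => ∑ n ∈ Ioc ⌊x⌋₊ m, ArithmeticFunction.vonMangoldt n) x
      (x + H)).mul_continuousOn (g := fun t => 2 * (t - x)) (by fun_prop)
    have h3 : IntervalIntegrable (fun t : ℝ => (t - x) ^ 2) volume x (x + H) :=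
      (by fun_prop : Continuous fun t : ℝ => (t - x) ^ 2).intervalIntegrable _ _
    refine ((h1.sub h2).add h3).congr ?_
    intro t _
    unfold Ps
    simp only
    rw [show x + (t - x) = t by ring]
    ring
  have hI2 : ∫ t in x..(x + H), (G ⌊t⌋₊) ^ 2 ≤
      2 * (∫ k in (0 : ℝ)..H, (Ps x k) ^ 2) + 2 * H := by
    have h1 : ∫ t in x..(x + H), (G ⌊t⌋₊) ^ 2 ≤
        ∫ t in x..(x + H), (2 * (Ps x (t - x)) ^ 2 + 2) := by
      refine intervalIntegral.integral_mono_on hxH (wgt_flo (fun m => (G m) ^ 2) _ _)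
        ((hPsI.const_mul 2).add intervalIntegrable_const) fun t ht => ?_
      have h2 := hGP t ht.1
      have h3 : (G ⌊t⌋₊) ^ 2 ≤ (|Ps x (t - x)| + 1) ^ 2 := by
        rw [← sq_abs (G ⌊t⌋₊)]
        exact pow_le_pow_left₀ (abs_nonneg _) h2 2
      have h4 := sq_abs (Ps x (t - x))
      nlinarith [sq_nonneg (|Ps x (t - x)| - 1)]
    refine h1.trans (le_of_eq ?_)
    rw [intervalIntegral.integral_add (hPsI.const_mul 2) intervalIntegrable_const,
      intervalIntegral.integral_const_mul, intervalIntegral.integral_const,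
      intervalIntegral.integral_comp_sub_right (fun k => (Ps x k) ^ 2) x, smul_eq_mul]
    rw [sub_self, add_sub_cancel_left]
    ring
  have hGab : IntervalIntegrable (fun t : ℝ => |G ⌊t⌋₊|) volume x (x + H) :=
    wgt_flo (fun m => |G m|) _ _
  have hI1 : (∫ t in x..(x + H), |G ⌊t⌋₊|) ^ 2 ≤
      H * (2 * (∫ k in (0 : ℝ)..H, (Ps x k) ^ 2) + 2 * H) := by
    have h1 := wgt_cs (f := fun t => |G ⌊t⌋₊|) (by linarith : x < x + H) hGab
      (wgt_flo (fun m => |G m| ^ 2) _ _)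
    rw [add_sub_cancel_left] at h1
    simp only [sq_abs] at h1
    exact h1.trans (mul_le_mul_of_nonneg_left hI2 hH0.le)
  have hJ : |∫ t in Set.Ioc x (x + H), deriv g t * ∑ k ∈ Icc 0 ⌊t⌋₊, c k| ≤
      D * x ^ (-σ - 1) * ∫ t in x..(x + H), |G ⌊t⌋₊| := by
    rw [← intervalIntegral.integral_const_mul, intervalIntegral.integral_of_le hxH,
      ← Real.norm_eq_abs]
    refine MeasureTheory.norm_integral_le_of_norm_le
      ((intervalIntegrable_iff_integrableOn_Ioc_of_le hxH).1 (hGab.const_mul _)) ?_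
    rw [ae_restrict_iff' measurableSet_Ioc]
    refine ae_of_all _ fun t ht => ?_
    rw [Real.norm_eq_abs, abs_mul, hdd t ⟨ht.1.le, ht.2⟩]
    exact mul_le_mul_of_nonneg_right (hgb' t ht.1.le) (abs_nonneg _)
  set I := ∫ k in (0 : ℝ)..H, (Ps x k) ^ 2 with hI
  have hI0 : 0 ≤ I := intervalIntegral.integral_nonneg hH0.le fun t _ => sq_nonneg _
  set Q := ∫ t in x..(x + H), |G ⌊t⌋₊| with hQ
  have hQ0 : 0 ≤ Q := intervalIntegral.integral_nonneg hxH fun t _ => abs_nonneg _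
  set P := Ps x H with hP
  have hM : |g (x + H) * ∑ k ∈ Icc 0 ⌊x + H⌋₊, c k| ≤ x ^ (-σ) * (|P| + 1) := by
    rw [abs_mul]
    have h1 := hGP (x + H) hxH
    rw [add_sub_cancel_left] at h1
    exact mul_le_mul (hgb _ hxH) h1 (abs_nonneg _) (Real.rpow_pos_of_pos hx0 _).le
  set a1 := g (x + H) * ∑ k ∈ Icc 0 ⌊x + H⌋₊, c k with ha1
  set a2 := ∫ t in Set.Ioc x (x + H), deriv g t * ∑ k ∈ Icc 0 ⌊t⌋₊, c k with ha2
  have e1 : x ^ (-(2 * σ)) = (x ^ (-σ)) ^ 2 := by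
    rw [← Real.rpow_natCast, ← Real.rpow_mul hx0.le]
    congr 1
    push_cast
    ring
  have e2 : x ^ (-σ - 1) = x ^ (-σ) / x := Real.rpow_sub_one hx0.ne' _
  set z := x ^ (-σ) with hz
  have hz0 : 0 < z := Real.rpow_pos_of_pos hx0 _
  have hsq1 : a1 ^ 2 ≤ z ^ 2 * (2 * P ^ 2 + 2) := by
    have h1 : a1 ^ 2 ≤ (z * (|P| + 1)) ^ 2 := by
      rw [← sq_abs a1]
      exact pow_le_pow_left₀ (abs_nonneg _) hM 2
    have h2 := sq_abs P
    have h3 : (|P| + 1) ^ 2 ≤ 2 * P ^ 2 + 2 := by nlinarith [sq_nonneg (|P| - 1)]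
    have h4 : (z * (|P| + 1)) ^ 2 = z ^ 2 * (|P| + 1) ^ 2 := by ring
    rw [h4] at h1
    exact h1.trans (mul_le_mul_of_nonneg_left h3 (sq_nonneg z))
  have hsq2 : a2 ^ 2 ≤ z ^ 2 * (D ^ 2 * (2 * ((η / x) * I) + 2)) := by
    have h1 : a2 ^ 2 ≤ (D * (z / x) * Q) ^ 2 := by
      rw [← sq_abs a2, ← e2]
      exact pow_le_pow_left₀ (abs_nonneg _) hJ 2
    have h2 : (D * (z / x) * Q) ^ 2 = z ^ 2 * (D ^ 2 * (Q ^ 2 / x ^ 2)) := by
      field_simp
    have h3 : Q ^ 2 / x ^ 2 ≤ 2 * ((η / x) * I) + 2 := by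
      rw [div_le_iff₀ (by positivity)]
      have h4 : (2 * ((η / x) * I) + 2) * x ^ 2 = 2 * (H * I) + 2 * x ^ 2 := by
        rw [hH]
        field_simp
      rw [h4]
      nlinarith [hI1, hHx, hH0]
    rw [h2] at h1
    refine h1.trans (mul_le_mul_of_nonneg_left ?_ (sq_nonneg _))
    exact mul_le_mul_of_nonneg_left h3 (sq_nonneg _)
  have hfin : (a1 - a2) ^ 2 ≤ 2 * a1 ^ 2 + 2 * a2 ^ 2 := by nlinarith [sq_nonneg (a1 + a2)]
  refine hfin.trans ?_
  rw [e1]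
  have hηI : 0 ≤ (η / x) * I := by positivity
  set R := (η / x) * I with hR
  have hfin2 : 2 * (z ^ 2 * (2 * P ^ 2 + 2)) + 2 * (z ^ 2 * (D ^ 2 * (2 * R + 2))) ≤
      4 * (1 + D ^ 2) * z ^ 2 * (P ^ 2 + 1 + R) := by
    have : 4 * (1 + D ^ 2) * z ^ 2 * (P ^ 2 + 1 + R) - (2 * (z ^ 2 * (2 * P ^ 2 + 2)) +
        2 * (z ^ 2 * (D ^ 2 * (2 * R + 2)))) = 4 * z ^ 2 * (R + D ^ 2 * P ^ 2) := by ring
    have h5 : 0 ≤ 4 * z ^ 2 * (R + D ^ 2 * P ^ 2) := by positivity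
    linarith
  linarith

end Pool.Agent.H48.WN
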