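import Mathlib

/-!
# Square root errors in every window of exponents (MP_31d0eb_nt, theorem WN): definitions

`L = log T`. `st a h` is a smooth step (`1` up to `a`, `0` from `a + h`). `Dp c w T N` is the Dirichlet
polynomial `sum_{n ≤ N} c(n) w(log n / L) n^(-s)`. Head `Qp` (weights `st (b+h) h`), window `Rp`
(weights `st (b+1+4h) h - st (b+h) h`, so `T^(b+h) ≤ n ≤ T^(b+1+5h)`), cut-off `b+1+3h .. b+1+4h` for products
(`Zp`), and `D4` (all `m` up to `T^(1+3h)`, smooth). `f = zeta * Qp + zeta'`.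
IDEA. `sum_n Lam(n) n^(-s) Zp_{log n/L}(s) = sum_k w3(log k/L) log k k^(-s)` exactly; for `n` in the head `Zp` is
`zeta` up to `T^(-A)`, for `n > T^(b+1+4h)` it is `0`; so `f = -(window sum) + O(T^(-A))`. On the other hand
`f/zeta = Qp + zeta'/zeta` with `Qp` entire, and a Gaussian contour integral around the critical line shows that `f`
cannot be small. So the window polynomial `Rp` is large in mean square, and Gallagher's lemma turns this into
errors of square root size for primes in short intervals.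
-/

set_option autoImplicit false

namespace Pool.Agent.H48.WN

open Complex MeasureTheory Finset

/-- a smooth step: `1` for `u ≤ a`, `0` for `u ≥ a + h` -/
noncomputable def st (a h u : ℝ) : ℝ := Real.smoothTransition ((a + h - u) / h)

/-- Dirichlet polynomial with weights in `log n / log T` -/
noncomputable def Dp (c : ℕ → ℂ) (w : ℝ → ℝ) (T : ℝ) (N : ℕ) (s : ℂ) : ℂ :=
  ∑ n ∈ Icc 1 N, c n * ((w (Real.log n / Real.log T) : ℝ) : ℂ) * (n : ℂ) ^ (-s)

/-- von Mangoldt as a complex function -/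
noncomputable def La (n : ℕ) : ℂ := ((ArithmeticFunction.vonMangoldt n : ℝ) : ℂ)

/-- the length of all polynomials -/
noncomputable def NN (b T : ℝ) : ℕ := ⌊T ^ (b + 3)⌋₊

/-- the window function -/
noncomputable def rr (b h u : ℝ) : ℝ := st (b + 1 + 4 * h) h u - st (b + h) h u

/-- the head -/
noncomputable def Qp (b h T : ℝ) (s : ℂ) : ℂ := Dp La (st (b + h) h) T (NN b T) s

/-- the window polynomial -/
noncomputable def Rp (b h T : ℝ) (s : ℂ) : ℂ := Dp La (rr b h) T (NN b T) s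

/-- the cofactor of `n`, `v = log n / log T` -/
noncomputable def Zp (b h v T : ℝ) (s : ℂ) : ℂ :=
  Dp (fun _ => 1) (fun u => st (b + 1 + 3 * h) h (u + v)) T (NN b T) s

/-- the window sum -/
noncomputable def Wn (b h T : ℝ) (s : ℂ) : ℂ :=
  ∑ n ∈ Icc 1 (NN b T), La n * ((rr b h (Real.log n / Real.log T) : ℝ) : ℂ) * (n : ℂ) ^ (-s) *
    Zp b h (Real.log n / Real.log T) T s

/-- the smooth sum of `m^(-s)`, `m ≤ T^(1+3h)` -/
noncomputable def D4 (b h T : ℝ) (s : ℂ) : ℂ := Dp (fun _ => 1) (st (1 + 3 * h) h) T (NN b T) s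

/-- `f = zeta Q + zeta'` -/
noncomputable def ff (b h T : ℝ) (s : ℂ) : ℂ := riemannZeta s * Qp b h T s + deriv riemannZeta s

/-- error term of psi in `(x, x + h]` -/
noncomputable def Ps (x h : ℝ) : ℝ :=
  (∑ n ∈ Ioc ⌊x⌋₊ ⌊x + h⌋₊, ArithmeticFunction.vonMangoldt n) - h

/-- error term of pi in `(x, x + h]` (the density is `1/log t` for `t ≥ 2`) -/
noncomputable def Pi (x h : ℝ) : ℝ :=
  (((Ioc ⌊x⌋₊ ⌊x + h⌋₊).filter Nat.Prime).card : ℝ) - ∫ t in x..(x + h), 1 / Real.log (max t 2)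

/-- error term of theta in `(x, x + h]` -/
noncomputable def Th (x h : ℝ) : ℝ :=
  (∑ p ∈ (Ioc ⌊x⌋₊ ⌊x + h⌋₊).filter Nat.Prime, Real.log p) - h

/-- additive, measurable, locally bounded functions of an interval `(x, x + h]` -/
structure Cocy (F : ℝ → ℝ → ℝ) : Prop where
  add : ∀ x h1 h2 : ℝ, 0 ≤ x → 0 ≤ h1 → 0 ≤ h2 → F x (h1 + h2) = F x h1 + F (x + h1) h2
  meas : Measurable (Function.uncurry F)
  bdd : ∀ R : ℝ, ∃ M : ℝ, ∀ x h : ℝ, 0 ≤ x → x ≤ R → 0 ≤ h → h ≤ R → |F x h| ≤ M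

/-- error term of pi at integers -/
noncomputable def EI (n m : ℕ) : ℝ :=
  (((Ioc n (n + m)).filter Nat.Prime).card : ℝ) - ∫ t in (n : ℝ)..(n + m : ℝ), 1 / Real.log t

/-- mollifier -/
noncomputable def Mo (d T : ℝ) (s : ℂ) : ℂ :=
  ∑ k ∈ Icc 1 ⌊T ^ (d / 4)⌋₊, ((ArithmeticFunction.moebius k : ℤ) : ℂ) * (k : ℂ) ^ (-s)

/-- `zeta M - 1` -/
noncomputable def Gm (d T : ℝ) (s : ℂ) : ℂ := riemannZeta s * Mo d T s - 1

/-- local mean square of `zeta M - 1` to the right of the critical line -/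
noncomputable def HH (d T t0 : ℝ) : ℝ :=
  ∫ x in (1 / 2 + d / 2)..3, ∫ t in (t0 - ((Real.log T) ^ 2 + 1))..(t0 + ((Real.log T) ^ 2 + 1)),
    ‖Gm d T ((x : ℂ) + (t : ℂ) * I)‖ ^ 2

/-- smooth function `x^(-s) ψ(log x / L + v)` on the line -/
noncomputable def gf (ψ : ℝ → ℝ) (L v : ℝ) (s : ℂ) (x : ℝ) : ℂ :=
  if x ≤ 0 then 0 else ((ψ (Real.log x / L + v) : ℝ) : ℂ) * (x : ℂ) ^ (-s)

theorem st_one {a h u : ℝ} (hh : 0 < h) (hu : u ≤ a) : st a h u = 1 := by
  unfold st
  apply Real.smoothTransition.one_of_one_le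
  rw [le_div_iff₀ hh]
  linarith

theorem st_zero {a h u : ℝ} (hh : 0 < h) (hu : a + h ≤ u) : st a h u = 0 := by
  unfold st
  apply Real.smoothTransition.zero_of_nonpos
  rw [div_le_iff₀ hh]
  linarith

theorem st_nonneg (a h u : ℝ) : 0 ≤ st a h u := Real.smoothTransition.nonneg _

theorem st_le_one (a h u : ℝ) : st a h u ≤ 1 := Real.smoothTransition.le_one _

theorem st_contDiff (a h : ℝ) : ContDiff ℝ (⊤ : ℕ∞) (st a h) := by
  unfold st
  exact Real.smoothTransition.contDiff.comp (by fun_prop)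

theorem rr_contDiff (b h : ℝ) : ContDiff ℝ (⊤ : ℕ∞) (rr b h) := by
  unfold rr
  exact (st_contDiff _ _).sub (st_contDiff _ _)

theorem rr_zero_left {b h u : ℝ} (hh : 0 < h) (hu : u ≤ b + h) : rr b h u = 0 := by
  unfold rr
  rw [st_one hh hu, st_one hh (by linarith)]
  ring

theorem rr_zero_right {b h u : ℝ} (hh : 0 < h) (hu : b + 1 + 5 * h ≤ u) : rr b h u = 0 := by
  unfold rr
  rw [st_zero hh (by linarith), st_zero hh (by linarith)]
  ring

theorem rr_abs_le (b h u : ℝ) : |rr b h u| ≤ 1 := by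
  unfold rr
  rw [abs_le]
  have h1 := st_nonneg (b + 1 + 4 * h) h u
  have h2 := st_le_one (b + 1 + 4 * h) h u
  have h3 := st_nonneg (b + h) h u
  have h4 := st_le_one (b + h) h u
  constructor <;> linarith

end Pool.Agent.H48.WN
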