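import Mathlib

/-!
# [H48 WN ZFO] zeta by partial sums, first order

PROOF. For `Re s > 0`, `s ≠ 1`: `ζ(s) = sum_{n ≤ N} n^(-s) + N^(1-s)/(s-1) + s int_N^∞ (⌊t⌋ - t) t^(-s-1) dt`.
(Known in the library at `N = 1`: `Pool/Agent/H2/Gap/ZUp.lean` proves `(s-1) ζ(s) = s + s(s-1) M(s)`,
`M(s) = int_1^∞ (⌊t⌋ - t) t^(-s-1) dt`; copy its private lemmas. Then Abel summation
`sum_{n ≤ N} n^(-s) = N N^(-s) + s int_1^N ⌊t⌋ t^(-s-1) dt = N^(1-s) + s int_1^N t^(-s) dt + s int_1^N (⌊t⌋-t) t^(-s-1) dt`,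
`s int_1^N t^(-s) dt = s (N^(1-s) - 1)/(1-s)`, and the difference is as stated.) The last integral is at most
`int_N^∞ t^(-σ-1) dt = N^(-σ)/σ ≤ 16 N^(-σ)`.
Alternative: both sides are analytic in `Re s > 0`, `s ≠ 1`, identity theorem from `Re s > 1`.
-/

set_option autoImplicit false

namespace Pool.Agent.H48.WN

open Complex MeasureTheory Finset

section

open Filter Topology

/-- `⌊t⌋ - t` for `t ≥ 1` and `0` for `t < 1`. -/
private noncomputable def zbR (t : ℝ) : ℂ := if t < 1 then 0 else ((⌊t⌋₊ : ℂ) - (t : ℂ))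

private lemma zbR_of_lt {t : ℝ} (ht : t < 1) : zbR t = 0 := by
  unfold zbR
  rw [if_pos ht]

private lemma zbR_of_ge {t : ℝ} (ht : 1 ≤ t) : zbR t = (⌊t⌋₊ : ℂ) - (t : ℂ) := by
  unfold zbR
  rw [if_neg (not_lt.mpr ht)]

private lemma norm_zbR (t : ℝ) : ‖zbR t‖ ≤ 1 := by
  rcases lt_or_ge t 1 with h | h
  · rw [zbR_of_lt h, norm_zero]
    exact zero_le_one
  · rw [zbR_of_ge h]
    have e : (⌊t⌋₊ : ℂ) - (t : ℂ) = (((⌊t⌋₊ : ℝ) - t : ℝ) : ℂ) := by push_cast; rfl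
    rw [e, Complex.norm_real, Real.norm_eq_abs, abs_le]
    have h1 : (⌊t⌋₊ : ℝ) ≤ t := Nat.floor_le (by linarith)
    have h2 : t < (⌊t⌋₊ : ℝ) + 1 := Nat.lt_floor_add_one t
    constructor <;> linarith

private lemma measurable_zbR : Measurable zbR := by
  unfold zbR
  refine Measurable.ite measurableSet_Iio measurable_const ?_
  refine Measurable.sub ?_ Complex.measurable_ofReal
  have h1 : Measurable (fun n : ℕ => (n : ℂ)) := measurable_from_top
  exact h1.comp Nat.measurable_floor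

private lemma locallyIntegrable_zbR : LocallyIntegrable zbR := by
  have h1 : LocallyIntegrable (fun _ : ℝ => (1 : ℝ)) := locallyIntegrable_const 1
  refine h1.mono measurable_zbR.aestronglyMeasurable (Eventually.of_forall fun t => ?_)
  rw [norm_one]
  exact norm_zbR t

private lemma mellin_zbR (s : ℂ) :
    mellin zbR (-s) = ∫ t in Set.Ioi (1 : ℝ), zbR t * (t : ℂ) ^ (-(s + 1)) := by
  unfold mellin
  have h1 : ∀ t : ℝ, zbR t * (t : ℂ) ^ (-(s + 1)) = (t : ℂ) ^ (-s - 1) • zbR t := by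
    intro t
    rw [smul_eq_mul, mul_comm]
    congr 2
    ring
  simp_rw [h1]
  rw [← integral_Ici_eq_integral_Ioi (x := (1 : ℝ))]
  refine setIntegral_eq_of_subset_of_forall_sdiff_eq_zero measurableSet_Ioi ?_ ?_
  · intro t ht
    exact zero_lt_one.trans_le (show (1 : ℝ) ≤ t from ht)
  · intro t ht
    have : t < 1 := by
      by_contra h
      exact ht.2 (not_lt.mp h)
    rw [zbR_of_lt this, smul_zero]

private lemma differentiableAt_mellin_zbR {s : ℂ} (hs : 0 < s.re) :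
    DifferentiableAt ℂ (fun s => mellin zbR (-s)) s := by
  have h : DifferentiableAt ℂ (mellin zbR) (-s) := by
    refine mellin_differentiableAt_of_isBigO_rpow (a := 0) (b := -s.re - 1)
      (locallyIntegrable_zbR.locallyIntegrableOn _) ?_ (by simpa using hs) ?_
      (by simp)
    · refine Asymptotics.IsBigO.of_bound 1 (Eventually.of_forall fun t => ?_)
      simpa using norm_zbR t
    · refine Asymptotics.IsBigO.of_bound 1 ?_
      filter_upwards [Ioo_mem_nhdsGT (show (0 : ℝ) < 1 by norm_num)] with t ht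
      rw [zbR_of_lt ht.2]
      simp
  exact h.comp s differentiableAt_id.neg

private lemma norm_zbR_mul_le (s : ℂ) {t : ℝ} (ht : 1 < t) :
    ‖zbR t * (t : ℂ) ^ (-(s + 1))‖ ≤ t ^ (-s.re - 1) := by
  have ht0 : 0 < t := zero_lt_one.trans ht
  rw [norm_mul, norm_cpow_eq_rpow_re_of_pos ht0]
  have e : (-(s + 1)).re = -s.re - 1 := by
    simp only [neg_add_rev, add_re, neg_re, one_re]
    ring
  rw [e]
  calc ‖zbR t‖ * t ^ (-s.re - 1) ≤ 1 * t ^ (-s.re - 1) := by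
        refine mul_le_mul_of_nonneg_right (norm_zbR t) (by positivity)
    _ = t ^ (-s.re - 1) := one_mul _

private lemma integrableOn_zbR {s : ℂ} (hs : 0 < s.re) :
    IntegrableOn (fun t : ℝ => zbR t * (t : ℂ) ^ (-(s + 1))) (Set.Ioi 1) := by
  have hint : IntegrableOn (fun t : ℝ => t ^ (-s.re - 1)) (Set.Ioi 1) :=
    integrableOn_Ioi_rpow_of_lt (by linarith) zero_lt_one
  refine Integrable.mono' hint ?_ ((ae_restrict_iff' measurableSet_Ioi).mpr
    (Eventually.of_forall fun t ht => norm_zbR_mul_le s ht))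
  refine (measurable_zbR.aestronglyMeasurable).mul ?_
  refine ContinuousOn.aestronglyMeasurable ?_ measurableSet_Ioi
  intro t ht
  exact (continuousAt_ofReal_cpow_const _ _ (Or.inr (zero_lt_one.trans ht).ne')).continuousWithinAt

private lemma eq_mellin_of_one_lt {s : ℂ} (hs : 1 < s.re) :
    (s - 1) * riemannZeta s = s + s * (s - 1) * mellin zbR (-s) := by
  have hs0 : 0 < s.re := zero_lt_one.trans hs
  have hs1 : s - 1 ≠ 0 := by
    intro h
    have : (s - 1).re = 0 := by rw [h]; rfl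
    rw [sub_re, one_re] at this
    linarith
  have hO : (fun n : ℕ ↦ ∑ k ∈ Finset.Icc 1 n, (1 : ℕ → ℂ) k) =O[atTop] fun n ↦ (n : ℝ) ^ (1 : ℝ) := by
    refine Asymptotics.IsBigO.of_bound 1 (Eventually.of_forall fun n => ?_)
    simp
  have h1 := LSeries_eq_mul_integral (fun n => (1 : ℕ → ℂ) n) zero_le_one hs
    (LSeriesSummable_one_iff.mpr hs) hO
  rw [LSeries_one_eq_riemannZeta hs] at h1
  have h2 : ∀ t ∈ Set.Ioi (1 : ℝ), (∑ k ∈ Finset.Icc 1 ⌊t⌋₊, (1 : ℕ → ℂ) k) * (t : ℂ) ^ (-(s + 1)) =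
      zbR t * (t : ℂ) ^ (-(s + 1)) + (t : ℂ) ^ (-s) := by
    intro t ht
    have ht1 : (1 : ℝ) < t := ht
    have ht0 : (t : ℂ) ≠ 0 := by
      exact_mod_cast (zero_lt_one.trans ht1).ne'
    rw [zbR_of_ge ht1.le]
    have e1 : (∑ k ∈ Finset.Icc 1 ⌊t⌋₊, (1 : ℕ → ℂ) k) = (⌊t⌋₊ : ℂ) := by
      simp
    have e2 : (t : ℂ) ^ (-s) = (t : ℂ) * (t : ℂ) ^ (-(s + 1)) := by
      have : (-s : ℂ) = 1 + (-(s + 1)) := by ring
      rw [this, Complex.cpow_add _ _ ht0, Complex.cpow_one]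
    rw [e1, e2]
    ring
  rw [setIntegral_congr_fun measurableSet_Ioi h2] at h1
  have hi2 : IntegrableOn (fun t : ℝ => (t : ℂ) ^ (-s)) (Set.Ioi 1) := by
    refine integrableOn_Ioi_cpow_of_lt ?_ zero_lt_one
    rw [neg_re]
    linarith
  rw [integral_add (integrableOn_zbR hs0) hi2, ← mellin_zbR,
    integral_Ioi_cpow_of_lt (by rw [neg_re]; linarith) zero_lt_one] at h1
  rw [h1, Complex.ofReal_one, Complex.one_cpow]
  have h3 : -s + 1 ≠ 0 := by
    intro h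
    apply hs1
    linear_combination -h
  field_simp
  ring

private lemma zeta1_of_ne {s : ℂ} (hs : s ≠ 1) :
    DirichletCharacter.LFunctionTrivChar₁ 1 s = (s - 1) * riemannZeta s := by
  unfold DirichletCharacter.LFunctionTrivChar₁ DirichletCharacter.LFunctionTrivChar
  rw [Function.update_of_ne hs, DirichletCharacter.LFunction_modOne_eq]

private lemma zeta1_eq_mellin {s : ℂ} (hs : 0 < s.re) :
    DirichletCharacter.LFunctionTrivChar₁ 1 s = s + s * (s - 1) * mellin zbR (-s) := by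
  have hopen : IsOpen {z : ℂ | 0 < z.re} := isOpen_lt continuous_const continuous_re
  have hpc : IsPreconnected {z : ℂ | 0 < z.re} :=
    (convex_halfSpace_re_gt 0).isPreconnected
  have h1 : AnalyticOnNhd ℂ (DirichletCharacter.LFunctionTrivChar₁ 1) {z : ℂ | 0 < z.re} :=
    DifferentiableOn.analyticOnNhd
      (fun z _ => (DirichletCharacter.differentiable_LFunctionTrivChar₁ 1 z).differentiableWithinAt) hopen
  have h2 : AnalyticOnNhd ℂ (fun s => s + s * (s - 1) * mellin zbR (-s)) {z : ℂ | 0 < z.re} :=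
    DifferentiableOn.analyticOnNhd
      (fun z hz => (differentiableAt_id.add ((differentiableAt_id.mul
        (differentiableAt_id.sub_const 1)).mul
          (differentiableAt_mellin_zbR hz))).differentiableWithinAt)
      hopen
  refine h1.eqOn_of_preconnected_of_eventuallyEq h2 hpc (z₀ := 2) (by simp) ?_ hs
  have hmem : {z : ℂ | 1 < z.re} ∈ 𝓝 (2 : ℂ) :=
    (isOpen_lt continuous_const continuous_re).mem_nhds (by simp)
  filter_upwards [hmem] with z hz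
  have hz : 1 < z.re := hz
  have hz1 : z ≠ 1 := by
    intro h
    rw [h, one_re] at hz
    exact lt_irrefl _ hz
  rw [zeta1_of_ne hz1, eq_mellin_of_one_lt hz]

end

private lemma zbR_tail (s : ℂ) (hs : 1 / 16 ≤ s.re) {N : ℕ} (hN : 1 ≤ N) :
    ‖∫ t in Set.Ioi (N : ℝ), zbR t * (t : ℂ) ^ (-(s + 1))‖ ≤ 16 * (N : ℝ) ^ (-s.re) := by
  have hs0 : 0 < s.re := by linarith
  have hN1 : (1 : ℝ) ≤ N := by exact_mod_cast hN
  have hN0 : (0 : ℝ) < N := by linarith
  have hint : IntegrableOn (fun t : ℝ => t ^ (-s.re - 1)) (Set.Ioi (N : ℝ)) :=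
    integrableOn_Ioi_rpow_of_lt (by linarith) hN0
  refine (norm_integral_le_of_norm_le hint
    ((ae_restrict_iff' measurableSet_Ioi).mpr
      (Filter.Eventually.of_forall fun t ht =>
        norm_zbR_mul_le s (lt_of_le_of_lt hN1 ht)))).trans ?_
  rw [integral_Ioi_rpow_of_lt (by linarith) hN0]
  have e : -s.re - 1 + 1 = -s.re := by ring
  rw [e, neg_div_neg_eq, div_le_iff₀ hs0]
  have : 0 ≤ (N : ℝ) ^ (-s.re) := Real.rpow_nonneg hN0.le _
  nlinarith

private lemma zbR_step (s : ℂ) (hs : 0 < s.re) (hs1 : s ≠ 1) {N : ℕ} (hN : 1 ≤ N) :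
    s * (∫ t in Set.Ioi (N : ℝ), zbR t * (t : ℂ) ^ (-(s + 1))) =
      s * (∫ t in Set.Ioi ((N + 1 : ℕ) : ℝ), zbR t * (t : ℂ) ^ (-(s + 1))) +
      ((N + 1 : ℕ) : ℂ) ^ (-s) +
      (((N + 1 : ℕ) : ℂ) ^ (1 - s) - (N : ℂ) ^ (1 - s)) / (s - 1) := by
  have hN1 : (1 : ℝ) ≤ N := by exact_mod_cast hN
  have hN0 : (0 : ℝ) < N := by linarith
  have hs1' : s - 1 ≠ 0 := sub_ne_zero.2 hs1
  have hs0 : s ≠ 0 := by
    intro h
    rw [h, Complex.zero_re] at hs
    exact lt_irrefl _ hs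
  have hle : (N : ℝ) ≤ ((N + 1 : ℕ) : ℝ) := by push_cast; linarith
  have hI1 : IntegrableOn (fun t : ℝ => zbR t * (t : ℂ) ^ (-(s + 1))) (Set.Ioi (N : ℝ)) :=
    (integrableOn_zbR hs).mono_set (Set.Ioi_subset_Ioi hN1)
  have hI2 : IntegrableOn (fun t : ℝ => zbR t * (t : ℂ) ^ (-(s + 1)))
      (Set.Ioi ((N + 1 : ℕ) : ℝ)) := hI1.mono_set (Set.Ioi_subset_Ioi hle)
  have h1 := intervalIntegral.integral_interval_add_Ioi hI1 hI2
  have hnot : (0 : ℝ) ∉ Set.uIcc (N : ℝ) ((N + 1 : ℕ) : ℝ) := by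
    rw [Set.uIcc_of_le hle]
    intro h
    linarith [h.1]
  have h2 : ∫ t in (N : ℝ)..((N + 1 : ℕ) : ℝ), zbR t * (t : ℂ) ^ (-(s + 1)) =
      ∫ t in (N : ℝ)..((N + 1 : ℕ) : ℝ), ((N : ℂ) * (t : ℂ) ^ (-(s + 1)) - (t : ℂ) ^ (-s)) := by
    apply intervalIntegral.integral_congr_ae
    have hne : ∀ᵐ t : ℝ, t ≠ ((N + 1 : ℕ) : ℝ) := by
      rw [MeasureTheory.ae_iff]
      simp
    filter_upwards [hne] with t htne ht
    rw [Set.uIoc_of_le hle] at ht
    have ht1 : 1 ≤ t := by linarith [ht.1]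
    have htlt : t < (N : ℝ) + 1 := by
      have h3 := lt_of_le_of_ne ht.2 htne
      push_cast at h3
      exact h3
    have hfl : ⌊t⌋₊ = N := by
      rw [Nat.floor_eq_iff (by linarith)]
      exact ⟨ht.1.le, htlt⟩
    rw [zbR_of_ge ht1, hfl, sub_mul]
    congr 1
    have ht0 : (t : ℂ) ≠ 0 := by
      exact_mod_cast (by linarith : (0 : ℝ) < t).ne'
    have : (-s : ℂ) = 1 + (-(s + 1)) := by ring
    rw [this, Complex.cpow_add _ _ ht0, Complex.cpow_one]
  have hi1 : IntervalIntegrable (fun t : ℝ => (t : ℂ) ^ (-(s + 1))) volume (N : ℝ)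
      ((N + 1 : ℕ) : ℝ) := by
    apply intervalIntegral.intervalIntegrable_cpow
    right
    exact hnot
  have hi2 : IntervalIntegrable (fun t : ℝ => (t : ℂ) ^ (-s)) volume (N : ℝ)
      ((N + 1 : ℕ) : ℝ) := by
    apply intervalIntegral.intervalIntegrable_cpow
    right
    exact hnot
  have hsne : -(s + 1) + 1 ≠ 0 := by
    intro h
    exact hs0 (by linear_combination -h)
  have h3 : ∫ t in (N : ℝ)..((N + 1 : ℕ) : ℝ), ((N : ℂ) * (t : ℂ) ^ (-(s + 1)) - (t : ℂ) ^ (-s)) =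
      (N : ℂ) * (((((N + 1 : ℕ) : ℝ) : ℂ) ^ (-(s + 1) + 1) - ((N : ℝ) : ℂ) ^ (-(s + 1) + 1)) /
        (-(s + 1) + 1)) -
      (((((N + 1 : ℕ) : ℝ) : ℂ) ^ (-s + 1) - ((N : ℝ) : ℂ) ^ (-s + 1)) / (-s + 1)) := by
    rw [intervalIntegral.integral_sub (hi1.const_mul _) hi2, intervalIntegral.integral_const_mul,
      integral_cpow (Or.inr ⟨fun h => hsne (by rw [h]; ring), hnot⟩),
      integral_cpow (Or.inr ⟨fun h => hs1 (by linear_combination -h), hnot⟩)]
  rw [← h1, h2, h3]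
  have hNC : (N : ℂ) ≠ 0 := by exact_mod_cast (by omega : N ≠ 0)
  have hNC1 : ((N + 1 : ℕ) : ℂ) ≠ 0 := by exact_mod_cast (by omega : N + 1 ≠ 0)
  have e1 : (N : ℂ) ^ (1 - s) = (N : ℂ) * (N : ℂ) ^ (-s) := by
    rw [sub_eq_add_neg, Complex.cpow_add _ _ hNC, Complex.cpow_one]
  have e2 : ((N + 1 : ℕ) : ℂ) ^ (1 - s) = ((N : ℂ) + 1) * ((N + 1 : ℕ) : ℂ) ^ (-s) := by
    rw [sub_eq_add_neg, Complex.cpow_add _ _ hNC1, Complex.cpow_one]
    push_cast
    rfl
  have e3 : -(s + 1) + 1 = -s := by ring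
  have e4 : -s + 1 = 1 - s := by ring
  rw [e3, e4, Complex.ofReal_natCast, Complex.ofReal_natCast, e1, e2]
  have hs2 : (1 : ℂ) - s ≠ 0 := by
    intro h
    exact hs1' (by linear_combination -h)
  generalize ((N + 1 : ℕ) : ℂ) ^ (-s) = X
  generalize (N : ℂ) ^ (-s) = Y
  generalize (∫ t in Set.Ioi ((N + 1 : ℕ) : ℝ), zbR t * (t : ℂ) ^ (-(s + 1))) = Z
  have hs3 : (1 : ℂ) - s = -(s - 1) := by ring
  rw [hs3]
  field_simp
  ring

theorem zfo : ∃ C : ℝ, 0 < C ∧ ∀ s : ℂ, 1 / 16 ≤ s.re → s.re ≤ 4 → 1 ≤ s.im → ∀ N : ℕ, 1 ≤ N →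
    ‖riemannZeta s - ∑ n ∈ Icc 1 N, (n : ℂ) ^ (-s) - (N : ℂ) ^ (1 - s) / (s - 1)‖ ≤
      C * ‖s‖ * (N : ℝ) ^ (-s.re) := by
  refine ⟨16, by norm_num, ?_⟩
  intro s h1 h4 him N hN
  have hs0 : 0 < s.re := by linarith
  have hne : s ≠ 1 := by
    intro h
    rw [h, one_im] at him
    norm_num at him
  have hs1' : s - 1 ≠ 0 := sub_ne_zero.2 hne
  have key : ∀ N : ℕ, 1 ≤ N →
      riemannZeta s - ∑ n ∈ Finset.Icc 1 N, (n : ℂ) ^ (-s) - (N : ℂ) ^ (1 - s) / (s - 1) =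
        s * ∫ t in Set.Ioi (N : ℝ), zbR t * (t : ℂ) ^ (-(s + 1)) := by
    intro N hN
    induction N, hN using Nat.le_induction with
    | base =>
      have e : (s - 1) * riemannZeta s = s + s * (s - 1) * mellin zbR (-s) := by
        rw [← zeta1_of_ne hne, zeta1_eq_mellin hs0]
      rw [mellin_zbR] at e
      have e2 : riemannZeta s = s / (s - 1) +
          s * ∫ t in Set.Ioi (1 : ℝ), zbR t * (t : ℂ) ^ (-(s + 1)) := by
        field_simp
        linear_combination e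
      rw [e2, Finset.Icc_self, Finset.sum_singleton, Nat.cast_one, Nat.cast_one,
        Complex.one_cpow, Complex.one_cpow]
      field_simp
      ring
    | succ N hN ih =>
      rw [Finset.sum_Icc_succ_top (by omega), Nat.cast_succ] at *
      have h2 := zbR_step s hs0 hne hN
      rw [h2] at ih
      push_cast at ih ⊢
      linear_combination ih
  rw [key N hN, norm_mul]
  have h5 := zbR_tail s h1 hN
  calc ‖s‖ * ‖∫ t in Set.Ioi (N : ℝ), zbR t * (t : ℂ) ^ (-(s + 1))‖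
      ≤ ‖s‖ * (16 * (N : ℝ) ^ (-s.re)) := mul_le_mul_of_nonneg_left h5 (norm_nonneg _)
    _ = 16 * ‖s‖ * (N : ℝ) ^ (-s.re) := by ring

end Pool.Agent.H48.WN
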