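import Pool.Agent.H48.WN.Int0
import Pool.Agent.H48.WN.Zfo

/-!
# [H48 WN BIG] zeta by smooth sums with a very long cut-off

PROOF. `L = log T`, `F(x) = φ(log x/L + v)` for `x ≥ 1`; `F(1) = φ(v) = 1` (`v ≤ v1 ≤ β`), `F = 0` for `x ≥ T^(B-v)`.
With `S(x) = sum_{k ≤ x} k^(-s)` (Abel summation, `sum_mul_eq_sub_integral_mul` or
`sum_mul_eq_sub_sub_integral_mul` of Mathlib): `Dp = sum_m F(m) m^(-s) = - int_1^∞ F'(x) S(x) dx`,
`F'(x) = φ'(log x/L + v)/(x L)`. By `zfo` at `N = ⌊x⌋` and `|⌊x⌋^(1-s) - x^(1-s)| ≤ |1-s| ⌊x⌋^(-σ)`,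
`S(x) = ζ(s) - x^(1-s)/(s-1) + E(x)`, `|E(x)| ≤ C |s| x^(-σ)` (`⌊x⌋ ≥ x/2`). So
`Dp = ζ(s) + (s-1)^(-1) int_1^∞ F'(x) x^(1-s) dx - int_1^∞ F'(x) E(x) dx`.
Second term: `= ((s-1) L)^(-1) int gf φ' L v s` (`φ' = deriv φ` is smooth, `0` for `u ≤ β` and for `u ≥ B`), so by
`int0` it is `≤ C T^(-A2) T^(|B|)`, `A2 = A + ⌈|B|⌉ + 2`.
Third term: `F' ≠ 0` only if `log x/L + v ≥ β`, i.e. `x ≥ T^(β - v1)`; `|F'(x)| ≤ C/x`; so it is
`≤ C |s| int_{T^(β-v1)}^∞ x^(-σ-1) dx ≤ 16 C |s| T^(-σ(β-v1)) ≤ C' T · T^(-(A+3))` because `σ(β-v1) ≥ (β-v1)/16 ≥ A+3`.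
-/

set_option autoImplicit false

namespace Pool.Agent.H48.WN

open Complex MeasureTheory Finset

private theorem big_psi {φ : ℝ → ℝ} (hφ : ContDiff ℝ (⊤ : ℕ∞) φ) {β B : ℝ}
    (hβ : ∀ u ≤ β, φ u = 1) (hB : ∀ u, B ≤ u → φ u = 0) :
    ContDiff ℝ (⊤ : ℕ∞) (deriv φ) ∧ (∀ u ≤ β, deriv φ u = 0) ∧ (∀ u, B ≤ u → deriv φ u = 0) ∧
      ∃ M : ℝ, 0 ≤ M ∧ ∀ u, |deriv φ u| ≤ M := by
  have h1 : ContDiff ℝ (⊤ : ℕ∞) (deriv φ) := (contDiff_infty_iff_deriv.1 hφ).2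
  have hd : Differentiable ℝ φ := (contDiff_infty_iff_deriv.1 hφ).1
  have h2 : ∀ u ≤ β, deriv φ u = 0 := by
    intro u hu
    have h3 : HasDerivWithinAt φ (deriv φ u) (Set.Iic β) u := (hd u).hasDerivAt.hasDerivWithinAt
    have h4 : HasDerivWithinAt φ 0 (Set.Iic β) u :=
      (hasDerivWithinAt_const u (Set.Iic β) (1 : ℝ)).congr (fun x hx => hβ x hx) (hβ u hu)
    exact (uniqueDiffOn_Iic β u hu).eq_deriv _ h3 h4
  have h3 : ∀ u, B ≤ u → deriv φ u = 0 := by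
    intro u hu
    have h3 : HasDerivWithinAt φ (deriv φ u) (Set.Ici B) u := (hd u).hasDerivAt.hasDerivWithinAt
    have h4 : HasDerivWithinAt φ 0 (Set.Ici B) u :=
      (hasDerivWithinAt_const u (Set.Ici B) (0 : ℝ)).congr (fun x hx => hB x hx) (hB u hu)
    exact (uniqueDiffOn_Ici B u hu).eq_deriv _ h3 h4
  refine ⟨h1, h2, h3, ?_⟩
  obtain ⟨M, hM⟩ := (isCompact_Icc (a := β) (b := B)).exists_bound_of_continuousOn
    h1.continuous.continuousOn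
  refine ⟨max M 0, le_max_right _ _, fun u => ?_⟩
  by_cases hu : u ∈ Set.Icc β B
  · exact (hM u hu).trans (le_max_left _ _)
  · have h5 : deriv φ u = 0 := by
      by_cases h6 : u ≤ β
      · exact h2 u h6
      · apply h3
        by_contra h7
        push Not at h6 h7
        exact hu ⟨h6.le, h7.le⟩
    rw [h5, abs_zero]
    exact le_max_right _ _

private theorem big_der {φ : ℝ → ℝ} (hφ : ContDiff ℝ (⊤ : ℕ∞) φ) (L v : ℝ) {x : ℝ} (hx : 0 < x) :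
    HasDerivAt (fun x : ℝ => ((φ (Real.log x / L + v) : ℝ) : ℂ))
      (((deriv φ (Real.log x / L + v)) * (x⁻¹ / L) : ℝ) : ℂ) x := by
  have hd : Differentiable ℝ φ := (contDiff_infty_iff_deriv.1 hφ).1
  have h1 : HasDerivAt (fun x : ℝ => Real.log x / L + v) (x⁻¹ / L) x :=
    ((Real.hasDerivAt_log hx.ne').div_const L).add_const v
  exact ((hd _).hasDerivAt.comp x h1).ofReal_comp

private theorem big_pow {s : ℂ} (hs : 0 ≤ s.re) (hs1 : 1 - s ≠ 0) {n x : ℝ} (hn : 1 ≤ n)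
    (hx : n ≤ x) (hx1 : x ≤ n + 1) :
    ‖(x : ℂ) ^ (1 - s) - (n : ℂ) ^ (1 - s)‖ ≤ ‖1 - s‖ * n ^ (-s.re) := by
  have h1 : ∀ y ∈ Set.Icc n x, HasDerivWithinAt (fun y : ℝ => (y : ℂ) ^ (1 - s))
      ((1 - s) * (y : ℂ) ^ (1 - s - 1)) (Set.Icc n x) y := by
    intro y hy
    have hy0 : y ≠ 0 := by have := hy.1; linarith
    exact (hasDerivAt_ofReal_cpow_const hy0 hs1).hasDerivWithinAt
  have h2 : ∀ y ∈ Set.Ico n x, ‖(1 - s) * (y : ℂ) ^ (1 - s - 1)‖ ≤ ‖1 - s‖ * n ^ (-s.re) := by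
    intro y hy
    have hy0 : 0 < y := by have := hy.1; linarith
    rw [norm_mul, Complex.norm_cpow_eq_rpow_re_of_pos hy0]
    have h3 : (1 - s - 1).re = -s.re := by
      rw [Complex.sub_re, Complex.sub_re, Complex.one_re]
      ring
    rw [h3]
    refine mul_le_mul_of_nonneg_left ?_ (norm_nonneg _)
    exact Real.rpow_le_rpow_of_nonpos (by linarith) hy.1 (by linarith)
  have h3 := norm_image_sub_le_of_norm_deriv_le_segment' h1 h2 x ⟨hx, le_rfl⟩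
  refine h3.trans ?_
  have h4 : 0 ≤ ‖1 - s‖ * n ^ (-s.re) := by positivity
  exact mul_le_of_le_one_right h4 (by linarith)

private theorem big_E {C : ℝ} (hC : 0 < C) {s : ℂ} (hs : 1 / 16 ≤ s.re) (hs4 : s.re ≤ 4)
    (him : 1 ≤ s.im) (hz : ∀ N : ℕ, 1 ≤ N →
    ‖riemannZeta s - ∑ n ∈ Icc 1 N, (n : ℂ) ^ (-s) - (N : ℂ) ^ (1 - s) / (s - 1)‖ ≤
      C * ‖s‖ * (N : ℝ) ^ (-s.re)) {x : ℝ} (hx : 1 ≤ x) :
    ‖∑ k ∈ Icc 0 ⌊x⌋₊, (k : ℂ) ^ (-s) - riemannZeta s + (x : ℂ) ^ (1 - s) / (s - 1)‖ ≤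
      16 * (C + 1) * ‖s‖ * x ^ (-s.re) := by
  have hx0 : 0 ≤ x := by linarith
  have hn1 : 1 ≤ ⌊x⌋₊ := (Nat.one_le_floor_iff _).2 hx
  have hn1' : (1 : ℝ) ≤ ((⌊x⌋₊ : ℕ) : ℝ) := by exact_mod_cast hn1
  have hnx : ((⌊x⌋₊ : ℕ) : ℝ) ≤ x := Nat.floor_le hx0
  have hxn : x < ((⌊x⌋₊ : ℕ) : ℝ) + 1 := Nat.lt_floor_add_one x
  have hs0 : s ≠ 0 := by
    intro h
    rw [h, Complex.zero_im] at him
    linarith
  have hs1 : s - 1 ≠ 0 := by
    intro h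
    have := congrArg Complex.im h
    rw [Complex.sub_im, Complex.one_im, Complex.zero_im] at this
    linarith
  have hs1' : 1 - s ≠ 0 := by
    intro h
    apply hs1
    rw [← neg_sub, h, neg_zero]
  have hsum : ∑ k ∈ Icc 0 ⌊x⌋₊, (k : ℂ) ^ (-s) = ∑ n ∈ Icc 1 ⌊x⌋₊, (n : ℂ) ^ (-s) := by
    rw [← Finset.insert_Icc_add_one_left_eq_Icc (Nat.zero_le _), Finset.sum_insert (by simp),
      Nat.cast_zero, Complex.zero_cpow (neg_ne_zero.2 hs0), zero_add, zero_add]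
  have h1 := hz _ hn1
  have h2 := big_pow (s := s) (by linarith) hs1' hn1' hnx hxn.le
  have hsn : 1 ≤ ‖s‖ := by
    refine him.trans ?_
    exact (le_abs_self _).trans (Complex.abs_im_le_norm s)
  have h3 : (((⌊x⌋₊ : ℕ) : ℝ) : ℂ) = ((⌊x⌋₊ : ℕ) : ℂ) := by norm_cast
  rw [h3] at h2
  have h4 : ‖((x : ℂ) ^ (1 - s) - ((⌊x⌋₊ : ℕ) : ℂ) ^ (1 - s)) / (s - 1)‖ ≤
      ((⌊x⌋₊ : ℕ) : ℝ) ^ (-s.re) := by
    rw [norm_div, div_le_iff₀ (norm_pos_iff.2 hs1), mul_comm]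
    rw [norm_sub_rev s 1]
    exact h2
  have h5 : ‖∑ k ∈ Icc 0 ⌊x⌋₊, (k : ℂ) ^ (-s) - riemannZeta s + (x : ℂ) ^ (1 - s) / (s - 1)‖ ≤
      C * ‖s‖ * ((⌊x⌋₊ : ℕ) : ℝ) ^ (-s.re) + ((⌊x⌋₊ : ℕ) : ℝ) ^ (-s.re) := by
    have h6 : ∑ k ∈ Icc 0 ⌊x⌋₊, (k : ℂ) ^ (-s) - riemannZeta s + (x : ℂ) ^ (1 - s) / (s - 1) =
        -(riemannZeta s - ∑ n ∈ Icc 1 ⌊x⌋₊, (n : ℂ) ^ (-s) -
          ((⌊x⌋₊ : ℕ) : ℂ) ^ (1 - s) / (s - 1)) +
        ((x : ℂ) ^ (1 - s) - ((⌊x⌋₊ : ℕ) : ℂ) ^ (1 - s)) / (s - 1) := by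
      rw [hsum, sub_div]
      ring
    rw [h6]
    refine (norm_add_le _ _).trans ?_
    rw [norm_neg]
    exact add_le_add h1 h4
  have h7 : ((⌊x⌋₊ : ℕ) : ℝ) ^ (-s.re) ≤ 16 * x ^ (-s.re) := by
    have h8 : x / 2 ≤ ((⌊x⌋₊ : ℕ) : ℝ) := by linarith
    have h9 : ((⌊x⌋₊ : ℕ) : ℝ) ^ (-s.re) ≤ (x / 2) ^ (-s.re) :=
      Real.rpow_le_rpow_of_nonpos (by linarith) h8 (by linarith)
    have h10 : (x / 2) ^ (-s.re) = x ^ (-s.re) * 2 ^ s.re := by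
      rw [Real.div_rpow hx0 (by norm_num), Real.rpow_neg (by norm_num : (0 : ℝ) ≤ 2), div_inv_eq_mul]
    have h11 : (2 : ℝ) ^ s.re ≤ 16 := by
      have h12 : (2 : ℝ) ^ s.re ≤ (2 : ℝ) ^ (4 : ℝ) :=
        Real.rpow_le_rpow_of_exponent_le (by norm_num) hs4
      have h13 : (2 : ℝ) ^ (4 : ℝ) = 16 := by
        rw [show (4 : ℝ) = ((4 : ℕ) : ℝ) by norm_num, Real.rpow_natCast]
        norm_num
      linarith
    have h14 : 0 ≤ x ^ (-s.re) := Real.rpow_nonneg hx0 _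
    rw [h10] at h9
    nlinarith
  have h15 : 0 ≤ x ^ (-s.re) := Real.rpow_nonneg hx0 _
  have h16 : 0 ≤ ((⌊x⌋₊ : ℕ) : ℝ) ^ (-s.re) := Real.rpow_nonneg (by linarith) _
  calc _ ≤ C * ‖s‖ * ((⌊x⌋₊ : ℕ) : ℝ) ^ (-s.re) + ((⌊x⌋₊ : ℕ) : ℝ) ^ (-s.re) := h5
    _ ≤ (C + 1) * ‖s‖ * ((⌊x⌋₊ : ℕ) : ℝ) ^ (-s.re) := by nlinarith
    _ ≤ (C + 1) * ‖s‖ * (16 * x ^ (-s.re)) := by
      refine mul_le_mul_of_nonneg_left h7 ?_
      positivity
    _ = _ := by ring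

private theorem big_gf {ψ : ℝ → ℝ} {β B L v T : ℝ} (hψβ : ∀ u ≤ β, ψ u = 0)
    (hψB : ∀ u, B ≤ u → ψ u = 0) (hT : 1 < T) (hL : L = Real.log T) (hv0 : 0 ≤ v) (hv : v ≤ β)
    {N : ℕ} (hN : T ^ B ≤ N) (s : ℂ) :
    ∫ t in Set.Ioc (1 : ℝ) N, (((ψ (Real.log t / L + v)) * (t⁻¹ / L) : ℝ) : ℂ) * (t : ℂ) ^ (1 - s) =
      (L : ℂ)⁻¹ * ∫ x, gf ψ L v s x := by
  have hL0 : 0 < L := by rw [hL]; exact Real.log_pos hT
  have hT0 : 0 < T := by linarith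
  have h1 : ∫ x, gf ψ L v s x = ∫ x in Set.Ioc (1 : ℝ) N, gf ψ L v s x := by
    symm
    apply setIntegral_eq_integral_of_forall_compl_eq_zero
    intro x hx
    unfold gf
    split_ifs with h2
    · rfl
    · push Not at h2
      have h3 : ψ (Real.log x / L + v) = 0 := by
        by_cases h4 : x ≤ 1
        · apply hψβ
          have h5 : Real.log x ≤ 0 := Real.log_nonpos h2.le h4
          have h6 : Real.log x / L ≤ 0 := div_nonpos_of_nonpos_of_nonneg h5 hL0.le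
          linarith
        · push Not at h4
          apply hψB
          have h5 : (N : ℝ) < x := by
            by_contra h6
            push Not at h6
            exact hx ⟨h4, h6⟩
          have h6 : B * L ≤ Real.log x := by
            rw [hL, ← Real.log_rpow hT0]
            exact Real.log_le_log (Real.rpow_pos_of_pos hT0 _) (hN.trans h5.le)
          have h7 : B ≤ Real.log x / L := (le_div_iff₀ hL0).2 h6
          linarith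
      rw [h3, Complex.ofReal_zero, zero_mul]
  rw [h1, ← integral_const_mul]
  refine setIntegral_congr_fun measurableSet_Ioc fun t ht => ?_
  have ht0 : 0 < t := lt_trans one_pos ht.1
  have ht0' : (t : ℂ) ≠ 0 := by exact_mod_cast ht0.ne'
  show (((ψ (Real.log t / L + v)) * (t⁻¹ / L) : ℝ) : ℂ) * (t : ℂ) ^ (1 - s) =
    (L : ℂ)⁻¹ * gf ψ L v s t
  unfold gf
  rw [if_neg (not_le.2 ht0), sub_eq_add_neg, Complex.cpow_add _ _ ht0', Complex.cpow_one]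
  push_cast
  field_simp

private theorem big_id {φ : ℝ → ℝ} (hφ : ContDiff ℝ (⊤ : ℕ∞) φ) {β B L v T : ℝ}
    (hβ : ∀ u ≤ β, φ u = 1) (hB : ∀ u, B ≤ u → φ u = 0) (hT : 1 < T) (hL : L = Real.log T)
    (hB0 : 0 ≤ B) (hv0 : 0 ≤ v) (hv : v ≤ β) {N : ℕ} (hN : T ^ B ≤ N) {s : ℂ} (hs0 : s ≠ 0)
    (hs1 : s - 1 ≠ 0) :
    riemannZeta s - ∑ n ∈ Icc 1 N, ((φ (Real.log n / L + v) : ℝ) : ℂ) * (n : ℂ) ^ (-s) =
      (∫ t in Set.Ioc (1 : ℝ) N, (((deriv φ (Real.log t / L + v)) * (t⁻¹ / L) : ℝ) : ℂ) *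
        (∑ k ∈ Icc 0 ⌊t⌋₊, (k : ℂ) ^ (-s) - riemannZeta s + (t : ℂ) ^ (1 - s) / (s - 1))) -
      (L : ℂ)⁻¹ * (∫ x, gf (deriv φ) L v s x) / (s - 1) := by
  obtain ⟨hψ, hψβ, hψB, -⟩ := big_psi hφ hβ hB
  have hL0 : 0 < L := by rw [hL]; exact Real.log_pos hT
  have hT0 : 0 < T := by linarith
  have hN1 : (1 : ℝ) ≤ N := (Real.one_le_rpow hT.le hB0).trans hN
  obtain ⟨f, hf⟩ : ∃ f : ℝ → ℂ, f = fun x : ℝ => ((φ (Real.log x / L + v) : ℝ) : ℂ) := ⟨_, rfl⟩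
  obtain ⟨g, hg⟩ : ∃ g : ℝ → ℂ, g = fun t : ℝ =>
    (((deriv φ (Real.log t / L + v)) * (t⁻¹ / L) : ℝ) : ℂ) := ⟨_, rfl⟩
  have hfd : ∀ x : ℝ, 0 < x → HasDerivAt f (g x) x := by
    intro x hx
    rw [hf, hg]
    exact big_der hφ L v hx
  have hgc : ContinuousOn g (Set.Icc (1 : ℝ) N) := by
    rw [hg]
    refine Complex.continuous_ofReal.comp_continuousOn ?_
    have h1 : ContinuousOn (fun t : ℝ => Real.log t / L + v) (Set.Icc (1 : ℝ) N) := by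
      refine ((Real.continuousOn_log.mono ?_).div_const L).add continuousOn_const
      intro t ht
      have := ht.1
      exact (by linarith : (0 : ℝ) < t).ne'
    refine (hψ.continuous.comp_continuousOn h1).mul ?_
    refine ContinuousOn.div_const ?_ L
    exact continuousOn_inv₀.mono fun t ht => (lt_of_lt_of_le one_pos ht.1).ne'
  have hderiv : ∀ t ∈ Set.Icc (1 : ℝ) N, deriv f t = g t := fun t ht =>
    (hfd t (lt_of_lt_of_le one_pos ht.1)).deriv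
  have hgi : IntegrableOn g (Set.Icc (1 : ℝ) N) := hgc.integrableOn_compact isCompact_Icc
  have hdi : IntegrableOn (deriv f) (Set.Icc (1 : ℝ) N) :=
    hgi.congr_fun (fun t ht => (hderiv t ht).symm) measurableSet_Icc
  have habel := sum_mul_eq_sub_integral_mul₀' (fun k : ℕ => (k : ℂ) ^ (-s)) (f := f)
    (by simp [hs0]) N
    (fun t ht => (hfd t (lt_of_lt_of_le one_pos ht.1)).differentiableAt) hdi
  have hfN : f N = 0 := by
    rw [hf]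
    have h6 : B * L ≤ Real.log N := by
      rw [hL, ← Real.log_rpow hT0]
      exact Real.log_le_log (Real.rpow_pos_of_pos hT0 _) hN
    have h7 : B ≤ Real.log N / L := (le_div_iff₀ hL0).2 h6
    show ((φ (Real.log N / L + v) : ℝ) : ℂ) = 0
    rw [hB _ (by linarith), Complex.ofReal_zero]
  have hf1 : f 1 = 1 := by
    rw [hf]
    show ((φ (Real.log 1 / L + v) : ℝ) : ℂ) = 1
    rw [Real.log_one, zero_div, zero_add, hβ _ hv, Complex.ofReal_one]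
  rw [hfN, zero_mul, zero_sub] at habel
  have hsum : ∑ k ∈ Icc 0 N, f k * (k : ℂ) ^ (-s) =
      ∑ n ∈ Icc 1 N, ((φ (Real.log n / L + v) : ℝ) : ℂ) * (n : ℂ) ^ (-s) := by
    rw [← Finset.insert_Icc_add_one_left_eq_Icc (Nat.zero_le _), Finset.sum_insert (by simp)]
    have hc0 : ((0 : ℕ) : ℂ) ^ (-s) = 0 := by
      rw [Nat.cast_zero, Complex.zero_cpow (neg_ne_zero.2 hs0)]
    rw [hc0, mul_zero, zero_add, zero_add, hf]
  rw [hsum] at habel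
  rw [habel]
  have hI1 : ∫ t in Set.Ioc (1 : ℝ) N, g t = -1 := by
    rw [← intervalIntegral.integral_of_le hN1]
    have h8 := intervalIntegral.integral_eq_sub_of_hasDerivAt (a := (1 : ℝ)) (b := N) (f := f)
      (f' := g) (fun x hx => ?_) ?_
    · rw [h8, hfN, hf1, zero_sub]
    · rw [Set.uIcc_of_le hN1] at hx
      exact hfd x (lt_of_lt_of_le one_pos hx.1)
    · exact (intervalIntegrable_iff_integrableOn_Icc_of_le hN1).2 hgi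
  have hI2 : ∫ t in Set.Ioc (1 : ℝ) N, g t * (t : ℂ) ^ (1 - s) =
      (L : ℂ)⁻¹ * ∫ x, gf (deriv φ) L v s x := by
    rw [hg]
    exact big_gf hψβ hψB hT hL hv0 hv hN s
  have hIS : IntegrableOn (fun t => g t * ∑ k ∈ Icc 0 ⌊t⌋₊, (k : ℂ) ^ (-s))
      (Set.Ioc (1 : ℝ) N) :=
    (integrableOn_mul_sum_Icc (fun k : ℕ => (k : ℂ) ^ (-s)) zero_le_one hgi).mono_set
      Set.Ioc_subset_Icc_self
  have hIz : IntegrableOn (fun t => g t * riemannZeta s) (Set.Ioc (1 : ℝ) N) :=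
    Integrable.mul_const (hgi.mono_set Set.Ioc_subset_Icc_self) _
  have hIp : IntegrableOn (fun t => g t * ((t : ℂ) ^ (1 - s) / (s - 1))) (Set.Ioc (1 : ℝ) N) := by
    refine IntegrableOn.mono_set ?_ Set.Ioc_subset_Icc_self
    have hpc : ContinuousOn (fun t : ℝ => (t : ℂ) ^ (1 - s)) (Set.Icc (1 : ℝ) N) := by
      intro t ht
      have ht0 : 0 < t := lt_of_lt_of_le one_pos ht.1
      exact (Complex.continuousAt_ofReal_cpow_const t (1 - s) (Or.inr ht0.ne')).continuousWithinAt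
    have hpc2 : ContinuousOn (fun t : ℝ => g t * ((t : ℂ) ^ (1 - s) / (s - 1)))
        (Set.Icc (1 : ℝ) N) := hgc.mul (hpc.div_const _)
    exact hpc2.integrableOn_compact isCompact_Icc
  have h9 : ∫ t in Set.Ioc (1 : ℝ) N, deriv f t * ∑ k ∈ Icc 0 ⌊t⌋₊, (k : ℂ) ^ (-s) =
      ∫ t in Set.Ioc (1 : ℝ) N, g t * ∑ k ∈ Icc 0 ⌊t⌋₊, (k : ℂ) ^ (-s) := by
    refine setIntegral_congr_fun measurableSet_Ioc fun t ht => ?_
    show deriv f t * ∑ k ∈ Icc 0 ⌊t⌋₊, (k : ℂ) ^ (-s) = g t * ∑ k ∈ Icc 0 ⌊t⌋₊, (k : ℂ) ^ (-s)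
    rw [hderiv t ⟨ht.1.le, ht.2⟩]
  have h10 : ∫ t in Set.Ioc (1 : ℝ) N, g t *
        (∑ k ∈ Icc 0 ⌊t⌋₊, (k : ℂ) ^ (-s) - riemannZeta s + (t : ℂ) ^ (1 - s) / (s - 1)) =
      (∫ t in Set.Ioc (1 : ℝ) N, g t * ∑ k ∈ Icc 0 ⌊t⌋₊, (k : ℂ) ^ (-s)) -
      (∫ t in Set.Ioc (1 : ℝ) N, g t * riemannZeta s) +
      ∫ t in Set.Ioc (1 : ℝ) N, g t * ((t : ℂ) ^ (1 - s) / (s - 1)) := by
    have hISz : Integrable (fun t => g t * ∑ k ∈ Icc 0 ⌊t⌋₊, (k : ℂ) ^ (-s) -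
        g t * riemannZeta s) (volume.restrict (Set.Ioc (1 : ℝ) N)) := hIS.sub hIz
    rw [← integral_sub hIS hIz, ← integral_add hISz hIp]
    refine setIntegral_congr_fun measurableSet_Ioc fun t _ => ?_
    show g t * (∑ k ∈ Icc 0 ⌊t⌋₊, (k : ℂ) ^ (-s) - riemannZeta s + (t : ℂ) ^ (1 - s) / (s - 1)) =
      g t * (∑ k ∈ Icc 0 ⌊t⌋₊, (k : ℂ) ^ (-s)) - g t * riemannZeta s +
        g t * ((t : ℂ) ^ (1 - s) / (s - 1))
    ring
  have h11 : ∫ t in Set.Ioc (1 : ℝ) N, g t * ((t : ℂ) ^ (1 - s) / (s - 1)) =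
      ((L : ℂ)⁻¹ * ∫ x, gf (deriv φ) L v s x) / (s - 1) := by
    rw [← hI2, ← integral_div]
    refine setIntegral_congr_fun measurableSet_Ioc fun t _ => ?_
    show g t * ((t : ℂ) ^ (1 - s) / (s - 1)) = g t * (t : ℂ) ^ (1 - s) / (s - 1)
    rw [mul_div_assoc]
  have h12 : ∫ t in Set.Ioc (1 : ℝ) N, g t * riemannZeta s = -riemannZeta s := by
    rw [integral_mul_const, hI1]
    ring
  have h13 : ∫ t in Set.Ioc (1 : ℝ) N, (((deriv φ (Real.log t / L + v)) * (t⁻¹ / L) : ℝ) : ℂ) *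
        (∑ k ∈ Icc 0 ⌊t⌋₊, (k : ℂ) ^ (-s) - riemannZeta s + (t : ℂ) ^ (1 - s) / (s - 1)) =
      ∫ t in Set.Ioc (1 : ℝ) N, g t *
        (∑ k ∈ Icc 0 ⌊t⌋₊, (k : ℂ) ^ (-s) - riemannZeta s + (t : ℂ) ^ (1 - s) / (s - 1)) := by
    rw [hg]
  rw [h13, h10, h11, h12, h9]
  ring

private theorem big_I3 {ψ : ℝ → ℝ} {β L v v1 T C M : ℝ} (hψβ : ∀ u ≤ β, ψ u = 0)
    (hM : 0 ≤ M) (hψM : ∀ u, |ψ u| ≤ M) (hT : 3 ≤ T) (hL : L = Real.log T) (hv : v ≤ v1)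
    (A : ℕ) (hA : 16 * ((A : ℝ) + 3) ≤ β - v1) (hC : 0 < C) {s : ℂ} (hs : 1 / 16 ≤ s.re)
    {E : ℝ → ℂ} (hE : ∀ x : ℝ, 1 ≤ x → ‖E x‖ ≤ C * ‖s‖ * x ^ (-s.re)) (N : ℕ) :
    ‖∫ t in Set.Ioc (1 : ℝ) N, (((ψ (Real.log t / L + v)) * (t⁻¹ / L) : ℝ) : ℂ) * E t‖ ≤
      16 * (M * (C * ‖s‖)) * (T ^ (A + 3))⁻¹ := by
  have hT0 : 0 < T := by linarith
  have hL1 : 1 ≤ L := by
    rw [hL, Real.le_log_iff_exp_le hT0]
    linarith [Real.exp_one_lt_d9]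
  have hL0 : 0 < L := by linarith
  obtain ⟨c, hc⟩ : ∃ c : ℝ, c = T ^ (β - v1) := ⟨_, rfl⟩
  have hc0 : 0 < c := by rw [hc]; exact Real.rpow_pos_of_pos hT0 _
  obtain ⟨K, hK⟩ : ∃ K : ℝ, K = M * (C * ‖s‖) := ⟨_, rfl⟩
  have hK0 : 0 ≤ K := by rw [hK]; positivity
  have hσ : -s.re - 1 < -1 := by linarith
  have hgi : Integrable (Set.indicator (Set.Ioi c) fun t : ℝ => K * t ^ (-s.re - 1)) := by
    rw [integrable_indicator_iff measurableSet_Ioi]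
    exact Integrable.const_mul (integrableOn_Ioi_rpow_of_lt hσ hc0) K
  have hbd : ∀ t ∈ Set.Ioc (1 : ℝ) N,
      ‖(((ψ (Real.log t / L + v)) * (t⁻¹ / L) : ℝ) : ℂ) * E t‖ ≤
      Set.indicator (Set.Ioi c) (fun t : ℝ => K * t ^ (-s.re - 1)) t := by
    intro t ht
    have ht0 : 0 < t := lt_trans one_pos ht.1
    by_cases htc : t ∈ Set.Ioi c
    · rw [Set.indicator_of_mem htc, norm_mul, Complex.norm_real, Real.norm_eq_abs, abs_mul]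
      have h2 : |t⁻¹ / L| ≤ t⁻¹ := by
        rw [abs_of_pos (by positivity)]
        exact div_le_self (by positivity) hL1
      have h3 : |ψ (Real.log t / L + v)| * |t⁻¹ / L| ≤ M * t⁻¹ :=
        mul_le_mul (hψM _) h2 (abs_nonneg _) hM
      have h4 := hE t ht.1.le
      have h5 : t ^ (-s.re - 1) = t ^ (-s.re) * t⁻¹ := by
        rw [Real.rpow_sub ht0, Real.rpow_one, div_eq_mul_inv]
      rw [h5, hK]
      calc |ψ (Real.log t / L + v)| * |t⁻¹ / L| * ‖E t‖ ≤ M * t⁻¹ * (C * ‖s‖ * t ^ (-s.re)) :=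
            mul_le_mul h3 h4 (norm_nonneg _) (by positivity)
        _ = _ := by ring
    · rw [Set.indicator_of_notMem htc]
      rw [Set.mem_Ioi, not_lt] at htc
      have h6 : Real.log t ≤ (β - v1) * L := by
        rw [hL, ← Real.log_rpow hT0, ← hc]
        exact Real.log_le_log ht0 htc
      have h7 : Real.log t / L ≤ β - v1 := (div_le_iff₀ hL0).2 h6
      have h8 : ψ (Real.log t / L + v) = 0 := hψβ _ (by linarith)
      rw [h8, zero_mul, Complex.ofReal_zero, zero_mul, norm_zero]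
  have h9 : ‖∫ t in Set.Ioc (1 : ℝ) N, (((ψ (Real.log t / L + v)) * (t⁻¹ / L) : ℝ) : ℂ) * E t‖ ≤
      ∫ t in Set.Ioc (1 : ℝ) N, Set.indicator (Set.Ioi c) (fun t : ℝ => K * t ^ (-s.re - 1)) t :=
    norm_integral_le_of_norm_le hgi.integrableOn
      ((ae_restrict_iff' measurableSet_Ioc).2 (ae_of_all _ hbd))
  have h10 : ∫ t in Set.Ioc (1 : ℝ) N, Set.indicator (Set.Ioi c)
      (fun t : ℝ => K * t ^ (-s.re - 1)) t ≤
      ∫ t, Set.indicator (Set.Ioi c) (fun t : ℝ => K * t ^ (-s.re - 1)) t := by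
    refine setIntegral_le_integral hgi (ae_of_all _ fun t => ?_)
    show (0 : ℝ) ≤ Set.indicator (Set.Ioi c) (fun t : ℝ => K * t ^ (-s.re - 1)) t
    refine Set.indicator_nonneg (fun x hx => ?_) t
    have : 0 < x := lt_trans hc0 hx
    positivity
  have h11 : ∫ t, Set.indicator (Set.Ioi c) (fun t : ℝ => K * t ^ (-s.re - 1)) t =
      K * (c ^ (-s.re) / s.re) := by
    rw [integral_indicator measurableSet_Ioi, integral_const_mul, integral_Ioi_rpow_of_lt hσ hc0]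
    rw [sub_add_cancel]
    rw [neg_div_neg_eq]
  have h12 : c ^ (-s.re) ≤ (T ^ (A + 3))⁻¹ := by
    rw [hc, ← Real.rpow_mul hT0.le, ← Real.rpow_natCast, ← Real.rpow_neg hT0.le]
    apply Real.rpow_le_rpow_of_exponent_le (by linarith)
    push_cast
    have h13 : (β - v1) * (1 / 16) ≤ (β - v1) * s.re := by
      refine mul_le_mul_of_nonneg_left hs ?_
      have : (0 : ℝ) ≤ A := Nat.cast_nonneg A
      linarith
    linarith
  have h13 : c ^ (-s.re) / s.re ≤ 16 * (T ^ (A + 3))⁻¹ := by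
    have h14 : 0 < s.re := by linarith
    rw [div_le_iff₀ h14]
    have h15 : 0 ≤ (T ^ (A + 3))⁻¹ := by positivity
    nlinarith
  rw [h11] at h10
  refine h9.trans (h10.trans ?_)
  rw [← hK]
  calc K * (c ^ (-s.re) / s.re) ≤ K * (16 * (T ^ (A + 3))⁻¹) := mul_le_mul_of_nonneg_left h13 hK0
    _ = _ := by ring

theorem big (φ : ℝ → ℝ) (hφ : ContDiff ℝ (⊤ : ℕ∞) φ) (β B v1 : ℝ) (h0 : 0 ≤ v1) (A : ℕ)
    (h1 : 16 * ((A : ℝ) + 3) ≤ β - v1) (hβ : ∀ u ≤ β, φ u = 1) (hB : ∀ u, B ≤ u → φ u = 0) :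
    ∃ T0 : ℝ, 3 ≤ T0 ∧ ∀ T : ℝ, T0 ≤ T → ∀ v : ℝ, 0 ≤ v → v ≤ v1 → ∀ N : ℕ, T ^ B ≤ N →
      ∀ s : ℂ, 1 / 16 ≤ s.re → s.re ≤ 4 → T / 64 ≤ s.im → s.im ≤ 64 * T →
        ‖riemannZeta s - Dp (fun _ => 1) (fun u => φ (u + v)) T N s‖ ≤ T ^ (-(A : ℝ)) := by
  obtain ⟨hψ, hψβ, hψB, M, hM, hψM⟩ := big_psi hφ hβ hB
  have hA0 : (0 : ℝ) ≤ A := Nat.cast_nonneg A
  have hβB : β < B := by
    by_contra h
    push Not at h
    have h2 := hβ β le_rfl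
    rw [hB β h] at h2
    exact zero_ne_one h2
  have hB0 : 0 ≤ B := by linarith
  obtain ⟨A2, hA2⟩ : ∃ A2 : ℕ, A2 = A + ⌈|B|⌉₊ + 2 := ⟨_, rfl⟩
  obtain ⟨C2, hC2, hint⟩ := int0 (deriv φ) hψ β B hψβ hψB A2
  obtain ⟨C0, hC0, hz⟩ := zfo
  obtain ⟨K2, hK2⟩ : ∃ K2 : ℝ, K2 = C2 * 64 ^ A2 := ⟨_, rfl⟩
  obtain ⟨K3, hK3⟩ : ∃ K3 : ℝ, K3 = 16 * (M * (16 * (C0 + 1) * 68)) := ⟨_, rfl⟩
  have hK20 : 0 ≤ K2 := by rw [hK2]; positivity
  have hK30 : 0 ≤ K3 := by rw [hK3]; positivity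
  refine ⟨64 + 2 * K2 + 2 * K3, by linarith, ?_⟩
  intro T hT v hv0 hv N hN s hs hs4 him1 him2
  have hT64 : 64 ≤ T := by linarith
  have hT0 : 0 < T := by linarith
  have him : 1 ≤ s.im := by linarith
  have hs0 : s ≠ 0 := by
    intro h
    rw [h, Complex.zero_im] at him
    linarith
  have hs1 : s - 1 ≠ 0 := by
    intro h
    have := congrArg Complex.im h
    rw [Complex.sub_im, Complex.one_im, Complex.zero_im] at this
    linarith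
  obtain ⟨L, hL⟩ : ∃ L : ℝ, L = Real.log T := ⟨_, rfl⟩
  have hL1 : 1 ≤ L := by
    rw [hL, Real.le_log_iff_exp_le hT0]
    linarith [Real.exp_one_lt_d9]
  have hL0 : 0 < L := by linarith
  have hDp : Dp (fun _ => 1) (fun u => φ (u + v)) T N s =
      ∑ n ∈ Icc 1 N, ((φ (Real.log n / L + v) : ℝ) : ℂ) * (n : ℂ) ^ (-s) := by
    unfold Dp
    rw [← hL]
    refine Finset.sum_congr rfl fun n _ => ?_
    rw [one_mul]
  have hvβ : v ≤ β := by linarith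
  rw [hDp, big_id hφ hβ hB (by linarith : 1 < T) hL hB0 hv0 hvβ hN hs0 hs1]
  -- the two bounds
  have hE := fun (x : ℝ) (hx : 1 ≤ x) =>
    big_E hC0 hs hs4 him (fun N hN => hz s hs hs4 him N hN) hx
  have hI3 := big_I3 (ψ := deriv φ) (T := T) hψβ hM hψM (by linarith) hL hv A h1
    (by positivity : 0 < 16 * (C0 + 1)) hs hE N
  have hsn : ‖s‖ ≤ 68 * T := by
    have h2 := Complex.norm_le_abs_re_add_abs_im s
    rw [abs_of_nonneg (by linarith : 0 ≤ s.re), abs_of_nonneg (by linarith : 0 ≤ s.im)] at h2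
    linarith
  have hTA : 0 < T ^ A := by positivity
  have h3 : 16 * (M * (16 * (C0 + 1) * ‖s‖)) * (T ^ (A + 3))⁻¹ ≤ 1 / 2 * (T ^ A)⁻¹ := by
    have h4 : 16 * (M * (16 * (C0 + 1) * ‖s‖)) ≤ K3 * T := by
      rw [hK3]
      have h5 : 16 * (M * (16 * (C0 + 1) * ‖s‖)) ≤ 16 * (M * (16 * (C0 + 1) * (68 * T))) := by
        gcongr
      refine h5.trans (le_of_eq ?_)
      ring
    have h6 : K3 * T ≤ 1 / 2 * T ^ 3 := by
      have h7 : K3 ≤ 1 / 2 * T := by linarith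
      have h8 : T * T ≤ T ^ 3 := by nlinarith
      nlinarith
    have h9 : (T ^ (A + 3))⁻¹ = (T ^ A)⁻¹ * (T ^ 3)⁻¹ := by rw [pow_add, mul_inv]
    rw [h9]
    calc 16 * (M * (16 * (C0 + 1) * ‖s‖)) * ((T ^ A)⁻¹ * (T ^ 3)⁻¹)
        ≤ 1 / 2 * T ^ 3 * ((T ^ A)⁻¹ * (T ^ 3)⁻¹) :=
          mul_le_mul_of_nonneg_right (h4.trans h6) (by positivity)
      _ = 1 / 2 * (T ^ A)⁻¹ := by field_simp
  have h4 : ‖(L : ℂ)⁻¹ * (∫ x, gf (deriv φ) L v s x) / (s - 1)‖ ≤ 1 / 2 * (T ^ A)⁻¹ := by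
    have h5 := hint L v hL1 hv0 (by linarith) s (by linarith)
      (by rw [abs_of_nonneg (by linarith : 0 ≤ s.im)]; exact him)
    rw [abs_of_nonneg (by linarith : 0 ≤ s.im)] at h5
    have h6 : 1 ≤ ‖s - 1‖ := by
      have h7 := Complex.abs_im_le_norm (s - 1)
      rw [Complex.sub_im, Complex.one_im, sub_zero, abs_of_nonneg (by linarith : 0 ≤ s.im)] at h7
      linarith
    have h7 : Real.exp (L * |B|) ≤ T ^ ⌈|B|⌉₊ := by
      rw [hL, mul_comm, ← Real.rpow_natCast, ← Real.exp_log hT0, ← Real.exp_mul, Real.exp_log hT0]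
      apply Real.exp_le_exp.2
      rw [mul_comm]
      refine mul_le_mul_of_nonneg_left (Nat.le_ceil _) ?_
      rw [← hL]
      exact hL0.le
    have h8 : (s.im ^ A2)⁻¹ ≤ 64 ^ A2 * (T ^ A2)⁻¹ := by
      have h9 : (T / 64) ^ A2 ≤ s.im ^ A2 := pow_le_pow_left₀ (by positivity) him1 A2
      have h10 : 64 ^ A2 * (T ^ A2)⁻¹ = ((T / 64) ^ A2)⁻¹ := by
        rw [div_pow, inv_div, div_eq_mul_inv]
      rw [h10]
      exact inv_anti₀ (by positivity) h9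
    have h9 : T ^ A2 = T ^ A * T ^ ⌈|B|⌉₊ * T ^ 2 := by rw [hA2, pow_add, pow_add]
    have h10 : ‖∫ x, gf (deriv φ) L v s x‖ ≤ L * (1 / 2 * (T ^ A)⁻¹) := by
      refine h5.trans ?_
      have h11 : C2 * L * (s.im ^ A2)⁻¹ * Real.exp (L * |B|) ≤
          C2 * L * (64 ^ A2 * (T ^ A2)⁻¹) * T ^ ⌈|B|⌉₊ := by
        gcongr
      refine h11.trans ?_
      have h12 : C2 * L * (64 ^ A2 * (T ^ A2)⁻¹) * T ^ ⌈|B|⌉₊ =
          L * (K2 * (T ^ 2)⁻¹ * (T ^ A)⁻¹) := by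
        rw [h9, hK2]
        field_simp
      rw [h12]
      refine mul_le_mul_of_nonneg_left ?_ hL0.le
      refine mul_le_mul_of_nonneg_right ?_ (by positivity)
      rw [← div_eq_mul_inv, div_le_iff₀ (by positivity)]
      have h13 : K2 ≤ 1 / 2 * T := by linarith
      have h14 : T ≤ T ^ 2 := by nlinarith
      linarith
    rw [norm_div, norm_mul, norm_inv, Complex.norm_real, Real.norm_eq_abs, abs_of_pos hL0]
    have h11 : L⁻¹ * ‖∫ x, gf (deriv φ) L v s x‖ ≤ 1 / 2 * (T ^ A)⁻¹ := by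
      rw [inv_mul_le_iff₀ hL0]
      exact h10
    refine (div_le_self (by positivity) h6).trans h11
  have h5 : T ^ (-(A : ℝ)) = (T ^ A)⁻¹ := by rw [Real.rpow_neg hT0.le, Real.rpow_natCast]
  rw [h5]
  refine (norm_sub_le _ _).trans ?_
  have h6 := hI3.trans h3
  linarith

end Pool.Agent.H48.WN
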