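import Pool.Agent.H48.WN.Gfe

/-!
# [H48 WN LLN] reflection of `ζ'/ζ` from the right line to the left line

PROOF. Let `s = (1/2 + d) + iτ`, `τ ≥ T0 + 1`. From `ζ(1-z) = GG z ζ(z)` for `z` near `s` (`gfe` holds in a neighbourhood of `s`: for
`0 < d ≤ 1/8` the conditions `1/2 ≤ Re z ≤ 3/4`, `Im z ≥ T0` are satisfied near `s`) differentiate:
`-ζ'(1-s) = GG'(s) ζ(s) + GG(s) ζ'(s)`, divide by `ζ(1-s) = GG(s) ζ(s) ≠ 0`: `ζ'/ζ(1-s) = -(logDeriv GG s + ζ'/ζ(s))`.
Conjugation: `ζ(conj z) = conj ζ(z)` and `ζ'(conj z) = conj ζ'(z)` (Mathlib: `riemannZeta_conj`-type lemma, or: both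
sides are analytic off `1` and agree for `Re z > 1` by the series; see also `Pool/Agent/H2/Gap/Conj.lean`,
`Pool/Agent/H49/ZM/Co.lean`). The point on the left line at height `τ` is `(1/2 - d) + iτ = conj(1 - s)`. So
`ζ'/ζ((1/2-d)+iτ) = -conj(logDeriv GG s + ζ'/ζ(s))` and `‖ζ((1/2-d)+iτ)‖ = ‖GG s‖ ‖ζ(s)‖ ≥ ‖ζ(s)‖`.
-/

set_option autoImplicit false

namespace Pool.Agent.H48.WN

open Complex MeasureTheory Finset

private theorem lln_dz (z : ℂ) :
    deriv riemannZeta ((starRingEnd ℂ) z) = (starRingEnd ℂ) (deriv riemannZeta z) := by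
  have h1 : (starRingEnd ℂ) ∘ riemannZeta ∘ (starRingEnd ℂ) = riemannZeta := by
    funext z
    simp only [Function.comp_apply]
    rw [riemannZeta_conj, Complex.conj_conj]
  have h2 := congrFun (deriv_conj_conj (𝕜 := ℂ) (f := riemannZeta)) ((starRingEnd ℂ) z)
  rw [h1, Function.comp_apply, Function.comp_apply, Complex.conj_conj] at h2
  exact h2

theorem lln : ∃ T0 C : ℝ, 10 ≤ T0 ∧ 0 < C ∧ ∀ d τ : ℝ, 0 < d → d ≤ 1 / 8 → T0 ≤ τ →
    riemannZeta ((1 / 2 + d : ℝ) + (τ : ℂ) * I) ≠ 0 →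
    ‖riemannZeta ((1 / 2 + d : ℝ) + (τ : ℂ) * I)‖ ≤ ‖riemannZeta ((1 / 2 - d : ℝ) + (τ : ℂ) * I)‖ ∧
    ∃ g : ℂ, ‖g‖ ≤ C ∧
      deriv riemannZeta ((1 / 2 - d : ℝ) + (τ : ℂ) * I) / riemannZeta ((1 / 2 - d : ℝ) + (τ : ℂ) * I) =
        -((Real.log τ : ℝ) : ℂ) + g -
        (starRingEnd ℂ) (deriv riemannZeta ((1 / 2 + d : ℝ) + (τ : ℂ) * I) /
          riemannZeta ((1 / 2 + d : ℝ) + (τ : ℂ) * I)) := by
  obtain ⟨T0, C, hT0, hC, H⟩ := gfe
  refine ⟨T0 + 1, C, by linarith, hC, ?_⟩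
  intro d τ hd hd1 hτ hne
  obtain ⟨s, hs⟩ : ∃ s : ℂ, s = (1 / 2 + d : ℝ) + (τ : ℂ) * I := ⟨_, rfl⟩
  have hre : s.re = 1 / 2 + d := by rw [hs]; simp
  have him : s.im = τ := by rw [hs]; simp
  have hu : ((1 / 2 - d : ℝ) : ℂ) + (τ : ℂ) * I = (starRingEnd ℂ) (1 - s) := by
    apply Complex.ext
    · rw [Complex.conj_re, Complex.sub_re, hre, Complex.one_re]
      simp
      ring
    · rw [Complex.conj_im, Complex.sub_im, him, Complex.one_im]
      simp
  rw [← hs] at hne ⊢
  rw [hu]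
  obtain ⟨e1, e2, e3, e4⟩ := H s (by linarith) (by linarith) (by linarith)
  have hG0 : GG s ≠ 0 := by
    intro h
    rw [h, norm_zero] at e2
    linarith
  have hs1 : s ≠ 1 := by
    intro h
    rw [h, Complex.one_im] at him
    linarith
  have hw1 : 1 - s ≠ 1 := by
    intro h
    have h1 := congrArg Complex.im h
    rw [Complex.sub_im, Complex.one_im, him] at h1
    linarith
  -- the derivative of the functional equation
  have hev : (fun z => riemannZeta (1 - z)) =ᶠ[nhds s] fun z => GG z * riemannZeta z := by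
    have h1 : ∀ᶠ z in nhds s, 1 / 2 < z.re :=
      Complex.continuous_re.continuousAt.eventually_const_lt (by linarith)
    have h2 : ∀ᶠ z in nhds s, z.re < 3 / 4 :=
      Complex.continuous_re.continuousAt.eventually_lt_const (by linarith)
    have h3 : ∀ᶠ z in nhds s, T0 < z.im :=
      Complex.continuous_im.continuousAt.eventually_const_lt (by linarith)
    filter_upwards [h1, h2, h3] with z h1 h2 h3
    exact (H z h1.le h2.le h3.le).1
  have hd1 : HasDerivAt (fun z => riemannZeta (1 - z)) (deriv riemannZeta (1 - s) * (-1)) s := by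
    have h1 : HasDerivAt (fun z : ℂ => 1 - z) (-1) s := (hasDerivAt_id s).const_sub 1
    exact ((differentiableAt_riemannZeta hw1).hasDerivAt).comp s h1
  have hd2 : HasDerivAt (fun z => GG z * riemannZeta z)
      (deriv GG s * riemannZeta s + GG s * deriv riemannZeta s) s :=
    e3.hasDerivAt.mul (differentiableAt_riemannZeta hs1).hasDerivAt
  have hder : deriv riemannZeta (1 - s) * (-1) =
      deriv GG s * riemannZeta s + GG s * deriv riemannZeta s :=
    hd1.unique (hd2.congr_of_eventuallyEq hev)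
  have hq : deriv riemannZeta (1 - s) / riemannZeta (1 - s) =
      -(logDeriv GG s) - deriv riemannZeta s / riemannZeta s := by
    rw [e1, logDeriv_apply]
    have h1 : deriv riemannZeta (1 - s) =
        -(deriv GG s * riemannZeta s + GG s * deriv riemannZeta s) := by
      linear_combination -hder
    rw [h1]
    field_simp
    ring
  constructor
  · rw [riemannZeta_conj, Complex.norm_conj, e1, norm_mul]
    nlinarith [norm_nonneg (riemannZeta s)]
  · refine ⟨(starRingEnd ℂ) (((Real.log τ : ℝ) : ℂ) - logDeriv GG s), ?_, ?_⟩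
    · rw [Complex.norm_conj, norm_sub_rev]
      rw [him] at e4
      exact e4
    · rw [lln_dz, riemannZeta_conj, ← map_div₀, hq, map_sub, map_sub, map_neg, Complex.conj_ofReal]
      ring

end Pool.Agent.H48.WN
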