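import Pool.Agent.H48.WN.Rln
import Pool.Agent.H48.WN.Lln

/-!
# [H48 WN CNT] at a good height `Q + ζ'/ζ` is large on the two lines

PROOF. `L = log T`, `R = L^2`, `k±(y) = cexp((±d + iy)^2)`, `s±(y) = 1/2 ± d + i(t0+y)`. `k-(y) = conj k+(y)`, `|k±| = e^(d^2-y^2) ≤ 2 e^(-y^2)`.
(1) `rct` for `q = Q`, `x1 = 1/2 - d ≥ 1/4`, `x2 = 1/2 + d`: `|int k- Q(s-) - int k+ Q(s+)| ≤ 40 e^(-L^4) T^C0 ≤ 1`.
(2) `rln`: `|int k+ (ζ'/ζ)(s+)| ≤ C`. (3) `lln` at `τ = t0 + y`: `int k- (ζ'/ζ)(s-) = - int k- log(t0+y) dy + int k- g dy -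
conj(int k+ (ζ'/ζ)(s+))` (`k- conj(X) = conj(k+ X)`); the second is `≤ 4C`, the third `≤ C`. The first: `int_{-R}^R k- dy`
differs from `sqrt π` by at most `1/10` for `T` large (`int_ℝ cexp((-d+iy)^2) dy = sqrt π`), and `log(t0+y) = log T + O(1)`.
So `|int k- (Q + ζ'/ζ)(s-) - int k+ (Q + ζ'/ζ)(s+)| ≥ 1.6 L - C' ≥ L` for `T ≥ T0`, and the left side is
`≤ 2 int e^(-y^2) (‖(Q+ζ'/ζ)(s+)‖ + ‖(Q+ζ'/ζ)(s-)‖) dy`. (All integrands are continuous on the segments: `ζ ≠ 0` on the right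
segment by hypothesis, on the left one by `lln`.)
-/

set_option autoImplicit false

namespace Pool.Agent.H48.WN

open Complex MeasureTheory Finset Filter Topology

private noncomputable def kk (e y : ℝ) : ℂ := cexp (((e : ℝ) + (y : ℂ) * I) ^ 2)

private lemma kk_cont (e : ℝ) : Continuous (kk e) := by
  unfold kk
  fun_prop

private lemma kk_norm (e y : ℝ) : ‖kk e y‖ = Real.exp (e ^ 2 - y ^ 2) := by
  unfold kk
  rw [Complex.norm_exp]
  congr 1
  have h : ((e : ℂ) + (y : ℂ) * I) ^ 2 = ((e ^ 2 - y ^ 2 : ℝ) : ℂ) + ((2 * e * y : ℝ) : ℂ) * I := by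
    push_cast
    have hI : I ^ 2 = -1 := Complex.I_sq
    linear_combination (y : ℂ) ^ 2 * hI
  rw [h, Complex.add_re, Complex.ofReal_re, Complex.re_ofReal_mul, Complex.I_re]
  ring

private lemma kk_le (e y : ℝ) (he : |e| ≤ 1 / 8) : ‖kk e y‖ ≤ 2 * Real.exp (-y ^ 2) := by
  rw [kk_norm, sub_eq_add_neg, Real.exp_add]
  refine mul_le_mul_of_nonneg_right ?_ (Real.exp_pos _).le
  have h1 : e ^ 2 ≤ 1 / 2 := by
    rw [← sq_abs]
    have := abs_nonneg e
    nlinarith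
  calc Real.exp (e ^ 2) ≤ Real.exp (1 / 2) := Real.exp_le_exp.2 h1
    _ ≤ 2 := by
      have h2 : Real.exp (1 / 2) ^ 2 = Real.exp 1 := by
        rw [← Real.exp_nat_mul]
        norm_num
      have h3 := Real.exp_one_lt_d9
      have h4 := Real.exp_pos (1 / 2 : ℝ)
      nlinarith

private lemma kk_conj (d y : ℝ) : kk (-d) y = (starRingEnd ℂ) (kk d y) := by
  unfold kk
  rw [← Complex.exp_conj]
  congr 1
  rw [map_pow, map_add, map_mul, conj_ofReal, conj_ofReal, conj_I]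
  push_cast
  ring

private lemma kk_int (e : ℝ) : Integrable (kk e) ∧ ∫ y, kk e y = ((Real.pi : ℂ)) ^ (1 / 2 : ℂ) := by
  have h1 : kk e = fun y : ℝ => cexp (-(1 : ℂ) * ((y : ℂ) + ((-e : ℝ) : ℂ) * I) ^ 2) := by
    funext y
    unfold kk
    congr 1
    push_cast
    have hI : I ^ 2 = -1 := Complex.I_sq
    linear_combination ((e : ℂ) ^ 2 + (y : ℂ) ^ 2) * hI
  rw [h1]
  constructor
  · exact GaussianFourier.integrable_cexp_neg_mul_sq_add_real_mul_I (by norm_num) (-e)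
  · rw [GaussianFourier.integral_cexp_neg_mul_sq_add_real_mul_I (by norm_num) (-e), div_one]

private lemma sqrt_pi_norm : (17 / 10 : ℝ) ≤ ‖((Real.pi : ℂ)) ^ (1 / 2 : ℂ)‖ := by
  have h1 : ((Real.pi : ℂ)) ^ (1 / 2 : ℂ) = ((Real.pi ^ (1 / 2 : ℝ) : ℝ) : ℂ) := by
    rw [Complex.ofReal_cpow Real.pi_pos.le]
    norm_num
  rw [h1, norm_real, Real.norm_of_nonneg (Real.rpow_nonneg Real.pi_pos.le _),
    ← Real.sqrt_eq_rpow]
  apply Real.le_sqrt_of_sq_le
  have := Real.pi_gt_three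
  norm_num
  linarith

private noncomputable def ga (y : ℝ) : ℝ := Real.exp (-y ^ 2)

private lemma ga_cont : Continuous ga := by
  unfold ga
  fun_prop

private lemma ga_pos (y : ℝ) : 0 < ga y := Real.exp_pos _

private lemma ga_int : Integrable ga := by
  have h := integrable_exp_neg_mul_sq (b := 1) one_pos
  unfold ga
  simpa using h

private lemma ga_val : ∫ y, ga y ≤ 2 := by
  have h := integral_gaussian 1
  have h1 : ∫ y, ga y = √(Real.pi / 1) := by
    rw [← h]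
    unfold ga
    congr 1
    funext y
    congr 1
    ring
  rw [h1, div_one]
  apply Real.sqrt_le_iff.2
  have := Real.pi_lt_four
  constructor
  · norm_num
  · linarith

/-- the tails -/
private lemma tail : ∀ᶠ R : ℝ in atTop, ∀ e : ℝ, |e| ≤ 1 / 8 →
    16 / 10 ≤ ‖∫ y in (-R)..R, kk e y‖ := by
  have h1 : Tendsto (fun R : ℝ => ∫ y in (-R)..R, ga y) atTop (𝓝 (∫ y, ga y)) :=
    intervalIntegral_tendsto_integral ga_int tendsto_neg_atTop_atBot tendsto_id
  have h2 : ∀ᶠ R : ℝ in atTop, (∫ y, ga y) - 1 / 20 < ∫ y in (-R)..R, ga y :=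
    h1.eventually_const_lt (by linarith)
  filter_upwards [h2, eventually_ge_atTop (0 : ℝ)] with R h3 hR e he
  obtain ⟨hi, hv⟩ := kk_int e
  have hle : -R ≤ R := by linarith
  have h4 : ‖(∫ y, kk e y) - ∫ y in (-R)..R, kk e y‖ ≤ 2 * ((∫ y, ga y) - ∫ y in (-R)..R, ga y) := by
    rw [intervalIntegral.integral_of_le hle, intervalIntegral.integral_of_le hle]
    have e1 : (∫ y, kk e y) - ∫ y in Set.Ioc (-R) R, kk e y = ∫ y in (Set.Ioc (-R) R)ᶜ, kk e y := by
      rw [sub_eq_iff_eq_add, add_comm]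
      exact (integral_add_compl measurableSet_Ioc hi).symm
    have e2 : (∫ y, ga y) - ∫ y in Set.Ioc (-R) R, ga y = ∫ y in (Set.Ioc (-R) R)ᶜ, ga y := by
      rw [sub_eq_iff_eq_add, add_comm]
      exact (integral_add_compl measurableSet_Ioc ga_int).symm
    rw [e1, e2, ← integral_const_mul]
    exact norm_integral_le_of_norm_le (ga_int.integrableOn.const_mul 2)
      (Filter.Eventually.of_forall fun y => kk_le e y he)
  have h5 : ‖∫ y, kk e y‖ ≤ ‖(∫ y, kk e y) - ∫ y in (-R)..R, kk e y‖ + ‖∫ y in (-R)..R, kk e y‖ := by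
    have := norm_add_le ((∫ y, kk e y) - ∫ y in (-R)..R, kk e y) (∫ y in (-R)..R, kk e y)
    rwa [sub_add_cancel] at this
  rw [hv] at h4 h5
  have h6 := sqrt_pi_norm
  linarith

private lemma seg_cont (x t0 R : ℝ) (hne : ∀ y : ℝ, -R ≤ y → y ≤ R →
    ((x : ℂ) + ((t0 + y : ℝ) : ℂ) * I) ≠ 1 ∧ riemannZeta ((x : ℂ) + ((t0 + y : ℝ) : ℂ) * I) ≠ 0)
    (hR : 0 ≤ R) :
    ContinuousOn (fun y : ℝ => deriv riemannZeta ((x : ℂ) + ((t0 + y : ℝ) : ℂ) * I) /
      riemannZeta ((x : ℂ) + ((t0 + y : ℝ) : ℂ) * I)) (Set.uIcc (-R) R) := by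
  have hd : DifferentiableOn ℂ riemannZeta ({1}ᶜ : Set ℂ) := fun s hs =>
    (differentiableAt_riemannZeta hs).differentiableWithinAt
  have hd2 : DifferentiableOn ℂ (deriv riemannZeta) ({1}ᶜ : Set ℂ) :=
    hd.deriv isOpen_compl_singleton
  intro y hy
  rw [Set.uIcc_of_le (by linarith)] at hy
  obtain ⟨h1, h2⟩ := hne y hy.1 hy.2
  have hc : ContinuousAt (fun y : ℝ => (x : ℂ) + ((t0 + y : ℝ) : ℂ) * I) y := by
    have : Continuous (fun y : ℝ => (x : ℂ) + ((t0 + y : ℝ) : ℂ) * I) := by fun_prop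
    exact this.continuousAt
  have ha : ContinuousAt (fun s : ℂ => deriv riemannZeta s / riemannZeta s)
      ((x : ℂ) + ((t0 + y : ℝ) : ℂ) * I) :=
    ((hd2.differentiableAt (isOpen_compl_singleton.mem_nhds h1)).continuousAt).div
      (differentiableAt_riemannZeta h1).continuousAt h2
  exact (ContinuousAt.comp (f := fun y : ℝ => (x : ℂ) + ((t0 + y : ℝ) : ℂ) * I) ha
    hc).continuousWithinAt

private lemma conj_int (a b : ℝ) (hab : a ≤ b) (f : ℝ → ℂ) :
    ∫ y in a..b, (starRingEnd ℂ) (f y) = (starRingEnd ℂ) (∫ y in a..b, f y) := by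
  rw [intervalIntegral.integral_of_le hab, intervalIntegral.integral_of_le hab]
  exact integral_conj

theorem cnt (C0 : ℝ) : ∃ T0 : ℝ, 10 ≤ T0 ∧ ∀ T : ℝ, T0 ≤ T → ∀ d t0 : ℝ, 0 < d → d ≤ 1 / 8 → T ≤ t0 →
    t0 ≤ 2 * T → ∀ Q : ℂ → ℂ, Differentiable ℂ Q →
    (∀ s : ℂ, 1 / 4 ≤ s.re → s.re ≤ 3 / 4 → T / 2 ≤ s.im → s.im ≤ 3 * T → ‖Q s‖ ≤ T ^ C0) →
    (∀ s : ℂ, 1 / 2 + d ≤ s.re → s.re ≤ 2 → |s.im - t0| ≤ (Real.log T) ^ 2 →
      riemannZeta s ≠ 0 ∧ ‖deriv riemannZeta s / riemannZeta s‖ ≤ T ^ 3) →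
    Real.log T ≤ 2 * ∫ y in (-(Real.log T) ^ 2)..((Real.log T) ^ 2), Real.exp (-y ^ 2) *
      (‖Q ((1 / 2 + d : ℝ) + ((t0 + y : ℝ) : ℂ) * I) +
          deriv riemannZeta ((1 / 2 + d : ℝ) + ((t0 + y : ℝ) : ℂ) * I) /
            riemannZeta ((1 / 2 + d : ℝ) + ((t0 + y : ℝ) : ℂ) * I)‖ +
        ‖Q ((1 / 2 - d : ℝ) + ((t0 + y : ℝ) : ℂ) * I) +
          deriv riemannZeta ((1 / 2 - d : ℝ) + ((t0 + y : ℝ) : ℂ) * I) /
            riemannZeta ((1 / 2 - d : ℝ) + ((t0 + y : ℝ) : ℂ) * I)‖) := by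
  obtain ⟨C1, T1, hC1, hT1, hrln⟩ := rln
  obtain ⟨T2, C2, hT2, hC2, hlln⟩ := lln
  have hl : Tendsto Real.log atTop atTop := Real.tendsto_log_atTop
  have hl2 : Tendsto (fun T : ℝ => Real.log T ^ 2) atTop atTop :=
    (tendsto_pow_atTop (two_ne_zero)).comp hl
  have ev1 := hl2.eventually tail
  have ev2 : ∀ᶠ T : ℝ in atTop, Real.log T ^ 2 ≤ T / 2 := by
    have h6 : (fun X : ℝ => Real.log X ^ (2 : ℝ)) =o[atTop] fun X : ℝ => X ^ (1 : ℝ) :=
      isLittleO_log_rpow_rpow_atTop 2 one_pos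
    filter_upwards [h6.bound (show (0 : ℝ) < 1 / 2 by norm_num), eventually_ge_atTop (1 : ℝ)] with
      X hX hX1
    have h8 : 0 ≤ Real.log X := Real.log_nonneg hX1
    rw [Real.rpow_one, Real.rpow_two, Real.norm_of_nonneg (sq_nonneg _),
      Real.norm_of_nonneg (by linarith)] at hX
    linarith
  have ev3 : ∀ᶠ T : ℝ in atTop, 40 * Real.exp (-(Real.log T ^ 2) ^ 2) * T ^ C0 ≤ 1 := by
    filter_upwards [hl.eventually_ge_atTop (|C0| + 2), eventually_gt_atTop (0 : ℝ)] with T hT hT0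
    have h1 : T ^ C0 = Real.exp (Real.log T * C0) := Real.rpow_def_of_pos hT0 C0
    rw [h1, mul_assoc, ← Real.exp_add]
    have h0 : 2 ≤ Real.log T := by
      have := abs_nonneg C0
      linarith
    have h2 : -(Real.log T ^ 2) ^ 2 + Real.log T * C0 ≤ -4 := by
      have h3 : C0 ≤ |C0| := le_abs_self _
      have h4 : Real.log T * C0 ≤ Real.log T * (Real.log T - 2) :=
        mul_le_mul_of_nonneg_left (by linarith) (by linarith)
      have h5 : Real.log T ^ 2 * 4 ≤ Real.log T ^ 2 * Real.log T ^ 2 :=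
        mul_le_mul_of_nonneg_left (by nlinarith) (sq_nonneg _)
      nlinarith
    have h3 : Real.exp (-(Real.log T ^ 2) ^ 2 + Real.log T * C0) ≤ Real.exp (-4) :=
      Real.exp_le_exp.2 h2
    have h4 : Real.exp (-4 : ℝ) ≤ 1 / 40 := by
      have h5 : (2.7 : ℝ) < Real.exp 1 := by
        have := Real.exp_one_gt_d9
        linarith
      have h6 : Real.exp (4 : ℝ) = Real.exp 1 ^ 4 := by
        rw [← Real.exp_nat_mul]
        norm_num
      have h7 : (40 : ℝ) ≤ Real.exp 4 := by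
        rw [h6]
        calc (40 : ℝ) ≤ 2.7 ^ 4 := by norm_num
          _ ≤ _ := pow_le_pow_left₀ (by norm_num) h5.le 4
      rw [Real.exp_neg, inv_le_comm₀ (Real.exp_pos _) (by norm_num)]
      rw [one_div, inv_inv]
      exact h7
    linarith
  have ev4 : ∀ᶠ T : ℝ in atTop, 2 * (20 + 4 * C2 + 2 * C1) ≤ Real.log T :=
    hl.eventually_ge_atTop _
  obtain ⟨T3, hT3⟩ := eventually_atTop.1 (ev1.and (ev2.and (ev3.and ev4)))
  refine ⟨max (max T1 (2 * T2)) (max T3 10), le_max_of_le_right (le_max_right _ _), ?_⟩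
  intro T hT d t0 hd hd8 ht0 ht02 Q hQ hQb hzb
  have hTT1 : T1 ≤ T := (le_max_left _ _).trans ((le_max_left _ _).trans hT)
  have hTT2 : 2 * T2 ≤ T := (le_max_right _ _).trans ((le_max_left _ _).trans hT)
  have hTT3 : T3 ≤ T := (le_max_left _ _).trans ((le_max_right _ _).trans hT)
  have hT10 : 10 ≤ T := (le_max_right _ _).trans ((le_max_right _ _).trans hT)
  obtain ⟨htail, hL2, hexp, hLbig⟩ := hT3 T hTT3
  have hlog1 : 1 ≤ Real.log T := by
    have : 1 ≤ 2 * (20 + 4 * C2 + 2 * C1) := by linarith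
    linarith
  obtain ⟨R, hR⟩ : ∃ R, R = Real.log T ^ 2 := ⟨_, rfl⟩
  have hR0 : 0 < R := by
    rw [hR]
    positivity
  have hneg : -(Real.log T) ^ 2 = -R := by rw [hR]
  have hrl := hrln T hTT1 d t0 hd hd8 ht0 ht02 hzb
  rw [hneg]
  rw [hneg] at hrl
  rw [← hR] at htail hL2 hexp hrl hzb ⊢
  have hle : -R ≤ R := by linarith
  -- abbreviations
  obtain ⟨sp, hsp⟩ : ∃ sp : ℝ → ℂ, sp = fun y => ((1 / 2 + d : ℝ) : ℂ) + ((t0 + y : ℝ) : ℂ) * I :=
    ⟨_, rfl⟩
  obtain ⟨sm, hsm⟩ : ∃ sm : ℝ → ℂ, sm = fun y => ((1 / 2 - d : ℝ) : ℂ) + ((t0 + y : ℝ) : ℂ) * I :=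
    ⟨_, rfl⟩
  obtain ⟨Z, hZ⟩ : ∃ Z : ℂ → ℂ, Z = fun s => deriv riemannZeta s / riemannZeta s := ⟨_, rfl⟩
  have hspre : ∀ y, (sp y).re = 1 / 2 + d := fun y => by rw [hsp]; simp
  have hspim : ∀ y, (sp y).im = t0 + y := fun y => by rw [hsp]; simp
  have hsmre : ∀ y, (sm y).re = 1 / 2 - d := fun y => by rw [hsm]; simp
  have hsmim : ∀ y, (sm y).im = t0 + y := fun y => by rw [hsm]; simp
  have hspz : ∀ y, -R ≤ y → y ≤ R → riemannZeta (sp y) ≠ 0 := fun y h1 h2 =>
    (hzb (sp y) (hspre y).ge (by rw [hspre]; linarith) (by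
      rw [hspim, add_sub_cancel_left, abs_le]
      exact ⟨h1, h2⟩)).1
  have hτ : ∀ y, -R ≤ y → y ≤ R → T / 2 ≤ t0 + y ∧ t0 + y ≤ 3 * T := fun y h1 h2 => by
    constructor <;> linarith
  have hll : ∀ y, -R ≤ y → y ≤ R → ‖riemannZeta (sp y)‖ ≤ ‖riemannZeta (sm y)‖ ∧
      ∃ g : ℂ, ‖g‖ ≤ C2 ∧ Z (sm y) = -((Real.log (t0 + y) : ℝ) : ℂ) + g -
        (starRingEnd ℂ) (Z (sp y)) := fun y h1 h2 => by
    have h3 := hspz y h1 h2
    rw [hsp] at h3 ⊢
    rw [hsm, hZ]
    have h4 := hlln d (t0 + y) hd hd8 (by have := (hτ y h1 h2).1; linarith)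
    exact h4 h3
  have hsmz : ∀ y, -R ≤ y → y ≤ R → riemannZeta (sm y) ≠ 0 := fun y h1 h2 => by
    have h3 := norm_pos_iff.2 (hspz y h1 h2)
    exact norm_pos_iff.1 (h3.trans_le (hll y h1 h2).1)
  have hne1 : ∀ s : ℂ, 0 < s.im → s ≠ 1 := by
    intro s hs h
    rw [h, one_im] at hs
    exact lt_irrefl _ hs
  have hZp : ContinuousOn (fun y => Z (sp y)) (Set.uIcc (-R) R) := by
    rw [hZ, hsp]
    refine seg_cont (1 / 2 + d) t0 R (fun y h1 h2 => ?_) hR0.le
    have h3 := hspz y h1 h2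
    have h4 := hspim y
    rw [hsp] at h3 h4
    refine ⟨hne1 _ ?_, h3⟩
    have h5 := (hτ y h1 h2).1
    linarith
  have hZm : ContinuousOn (fun y => Z (sm y)) (Set.uIcc (-R) R) := by
    rw [hZ, hsm]
    refine seg_cont (1 / 2 - d) t0 R (fun y h1 h2 => ?_) hR0.le
    have h3 := hsmz y h1 h2
    have h4 := hsmim y
    rw [hsm] at h3 h4
    refine ⟨hne1 _ ?_, h3⟩
    have h5 := (hτ y h1 h2).1
    linarith
  have hspc : Continuous sp := by rw [hsp]; fun_prop
  have hsmc : Continuous sm := by rw [hsm]; fun_prop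
  have hQp : Continuous (fun y => Q (sp y)) := hQ.continuous.comp hspc
  have hQm : Continuous (fun y => Q (sm y)) := hQ.continuous.comp hsmc
  have hkp := kk_cont d
  have hkm := kk_cont (-d)
  have hdabs : |d| ≤ 1 / 8 := by rw [abs_of_pos hd]; exact hd8
  have hdabs' : |(-d)| ≤ 1 / 8 := by rw [abs_neg]; exact hdabs
  -- (1)
  have h1 : ‖(∫ y in (-R)..R, kk (-d) y * Q (sm y)) - ∫ y in (-R)..R, kk d y * Q (sp y)‖ ≤ 1 := by
    have h2 := rct Q t0 R (1 / 2 - d) (1 / 2 + d) (T ^ C0) hR0 (by linarith) (by linarith)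
      (by linarith) (fun s h3 h4 h5 => ⟨hQ s, hQb s (by linarith) (by linarith) (by
        rw [abs_le] at h5
        linarith) (by
        rw [abs_le] at h5
        linarith)⟩)
    have e1 : ∀ y : ℝ, cexp (((1 / 2 - d - 1 / 2 : ℝ) + (y : ℂ) * I) ^ 2) = kk (-d) y := by
      intro y
      unfold kk
      congr 3
      push_cast
      ring
    have e2 : ∀ y : ℝ, cexp (((1 / 2 + d - 1 / 2 : ℝ) + (y : ℂ) * I) ^ 2) = kk d y := by
      intro y
      unfold kk
      congr 3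
      push_cast
      ring
    simp only [e1, e2] at h2
    rw [hsm, hsp]
    exact h2.trans hexp
  -- (2)
  have h2 : ‖∫ y in (-R)..R, kk d y * Z (sp y)‖ ≤ C1 := by
    rw [hZ, hsp]
    exact hrl
  -- integrability
  have iQm : IntervalIntegrable (fun y => kk (-d) y * Q (sm y)) volume (-R) R :=
    (hkm.mul hQm).intervalIntegrable _ _
  have iQp : IntervalIntegrable (fun y => kk d y * Q (sp y)) volume (-R) R :=
    (hkp.mul hQp).intervalIntegrable _ _
  have iZm : IntervalIntegrable (fun y => kk (-d) y * Z (sm y)) volume (-R) R :=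
    (hkm.continuousOn.mul hZm).intervalIntegrable
  have iZp : IntervalIntegrable (fun y => kk d y * Z (sp y)) volume (-R) R :=
    (hkp.continuousOn.mul hZp).intervalIntegrable
  have ik : IntervalIntegrable (fun y => kk (-d) y) volume (-R) R := hkm.intervalIntegrable _ _
  have hZpc : ContinuousOn (fun y => (starRingEnd ℂ) (Z (sp y))) (Set.uIcc (-R) R) :=
    continuous_conj.comp_continuousOn hZp
  have iZpc : IntervalIntegrable (fun y => kk (-d) y * (starRingEnd ℂ) (Z (sp y))) volume (-R) R :=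
    (hkm.continuousOn.mul hZpc).intervalIntegrable
  have iga : ∀ c : ℝ, IntervalIntegrable (fun y => 2 * ga y * c) volume (-R) R := fun c =>
    ((continuous_const.mul ga_cont).mul continuous_const).intervalIntegrable _ _
  -- (3)
  obtain ⟨G, hG⟩ : ∃ G : ℝ → ℂ, G = fun y => Z (sm y) + (Real.log T : ℂ) +
    (starRingEnd ℂ) (Z (sp y)) := ⟨_, rfl⟩
  have hGc : ContinuousOn G (Set.uIcc (-R) R) := by
    rw [hG]
    exact (hZm.add continuousOn_const).add hZpc
  have hGb : ∀ y, -R ≤ y → y ≤ R → ‖G y‖ ≤ C2 + 2 := by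
    intro y hy1 hy2
    obtain ⟨-, g, hg, hgz⟩ := hll y hy1 hy2
    have h3 := hτ y hy1 hy2
    have e : G y = g + ((Real.log T - Real.log (t0 + y) : ℝ) : ℂ) := by
      rw [hG]
      beta_reduce
      rw [hgz]
      push_cast
      ring
    rw [e]
    refine (norm_add_le _ _).trans (add_le_add hg ?_)
    rw [norm_real, Real.norm_eq_abs, abs_le]
    have hT0 : 0 < T := by linarith
    have h4 : Real.log (t0 + y) ≤ Real.log T + 2 := by
      have h5 : Real.log (t0 + y) ≤ Real.log (3 * T) := Real.log_le_log (by linarith) h3.2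
      rw [Real.log_mul (by norm_num) hT0.ne'] at h5
      have h6 : Real.log 3 ≤ 3 - 1 := Real.log_le_sub_one_of_pos (by norm_num)
      linarith
    have h5 : Real.log T - 2 ≤ Real.log (t0 + y) := by
      have h5 : Real.log (T / 2) ≤ Real.log (t0 + y) := Real.log_le_log (by linarith) h3.1
      rw [Real.log_div hT0.ne' (by norm_num)] at h5
      have h6 : Real.log 2 ≤ 2 - 1 := Real.log_le_sub_one_of_pos (by norm_num)
      linarith
    constructor <;> linarith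
  have iG : IntervalIntegrable (fun y => kk (-d) y * G y) volume (-R) R :=
    (hkm.continuousOn.mul hGc).intervalIntegrable
  have hgaR : ∫ y in (-R)..R, ga y ≤ 2 := by
    rw [intervalIntegral.integral_of_le hle]
    refine le_trans ?_ ga_val
    exact setIntegral_le_integral ga_int (Filter.Eventually.of_forall fun y => (ga_pos y).le)
  have h3 : ‖∫ y in (-R)..R, kk (-d) y * G y‖ ≤ 4 * (C2 + 2) := by
    have h4 : ‖∫ y in (-R)..R, kk (-d) y * G y‖ ≤ ∫ y in (-R)..R, 2 * ga y * (C2 + 2) := by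
      refine intervalIntegral.norm_integral_le_of_norm_le hle ?_ (iga _)
      refine Filter.Eventually.of_forall fun y hy => ?_
      rw [norm_mul]
      exact mul_le_mul (kk_le (-d) y hdabs') (hGb y hy.1.le hy.2) (norm_nonneg _)
        (by have := ga_pos y; positivity)
    rw [intervalIntegral.integral_mul_const, intervalIntegral.integral_const_mul] at h4
    have h5 : 2 * (∫ y in (-R)..R, ga y) * (C2 + 2) ≤ 2 * 2 * (C2 + 2) :=
      mul_le_mul_of_nonneg_right (by linarith) (by linarith)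
    linarith
  have e3 : ∫ y in (-R)..R, kk (-d) y * Z (sm y) = (∫ y in (-R)..R, kk (-d) y * G y) -
      (∫ y in (-R)..R, kk (-d) y) * (Real.log T : ℂ) -
      (starRingEnd ℂ) (∫ y in (-R)..R, kk d y * Z (sp y)) := by
    rw [← conj_int _ _ hle, ← intervalIntegral.integral_mul_const,
      ← intervalIntegral.integral_sub iG (ik.mul_const _)]
    have e4 : ∀ y, (starRingEnd ℂ) (kk d y * Z (sp y)) = kk (-d) y * (starRingEnd ℂ) (Z (sp y)) := by
      intro y
      rw [map_mul, kk_conj]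
    simp only [e4]
    rw [← intervalIntegral.integral_sub (iG.sub (ik.mul_const _)) iZpc]
    refine intervalIntegral.integral_congr fun y _ => ?_
    rw [hG]
    beta_reduce
    ring
  have h4 := htail (-d) hdabs'
  -- total
  have hA : Real.log T ≤ ‖(∫ y in (-R)..R, kk (-d) y * (Q (sm y) + Z (sm y))) -
      ∫ y in (-R)..R, kk d y * (Q (sp y) + Z (sp y))‖ := by
    have e5 : ∫ y in (-R)..R, kk (-d) y * (Q (sm y) + Z (sm y)) =
        (∫ y in (-R)..R, kk (-d) y * Q (sm y)) + ∫ y in (-R)..R, kk (-d) y * Z (sm y) := by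
      rw [← intervalIntegral.integral_add iQm iZm]
      exact intervalIntegral.integral_congr fun y _ => mul_add _ _ _
    have e6 : ∫ y in (-R)..R, kk d y * (Q (sp y) + Z (sp y)) =
        (∫ y in (-R)..R, kk d y * Q (sp y)) + ∫ y in (-R)..R, kk d y * Z (sp y) := by
      rw [← intervalIntegral.integral_add iQp iZp]
      exact intervalIntegral.integral_congr fun y _ => mul_add _ _ _
    rw [e5, e6, e3]
    obtain ⟨a, ha⟩ : ∃ a, a = ∫ y in (-R)..R, kk (-d) y * Q (sm y) := ⟨_, rfl⟩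
    obtain ⟨b, hb⟩ : ∃ b, b = ∫ y in (-R)..R, kk d y * Q (sp y) := ⟨_, rfl⟩
    obtain ⟨g, hg⟩ : ∃ g, g = ∫ y in (-R)..R, kk (-d) y * G y := ⟨_, rfl⟩
    obtain ⟨k, hk⟩ : ∃ k, k = ∫ y in (-R)..R, kk (-d) y := ⟨_, rfl⟩
    obtain ⟨z, hz⟩ : ∃ z, z = ∫ y in (-R)..R, kk d y * Z (sp y) := ⟨_, rfl⟩
    rw [← ha, ← hb] at h1
    rw [← hg] at h3
    rw [← hk] at h4
    rw [← hz] at h2
    rw [← ha, ← hb, ← hg, ← hk, ← hz]
    have e7 : k * (Real.log T : ℂ) = (a - b) + g - (starRingEnd ℂ) z - z -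
        (a + (g - k * (Real.log T : ℂ) - (starRingEnd ℂ) z) - (b + z)) := by ring
    have h5 : ‖k * (Real.log T : ℂ)‖ ≤ ‖a - b‖ + ‖g‖ + ‖z‖ + ‖z‖ +
        ‖a + (g - k * (Real.log T : ℂ) - (starRingEnd ℂ) z) - (b + z)‖ := by
      rw [e7]
      refine (norm_sub_le _ _).trans (add_le_add ?_ (le_of_eq (by rw [← e7])))
      refine (norm_sub_le _ _).trans (add_le_add ?_ le_rfl)
      refine (norm_sub_le _ _).trans (add_le_add ?_ (le_of_eq (norm_conj z)))
      exact norm_add_le _ _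
    rw [norm_mul, norm_real, Real.norm_of_nonneg (by linarith : 0 ≤ Real.log T)] at h5
    have h6 : 16 / 10 * Real.log T ≤ ‖k‖ * Real.log T :=
      mul_le_mul_of_nonneg_right h4 (by linarith)
    linarith
  refine hA.trans ?_
  have hFm : IntervalIntegrable (fun y => 2 * (ga y * ‖Q (sm y) + Z (sm y)‖)) volume (-R) R := by
    refine ContinuousOn.intervalIntegrable ?_
    exact continuousOn_const.mul (ga_cont.continuousOn.mul (hQm.continuousOn.add hZm).norm)
  have hFp : IntervalIntegrable (fun y => 2 * (ga y * ‖Q (sp y) + Z (sp y)‖)) volume (-R) R := by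
    refine ContinuousOn.intervalIntegrable ?_
    exact continuousOn_const.mul (ga_cont.continuousOn.mul (hQp.continuousOn.add hZp).norm)
  have h5 : ‖∫ y in (-R)..R, kk (-d) y * (Q (sm y) + Z (sm y))‖ ≤
      ∫ y in (-R)..R, 2 * (ga y * ‖Q (sm y) + Z (sm y)‖) := by
    refine intervalIntegral.norm_integral_le_of_norm_le hle ?_ hFm
    refine Filter.Eventually.of_forall fun y hy => ?_
    rw [norm_mul, ← mul_assoc]
    exact mul_le_mul_of_nonneg_right (kk_le (-d) y hdabs') (norm_nonneg _)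
  have h6 : ‖∫ y in (-R)..R, kk d y * (Q (sp y) + Z (sp y))‖ ≤
      ∫ y in (-R)..R, 2 * (ga y * ‖Q (sp y) + Z (sp y)‖) := by
    refine intervalIntegral.norm_integral_le_of_norm_le hle ?_ hFp
    refine Filter.Eventually.of_forall fun y hy => ?_
    rw [norm_mul, ← mul_assoc]
    exact mul_le_mul_of_nonneg_right (kk_le d y hdabs) (norm_nonneg _)
  refine (norm_sub_le _ _).trans ((add_le_add h5 h6).trans (le_of_eq ?_))
  rw [← intervalIntegral.integral_add hFm hFp, ← intervalIntegral.integral_const_mul]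
  refine intervalIntegral.integral_congr fun y _ => ?_
  rw [hZ, hsp, hsm]
  unfold ga
  beta_reduce
  ring

end Pool.Agent.H48.WN
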