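import Mathlib

/-!
# [H48 WN DIG] the digamma function on vertical lines

PROOF. Adapt `Pool/Agent/H2/Gap/GamPhase.lean` (its private lemmas `sum_inv_bound`, `prod_exp`, `exp_sub_one_bound`,
`gamma_ratio_limit`, `gamma_ratio_bound`), replacing `1/4 + iy` by `z = x + iy`, `1/8 ≤ x ≤ 4`, `y ≥ 1/4`: for
`0 < b ≤ 1/100`, `|Γ(z)/Γ(z + ib) - exp(-i b log y)| ≤ C b` with an absolute constant `C`. Steps:
`Γ(z)/Γ(z+ib) = lim n^(-ib) prod_{j ≤ n} (1 + ib/(z+j))`; `prod = exp(ib sum_{j≤n} 1/(z+j) + O(b^2 sum 1/|z+j|^2))`,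
`sum_{j ≥ 0} 1/|z+j|^2 ≤ C`, and `|sum_{j ≤ n} 1/(z+j) - (log n - log y)| ≤ C`: for `j ≤ y` the terms are `≤ 1/y` in
size, at most `y + 1` of them (and `y ≥ 1/4`), for `j > y` compare with `1/j`: `|1/(z+j) - 1/j| = |z|/(j|z+j|) ≤ |z|/j^2`,
`|z| ≤ 4 + y`, sum over `j > y` is `≤ C`; `sum_{y < j ≤ n} 1/j = log n - log y + O(1)` (`log y` is bounded for
`1/4 ≤ y ≤ 1`).
Then let `b → 0+`: `(Γ(z)/Γ(z+ib) - 1)/b → -i Γ'(z)/Γ(z)` (derivative of `b ↦ Γ(z)/Γ(z+ib)` at `0`) and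
`(exp(-ib log y) - 1)/b → -i log y`. So `|Γ'(z)/Γ(z) - log y| ≤ C`; `Complex.digamma = logDeriv Gamma`.
-/

set_option autoImplicit false

namespace Pool.Agent.H48.WN

open Complex MeasureTheory Finset Filter Topology

private lemma dg_ge (z : ℂ) (j : ℕ) : z.im ≤ ‖z + j‖ := by
  have h := abs_im_le_norm (z + j)
  rw [add_im, natCast_im, add_zero] at h
  exact le_trans (le_abs_self _) h

private lemma dg_ge' (z : ℂ) (hz : 1 / 8 ≤ z.re) (j : ℕ) : (j : ℝ) ≤ ‖z + j‖ := by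
  have h := abs_re_le_norm (z + j)
  rw [add_re, natCast_re] at h
  have h2 := le_abs_self (z.re + (j : ℝ))
  linarith

private lemma dg_ne (z : ℂ) (hy : 1 / 4 ≤ z.im) (j : ℕ) : z + j ≠ 0 := by
  intro h
  have h2 := dg_ge z j
  rw [h, norm_zero] at h2
  linarith

/-- tail of `∑ 1/j^2`. -/
private lemma dg_sq (m n : ℕ) (hm : 1 ≤ m) :
    ∑ j ∈ Ico m n, ((j : ℝ) ^ 2)⁻¹ ≤ 2 / m := by
  have h := sum_Ioo_inv_sq_le (α := ℝ) (m - 1) n
  have e : Ioo (m - 1) n = Ico m n := by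
    ext x
    simp only [mem_Ioo, mem_Ico]
    omega
  rw [e] at h
  have e2 : (((m - 1 : ℕ) : ℝ) + 1) = m := by
    have : m - 1 + 1 = m := by omega
    exact_mod_cast this
  rwa [e2] at h

private lemma dg_norm (z : ℂ) (hz : 1 / 8 ≤ z.re) (hz4 : z.re ≤ 4) (hy : 1 / 4 ≤ z.im) :
    ‖z‖ ≤ 17 * z.im := by
  have h := norm_le_abs_re_add_abs_im z
  rw [abs_of_nonneg (by linarith : 0 ≤ z.re), abs_of_nonneg (by linarith : 0 ≤ z.im)] at h
  linarith

private lemma dg_sum (z : ℂ) (hz : 1 / 8 ≤ z.re) (hz4 : z.re ≤ 4) (hy : 1 / 4 ≤ z.im) (n : ℕ)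
    (hn : ⌈z.im⌉₊ ≤ n) :
    ‖(∑ j ∈ range (n + 1), 1 / (z + j)) -
      ((Real.log n - Real.log z.im : ℝ) : ℂ)‖ ≤ 42 := by
  set m := ⌈z.im⌉₊ with hmdef
  have hy0 : 0 < z.im := by linarith
  have hmy : z.im ≤ m := Nat.le_ceil z.im
  have hmy2 : (m : ℝ) < z.im + 1 := Nat.ceil_lt_add_one (by linarith)
  have hm1 : 1 ≤ m := Nat.one_le_iff_ne_zero.2 (by
    intro h
    rw [h, Nat.cast_zero] at hmy
    linarith)
  have hsplit : ∑ j ∈ range (n + 1), 1 / (z + j) =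
      ∑ j ∈ range m, 1 / (z + j) + ∑ j ∈ Ico m (n + 1), 1 / (z + j) := by
    rw [range_eq_Ico, range_eq_Ico, sum_Ico_consecutive _ (Nat.zero_le _) (by omega)]
  have hA : ‖∑ j ∈ range m, 1 / (z + j)‖ ≤ 5 := by
    calc ‖∑ j ∈ range m, 1 / (z + j)‖
        ≤ ∑ j ∈ range m, (1 / z.im) := by
          refine norm_sum_le_of_le _ fun j _ => ?_
          rw [norm_div, norm_one]
          exact one_div_le_one_div_of_le hy0 (dg_ge z j)
      _ = m / z.im := by rw [sum_const, card_range, nsmul_eq_mul]; ring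
      _ ≤ 5 := by rw [div_le_iff₀ hy0]; linarith
  have hzn := dg_norm z hz hz4 hy
  have hB : ‖(∑ j ∈ Ico m (n + 1), 1 / (z + j)) -
      ∑ j ∈ Ico m (n + 1), (1 / (j : ℂ))‖ ≤ 34 := by
    rw [← sum_sub_distrib]
    calc ‖∑ j ∈ Ico m (n + 1), (1 / (z + j) - 1 / (j : ℂ))‖
        ≤ ∑ j ∈ Ico m (n + 1), (17 * z.im * ((j : ℝ) ^ 2)⁻¹) := by
          refine norm_sum_le_of_le _ fun j hj => ?_
          rw [mem_Ico] at hj
          have hj0 : (0 : ℝ) < j := by exact_mod_cast (by omega : 0 < j)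
          have hjc : (j : ℂ) ≠ 0 := by exact_mod_cast (by omega : j ≠ 0)
          have e : 1 / (z + j) - 1 / (j : ℂ) = -z / ((z + j) * j) := by
            rw [div_sub_div _ _ (dg_ne z hy j) hjc]
            congr 1
            ring
          rw [e, norm_div, norm_neg, norm_mul, Complex.norm_natCast, ← div_eq_mul_inv]
          rw [div_le_div_iff₀ (mul_pos (lt_of_lt_of_le hj0 (dg_ge' z hz j)) hj0) (by positivity)]
          have h1 := dg_ge' z hz j
          have h3 : (j : ℝ) ^ 2 ≤ ‖z + j‖ * j := by nlinarith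
          calc ‖z‖ * (j : ℝ) ^ 2 ≤ (17 * z.im) * (j : ℝ) ^ 2 :=
                mul_le_mul_of_nonneg_right hzn (by positivity)
            _ ≤ (17 * z.im) * (‖z + j‖ * j) :=
                mul_le_mul_of_nonneg_left h3 (by positivity)
      _ = 17 * z.im * ∑ j ∈ Ico m (n + 1), ((j : ℝ) ^ 2)⁻¹ := by rw [mul_sum]
      _ ≤ 17 * z.im * (2 / m) := mul_le_mul_of_nonneg_left (dg_sq m (n + 1) hm1) (by positivity)
      _ ≤ 34 := by
          have hm0 : (0 : ℝ) < m := by linarith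
          rw [mul_div_assoc', div_le_iff₀ hm0]
          linarith
  have hH : ∑ j ∈ Ico m (n + 1), (1 / (j : ℝ)) = (harmonic n : ℝ) - (harmonic (m - 1) : ℝ) := by
    rw [harmonic_eq_sum_Icc, harmonic_eq_sum_Icc]
    push_cast
    have e1 : Icc 1 n = Ico 1 (n + 1) := by ext x; simp only [mem_Icc, mem_Ico]; omega
    have e2 : Icc 1 (m - 1) = Ico 1 m := by ext x; simp only [mem_Icc, mem_Ico]; omega
    rw [e1, e2, ← sum_Ico_consecutive (fun i : ℕ => ((i : ℝ))⁻¹) hm1 (by omega : m ≤ n + 1)]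
    simp only [one_div]
    ring
  have hn0 : 1 ≤ n := le_trans hm1 hn
  have b1 := harmonic_le_one_add_log n
  have b2 := log_add_one_le_harmonic n
  have b4 := log_add_one_le_harmonic (m - 1)
  have e4 : ((m - 1 + 1 : ℕ) : ℝ) = m := by
    have : m - 1 + 1 = m := by omega
    exact_mod_cast this
  rw [e4] at b4
  have b5 : Real.log n ≤ Real.log ((n + 1 : ℕ) : ℝ) :=
    Real.log_le_log (by exact_mod_cast hn0) (by push_cast; linarith)
  have b6 : Real.log z.im ≤ Real.log m := Real.log_le_log hy0 hmy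
  have b3 : (harmonic (m - 1) : ℝ) ≤ 3 + Real.log z.im := by
    rcases Nat.eq_zero_or_pos (m - 1) with h | h
    · rw [h]
      have h1 : Real.log (1 / 4) ≤ Real.log z.im := Real.log_le_log (by norm_num) hy
      have h2 : -3 ≤ Real.log (1 / 4) := by
        have h3 : Real.log (1 / 4) = -Real.log 4 := by
          rw [one_div, Real.log_inv]
        have h4 : Real.log 4 ≤ 4 - 1 := Real.log_le_sub_one_of_pos (by norm_num)
        rw [h3]
        linarith
      simp only [harmonic_zero, Rat.cast_zero]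
      linarith
    · have h1 := harmonic_le_one_add_log (m - 1)
      have h2 : Real.log ((m - 1 : ℕ) : ℝ) ≤ Real.log z.im := by
        refine Real.log_le_log (by exact_mod_cast h) ?_
        have : ((m - 1 : ℕ) : ℝ) = m - 1 := by
          rw [Nat.cast_sub hm1]; simp
        rw [this]
        linarith
      linarith
  have hC : ‖(∑ j ∈ Ico m (n + 1), (1 / (j : ℂ))) - ((Real.log n - Real.log z.im : ℝ) : ℂ)‖ ≤ 3 := by
    have e : (∑ j ∈ Ico m (n + 1), (1 / (j : ℂ))) =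
        ((∑ j ∈ Ico m (n + 1), (1 / (j : ℝ)) : ℝ) : ℂ) := by push_cast; rfl
    rw [e, ← ofReal_sub, norm_real, hH, Real.norm_eq_abs, abs_le]
    constructor <;> linarith
  rw [hsplit]
  have : (∑ j ∈ range m, 1 / (z + j) + ∑ j ∈ Ico m (n + 1), 1 / (z + j)) -
      ((Real.log n - Real.log z.im : ℝ) : ℂ) =
      (∑ j ∈ range m, 1 / (z + j)) +
      ((∑ j ∈ Ico m (n + 1), 1 / (z + j)) - ∑ j ∈ Ico m (n + 1), (1 / (j : ℂ))) +
      ((∑ j ∈ Ico m (n + 1), (1 / (j : ℂ))) - ((Real.log n - Real.log z.im : ℝ) : ℂ)) := by ring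
  rw [this]
  refine le_trans (norm_add_le _ _) ?_
  have := norm_add_le (∑ j ∈ range m, 1 / (z + j))
    ((∑ j ∈ Ico m (n + 1), 1 / (z + j)) - ∑ j ∈ Ico m (n + 1), (1 / (j : ℂ)))
  linarith

/-- The product in exponential form. -/
private lemma dg_prod (z : ℂ) (hz : 1 / 8 ≤ z.re) (hy : 1 / 4 ≤ z.im) (b : ℝ) (hb : 0 < b)
    (hb1 : b ≤ 1 / 100) (n : ℕ) :
    ∃ e : ℂ, ‖e‖ ≤ 18 * b ^ 2 ∧
      ∏ j ∈ range (n + 1), (1 + I * b / (z + j)) =
        cexp (I * b * (∑ j ∈ range (n + 1), 1 / (z + j)) + e) := by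
  have hw : ∀ j : ℕ, ‖I * (b : ℂ) / (z + j)‖ = b / ‖z + j‖ := by
    intro j
    rw [norm_div, norm_mul, norm_I, one_mul, norm_real, Real.norm_of_nonneg hb.le]
  have hpos : ∀ j : ℕ, 0 < ‖z + j‖ := fun j => norm_pos_iff.mpr (dg_ne z hy j)
  have hw2 : ∀ j : ℕ, ‖I * (b : ℂ) / (z + j)‖ ≤ 1 / 2 := by
    intro j
    rw [hw j, div_le_iff₀ (hpos j)]
    have := dg_ge z j
    linarith
  have hne : ∀ j : ℕ, 1 + I * (b : ℂ) / (z + j) ≠ 0 := by
    intro j h
    have h1 : I * (b : ℂ) / (z + j) = -1 := by linear_combination h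
    have h2 := hw2 j
    rw [h1, norm_neg, norm_one] at h2
    norm_num at h2
  refine ⟨∑ j ∈ range (n + 1), (log (1 + I * b / (z + j)) - I * b / (z + j)), ?_, ?_⟩
  · have hterm : ∀ j : ℕ, ‖log (1 + I * b / (z + j)) - I * b / (z + j)‖ ≤
        b ^ 2 * (‖z + j‖ ^ 2)⁻¹ := by
      intro j
      have h1 := norm_log_one_add_sub_self_le (lt_of_le_of_lt (hw2 j) (by norm_num : (1 / 2 : ℝ) < 1))
      refine le_trans h1 ?_
      have h2 : (1 - ‖I * (b : ℂ) / (z + j)‖)⁻¹ ≤ 2 := by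
        rw [inv_le_comm₀ (by linarith [hw2 j]) (by norm_num)]
        linarith [hw2 j]
      have h3 : ‖I * (b : ℂ) / (z + j)‖ ^ 2 = b ^ 2 * (‖z + j‖ ^ 2)⁻¹ := by
        rw [hw j, div_pow, div_eq_mul_inv]
      rw [h3]
      have h4 : 0 ≤ b ^ 2 * (‖z + j‖ ^ 2)⁻¹ := by positivity
      nlinarith
    refine le_trans (norm_sum_le_of_le _ fun j _ => hterm j) ?_
    rw [← mul_sum, mul_comm (18 : ℝ)]
    refine mul_le_mul_of_nonneg_left ?_ (by positivity)
    rw [sum_range_succ', Nat.cast_zero]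
    have h0 : (‖z + (0 : ℂ)‖ ^ 2)⁻¹ ≤ 16 := by
      have h1 := dg_ge z 0
      rw [Nat.cast_zero] at h1
      have h2 : (1 / 4 : ℝ) ^ 2 ≤ ‖z + (0 : ℂ)‖ ^ 2 :=
        pow_le_pow_left₀ (by norm_num) (hy.trans h1) 2
      have h3 : (‖z + (0 : ℂ)‖ ^ 2)⁻¹ ≤ ((1 / 4 : ℝ) ^ 2)⁻¹ := inv_anti₀ (by norm_num) h2
      refine h3.trans (by norm_num)
    have h1 : ∑ k ∈ range n, (‖z + ((k + 1 : ℕ) : ℂ)‖ ^ 2)⁻¹ ≤ 2 := by
      calc ∑ k ∈ range n, (‖z + ((k + 1 : ℕ) : ℂ)‖ ^ 2)⁻¹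
          ≤ ∑ k ∈ range n, (((k + 1 : ℕ) : ℝ) ^ 2)⁻¹ := by
            refine sum_le_sum fun k _ => ?_
            have h5 := dg_ge' z hz (k + 1)
            have h6 : (0 : ℝ) < ((k + 1 : ℕ) : ℝ) := by positivity
            exact inv_anti₀ (by positivity) (by gcongr)
        _ = ∑ j ∈ Ico 1 (n + 1), ((j : ℝ) ^ 2)⁻¹ := by
            rw [range_eq_Ico, sum_Ico_add' (fun j : ℕ => ((j : ℝ) ^ 2)⁻¹) 0 n 1]
        _ ≤ 2 / (1 : ℕ) := dg_sq 1 (n + 1) le_rfl
        _ = 2 := by norm_num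
    linarith
  · have : I * b * (∑ j ∈ range (n + 1), 1 / (z + j)) +
        ∑ j ∈ range (n + 1), (log (1 + I * b / (z + j)) - I * b / (z + j)) =
        ∑ j ∈ range (n + 1), log (1 + I * b / (z + j)) := by
      rw [mul_sum, ← sum_add_distrib]
      refine sum_congr rfl fun j _ => ?_
      ring
    rw [this, exp_sum]
    refine prod_congr rfl fun j _ => ?_
    rw [exp_log (hne j)]

private lemma dg_lim (z : ℂ) (hy : 1 / 4 ≤ z.im) (b : ℝ) (hb : 0 < b) :
    Tendsto (fun n : ℕ => (n : ℂ) ^ (-(I * b) : ℂ) *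
      ∏ j ∈ range (n + 1), (1 + I * b / (z + j))) atTop
      (𝓝 (Gamma z / Gamma (z + I * b))) := by
  have hzb : ∀ j : ℕ, (z + I * b : ℂ) + j ≠ 0 := by
    intro j h
    have := congrArg Complex.im h
    simp at this
    linarith
  have hG : Gamma (z + I * b) ≠ 0 := by
    refine Gamma_ne_zero fun m hm => hzb m ?_
    rw [hm]
    ring
  have h1 := (GammaSeq_tendsto_Gamma z).div (GammaSeq_tendsto_Gamma (z + I * b)) hG
  refine h1.congr' ?_
  filter_upwards [eventually_ge_atTop 1] with n hn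
  have hn0 : (n : ℂ) ≠ 0 := by exact_mod_cast (by omega : n ≠ 0)
  simp only [Pi.div_apply, GammaSeq]
  have hfac : ((n.factorial : ℕ) : ℂ) ≠ 0 := by exact_mod_cast n.factorial_ne_zero
  have hp1 : ∏ j ∈ range (n + 1), (z + j) ≠ 0 :=
    prod_ne_zero_iff.mpr fun j _ => dg_ne z hy j
  have hp2 : ∏ j ∈ range (n + 1), ((z + I * b : ℂ) + j) ≠ 0 :=
    prod_ne_zero_iff.mpr fun j _ => hzb j
  have e1 : ∏ j ∈ range (n + 1), (1 + I * b / (z + j)) =
      (∏ j ∈ range (n + 1), ((z + I * b : ℂ) + j)) / ∏ j ∈ range (n + 1), (z + j) := by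
    rw [← prod_div_distrib]
    refine prod_congr rfl fun j _ => ?_
    have := dg_ne z hy j
    rw [eq_div_iff this, add_mul, div_mul_cancel₀ _ this]
    ring
  have e2 : (n : ℂ) ^ (z + I * b : ℂ) = (n : ℂ) ^ z * (n : ℂ) ^ (I * b : ℂ) := cpow_add _ _ hn0
  have e3 : (n : ℂ) ^ (-(I * b) : ℂ) = ((n : ℂ) ^ (I * b : ℂ))⁻¹ := cpow_neg _ _
  have hc1 : (n : ℂ) ^ z ≠ 0 := by
    rw [Ne, cpow_eq_zero_iff]; tauto
  have hc2 : (n : ℂ) ^ (I * b : ℂ) ≠ 0 := by
    rw [Ne, cpow_eq_zero_iff]; tauto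
  rw [e1, e2, e3]
  generalize ∏ j ∈ range (n + 1), (z + j) = P1 at hp1 ⊢
  generalize ∏ j ∈ range (n + 1), ((z + I * b : ℂ) + j) = P2 at hp2 ⊢
  generalize (n : ℂ) ^ z = Q1 at hc1 ⊢
  generalize (n : ℂ) ^ (I * b : ℂ) = Q2 at hc2 ⊢
  generalize ((n.factorial : ℕ) : ℂ) = F1 at hfac ⊢
  field_simp

private lemma dg_ratio (z : ℂ) (hz : 1 / 8 ≤ z.re) (hz4 : z.re ≤ 4) (hy : 1 / 4 ≤ z.im) (b : ℝ)
    (hb : 0 < b) (hb1 : b ≤ 1 / 100) :
    ‖Gamma z / Gamma (z + I * b) - cexp (-(I * b * (Real.log z.im : ℂ)))‖ ≤ 100 * b := by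
  have hlim := (dg_lim z hy b hb).sub_const (cexp (-(I * b * (Real.log z.im : ℂ))))
  refine le_of_tendsto hlim.norm ?_
  filter_upwards [eventually_ge_atTop (max 1 ⌈z.im⌉₊)] with n hn
  have hn1 : 1 ≤ n := le_trans (le_max_left _ _) hn
  have hn2 : ⌈z.im⌉₊ ≤ n := le_trans (le_max_right _ _) hn
  obtain ⟨e, he, hprod⟩ := dg_prod z hz hy b hb hb1 n
  have hS := dg_sum z hz hz4 hy n hn2
  set S := ∑ j ∈ range (n + 1), 1 / (z + j) with hSdef
  have hn0 : (n : ℂ) ≠ 0 := by exact_mod_cast (by omega : n ≠ 0)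
  have hlogn : log (n : ℂ) = (Real.log n : ℂ) := by
    rw [← ofReal_natCast, ← ofReal_log (Nat.cast_nonneg n)]
  have hpow : (n : ℂ) ^ (-(I * b) : ℂ) = cexp (-(I * b * (Real.log n : ℂ))) := by
    rw [cpow_def_of_ne_zero hn0, hlogn]
    congr 1
    ring
  rw [hprod, hpow, ← exp_add]
  have hfac : cexp (-(I * b * (Real.log n : ℂ)) + (I * b * S + e)) -
      cexp (-(I * b * (Real.log z.im : ℂ))) =
      cexp (-(I * b * (Real.log z.im : ℂ))) *
        (cexp (I * b * (S - ((Real.log n - Real.log z.im : ℝ) : ℂ)) + e) - 1) := by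
    rw [mul_sub, ← exp_add, mul_one]
    congr 2
    push_cast
    ring
  rw [hfac, norm_mul]
  have hn3 : ‖cexp (-(I * b * (Real.log z.im : ℂ)))‖ = 1 := by
    have : -(I * b * (Real.log z.im : ℂ)) = ((-(b * Real.log z.im) : ℝ) : ℂ) * I := by
      push_cast
      ring
    rw [this, norm_exp_ofReal_mul_I]
  rw [hn3, one_mul]
  have h5 : ‖I * b * (S - ((Real.log n - Real.log z.im : ℝ) : ℂ)) + e‖ ≤ 50 * b := by
    refine le_trans (norm_add_le _ _) ?_
    rw [norm_mul, norm_mul, norm_I, one_mul, norm_real, Real.norm_of_nonneg hb.le]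
    have h6 : b * ‖S - ((Real.log n - Real.log z.im : ℝ) : ℂ)‖ ≤ b * 42 :=
      mul_le_mul_of_nonneg_left hS hb.le
    have h7 : 18 * b ^ 2 ≤ 1 * b := by nlinarith
    linarith
  have h6 := norm_exp_sub_one_le (x := I * b * (S - ((Real.log n - Real.log z.im : ℝ) : ℂ)) + e)
    (by linarith)
  linarith

theorem dig : ∃ C : ℝ, 0 < C ∧ ∀ s : ℂ, 1 / 8 ≤ s.re → s.re ≤ 4 → 1 / 4 ≤ s.im →
    ‖Complex.digamma s - ((Real.log s.im : ℝ) : ℂ)‖ ≤ C := by
  refine ⟨100, by norm_num, fun z hz hz4 hy => ?_⟩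
  have hG0 : Gamma z ≠ 0 := by
    refine Gamma_ne_zero fun m hm => dg_ne z hy m ?_
    rw [hm]
    ring
  have hGd : DifferentiableAt ℂ Gamma z := by
    refine differentiableAt_Gamma z fun m hm => dg_ne z hy m ?_
    rw [hm]
    ring
  -- the function of `b`
  have h1 : HasDerivAt (fun b : ℂ => Gamma z / Gamma (z + I * b)) (-(I * digamma z)) 0 := by
    have h2 : HasDerivAt (fun b : ℂ => z + I * b) I 0 := by
      have := ((hasDerivAt_id (0 : ℂ)).const_mul I).const_add z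
      simpa using this
    have h3 : HasDerivAt Gamma (deriv Gamma z) (z + I * 0) := by
      rw [mul_zero, add_zero]
      exact hGd.hasDerivAt
    have h4 : HasDerivAt (fun b : ℂ => Gamma (z + I * b)) (deriv Gamma z * I) 0 :=
      h3.comp (0 : ℂ) h2
    have h5 := (hasDerivAt_const (0 : ℂ) (Gamma z)).div h4 (by
      rw [mul_zero, add_zero]
      exact hG0)
    have e : (0 * Gamma (z + I * 0) - Gamma z * (deriv Gamma z * I)) / Gamma (z + I * 0) ^ 2 =
        -(I * digamma z) := by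
      rw [mul_zero, add_zero, digamma_def, logDeriv_apply]
      field_simp
      ring
    rw [e] at h5
    exact h5
  have h6 : HasDerivAt (fun b : ℂ => cexp (-(I * b * (Real.log z.im : ℂ))))
      (-(I * (Real.log z.im : ℂ))) 0 := by
    have h7 : HasDerivAt (fun b : ℂ => -(I * b * (Real.log z.im : ℂ)))
        (-(I * (Real.log z.im : ℂ))) 0 := by
      have h9 := (((hasDerivAt_id (0 : ℂ)).const_mul I).mul_const (Real.log z.im : ℂ))
      rw [mul_one] at h9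
      exact h9.neg
    have h8 := h7.cexp
    have e : cexp (-(I * 0 * (Real.log z.im : ℂ))) * (-(I * (Real.log z.im : ℂ))) =
        -(I * (Real.log z.im : ℂ)) := by
      rw [mul_zero, zero_mul, neg_zero, exp_zero, one_mul]
    rw [e] at h8
    exact h8
  have h7 := h1.sub h6
  have h8 : Tendsto (fun b : ℝ => ((b : ℂ))⁻¹ * ((Gamma z / Gamma (z + I * b)) -
      cexp (-(I * b * (Real.log z.im : ℂ))))) (𝓝[>] 0)
      (𝓝 (-(I * digamma z) - -(I * (Real.log z.im : ℂ)))) := by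
    have h9 := h7.tendsto_slope_zero
    have h10 : Tendsto (fun b : ℝ => (b : ℂ)) (𝓝[>] 0) (𝓝[≠] 0) := by
      rw [tendsto_nhdsWithin_iff]
      constructor
      · have h11 : Tendsto (fun b : ℝ => (b : ℂ)) (𝓝 0) (𝓝 ((0 : ℝ) : ℂ)) :=
          (Complex.continuous_ofReal.tendsto 0)
        rw [ofReal_zero] at h11
        exact h11.mono_left nhdsWithin_le_nhds
      · filter_upwards [self_mem_nhdsWithin] with b hb
        have hb0 : (0 : ℝ) < b := hb
        exact ofReal_ne_zero.2 hb0.ne'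
    refine (h9.comp h10).congr fun b => ?_
    simp only [Function.comp, zero_add, smul_eq_mul, mul_zero, add_zero, zero_mul, neg_zero,
      exp_zero, Pi.sub_apply]
    rw [div_self hG0, sub_self, sub_zero]
  have h9 : ‖-(I * digamma z) - -(I * (Real.log z.im : ℂ))‖ ≤ 100 := by
    refine le_of_tendsto h8.norm ?_
    have h10 : ∀ᶠ b : ℝ in 𝓝[>] (0 : ℝ), b ∈ Set.Ioo (0 : ℝ) (1 / 100) :=
      Ioo_mem_nhdsGT (by norm_num)
    filter_upwards [h10] with b hb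
    rw [norm_mul, norm_inv, norm_real, Real.norm_of_nonneg hb.1.le]
    have h11 := dg_ratio z hz hz4 hy b hb.1 hb.2.le
    rw [inv_mul_le_iff₀ hb.1]
    linarith
  have h10 : -(I * digamma z) - -(I * (Real.log z.im : ℂ)) =
      -(I * (digamma z - (Real.log z.im : ℂ))) := by ring
  rw [h10, norm_neg, norm_mul, norm_I, one_mul] at h9
  exact h9

end Pool.Agent.H48.WN
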