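import Pool.Agent.H48.WN.Idn
import Pool.Agent.H48.WN.Zad

/-!
# [H48 WN FID] `ζ Q + ζ' = -(window sum) + tiny`

PROOF. `N = NN b T ≥ T^(b+3) - 1 ≥ T^(b+2) ≥ T^(b+1+4h)` for `T ≥ 3`-ish. `idn` with `φ = st (b+1+3h) h`, `B = b+1+4h`:
`sum_n La n n^(-s) Zp_{u_n}(s) = Dp log φ T N s`, `u_n = log n / L ≥ 0` (`Zp b h v T s` is exactly `Dp (fun _ => 1) (fun u => φ(u + v)) T N s`).
Write `1 = st (b+h) h (u_n) + rr b h (u_n) + (1 - st (b+1+4h) h (u_n))`. Tail: if `1 - st (b+1+4h) h (u_n) ≠ 0` then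
`u_n > b+1+4h`, so every weight `φ(u_m + u_n)` vanishes, `Zp = 0`. Middle: `Wn`. Head: if `st (b+h) h (u_n) ≠ 0` then
`u_n ≤ b + 2h =: v1`, and `zap` (`β = b+1+3h`, `β - v1 = 1 + h > 1`, `A = ⌈2b⌉ + 9`) gives `‖Zp_{u_n}(s) - ζ(s)‖ ≤ T^(-A)`. So
`Dp log φ = ζ(s) Qp(s) + E1 + Wn(s)`, `|E1| ≤ T^(-A) sum_{n ≤ N} log n ≤ T^(-A) N^2 ≤ T^(-A + 2b + 6) ≤ T^(-2)` (`|n^(-s)| ≤ 1`).
`zad` (`A = 2`): `‖ζ'(s) + Dp log φ‖ ≤ T^(-2)`. So `‖ff + Wn‖ ≤ 2 T^(-2) ≤ T^(-1)`.
-/

set_option autoImplicit false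

namespace Pool.Agent.H48.WN

open Complex MeasureTheory Finset

private theorem NN_ge (b h T : ℝ) (hh1 : h ≤ 1 / 100) (hT : 10 ≤ T) (hb : 1 ≤ b) :
    T ^ (b + 1 + 4 * h) ≤ (NN b T : ℝ) := by
  unfold NN
  have hTpos : 0 < T := by linarith
  have h1 : T ^ (b + 3) < (⌊T ^ (b + 3)⌋₊ : ℝ) + 1 := Nat.lt_floor_add_one _
  have h2 : T ^ (b + 3) = T ^ (b + 2) * T := by
    rw [← Real.rpow_add_one hTpos.ne']
    congr 1
    ring
  have h3 : T ^ (b + 1 + 4 * h) ≤ T ^ (b + 2) :=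
    Real.rpow_le_rpow_of_exponent_le (by linarith) (by linarith)
  have h4 : 1 ≤ T ^ (b + 2) := Real.one_le_rpow (by linarith) (by linarith)
  nlinarith

private theorem NN_le (b T : ℝ) (hT : 10 ≤ T) : (NN b T : ℝ) ≤ T ^ (b + 3) := by
  unfold NN
  exact Nat.floor_le (by positivity)

theorem fid (b h : ℝ) (hb : 1 ≤ b) (hh : 0 < h) (hh1 : h ≤ 1 / 100) :
    ∃ T0 : ℝ, 10 ≤ T0 ∧ ∀ T : ℝ, T0 ≤ T → ∀ s : ℂ, 1 / 4 ≤ s.re → s.re ≤ 3 / 4 → T / 4 ≤ s.im →
      s.im ≤ 4 * T → ‖ff b h T s + Wn b h T s‖ ≤ T ^ (-(1 : ℝ)) := by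
  have hφ := st_contDiff (b + 1 + 3 * h) h
  obtain ⟨T1, hT1, hzad⟩ := zad (st (b + 1 + 3 * h) h) hφ (b + 1 + 3 * h) (b + 1 + 4 * h)
    (by linarith) (fun u hu => st_one hh hu) (fun u hu => st_zero hh (by linarith)) 2
  obtain ⟨A, hA⟩ := exists_nat_ge (2 * b + 8)
  obtain ⟨T2, hT2, hzap⟩ := zap (st (b + 1 + 3 * h) h) hφ (b + 1 + 3 * h) (b + 1 + 4 * h) (b + 2 * h)
    (by linarith) (by linarith) (fun u hu => st_one hh hu) (fun u hu => st_zero hh (by linarith)) A
  refine ⟨max 10 (max T1 T2), le_max_left _ _, fun T hT s hs1 hs2 hs3 hs4 => ?_⟩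
  have h10 : 10 ≤ T := (le_max_left _ _).trans hT
  have hTT1 : T1 ≤ T := ((le_max_left _ _).trans (le_max_right _ _)).trans hT
  have hTT2 : T2 ≤ T := ((le_max_right _ _).trans (le_max_right _ _)).trans hT
  have hTpos : 0 < T := by linarith
  have hT1' : 1 < T := by linarith
  have hlog : 0 < Real.log T := Real.log_pos hT1'
  have hN := NN_ge b h T hh1 h10 hb
  have hN2 := NN_le b T h10
  have hid := idn (st (b + 1 + 3 * h) h) (b + 1 + 4 * h) T hT1' (fun u hu => st_zero hh (by linarith))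
    (NN b T) hN s
  have hzd := hzad T hTT1 (NN b T) hN s (by linarith) (by linarith) (by linarith) (by linarith)
  obtain ⟨D, hD⟩ : ∃ D : ℂ, D = Dp (fun n => ((Real.log n : ℝ) : ℂ)) (st (b + 1 + 3 * h) h) T (NN b T) s :=
    ⟨_, rfl⟩
  rw [← hD] at hid hzd
  obtain ⟨E, hE⟩ : ∃ E : ℂ, E = D - riemannZeta s * Qp b h T s - Wn b h T s := ⟨_, rfl⟩
  have hEq : E = ∑ n ∈ Icc 1 (NN b T), La n * (n : ℂ) ^ (-s) *
      (((st (b + h) h (Real.log n / Real.log T) : ℝ) : ℂ) *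
        (Zp b h (Real.log n / Real.log T) T s - riemannZeta s) +
       ((1 - st (b + 1 + 4 * h) h (Real.log n / Real.log T) : ℝ) : ℂ) *
        Zp b h (Real.log n / Real.log T) T s) := by
    rw [hE, ← hid]
    unfold Qp Wn
    unfold Dp
    rw [Finset.mul_sum, ← Finset.sum_sub_distrib, ← Finset.sum_sub_distrib]
    refine Finset.sum_congr rfl fun n _ => ?_
    unfold Zp Dp rr
    push_cast
    ring
  have hEn : ‖E‖ ≤ T ^ (-(2 : ℝ)) := by
    have h1 : ∀ n ∈ Icc 1 (NN b T), ‖La n * (n : ℂ) ^ (-s) *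
      (((st (b + h) h (Real.log n / Real.log T) : ℝ) : ℂ) *
        (Zp b h (Real.log n / Real.log T) T s - riemannZeta s) +
       ((1 - st (b + 1 + 4 * h) h (Real.log n / Real.log T) : ℝ) : ℂ) *
        Zp b h (Real.log n / Real.log T) T s)‖ ≤ T ^ (b + 3) * T ^ (-(A : ℝ)) := by
      intro n hn
      have hn1 : 1 ≤ n := (Finset.mem_Icc.1 hn).1
      have hnN : n ≤ NN b T := (Finset.mem_Icc.1 hn).2
      have hnr : (1:ℝ) ≤ n := by exact_mod_cast hn1
      have hnr0 : (0:ℝ) < n := by linarith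
      have hu0 : 0 ≤ Real.log n / Real.log T := div_nonneg (Real.log_nonneg hnr) hlog.le
      have hnT : (n : ℝ) ≤ T ^ (b + 3) := by
        have : (n : ℝ) ≤ NN b T := by exact_mod_cast hnN
        linarith
      -- second part vanishes
      have h2 : ((1 - st (b + 1 + 4 * h) h (Real.log n / Real.log T) : ℝ) : ℂ) *
          Zp b h (Real.log n / Real.log T) T s = 0 := by
        rcases le_or_gt (Real.log n / Real.log T) (b + 1 + 4 * h) with h3 | h3
        · rw [st_one hh h3]; simp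
        · have h4 : Zp b h (Real.log n / Real.log T) T s = 0 := by
            unfold Zp Dp
            refine Finset.sum_eq_zero fun m hm => ?_
            have hm1 : (1:ℝ) ≤ m := by exact_mod_cast (Finset.mem_Icc.1 hm).1
            have hm0 : 0 ≤ Real.log m / Real.log T := div_nonneg (Real.log_nonneg hm1) hlog.le
            have h5 : st (b + 1 + 3 * h) h (Real.log m / Real.log T + Real.log n / Real.log T) = 0 :=
              st_zero hh (by linarith)
            simp only [h5]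
            simp
          rw [h4, mul_zero]
      rw [h2, add_zero, norm_mul, norm_mul]
      have h5 : ‖La n‖ ≤ T ^ (b + 3) := by
        unfold La
        rw [Complex.norm_real, Real.norm_eq_abs, abs_of_nonneg ArithmeticFunction.vonMangoldt_nonneg]
        calc _ ≤ Real.log n := ArithmeticFunction.vonMangoldt_le_log
          _ ≤ n := Real.log_le_self hnr0.le
          _ ≤ _ := hnT
      have h6 : ‖(n : ℂ) ^ (-s)‖ ≤ 1 := by
        rw [Complex.norm_natCast_cpow_of_pos (by omega)]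
        rw [Complex.neg_re]
        exact Real.rpow_le_one_of_one_le_of_nonpos hnr (by linarith)
      have h7 : ‖((st (b + h) h (Real.log n / Real.log T) : ℝ) : ℂ) *
          (Zp b h (Real.log n / Real.log T) T s - riemannZeta s)‖ ≤ T ^ (-(A : ℝ)) := by
        rcases le_or_gt (Real.log n / Real.log T) (b + 2 * h) with h3 | h3
        · have h8 := hzap T hTT2 (Real.log n / Real.log T) hu0 h3 (NN b T) hN s (by linarith)
            (by linarith) (by linarith) (by linarith)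
          have h9 : ‖Zp b h (Real.log n / Real.log T) T s - riemannZeta s‖ ≤ T ^ (-(A : ℝ)) := by
            rw [norm_sub_rev]
            exact h8
          rw [norm_mul, Complex.norm_real, Real.norm_eq_abs, abs_of_nonneg (st_nonneg _ _ _)]
          calc _ ≤ 1 * T ^ (-(A : ℝ)) :=
                mul_le_mul (st_le_one _ _ _) h9 (norm_nonneg _) (by norm_num)
            _ = _ := one_mul _
        · rw [st_zero hh (by linarith)]
          simp only [Complex.ofReal_zero, zero_mul, norm_zero]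
          positivity
      calc _ ≤ T ^ (b + 3) * 1 * T ^ (-(A : ℝ)) := by
            refine mul_le_mul (mul_le_mul h5 h6 (norm_nonneg _) (by positivity)) h7 (norm_nonneg _)
              (by positivity)
        _ = _ := by rw [mul_one]
    rw [hEq]
    refine (norm_sum_le _ _).trans ((Finset.sum_le_sum h1).trans ?_)
    rw [Finset.sum_const, nsmul_eq_mul, Nat.card_Icc, Nat.add_sub_cancel]
    calc (NN b T : ℝ) * (T ^ (b + 3) * T ^ (-(A : ℝ))) ≤ T ^ (b + 3) * (T ^ (b + 3) * T ^ (-(A : ℝ))) :=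
          mul_le_mul_of_nonneg_right hN2 (by positivity)
      _ = T ^ ((b + 3) + ((b + 3) + -(A : ℝ))) := by
          rw [← Real.rpow_add hTpos, ← Real.rpow_add hTpos]
      _ ≤ T ^ (-(2 : ℝ)) := Real.rpow_le_rpow_of_exponent_le hT1'.le (by linarith)
  have hfin : ff b h T s + Wn b h T s = (deriv riemannZeta s + D) - E := by
    rw [hE]
    unfold ff
    ring
  rw [hfin]
  have hzd' : ‖deriv riemannZeta s + D‖ ≤ T ^ (-(2 : ℝ)) := by
    have : (-((2 : ℕ) : ℝ)) = -(2 : ℝ) := by norm_num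
    rw [this] at hzd
    exact hzd
  calc _ ≤ ‖deriv riemannZeta s + D‖ + ‖E‖ := norm_sub_le _ _
    _ ≤ T ^ (-(2 : ℝ)) + T ^ (-(2 : ℝ)) := add_le_add hzd' hEn
    _ = 2 * T ^ (-(2 : ℝ)) := by ring
    _ ≤ T * T ^ (-(2 : ℝ)) := mul_le_mul_of_nonneg_right (by linarith) (by positivity)
    _ = T ^ (-(1 : ℝ)) := by
        have h1 : T * T ^ (-(2 : ℝ)) = T ^ (1 : ℝ) * T ^ (-(2 : ℝ)) := by rw [Real.rpow_one]
        rw [h1, ← Real.rpow_add hTpos]
        norm_num

end Pool.Agent.H48.WN
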