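import Mathlib
import Pool.Agent.H43.SI.Pl

/-!
# [H48 WN GAL] Gallagher's lemma (Dirichlet polynomials)

PROOF. `A(v) = sum_n a_n 1[log n - 1/U ≤ v < log n]` is a step function with compact support and equals the inner sum. Its Fourier transform:
`int A(v) e^(-itv) dv = kappa(t) sum_n a_n n^(-it)`, `kappa(t) = int_0^(1/U) e^(itu) du`, and `|kappa(t)| ≥ Re kappa(t) ≥ 1/(2U)` for `|t| ≤ U`
(`cos x ≥ 1 - x^2/2`). So `|sum a_n n^(-it)| ≤ 2U |Â(t)|`. Plancherel (`Pool/Agent/H43/SI/Pl.lean`):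
`int_ℝ |Â(t)|^2 dt = 2π int |A(v)|^2 dv`. Constant `C = 8π`.
-/

set_option autoImplicit false

namespace Pool.Agent.H48.WN

open Complex MeasureTheory Finset
open scoped FourierTransform

private noncomputable def gal_A (δ : ℝ) (N : ℕ) (a : ℕ → ℂ) (v : ℝ) : ℂ :=
  ∑ n ∈ Icc 1 N, (Set.Ico (Real.log n - δ) (Real.log n)).indicator (fun _ => a n) v

private theorem gal_A_eq (δ : ℝ) (N : ℕ) (a : ℕ → ℂ) (v : ℝ) :
    ∑ n ∈ (Icc 1 N).filter (fun n : ℕ => v < Real.log n ∧ Real.log n ≤ v + δ), a n =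
      gal_A δ N a v := by
  unfold gal_A
  rw [sum_filter]
  refine sum_congr rfl fun n _ => ?_
  rw [Set.indicator_apply]
  have h : (v < Real.log n ∧ Real.log n ≤ v + δ) ↔ v ∈ Set.Ico (Real.log n - δ) (Real.log n) := by
    rw [Set.mem_Ico]
    constructor
    · rintro ⟨h1, h2⟩; exact ⟨by linarith, h1⟩
    · rintro ⟨h1, h2⟩; exact ⟨h2, by linarith⟩
  by_cases h1 : v ∈ Set.Ico (Real.log n - δ) (Real.log n)
  · rw [if_pos (h.2 h1), if_pos h1]
  · rw [if_neg (fun h2 => h1 (h.1 h2)), if_neg h1]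

private theorem gal_int (δ : ℝ) (N : ℕ) (a : ℕ → ℂ) : Integrable (gal_A δ N a) := by
  unfold gal_A
  refine integrable_finsetSum _ fun n _ => ?_
  exact (integrableOn_const (by simp)).integrable_indicator measurableSet_Ico

private theorem gal_mem (δ : ℝ) (N : ℕ) (a : ℕ → ℂ) : MemLp (gal_A δ N a) 2 := by
  unfold gal_A
  refine memLp_finsetSum _ fun n _ => ?_
  exact memLp_indicator_const 2 measurableSet_Ico (a n) (Or.inr (by simp))

private theorem gal_fourier (δ : ℝ) (hδ : 0 ≤ δ) (N : ℕ) (a : ℕ → ℂ) (ξ : ℝ) :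
    𝓕 (gal_A δ N a) ξ = (∑ n ∈ Icc 1 N, a n * Complex.exp (((-2 * Real.pi * Real.log n * ξ : ℝ) : ℂ) * I)) *
      ∫ u in (0 : ℝ)..δ, Complex.exp (((2 * Real.pi * u * ξ : ℝ) : ℂ) * I) := by
  rw [Real.fourier_real_eq_integral_exp_smul]
  have h1 : ∀ v : ℝ, Complex.exp (((-2 * Real.pi * v * ξ : ℝ) : ℂ) * I) • gal_A δ N a v =
      ∑ n ∈ Icc 1 N, (Set.Ico (Real.log n - δ) (Real.log n)).indicator
        (fun v => Complex.exp (((-2 * Real.pi * v * ξ : ℝ) : ℂ) * I) * a n) v := by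
    intro v
    unfold gal_A
    rw [smul_sum]
    refine sum_congr rfl fun n _ => ?_
    rw [Set.indicator_apply, Set.indicator_apply]
    split_ifs <;> simp
  simp_rw [h1]
  rw [integral_finsetSum]
  · rw [sum_mul]
    refine sum_congr rfl fun n _ => ?_
    rw [integral_indicator measurableSet_Ico, integral_Ico_eq_integral_Ioo, ← integral_Ioc_eq_integral_Ioo,
      ← intervalIntegral.integral_of_le (by linarith)]
    have h2 := intervalIntegral.integral_comp_sub_left (a := 0) (b := δ)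
      (fun v : ℝ => Complex.exp (((-2 * Real.pi * v * ξ : ℝ) : ℂ) * I) * a n) (Real.log n)
    rw [sub_zero] at h2
    rw [← h2, ← intervalIntegral.integral_const_mul]
    refine intervalIntegral.integral_congr fun u _ => ?_
    have h3 : Complex.exp (((-2 * Real.pi * (Real.log n - u) * ξ : ℝ) : ℂ) * I) =
        Complex.exp (((-2 * Real.pi * Real.log n * ξ : ℝ) : ℂ) * I) *
          Complex.exp (((2 * Real.pi * u * ξ : ℝ) : ℂ) * I) := by
      rw [← Complex.exp_add]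
      congr 1
      push_cast
      ring
    rw [h3]
    ring
  · intro n _
    refine IntegrableOn.integrable_indicator ?_ measurableSet_Ico
    refine (Continuous.integrableOn_Icc ?_).mono_set Set.Ico_subset_Icc_self
    fun_prop

private theorem gal_kappa {U : ℝ} (hU : 1 ≤ U) {t : ℝ} (ht : |t| ≤ U) :
    1 / (2 * U) ≤ ‖∫ u in (0 : ℝ)..(1 / U), Complex.exp (((2 * Real.pi * u * (t / (2 * Real.pi)) : ℝ) : ℂ) * I)‖ := by
  have hU0 : 0 < U := by linarith
  have hpi : (2 * Real.pi) ≠ 0 := by positivity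
  refine le_trans ?_ (Complex.re_le_norm _)
  have h1 : (∫ u in (0 : ℝ)..(1 / U), Complex.exp (((2 * Real.pi * u * (t / (2 * Real.pi)) : ℝ) : ℂ) * I)).re =
      ∫ u in (0 : ℝ)..(1 / U), Real.cos (u * t) := by
    have h2 := Complex.reCLM.intervalIntegral_comp_comm (a := (0 : ℝ)) (b := 1 / U) (μ := volume)
      (f := fun u : ℝ => Complex.exp (((2 * Real.pi * u * (t / (2 * Real.pi)) : ℝ) : ℂ) * I))
      (Continuous.intervalIntegrable (by fun_prop) _ _)
    rw [Complex.reCLM_apply] at h2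
    rw [← h2]
    refine intervalIntegral.integral_congr fun u _ => ?_
    simp only [Complex.reCLM_apply]
    rw [Complex.exp_ofReal_mul_I_re]
    congr 1
    field_simp
  rw [h1]
  have h3 : ∫ _u in (0 : ℝ)..(1 / U), (1 / 2 : ℝ) ≤ ∫ u in (0 : ℝ)..(1 / U), Real.cos (u * t) := by
    refine intervalIntegral.integral_mono_on (by positivity) (by simp) (Continuous.intervalIntegrable (by fun_prop) _ _) ?_
    intro u hu
    have h4 : |u * t| ≤ 1 := by
      rw [abs_mul, abs_of_nonneg hu.1]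
      calc u * |t| ≤ (1 / U) * U := mul_le_mul hu.2 ht (abs_nonneg _) (by positivity)
        _ = 1 := by field_simp
    have h5 := Real.one_sub_sq_div_two_le_cos (x := u * t)
    have h6 : (u * t) ^ 2 ≤ 1 := by
      rw [← sq_abs]
      exact pow_le_one₀ (abs_nonneg _) h4
    linarith
  refine le_trans (le_of_eq ?_) h3
  rw [intervalIntegral.integral_const]
  simp only [smul_eq_mul]
  field_simp
  ring

theorem gal : ∃ C : ℝ, 0 < C ∧ ∀ U : ℝ, 1 ≤ U → ∀ (N : ℕ) (a : ℕ → ℂ),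
    ∫ t in (-U)..U, ‖∑ n ∈ Icc 1 N, a n * (n : ℂ) ^ (-((t : ℂ) * I))‖ ^ 2 ≤
      C * U ^ 2 * ∫ v : ℝ, ‖∑ n ∈ (Icc 1 N).filter (fun n : ℕ => v < Real.log n ∧ Real.log n ≤ v + 1 / U), a n‖ ^ 2 := by
  refine ⟨8 * Real.pi, by positivity, fun U hU N a => ?_⟩
  have hU0 : 0 < U := by linarith
  have hpi : 0 < 2 * Real.pi := by positivity
  simp_rw [gal_A_eq]
  obtain ⟨hm, hp⟩ := Pool.Agent.H43.SI.plancherel (gal_A (1 / U) N a) (gal_int _ _ _) (gal_mem _ _ _)
  have hI : Integrable fun ξ : ℝ => ‖𝓕 (gal_A (1 / U) N a) ξ‖ ^ 2 :=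
    (memLp_two_iff_integrable_sq_norm hm.1).1 hm
  have hI2 : Integrable fun t : ℝ => ‖𝓕 (gal_A (1 / U) N a) (t / (2 * Real.pi))‖ ^ 2 :=
    hI.comp_div hpi.ne'
  have hsc : ∫ t : ℝ, ‖𝓕 (gal_A (1 / U) N a) (t / (2 * Real.pi))‖ ^ 2 =
      2 * Real.pi * ∫ v : ℝ, ‖gal_A (1 / U) N a v‖ ^ 2 := by
    rw [← hp]
    have := Measure.integral_comp_div (fun ξ : ℝ => ‖𝓕 (gal_A (1 / U) N a) ξ‖ ^ 2) (2 * Real.pi)
    rw [this, abs_of_pos hpi, smul_eq_mul]
  have hpt : ∀ t ∈ Set.Icc (-U) U, ‖∑ n ∈ Icc 1 N, a n * (n : ℂ) ^ (-((t : ℂ) * I))‖ ^ 2 ≤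
      4 * U ^ 2 * ‖𝓕 (gal_A (1 / U) N a) (t / (2 * Real.pi))‖ ^ 2 := by
    intro t ht
    rw [gal_fourier _ (by positivity), norm_mul]
    have h1 : ∑ n ∈ Icc 1 N, a n * Complex.exp (((-2 * Real.pi * Real.log n * (t / (2 * Real.pi)) : ℝ) : ℂ) * I) =
        ∑ n ∈ Icc 1 N, a n * (n : ℂ) ^ (-((t : ℂ) * I)) := by
      refine sum_congr rfl fun n hn => ?_
      rw [mem_Icc] at hn
      have hn0 : (n : ℂ) ≠ 0 := by
        exact_mod_cast (by omega : n ≠ 0)
      rw [Complex.cpow_def_of_ne_zero hn0, ← Complex.natCast_log]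
      congr 2
      have : -2 * Real.pi * Real.log n * (t / (2 * Real.pi)) = -(Real.log n * t) := by
        field_simp
      rw [this]
      push_cast
      ring
    rw [h1]
    have h2 := gal_kappa hU (abs_le.2 ht)
    set K := ‖∫ u in (0 : ℝ)..(1 / U), Complex.exp (((2 * Real.pi * u * (t / (2 * Real.pi)) : ℝ) : ℂ) * I)‖ with hK
    set S := ‖∑ n ∈ Icc 1 N, a n * (n : ℂ) ^ (-((t : ℂ) * I))‖ with hS
    have hS0 : 0 ≤ S := norm_nonneg _
    have h3 : (1 / (2 * U)) ^ 2 ≤ K ^ 2 := pow_le_pow_left₀ (by positivity) h2 2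
    have h4 : 1 ≤ 4 * U ^ 2 * K ^ 2 := by
      have : (1 : ℝ) = 4 * U ^ 2 * (1 / (2 * U)) ^ 2 := by
        field_simp
        ring
      rw [this]
      exact mul_le_mul_of_nonneg_left h3 (by positivity)
    calc S ^ 2 = S ^ 2 * 1 := by ring
      _ ≤ S ^ 2 * (4 * U ^ 2 * K ^ 2) := mul_le_mul_of_nonneg_left h4 (by positivity)
      _ = 4 * U ^ 2 * (S * K) ^ 2 := by ring
  calc ∫ t in (-U)..U, ‖∑ n ∈ Icc 1 N, a n * (n : ℂ) ^ (-((t : ℂ) * I))‖ ^ 2
      ≤ ∫ t in (-U)..U, 4 * U ^ 2 * ‖𝓕 (gal_A (1 / U) N a) (t / (2 * Real.pi))‖ ^ 2 := by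
        refine intervalIntegral.integral_mono_on (by linarith) ?_ ?_ hpt
        · refine Continuous.intervalIntegrable ?_ _ _
          refine (continuous_finsetSum _ fun n hn => ?_).norm.pow 2
          rw [mem_Icc] at hn
          have hn0 : (n : ℂ) ≠ 0 := by
            exact_mod_cast (by omega : n ≠ 0)
          refine continuous_const.mul ?_
          exact Continuous.const_cpow (by fun_prop) (Or.inl hn0)
        · exact (hI2.const_mul _).intervalIntegrable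
    _ = 4 * U ^ 2 * ∫ t in (-U)..U, ‖𝓕 (gal_A (1 / U) N a) (t / (2 * Real.pi))‖ ^ 2 := by
        rw [intervalIntegral.integral_const_mul]
    _ ≤ 4 * U ^ 2 * ∫ t : ℝ, ‖𝓕 (gal_A (1 / U) N a) (t / (2 * Real.pi))‖ ^ 2 := by
        refine mul_le_mul_of_nonneg_left ?_ (by positivity)
        rw [intervalIntegral.integral_of_le (by linarith)]
        exact setIntegral_le_integral hI2 (Filter.Eventually.of_forall fun t => by positivity)
    _ = _ := by
        rw [hsc]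
        ring

end Pool.Agent.H48.WN
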