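import Pool.Agent.H48.WN.Defs

/-!
# [H48 WN IDN] the exact identity

PROOF. Left side: double sum over `n, m ∈ Icc 1 N` of `Lam(n) φ((log m + log n)/L) (nm)^(-s)` (`(n:ℂ)^(-s) (m:ℂ)^(-s) = ((nm : ℕ):ℂ)^(-s)`,
`Complex.natCast_mul_natCast_cpow`). With `k = nm`: if `k > N ≥ T^B` then `log k / L ≥ B` and `φ = 0`; so only `k ≤ N` count, and every
factorisation `k = n m` of `k ≤ N` has `n, m ∈ Icc 1 N`. So it is `sum_{k ≤ N} φ(log k/L) k^(-s) sum_{n | k} Lam(n)` and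
`sum_{n | k} Lam(n) = log k` (`ArithmeticFunction.vonMangoldt_sum`).
-/

set_option autoImplicit false

namespace Pool.Agent.H48.WN

open Complex MeasureTheory Finset

theorem idn (φ : ℝ → ℝ) (B T : ℝ) (hT : 1 < T) (hφ : ∀ u, B ≤ u → φ u = 0) (N : ℕ) (hN : T ^ B ≤ N) (s : ℂ) :
    ∑ n ∈ Icc 1 N, La n * (n : ℂ) ^ (-s) *
      Dp (fun _ => 1) (fun u => φ (u + Real.log n / Real.log T)) T N s =
    Dp (fun n => ((Real.log n : ℝ) : ℂ)) φ T N s := by
  classical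
  have hL : 0 < Real.log T := Real.log_pos hT
  obtain ⟨g, hg⟩ : ∃ g : ℕ → ℕ → ℂ, ∀ n m, g n m = La n * ((φ (Real.log ((n * m : ℕ) : ℝ) / Real.log T) : ℝ) : ℂ) *
      ((n * m : ℕ) : ℂ) ^ (-s) := ⟨_, fun _ _ => rfl⟩
  have h1 : ∀ n ∈ Icc 1 N, La n * (n : ℂ) ^ (-s) *
      Dp (fun _ => 1) (fun u => φ (u + Real.log n / Real.log T)) T N s = ∑ m ∈ Icc 1 N, g n m := by
    intro n hn
    have hn1 : 1 ≤ n := (mem_Icc.1 hn).1
    unfold Dp
    rw [mul_sum]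
    refine sum_congr rfl fun m hm => ?_
    have hm1 : 1 ≤ m := (mem_Icc.1 hm).1
    rw [hg]
    have h2 : Real.log ((n * m : ℕ) : ℝ) / Real.log T = Real.log m / Real.log T + Real.log n / Real.log T := by
      have hn0 : (n : ℝ) ≠ 0 := by positivity
      have hm0 : (m : ℝ) ≠ 0 := by positivity
      push_cast
      rw [Real.log_mul hn0 hm0]
      ring
    have h3 : ((n * m : ℕ) : ℂ) ^ (-s) = (n : ℂ) ^ (-s) * (m : ℂ) ^ (-s) := by
      push_cast
      exact Complex.natCast_mul_natCast_cpow n m (-s)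
    rw [h2, h3]
    ring
  rw [sum_congr rfl h1, ← sum_product' (Icc 1 N) (Icc 1 N) g]
  have hz : ∀ n m : ℕ, N < n * m → g n m = 0 := by
    intro n m hnm
    rw [hg, hφ _ ?_]
    · simp
    · rw [le_div_iff₀ hL]
      have h4 : T ^ B ≤ ((n * m : ℕ) : ℝ) := hN.trans (by exact_mod_cast hnm.le)
      have h5 := Real.log_le_log (by positivity) h4
      rwa [Real.log_rpow (by linarith)] at h5
  have h2 : ∑ p ∈ Icc 1 N ×ˢ Icc 1 N, g p.1 p.2 =
      ∑ p ∈ (Icc 1 N ×ˢ Icc 1 N).filter (fun p => p.1 * p.2 ∈ Icc 1 N), g p.1 p.2 := by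
    symm
    apply sum_subset (filter_subset _ _)
    intro p hp hp2
    rw [mem_filter, not_and] at hp2
    have h3 := hp2 hp
    rw [mem_product, mem_Icc, mem_Icc] at hp
    apply hz
    rw [mem_Icc] at h3
    by_contra h4
    exact h3 ⟨Nat.mul_pos hp.1.1 hp.2.1, not_lt.1 h4⟩
  have hmt : ∀ p ∈ (Icc 1 N ×ˢ Icc 1 N).filter (fun p => p.1 * p.2 ∈ Icc 1 N),
      (fun p : ℕ × ℕ => p.1 * p.2) p ∈ Icc 1 N := fun p hp => (mem_filter.1 hp).2
  rw [h2, ← sum_fiberwise_of_maps_to hmt]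
  unfold Dp
  refine sum_congr rfl fun k hk => ?_
  have hk1 := mem_Icc.1 hk
  have h3 : ((Icc 1 N ×ˢ Icc 1 N).filter (fun p => p.1 * p.2 ∈ Icc 1 N)).filter
      (fun p => p.1 * p.2 = k) = k.divisorsAntidiagonal := by
    ext p
    rw [mem_filter, mem_filter, mem_product, mem_Icc, mem_Icc, Nat.mem_divisorsAntidiagonal]
    constructor
    · rintro ⟨-, h⟩
      exact ⟨h, by omega⟩
    · rintro ⟨h, -⟩
      have h4 : 0 < p.1 * p.2 := by omega
      have h5 : 0 < p.1 := Nat.pos_of_mul_pos_right h4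
      have h6 : 0 < p.2 := Nat.pos_of_mul_pos_left h4
      have h7 : p.1 ≤ p.1 * p.2 := Nat.le_mul_of_pos_right _ h6
      have h8 : p.2 ≤ p.1 * p.2 := Nat.le_mul_of_pos_left _ h5
      exact ⟨⟨⟨⟨h5, by omega⟩, ⟨h6, by omega⟩⟩, by rw [h]; exact hk⟩, h⟩
  rw [h3]
  have h4 : ∀ p ∈ k.divisorsAntidiagonal, g p.1 p.2 =
      La p.1 * (((φ (Real.log k / Real.log T) : ℝ) : ℂ) * (k : ℂ) ^ (-s)) := by
    intro p hp
    rw [hg, (Nat.mem_divisorsAntidiagonal.1 hp).1]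
    ring
  rw [sum_congr rfl h4, ← sum_mul, Nat.sum_divisorsAntidiagonal (fun n _ => La n)]
  have h5 : ∑ n ∈ k.divisors, La n = ((Real.log k : ℝ) : ℂ) := by
    unfold La
    rw [← ArithmeticFunction.vonMangoldt_sum]
    push_cast
    rfl
  rw [h5]
  ring

end Pool.Agent.H48.WN
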