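import Mathlib

/-!
# [H48 WN KER] a smooth compactly supported function as a Fourier integral with rapidly decreasing kernel

PROOF. `f = φ` (complex valued) is a Schwartz function (`HasCompactSupport.toSchwartzMap`); its Fourier transform `F f` is a Schwartz
function and Fourier inversion holds: `f(u) = int (F f)(ξ) e^(2π i u ξ) dξ`. Put `K(y) = (2π)^(-1) (F f)(-y/(2π))`; substitution
`ξ = -y/(2π)`. Decay: Schwartz function (`SchwartzMap.decay` for `k = 0, A`, with `(1+|y|)^A ≤ 2^A (1 + |y|^A)`).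
-/

set_option autoImplicit false

namespace Pool.Agent.H48.WN

open Complex MeasureTheory Finset

open scoped FourierTransform SchwartzMap in
theorem ker (φ : ℝ → ℝ) (hφ : ContDiff ℝ (⊤ : ℕ∞) φ) (hc : HasCompactSupport φ) :
    ∃ K : ℝ → ℂ, Continuous K ∧ Integrable K ∧
      (∀ u : ℝ, ((φ u : ℝ) : ℂ) = ∫ y : ℝ, K y * cexp (-(I * (u : ℂ) * (y : ℂ)))) ∧
      ∀ A : ℕ, ∃ C : ℝ, ∀ y : ℝ, ‖K y‖ ≤ C * (1 + |y|) ^ (-(A : ℝ)) := by
  have hc' : HasCompactSupport (fun u => ((φ u : ℝ) : ℂ)) := hc.comp_left Complex.ofReal_zero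
  have hφ' : ContDiff ℝ (⊤ : ℕ∞) (fun u => ((φ u : ℝ) : ℂ)) := Complex.ofRealCLM.contDiff.comp hφ
  obtain ⟨f, hf⟩ : ∃ f : 𝓢(ℝ, ℂ), ∀ u, f u = ((φ u : ℝ) : ℂ) := ⟨hc'.toSchwartzMap hφ', fun _ => rfl⟩
  obtain ⟨g, hg⟩ : ∃ g : 𝓢(ℝ, ℂ), 𝓕 g = f := ⟨𝓕⁻ f, FourierTransform.fourier_fourierInv_eq f⟩
  have hpi : 0 < 2 * Real.pi := Real.two_pi_pos
  have hcont : Continuous (fun y : ℝ => ((2 * Real.pi : ℝ) : ℂ)⁻¹ * g (y / (2 * Real.pi))) :=
    continuous_const.mul (g.continuous.comp (by fun_prop))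
  refine ⟨fun y => ((2 * Real.pi : ℝ) : ℂ)⁻¹ * g (y / (2 * Real.pi)), hcont, ?_, ?_, ?_⟩
  · exact (g.integrable.comp_div hpi.ne').const_mul _
  · intro u
    rw [← hf u, ← hg]
    show 𝓕 (g : ℝ → ℂ) u = _
    rw [Real.fourier_real_eq_integral_exp_smul]
    have h1 := Measure.integral_comp_div (fun v : ℝ => cexp (((-2 * Real.pi * v * u : ℝ) : ℂ) * I) • g v)
      (2 * Real.pi)
    have h2 : (∫ v : ℝ, cexp (((-2 * Real.pi * v * u : ℝ) : ℂ) * I) • g v) =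
        ((2 * Real.pi : ℝ) : ℂ)⁻¹ * ∫ x : ℝ, (fun v : ℝ => cexp (((-2 * Real.pi * v * u : ℝ) : ℂ) * I) • g v)
          (x / (2 * Real.pi)) := by
      rw [h1, abs_of_pos hpi, Complex.real_smul, ← mul_assoc, inv_mul_cancel₀, one_mul]
      exact_mod_cast hpi.ne'
    rw [h2, ← integral_const_mul]
    refine integral_congr_ae (Filter.Eventually.of_forall fun y => ?_)
    have h3 : ((-2 * Real.pi * (y / (2 * Real.pi)) * u : ℝ) : ℂ) * I = -(I * (u : ℂ) * (y : ℂ)) := by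
      have h4 : (-2 * Real.pi * (y / (2 * Real.pi)) * u : ℝ) = -(y * u) := by
        field_simp
      rw [h4]
      push_cast
      ring
    show ((2 * Real.pi : ℝ) : ℂ)⁻¹ * (cexp (((-2 * Real.pi * (y / (2 * Real.pi)) * u : ℝ) : ℂ) * I) •
      g (y / (2 * Real.pi))) = _
    rw [h3, smul_eq_mul]
    ring
  · intro A
    obtain ⟨C, hC⟩ : ∃ C : ℝ, ∀ x : ℝ, (1 + |x|) ^ A * ‖g x‖ ≤ C := by
      refine ⟨2 ^ A * (Finset.Iic ((A, 0) : ℕ × ℕ)).sup (fun m => SchwartzMap.seminorm ℝ m.1 m.2) g,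
        fun x => ?_⟩
      have h1 := SchwartzMap.one_add_le_sup_seminorm_apply (𝕜 := ℝ) (m := (A, 0)) (k := A) (n := 0)
        le_rfl le_rfl g x
      rw [norm_iteratedFDeriv_zero, Real.norm_eq_abs] at h1
      exact h1
    refine ⟨(2 * Real.pi)⁻¹ * ((2 * Real.pi) ^ A * C), fun y => ?_⟩
    have h1 := hC (y / (2 * Real.pi))
    have hy : 0 < 1 + |y| := by positivity
    have h2 : (1 + |y|) ^ A ≤ (2 * Real.pi) ^ A * (1 + |y / (2 * Real.pi)|) ^ A := by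
      rw [← mul_pow]
      apply pow_le_pow_left₀ hy.le
      rw [abs_div, abs_of_pos hpi, mul_add, mul_div_cancel₀ _ hpi.ne']
      have := Real.pi_gt_three
      linarith
    have h3 : ‖g (y / (2 * Real.pi))‖ * (1 + |y|) ^ A ≤ (2 * Real.pi) ^ A * C := by
      calc ‖g (y / (2 * Real.pi))‖ * (1 + |y|) ^ A
          ≤ ‖g (y / (2 * Real.pi))‖ * ((2 * Real.pi) ^ A * (1 + |y / (2 * Real.pi)|) ^ A) := by gcongr
        _ = (2 * Real.pi) ^ A * ((1 + |y / (2 * Real.pi)|) ^ A * ‖g (y / (2 * Real.pi))‖) := by ring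
        _ ≤ (2 * Real.pi) ^ A * C := by gcongr
    rw [norm_mul, norm_inv, Complex.norm_real, Real.norm_eq_abs, abs_of_pos hpi, Real.rpow_neg hy.le,
      Real.rpow_natCast, mul_assoc]
    gcongr
    rw [← div_eq_mul_inv, le_div_iff₀ (by positivity)]
    exact h3

end Pool.Agent.H48.WN
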