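import Pool.Agent.H48.WN.Main1
import Pool.Agent.H48.WN.Tra

/-!
# [H48 WN MAIN2] every exponent

PROOF. `λ = 1 - θ ∈ (0, 3/4]`, `r = sqrt(1 + λ^2)`, `q = λ + r - 1 > 0`, `b = 1/q`. `q ≤ 1` iff `r ≤ 2 - λ` iff `1 + λ^2 ≤ 4 - 4λ + λ^2` iff `λ ≤ 3/4`: so `b ≥ 1`. Put `θa = 1 - q = 1 + θ - r ≥ 0`,
`θc = 1 - 1/(b+1) = 1 - q/(1+q)`. Then `θa + θc = 2θ`: `q + q/(1+q) = 2λ` iff `q^2 + 2q = 2λ + 2λ q`, and with `q = λ + r - 1`: `q^2 + 2q - 2λ q - 2λ = (q + 1 - λ)^2 - (1-λ)^2 - 2λ = r^2 - 1 - λ^2 = 0`. ok.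
Also `θa ≤ θ ≤ θc`. Let `ε1 > 0` be small (`ε1 = ε/100` times a constant depending on `θ`: below all errors are `O(ε1)` in the exponent of `X`).
Given `Y` large, `T = Y^(1/b)`; `main1` with `b, ε1`: `X0, H0`, `Y = T^b ≤ X0 ≤ T^(b+1+ε1)`, `X0 ≤ H0 T ≤ 64 X0`, `S = sum EI^2 ≥ X0 H0 T^(-ε1)`. `T = X0^(1/α)`, `α ∈ [b, b+1+ε1]`, `H0 = c X0^(1 - 1/α)`, `1 ≤ c ≤ 64`, so
`X0^(θa) ≤ H0 ≤ 64 X0^(1 - 1/(b+1+ε1)) ≤ X0^(θc + ε2)`, `ε2 → 0` with `ε1`. `M = ⌊X0^θ/4⌋` (`≥ 1`, `≤ X0`; with the factor 4 the final `H ≤ 2M ≤ X0^θ/2 ≤ X'^θ`, and `H ≥ M ≥ X0^θ/8 ≥ X'^(θ-ε)`).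
Case `H0 ≤ M`: `tra_up` with `m = H0`: `sum ≥ S/8 ≥ X0^(1 + θa - 2ε1) ≥ X'^(1+θa-ε)`. Case `H0 > M` (and `H0 ≤ X0`): `tra_down` with `m = H0`: `sum ≥ S M^2/(2 H0^2) ≥ X0 M^2 T^(-ε1)/(2 H0) ≥
X0^(1 + 2θ - θc - ε2 - 2ε1) = X0^(1 + θa - ..)`. `X' ≤ 2 X0 ≤ 2 Y^((b+1+ε1)/b) ≤ Y^C`, `X' ≥ X0 ≥ Y`. The exponent: `1 + θa = 2 + θ - sqrt(1 + (1-θ)^2)`.
-/

set_option autoImplicit false

namespace Pool.Agent.H48.WN

open Complex MeasureTheory Finset

private theorem m2_up {x X' e ε : ℝ} (hx : 1 ≤ x) (h1 : x ≤ X') (h2 : X' ≤ 2 * x) (he : 0 ≤ e)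
    (he2 : e ≤ 2) (hε : 0 ≤ ε) : X' ^ (e - ε) ≤ 4 * x ^ (e - ε) := by
  have hx0 : 0 < x := by linarith
  have hX0 : 0 < X' := by linarith
  rw [sub_eq_add_neg, Real.rpow_add hX0, Real.rpow_add hx0]
  have h3 : X' ^ e ≤ 4 * x ^ e := by
    calc X' ^ e ≤ (2 * x) ^ e := Real.rpow_le_rpow hX0.le h2 he
      _ = 2 ^ e * x ^ e := Real.mul_rpow (by norm_num) hx0.le
      _ ≤ 4 * x ^ e := by
          refine mul_le_mul_of_nonneg_right ?_ (by positivity)
          calc (2 : ℝ) ^ e ≤ 2 ^ (2 : ℝ) := Real.rpow_le_rpow_of_exponent_le (by norm_num) he2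
            _ = 4 := by norm_num
  have h4 : X' ^ (-ε) ≤ x ^ (-ε) := Real.rpow_le_rpow_of_nonpos hx0 h1 (by linarith)
  calc X' ^ e * X' ^ (-ε) ≤ (4 * x ^ e) * x ^ (-ε) :=
        mul_le_mul h3 h4 (by positivity) (by positivity)
    _ = _ := by ring

theorem main2 (θ : ℝ) (hθ : 1 / 4 ≤ θ) (hθ1 : θ < 1) (ε : ℝ) (hε : 0 < ε) : ∃ C Y0 : ℝ, 1 ≤ C ∧ 1 ≤ Y0 ∧
    ∀ Y : ℝ, Y0 ≤ Y → ∃ X H : ℕ, Y ≤ X ∧ (X : ℝ) ≤ Y ^ C ∧ (X : ℝ) ^ (θ - ε) ≤ H ∧ (H : ℝ) ≤ (X : ℝ) ^ θ ∧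
      (X : ℝ) ^ (2 + θ - Real.sqrt (1 + (1 - θ) ^ 2) - ε) ≤ ∑ n ∈ Ioc X (2 * X), (EI n H) ^ 2 := by
  obtain ⟨r, hr⟩ : ∃ r : ℝ, r = Real.sqrt (1 + (1 - θ) ^ 2) := ⟨_, rfl⟩
  have hr2 : r ^ 2 = 1 + (1 - θ) ^ 2 := by
    rw [hr, Real.sq_sqrt (by positivity)]
  have hr0 : 0 ≤ r := by
    rw [hr]
    exact Real.sqrt_nonneg _
  have hr1 : 1 ≤ r := by nlinarith
  have hrt : r ≤ 1 + θ := by nlinarith
  obtain ⟨q, hq⟩ : ∃ q : ℝ, q = r - θ := ⟨_, rfl⟩
  have hq0 : 0 < q := by rw [hq]; linarith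
  have hq1 : q ≤ 1 := by rw [hq]; linarith
  obtain ⟨b, hb⟩ : ∃ b : ℝ, b = 1 / q := ⟨_, rfl⟩
  have hb0 : 0 < b := by rw [hb]; positivity
  have hbq : b * q = 1 := by rw [hb]; field_simp
  have hb1 : 1 ≤ b := by rw [hb, le_div_iff₀ hq0]; linarith
  have hE : 2 + θ - Real.sqrt (1 + (1 - θ) ^ 2) = 2 - q := by
    rw [← hr, hq]
    ring
  have hid : 2 * θ + 1 / (b + 1) = 2 - q := by
    have h1 : 1 / (b + 1) = q / (1 + q) := by
      rw [hb]
      field_simp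
    rw [h1]
    have h2 : (1 + q) ≠ 0 := by positivity
    field_simp
    rw [hq]
    linear_combination hr2
  obtain ⟨ε1, hε1⟩ : ∃ ε1 : ℝ, ε1 = min (ε / 2) (1 / 2) := ⟨_, rfl⟩
  have he0 : 0 < ε1 := by rw [hε1]; exact lt_min (by linarith) (by norm_num)
  have he1 : ε1 ≤ ε / 2 := by rw [hε1]; exact min_le_left _ _
  have he2 : ε1 ≤ 1 / 2 := by rw [hε1]; exact min_le_right _ _
  obtain ⟨T0, hT01, hmain⟩ := main1 b ε1 hb1 he0
  refine ⟨4, max ((max T0 64) ^ b) (max 2 (max ((32768 : ℝ) ^ (2 / ε)) ((8 : ℝ) ^ (1 / θ)))),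
    by norm_num, le_max_of_le_right (le_max_of_le_left (by norm_num)), ?_⟩
  intro Y hY
  rw [max_le_iff, max_le_iff, max_le_iff] at hY
  obtain ⟨hY1, hY2, hY3, hY4⟩ := hY
  have hY0 : 0 < Y := by linarith
  obtain ⟨T, hT⟩ : ∃ T : ℝ, T = Y ^ q := ⟨_, rfl⟩
  have hT64 : max T0 64 ≤ T := by
    have h1 : ((max T0 64) ^ b) ^ q ≤ Y ^ q := Real.rpow_le_rpow (by positivity) hY1 hq0.le
    rw [← Real.rpow_mul (by positivity), hbq, Real.rpow_one] at h1
    rw [hT]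
    exact h1
  have hT0 : 0 < T := by
    rw [hT]
    positivity
  have hT1 : 1 ≤ T := by
    have := (le_max_right T0 64).trans hT64
    linarith
  have hT64' : 64 ≤ T := (le_max_right T0 64).trans hT64
  obtain ⟨X0, H0, hXa, hXb, hXc, hXd, hS⟩ := hmain T ((le_max_left T0 64).trans hT64)
  have hTb : T ^ b = Y := by
    rw [hT, ← Real.rpow_mul hY0.le, mul_comm q b, hbq, Real.rpow_one]
  obtain ⟨x, hx⟩ : ∃ x : ℝ, x = (X0 : ℝ) := ⟨_, rfl⟩
  rw [← hx] at hXa hXb hXc hXd hS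
  have hYx : Y ≤ x := by rw [← hTb]; exact hXa
  have hx1 : 1 ≤ x := by linarith
  have hx0 : 0 < x := by linarith
  have hX2 : 2 ≤ X0 := by
    have : (2 : ℝ) ≤ X0 := by rw [← hx]; linarith
    exact_mod_cast this
  have hTle : T ≤ x ^ q := by
    have h1 : (T ^ b) ^ q ≤ x ^ q := Real.rpow_le_rpow (by positivity) hXa hq0.le
    rwa [← Real.rpow_mul hT0.le, hbq, Real.rpow_one] at h1
  have hbe : 0 < b + 1 + ε1 := by positivity
  have hTge : x ^ (1 / (b + 1 + ε1)) ≤ T := by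
    have h1 : x ^ (1 / (b + 1 + ε1)) ≤ (T ^ (b + 1 + ε1)) ^ (1 / (b + 1 + ε1)) :=
      Real.rpow_le_rpow hx0.le hXb (by positivity)
    rwa [← Real.rpow_mul hT0.le, mul_one_div, div_self hbe.ne', Real.rpow_one] at h1
  have hxe : (32768 : ℝ) ≤ x ^ (ε / 2) := by
    have h1 : ((32768 : ℝ) ^ (2 / ε)) ^ (ε / 2) ≤ x ^ (ε / 2) :=
      Real.rpow_le_rpow (by positivity) (hY3.trans hYx) (by positivity)
    have h2 : 2 / ε * (ε / 2) = 1 := by field_simp
    rwa [← Real.rpow_mul (by norm_num), h2, Real.rpow_one] at h1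
  have hθ0 : 0 < θ := by linarith
  have hx8 : (8 : ℝ) ≤ x ^ θ := by
    have h1 : ((8 : ℝ) ^ (1 / θ)) ^ θ ≤ x ^ θ :=
      Real.rpow_le_rpow (by positivity) (hY4.trans hYx) hθ0.le
    have h2 : 1 / θ * θ = 1 := by field_simp
    rwa [← Real.rpow_mul (by norm_num), h2, Real.rpow_one] at h1
  -- the length
  obtain ⟨M, hM⟩ : ∃ M : ℕ, M = ⌊x ^ θ / 4⌋₊ := ⟨_, rfl⟩
  have hM1 : (M : ℝ) ≤ x ^ θ / 4 := by
    rw [hM]
    exact Nat.floor_le (by positivity)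
  have hM2 : x ^ θ / 8 ≤ (M : ℝ) := by
    have h1 : x ^ θ / 4 < (M : ℝ) + 1 := by
      rw [hM]
      exact Nat.lt_floor_add_one _
    linarith
  have hMpos : 1 ≤ M := by
    have h1 : (1 : ℝ) ≤ M := by linarith
    exact_mod_cast h1
  have hMX : M ≤ X0 := by
    have h1 : (M : ℝ) ≤ X0 := by
      rw [← hx]
      have h2 : x ^ θ ≤ x ^ (1 : ℝ) := Real.rpow_le_rpow_of_exponent_le hx1 hθ1.le
      rw [Real.rpow_one] at h2
      linarith
    exact_mod_cast h1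
  have hH0X : H0 ≤ X0 := by
    have h1 : (H0 : ℝ) ≤ X0 := by
      rw [← hx]
      have h2 : (H0 : ℝ) * 64 ≤ H0 * T := mul_le_mul_of_nonneg_left hT64' (Nat.cast_nonneg _)
      linarith
    exact_mod_cast h1
  -- the lower bound
  have key : ∃ X' H : ℕ, (X' = X0 ∨ X' = 2 * X0) ∧ M ≤ H ∧ H ≤ 2 * M ∧
      x ^ (2 - q - ε1) / 8192 ≤ ∑ n ∈ Ioc X' (2 * X'), (EI n H) ^ 2 := by
    rcases le_or_gt H0 M with hc | hc
    · obtain ⟨X', H, h1, h2, h3, h4⟩ := tra_up X0 H0 M hX2 hc hMX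
      refine ⟨X', H, h1, h2, h3, le_trans ?_ h4⟩
      have h5 : x ^ (2 - q - ε1) ≤ x * H0 * T ^ (-ε1) := by
        have h6 : x / T ≤ H0 := by
          rw [div_le_iff₀ hT0]
          exact hXc
        calc x ^ (2 - q - ε1) ≤ x ^ (2 - q * (1 + ε1)) := by
              refine Real.rpow_le_rpow_of_exponent_le hx1 ?_
              have h20 : q * ε1 ≤ 1 * ε1 := mul_le_mul_of_nonneg_right hq1 he0.le
              linarith
          _ = x ^ (2 : ℝ) * (x ^ q) ^ (-(1 + ε1)) := by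
              rw [← Real.rpow_mul hx0.le, ← Real.rpow_add hx0]
              congr 1
              ring
          _ ≤ x ^ (2 : ℝ) * T ^ (-(1 + ε1)) := by
              refine mul_le_mul_of_nonneg_left ?_ (by positivity)
              exact Real.rpow_le_rpow_of_nonpos hT0 hTle (by linarith)
          _ = x * (x / T) * T ^ (-ε1) := by
              have h7 : T ^ (-(1 + ε1)) = T⁻¹ * T ^ (-ε1) := by
                rw [neg_add, Real.rpow_add hT0, Real.rpow_neg_one]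
              rw [h7, Real.rpow_two]
              field_simp
          _ ≤ x * H0 * T ^ (-ε1) := by
              refine mul_le_mul_of_nonneg_right ?_ (by positivity)
              exact mul_le_mul_of_nonneg_left h6 hx0.le
      have h8 : 0 ≤ x ^ (2 - q - ε1) := by positivity
      have h9 := h5.trans hS
      linarith
    · obtain ⟨X', H, h1, h2, h3, h4⟩ := tra_down X0 H0 M hX2 hMpos hc.le hH0X
      refine ⟨X', H, h1, h2, h3, le_trans ?_ h4⟩
      have hMr : 0 < (M : ℝ) := by exact_mod_cast hMpos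
      have hHr : 0 < (H0 : ℝ) := by
        have : 0 < H0 := by omega
        exact_mod_cast this
      have h5 : x ^ (2 - q - ε1) / 8192 ≤ (x * H0 * T ^ (-ε1)) / (2 * ((H0 : ℝ) / M) ^ 2) := by
        have h6 : (x * H0 * T ^ (-ε1)) / (2 * ((H0 : ℝ) / M) ^ 2) =
            x * T ^ (-ε1) * (M : ℝ) ^ 2 / (2 * H0) := by
          field_simp
        rw [h6, le_div_iff₀ (by positivity)]
        have h7 : x ^ (2 - q - ε1) ≤ x ^ (2 * θ) * T ^ (1 - ε1) := by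
          calc x ^ (2 - q - ε1) ≤ x ^ (2 * θ + 1 / (b + 1 + ε1) * (1 - ε1)) := by
                refine Real.rpow_le_rpow_of_exponent_le hx1 ?_
                have h8 : 1 / (b + 1) - ε1 ≤ 1 / (b + 1 + ε1) * (1 - ε1) := by
                  rw [div_sub' (by positivity), one_div, inv_mul_eq_div,
                    div_le_div_iff₀ (by positivity) hbe]
                  have h20 : 0 ≤ ε1 * ((b - 1) * (b + 2)) :=
                    mul_nonneg he0.le (mul_nonneg (by linarith) (by linarith))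
                  have h21 : 0 ≤ (b + 1) * ε1 ^ 2 := by positivity
                  linarith
                linarith
            _ = x ^ (2 * θ) * (x ^ (1 / (b + 1 + ε1))) ^ (1 - ε1) := by
                rw [← Real.rpow_mul hx0.le, ← Real.rpow_add hx0]
            _ ≤ x ^ (2 * θ) * T ^ (1 - ε1) := by
                refine mul_le_mul_of_nonneg_left ?_ (by positivity)
                exact Real.rpow_le_rpow (by positivity) hTge (by linarith)
        have h9 : x ^ (2 * θ) / 64 ≤ (M : ℝ) ^ 2 := by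
          have h10 : (x ^ θ / 8) ^ 2 ≤ (M : ℝ) ^ 2 := pow_le_pow_left₀ (by positivity) hM2 2
          have h11 : x ^ (2 * θ) = (x ^ θ) ^ 2 := by
            rw [← Real.rpow_natCast, ← Real.rpow_mul hx0.le]
            congr 1
            push_cast
            ring
          rw [h11]
          calc (x ^ θ) ^ 2 / 64 = (x ^ θ / 8) ^ 2 := by ring
            _ ≤ _ := h10
        have h12 : T ^ (1 - ε1) = T * T ^ (-ε1) := by
          rw [sub_eq_add_neg, Real.rpow_add hT0, Real.rpow_one]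
        calc x ^ (2 - q - ε1) / 8192 * (2 * H0)
            ≤ (x ^ (2 * θ) * T ^ (1 - ε1)) / 8192 * (2 * H0) := by
              refine mul_le_mul_of_nonneg_right ?_ (by positivity)
              exact div_le_div_of_nonneg_right h7 (by norm_num)
          _ = x ^ (2 * θ) * T ^ (-ε1) / 4096 * (H0 * T) := by rw [h12]; ring
          _ ≤ x ^ (2 * θ) * T ^ (-ε1) / 4096 * (64 * x) :=
              mul_le_mul_of_nonneg_left hXd (by positivity)
          _ = x * T ^ (-ε1) * (x ^ (2 * θ) / 64) := by ring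
          _ ≤ x * T ^ (-ε1) * (M : ℝ) ^ 2 := mul_le_mul_of_nonneg_left h9 (by positivity)
      exact h5.trans (div_le_div_of_nonneg_right hS (by positivity))
  obtain ⟨X', H, hX', hH1, hH2, hsum⟩ := key
  have hX'1 : x ≤ (X' : ℝ) := by
    rcases hX' with h | h
    · rw [h, hx]
    · rw [h, hx]
      push_cast
      have : (0 : ℝ) ≤ X0 := Nat.cast_nonneg _
      linarith
  have hX'2 : (X' : ℝ) ≤ 2 * x := by
    rcases hX' with h | h
    · rw [h, hx]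
      have : (0 : ℝ) ≤ X0 := Nat.cast_nonneg _
      linarith
    · rw [h, hx]
      push_cast
      exact le_rfl
  have hHM : (M : ℝ) ≤ H := by exact_mod_cast hH1
  have hHM2 : (H : ℝ) ≤ 2 * M := by exact_mod_cast hH2
  refine ⟨X', H, hYx.trans hX'1, ?_, ?_, ?_, ?_⟩
  · have h1 : x ≤ Y ^ (3 : ℝ) := by
      calc x ≤ T ^ (b + 1 + ε1) := hXb
        _ = Y ^ (q * (b + 1 + ε1)) := by rw [hT, ← Real.rpow_mul hY0.le]
        _ ≤ Y ^ (3 : ℝ) := by
            refine Real.rpow_le_rpow_of_exponent_le (by linarith) ?_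
            have h20 : q * ε1 ≤ 1 * ε1 := mul_le_mul_of_nonneg_right hq1 he0.le
            have h21 : q * (b + 1 + ε1) = b * q + q + q * ε1 := by ring
            rw [h21, hbq]
            linarith
    calc (X' : ℝ) ≤ 2 * x := hX'2
      _ ≤ Y * Y ^ (3 : ℝ) := mul_le_mul hY2 h1 hx0.le hY0.le
      _ = Y ^ (4 : ℝ) := by
          rw [← Real.rpow_one_add' hY0.le (by norm_num)]
          norm_num
  · refine (m2_up hx1 hX'1 hX'2 hθ0.le (by linarith) hε.le).trans ?_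
    have h1 : x ^ (θ - ε) * 32768 ≤ x ^ θ := by
      have h2 : x ^ θ = x ^ (θ - ε) * x ^ ε := by
        rw [← Real.rpow_add hx0]
        congr 1
        ring
      rw [h2]
      refine mul_le_mul_of_nonneg_left ?_ (by positivity)
      exact hxe.trans (Real.rpow_le_rpow_of_exponent_le hx1 (by linarith))
    have h3 : 0 ≤ x ^ (θ - ε) := by positivity
    linarith
  · have h1 : x ^ θ ≤ (X' : ℝ) ^ θ := Real.rpow_le_rpow hx0.le hX'1 hθ0.le
    linarith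
  · rw [hE]
    refine le_trans ?_ hsum
    refine (m2_up hx1 hX'1 hX'2 (by linarith) (by linarith) hε.le).trans ?_
    have h1 : x ^ (2 - q - ε) * 32768 ≤ x ^ (2 - q - ε1) := by
      have h2 : x ^ (2 - q - ε1) = x ^ (2 - q - ε) * x ^ (ε - ε1) := by
        rw [← Real.rpow_add hx0]
        congr 1
        ring
      rw [h2]
      refine mul_le_mul_of_nonneg_left ?_ (by positivity)
      exact hxe.trans (Real.rpow_le_rpow_of_exponent_le hx1 (by linarith))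
    linarith

end Pool.Agent.H48.WN
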