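import Pool.Agent.H48.WN.Main1

/-!
# [H48 WN MAIN3] an exponent with full errors in every window `[θ0, 1/(2-θ0)]`

PROOF. `b = 1/(1-θ0) ≥ 1`. For `k = 1, 2, ..` apply `main1` with `b`, `ε = 1/k` and `T = T_k ≥ max(T0(b,1/k), k)`, large enough: `X_k, H_k`; `X_k ≥ T_k^b → ∞`. Put `θ_k = log H_k / log X_k`. As `X_k = T_k^(α_k)`,
`α_k ∈ [b, b+1+1/k]`, `X_k/T_k ≤ H_k ≤ 64 X_k/T_k`: `θ_k = 1 - 1/α_k + O(1/log X_k)`. By compactness (`IsCompact.tendsto_subseq` for `θ_k ∈ [-1, 2]`, say) a subsequence converges to `θ`, and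
`1 - 1/b ≤ θ ≤ 1 - 1/(b+1)`, i.e. `θ0 ≤ θ ≤ 1/(2-θ0)`. For `ε > 0` and `Y`: along the subsequence eventually `X_k ≥ Y`, `|θ_k - θ| ≤ ε/4`, so `X_k^(θ-ε) ≤ H_k ≤ X_k^(θ+ε)`, and
`sum ≥ X_k H_k T_k^(-1/k) ≥ X_k^(1 + θ - ε/4 - 1/k) ≥ X_k^(1+θ-ε)` (`T_k ≤ X_k`).
-/

set_option autoImplicit false

namespace Pool.Agent.H48.WN

open Complex MeasureTheory Finset

theorem main3 (θ0 : ℝ) (h0 : 0 ≤ θ0) (h1 : θ0 < 1) : ∃ θ : ℝ, θ0 ≤ θ ∧ θ ≤ 1 / (2 - θ0) ∧
    ∀ ε : ℝ, 0 < ε → ∀ Y : ℝ, ∃ X H : ℕ, Y ≤ X ∧ (X : ℝ) ^ (θ - ε) ≤ H ∧ (H : ℝ) ≤ (X : ℝ) ^ (θ + ε) ∧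
      (X : ℝ) ^ (1 + θ - ε) ≤ ∑ n ∈ Ioc X (2 * X), (EI n H) ^ 2 := by
  have h10 : 0 < 1 - θ0 := by linarith
  obtain ⟨b, hbdef⟩ : ∃ b : ℝ, b = 1 / (1 - θ0) := ⟨_, rfl⟩
  have hb : 1 ≤ b := by
    rw [hbdef, le_div_iff₀ h10]
    linarith
  have hb0 : 0 < b := by linarith
  have hinv : 1 / b = 1 - θ0 := by rw [hbdef]; field_simp
  have hinv2 : 1 - 1 / (b + 1) = 1 / (2 - θ0) := by
    rw [hbdef]
    have h20 : 2 - θ0 ≠ 0 := by linarith
    have h30 : 1 / (1 - θ0) + 1 = (2 - θ0) / (1 - θ0) := by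
      field_simp
      ring
    rw [h30]
    field_simp
    ring
  have hm := fun k : ℕ => main1 b (1 / ((k : ℝ) + 1)) hb (by positivity)
  choose T0 hT0 hm using hm
  obtain ⟨T, hTdef⟩ : ∃ T : ℕ → ℝ, T = fun k => max (T0 k) ((k : ℝ) + 64) := ⟨_, rfl⟩
  have hTT0 : ∀ k, T0 k ≤ T k := fun k => by rw [hTdef]; exact le_max_left _ _
  have hTk : ∀ k : ℕ, (k : ℝ) + 64 ≤ T k := fun k => by rw [hTdef]; exact le_max_right _ _
  have hm2 := fun k => hm k (T k) (hTT0 k)
  choose X H h1' h2 h3 h4 h5 using hm2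
  have hT64 : ∀ k : ℕ, 64 ≤ T k := fun k => by
    have := hTk k
    have : (0:ℝ) ≤ k := Nat.cast_nonneg k
    linarith
  have hTX : ∀ k, T k ≤ X k := fun k => by
    have a := hT64 k
    calc T k = T k ^ (1 : ℝ) := (Real.rpow_one _).symm
      _ ≤ T k ^ b := Real.rpow_le_rpow_of_exponent_le (by linarith) hb
      _ ≤ X k := h1' k
  have hXpos : ∀ k, (0 : ℝ) < X k := fun k => by
    have a := hT64 k
    have b := hTX k
    linarith
  have hlogX : ∀ k, 0 < Real.log (X k) := fun k => by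
    have a := hT64 k
    have b := hTX k
    exact Real.log_pos (by linarith)
  have hlogT : ∀ k, 0 < Real.log (T k) := fun k => by
    have a := hT64 k
    exact Real.log_pos (by linarith)
  have hHpos : ∀ k, (0 : ℝ) < H k := fun k => by
    have a := h3 k
    have b := hXpos k
    have c := hT64 k
    by_contra hc
    have d : (H k : ℝ) ≤ 0 := not_lt.1 hc
    have e : (H k : ℝ) * T k ≤ 0 := mul_nonpos_of_nonpos_of_nonneg d (by linarith)
    linarith
  obtain ⟨th, hth⟩ : ∃ th : ℕ → ℝ, th = fun k => Real.log (H k) / Real.log (X k) := ⟨_, rfl⟩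
  have hthX : ∀ k, (X k : ℝ) ^ th k = H k := fun k => by
    rw [hth, Real.rpow_def_of_pos (hXpos k)]
    dsimp only
    rw [mul_div_cancel₀ _ (hlogX k).ne', Real.exp_log (hHpos k)]
  have hlow : ∀ k, θ0 ≤ th k := fun k => by
    rw [hth]
    dsimp only
    rw [le_div_iff₀ (hlogX k)]
    have a : Real.log (X k) ≤ Real.log (H k) + Real.log (T k) := by
      rw [← Real.log_mul (hHpos k).ne' (by linarith [hT64 k])]
      exact Real.log_le_log (hXpos k) (h3 k)
    have b1 : b * Real.log (T k) ≤ Real.log (X k) := by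
      rw [← Real.log_rpow (by linarith [hT64 k])]
      exact Real.log_le_log (Real.rpow_pos_of_pos (by linarith [hT64 k]) _) (h1' k)
    have c : Real.log (T k) ≤ (1 - θ0) * Real.log (X k) := by
      rw [← hinv, one_div, inv_mul_eq_div, le_div_iff₀ hb0]
      linarith
    linarith
  obtain ⟨u, hu⟩ : ∃ u : ℕ → ℝ, u = fun k : ℕ =>
      1 - 1 / (b + 1 + 1 / ((k : ℝ) + 1)) + Real.log 64 / Real.log ((k : ℝ) + 64) := ⟨_, rfl⟩
  have hlog64 : 0 < Real.log 64 := Real.log_pos (by norm_num)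
  have hlogk : ∀ k : ℕ, Real.log 64 ≤ Real.log ((k : ℝ) + 64) := fun k =>
    Real.log_le_log (by norm_num) (by
      have : (0:ℝ) ≤ k := Nat.cast_nonneg k
      linarith)
  have hup : ∀ k, th k ≤ u k := fun k => by
    rw [hth, hu]
    dsimp only
    have hk0 : (0:ℝ) ≤ k := Nat.cast_nonneg k
    obtain ⟨B, hB⟩ : ∃ B : ℝ, B = b + 1 + 1 / ((k : ℝ) + 1) := ⟨_, rfl⟩
    have hB0 : 0 < B := by rw [hB]; positivity
    rw [← hB, div_le_iff₀ (hlogX k)]
    have a : Real.log (H k) + Real.log (T k) ≤ Real.log 64 + Real.log (X k) := by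
      rw [← Real.log_mul (hHpos k).ne' (by linarith [hT64 k]),
        ← Real.log_mul (by norm_num) (hXpos k).ne']
      exact Real.log_le_log (mul_pos (hHpos k) (by linarith [hT64 k])) (h4 k)
    have b1 : Real.log (X k) ≤ B * Real.log (T k) := by
      rw [hB, ← Real.log_rpow (by linarith [hT64 k])]
      exact Real.log_le_log (hXpos k) (h2 k)
    have c : 1 / B * Real.log (X k) ≤ Real.log (T k) := by
      rw [one_div, inv_mul_eq_div, div_le_iff₀ hB0]
      linarith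
    have d : Real.log 64 ≤ Real.log 64 / Real.log ((k : ℝ) + 64) * Real.log (X k) := by
      have e : Real.log ((k : ℝ) + 64) ≤ Real.log (X k) :=
        Real.log_le_log (by linarith) ((hTk k).trans (hTX k))
      have f : 0 < Real.log ((k : ℝ) + 64) := hlog64.trans_le (hlogk k)
      rw [div_mul_eq_mul_div, le_div_iff₀ f]
      exact mul_le_mul_of_nonneg_left e hlog64.le
    have e : (1 - 1 / B + Real.log 64 / Real.log ((k : ℝ) + 64)) * Real.log (X k) =
      Real.log (X k) - 1 / B * Real.log (X k) +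
        Real.log 64 / Real.log ((k : ℝ) + 64) * Real.log (X k) := by ring
    rw [e]
    linarith
  have hu2 : ∀ k, u k ≤ 2 := fun k => by
    rw [hu]
    dsimp only
    have hk0 : (0:ℝ) ≤ k := Nat.cast_nonneg k
    have a : 0 < 1 / (b + 1 + 1 / ((k : ℝ) + 1)) := by positivity
    have f : 0 < Real.log ((k : ℝ) + 64) := hlog64.trans_le (hlogk k)
    have c : Real.log 64 / Real.log ((k : ℝ) + 64) ≤ 1 := (div_le_one f).2 (hlogk k)
    linarith
  have hulim : Filter.Tendsto u Filter.atTop (nhds (1 / (2 - θ0))) := by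
    rw [hu, ← hinv2]
    have t1 : Filter.Tendsto (fun k : ℕ => 1 / ((k : ℝ) + 1)) Filter.atTop (nhds 0) :=
      tendsto_one_div_add_atTop_nhds_zero_nat
    have t2 : Filter.Tendsto (fun k : ℕ => 1 - 1 / (b + 1 + 1 / ((k : ℝ) + 1))) Filter.atTop
        (nhds (1 - 1 / (b + 1 + 0))) := by
      refine Filter.Tendsto.const_sub 1 ?_
      refine Filter.Tendsto.div tendsto_const_nhds (t1.const_add (b + 1)) ?_
      have : 0 < b + 1 + 0 := by linarith
      exact this.ne'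
    have t3 : Filter.Tendsto (fun k : ℕ => Real.log ((k : ℝ) + 64)) Filter.atTop Filter.atTop :=
      Real.tendsto_log_atTop.comp
        (Filter.tendsto_atTop_add_const_right _ _ tendsto_natCast_atTop_atTop)
    have t4 : Filter.Tendsto (fun k : ℕ => Real.log 64 / Real.log ((k : ℝ) + 64)) Filter.atTop
        (nhds 0) := t3.const_div_atTop (Real.log 64)
    have t5 := t2.add t4
    rw [add_zero, add_zero] at t5
    exact t5
  obtain ⟨θ, hθmem, φ, hφ, hφlim⟩ := isCompact_Icc.tendsto_subseq (s := Set.Icc (0:ℝ) 2) (x := th)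
    (fun k => ⟨h0.trans (hlow k), (hup k).trans (hu2 k)⟩)
  refine ⟨θ, ?_, ?_, ?_⟩
  · exact ge_of_tendsto' hφlim fun k => hlow (φ k)
  · exact le_of_tendsto_of_tendsto' hφlim (hulim.comp hφ.tendsto_atTop) fun k => hup (φ k)
  · intro ε hε Y
    have e1 : ∀ᶠ k in Filter.atTop, |th (φ k) - θ| < ε / 4 := by
      have := (Metric.tendsto_nhds.1 hφlim) (ε / 4) (by positivity)
      filter_upwards [this] with k hk
      simpa [Real.dist_eq] using hk
    have t1 : Filter.Tendsto (fun k : ℕ => 1 / ((k : ℝ) + 1)) Filter.atTop (nhds 0) :=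
      tendsto_one_div_add_atTop_nhds_zero_nat
    have e2 : ∀ᶠ k in Filter.atTop, 1 / (((φ k : ℕ) : ℝ) + 1) < ε / 4 := by
      have := (t1.comp hφ.tendsto_atTop).eventually_lt_const (show (0:ℝ) < ε / 4 by positivity)
      exact this
    have e3 : ∀ᶠ k in Filter.atTop, Y ≤ ((φ k : ℕ) : ℝ) :=
      (tendsto_natCast_atTop_atTop.comp hφ.tendsto_atTop).eventually_ge_atTop Y
    obtain ⟨k, hk1, hk2, hk3⟩ := (e1.and (e2.and e3)).exists
    obtain ⟨j, hj⟩ : ∃ j, j = φ k := ⟨_, rfl⟩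
    rw [← hj] at hk1 hk2 hk3
    rw [abs_lt] at hk1
    have hX1 : (1:ℝ) ≤ X j := by
      have a := hT64 j
      have b := hTX j
      linarith
    refine ⟨X j, H j, ?_, ?_, ?_, ?_⟩
    · have a := hTk j
      have b := hTX j
      linarith
    · rw [← hthX j]
      exact Real.rpow_le_rpow_of_exponent_le hX1 (by linarith)
    · rw [← hthX j]
      exact Real.rpow_le_rpow_of_exponent_le hX1 (by linarith)
    · refine le_trans ?_ (h5 j)
      have hTpos : 0 < T j := by linarith [hT64 j]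
      have a : (X j : ℝ) ^ (-(1 / ((j : ℝ) + 1))) ≤ T j ^ (-(1 / ((j : ℝ) + 1))) := by
        refine Real.rpow_le_rpow_of_nonpos hTpos (hTX j) ?_
        have : 0 < 1 / ((j : ℝ) + 1) := by positivity
        linarith
      calc (X j : ℝ) ^ (1 + θ - ε) ≤ (X j : ℝ) ^ (1 + th j + -(1 / ((j : ℝ) + 1))) :=
            Real.rpow_le_rpow_of_exponent_le hX1 (by linarith)
        _ = (X j : ℝ) * H j * (X j : ℝ) ^ (-(1 / ((j : ℝ) + 1))) := by
            rw [Real.rpow_add (hXpos j), Real.rpow_add (hXpos j), Real.rpow_one, hthX j]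
        _ ≤ _ := mul_le_mul_of_nonneg_left a (mul_nonneg (hXpos j).le (hHpos j).le)

end Pool.Agent.H48.WN
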