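import Mathlib

/-!
# [H48 WN RCT] Gaussian weight on a thin rectangle

PROOF. `F(s) = cexp((s - s0)^2) q(s)`, `s0 = 1/2 + i t0`, is differentiable on a neighbourhood of the closed rectangle
`[x1, x2] × [t0 - R, t0 + R]` (hypothesis on `q`), so `Complex.integral_boundary_rect_eq_zero_of_differentiableOn` gives
`(int_bottom - int_top) + i int_right - i int_left = 0`. With `s = x + i(t0 + y)`:
`cexp((s-s0)^2) = cexp((x - 1/2 + iy)^2)`, absolute value `exp((x-1/2)^2 - y^2)`; on the horizontal sides `|y| = R`,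
`(x-1/2)^2 ≤ 9/4`, `x2 - x1 ≤ 7/4`, so each horizontal integral is at most `(7/4) e^(9/4 - R^2) B`, `e^(9/4) ≤ 10`,
and `2 · (7/4) · 10 ≤ 40`. (Shift the variable `t = t0 + y` in the vertical integrals.)
-/

set_option autoImplicit false

namespace Pool.Agent.H48.WN

open Complex MeasureTheory Finset

private lemma exp94 : Real.exp (9 / 4) ≤ 10 := by
  have h1 : Real.exp (9 / 4) = Real.exp 1 ^ (9 / 4 : ℝ) := by
    rw [← Real.exp_mul]
    norm_num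
  have h2 : Real.exp (1 / 4) ≤ 1.3125 := by
    have := Real.exp_bound' (x := 1 / 4) (n := 3) (by norm_num) (by norm_num) (by norm_num)
    norm_num [Finset.sum_range_succ, Nat.factorial] at this
    linarith
  have h3 : Real.exp (9 / 4) = Real.exp 1 * Real.exp 1 * Real.exp (1 / 4) := by
    rw [← Real.exp_add, ← Real.exp_add]
    norm_num
  have h4 := Real.exp_one_lt_d9
  have h5 := Real.exp_pos 1
  have h6 := Real.exp_pos (1 / 4)
  rw [h3]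
  nlinarith [mul_le_mul h4.le h4.le h5.le (by norm_num : (0:ℝ) ≤ 2.7182818286)]

private lemma hor (q : ℂ → ℂ) (t0 R x1 x2 B c : ℝ) (h1 : 1 / 4 ≤ x1) (h12 : x1 ≤ x2) (h2 : x2 ≤ 2)
    (hB : 0 ≤ B) (hc : c ^ 2 = R ^ 2)
    (hq : ∀ s : ℂ, x1 ≤ s.re → s.re ≤ x2 → s.im = t0 + c → ‖q s‖ ≤ B) :
    ‖∫ x in x1..x2, cexp (((x : ℂ) + ((t0 + c : ℝ) : ℂ) * I - ((1 / 2 : ℝ) + (t0 : ℂ) * I)) ^ 2) *
      q ((x : ℂ) + ((t0 + c : ℝ) : ℂ) * I)‖ ≤ 20 * Real.exp (-R ^ 2) * B := by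
  have hb : ∀ x ∈ Set.uIoc x1 x2,
      ‖cexp (((x : ℂ) + ((t0 + c : ℝ) : ℂ) * I - ((1 / 2 : ℝ) + (t0 : ℂ) * I)) ^ 2) *
      q ((x : ℂ) + ((t0 + c : ℝ) : ℂ) * I)‖ ≤ 10 * Real.exp (-R ^ 2) * B := by
    intro x hx
    rw [Set.uIoc_of_le h12] at hx
    rw [norm_mul]
    have e1 : ((x : ℂ) + ((t0 + c : ℝ) : ℂ) * I - ((1 / 2 : ℝ) + (t0 : ℂ) * I)) =
        ((x - 1 / 2 : ℝ) : ℂ) + (c : ℂ) * I := by
      push_cast
      ring
    have e2 : ((((x - 1 / 2 : ℝ) : ℂ) + (c : ℂ) * I) ^ 2).re = (x - 1 / 2) ^ 2 - c ^ 2 := by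
      have : (((x - 1 / 2 : ℝ) : ℂ) + (c : ℂ) * I) ^ 2 =
          (((x - 1 / 2) ^ 2 - c ^ 2 : ℝ) : ℂ) + ((2 * (x - 1 / 2) * c : ℝ) : ℂ) * I := by
        push_cast
        have hI : I ^ 2 = -1 := Complex.I_sq
        linear_combination (c : ℂ) ^ 2 * hI
      rw [this, Complex.add_re, Complex.ofReal_re, Complex.re_ofReal_mul, Complex.I_re]
      ring
    have e3 : ‖cexp (((x : ℂ) + ((t0 + c : ℝ) : ℂ) * I - ((1 / 2 : ℝ) + (t0 : ℂ) * I)) ^ 2)‖ ≤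
        10 * Real.exp (-R ^ 2) := by
      rw [e1, Complex.norm_exp, e2, hc]
      have : (x - 1 / 2) ^ 2 - R ^ 2 ≤ 9 / 4 + -R ^ 2 := by nlinarith [hx.1, hx.2]
      calc Real.exp ((x - 1 / 2) ^ 2 - R ^ 2) ≤ Real.exp (9 / 4 + -R ^ 2) := Real.exp_le_exp.mpr this
        _ = Real.exp (9 / 4) * Real.exp (-R ^ 2) := Real.exp_add _ _
        _ ≤ 10 * Real.exp (-R ^ 2) := by
            gcongr
            exact exp94
    have e4 : ‖q ((x : ℂ) + ((t0 + c : ℝ) : ℂ) * I)‖ ≤ B := by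
      apply hq
      · simp
        exact hx.1.le
      · simp
        exact hx.2
      · simp
    exact mul_le_mul e3 e4 (norm_nonneg _) (by positivity)
  have := intervalIntegral.norm_integral_le_of_norm_le_const hb
  refine this.trans ?_
  rw [abs_of_nonneg (by linarith : 0 ≤ x2 - x1)]
  have hE := Real.exp_pos (-R ^ 2)
  have : x2 - x1 ≤ 2 := by linarith
  calc 10 * Real.exp (-R ^ 2) * B * (x2 - x1) ≤ 10 * Real.exp (-R ^ 2) * B * 2 := by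
        apply mul_le_mul_of_nonneg_left this (by positivity)
    _ = 20 * Real.exp (-R ^ 2) * B := by ring

private lemma ver (q : ℂ → ℂ) (t0 R x : ℝ) :
    (∫ y in (t0 - R)..(t0 + R), cexp (((x : ℂ) + (y : ℂ) * I - ((1 / 2 : ℝ) + (t0 : ℂ) * I)) ^ 2) *
      q ((x : ℂ) + (y : ℂ) * I)) =
    ∫ y in (-R)..R, cexp (((x - 1 / 2 : ℝ) + (y : ℂ) * I) ^ 2) * q ((x : ℂ) + ((t0 + y : ℝ) : ℂ) * I) := by
  have key := intervalIntegral.integral_comp_add_left (a := -R) (b := R)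
    (fun y : ℝ => cexp (((x : ℂ) + (y : ℂ) * I - ((1 / 2 : ℝ) + (t0 : ℂ) * I)) ^ 2) *
      q ((x : ℂ) + (y : ℂ) * I)) t0
  rw [show t0 + -R = t0 - R by ring] at key
  rw [← key]
  apply intervalIntegral.integral_congr
  intro y _
  simp only
  congr 3
  push_cast
  ring

theorem rct (q : ℂ → ℂ) (t0 R x1 x2 B : ℝ) (hR : 0 < R) (h1 : 1 / 4 ≤ x1) (h12 : x1 ≤ x2) (h2 : x2 ≤ 2)
    (hq : ∀ s : ℂ, x1 ≤ s.re → s.re ≤ x2 → |s.im - t0| ≤ R → DifferentiableAt ℂ q s ∧ ‖q s‖ ≤ B) :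
    ‖(∫ y in (-R)..R, cexp (((x1 - 1 / 2 : ℝ) + (y : ℂ) * I) ^ 2) * q ((x1 : ℂ) + ((t0 + y : ℝ) : ℂ) * I)) -
      ∫ y in (-R)..R, cexp (((x2 - 1 / 2 : ℝ) + (y : ℂ) * I) ^ 2) * q ((x2 : ℂ) + ((t0 + y : ℝ) : ℂ) * I)‖ ≤
      40 * Real.exp (-R ^ 2) * B := by
  have hB : 0 ≤ B := by
    have := (hq ((x1 : ℂ) + (t0 : ℂ) * I) (by simp) (by simpa using h12) (by simpa using hR.le)).2
    exact (norm_nonneg _).trans this
  set F : ℂ → ℂ := fun s => cexp ((s - ((1 / 2 : ℝ) + (t0 : ℂ) * I)) ^ 2) * q s with hF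
  have hd : DifferentiableOn ℂ F (Set.uIcc ((x1 : ℂ) + ((t0 - R : ℝ) : ℂ) * I).re
      ((x2 : ℂ) + ((t0 + R : ℝ) : ℂ) * I).re ×ℂ
      Set.uIcc ((x1 : ℂ) + ((t0 - R : ℝ) : ℂ) * I).im ((x2 : ℂ) + ((t0 + R : ℝ) : ℂ) * I).im) := by
    intro s hs
    rw [Complex.mem_reProdIm] at hs
    simp only [Complex.add_re, Complex.ofReal_re, Complex.re_ofReal_mul, Complex.I_re, mul_zero, add_zero,
      Complex.add_im, Complex.ofReal_im, Complex.im_ofReal_mul, Complex.I_im, mul_one, zero_add] at hs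
    rw [Set.uIcc_of_le h12, Set.uIcc_of_le (by linarith)] at hs
    have hq' := (hq s hs.1.1 hs.1.2 (by rw [abs_le]; constructor <;> linarith [hs.2.1, hs.2.2])).1
    apply DifferentiableAt.differentiableWithinAt
    apply DifferentiableAt.mul _ hq'
    fun_prop
  have key := Complex.integral_boundary_rect_eq_zero_of_differentiableOn F _ _ hd
  simp only [Complex.add_re, Complex.ofReal_re, Complex.re_ofReal_mul, Complex.I_re, mul_zero, add_zero,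
      Complex.add_im, Complex.ofReal_im, Complex.im_ofReal_mul, Complex.I_im, mul_one, zero_add] at key
  have hl := ver q t0 R x1
  have hr := ver q t0 R x2
  have hbot := hor q t0 R x1 x2 B (-R) h1 h12 h2 hB (by ring) (fun s a b c => (hq s a b (by
    rw [c]
    rw [show t0 + -R - t0 = -R by ring, abs_neg, abs_of_pos hR])).2)
  have htop := hor q t0 R x1 x2 B R h1 h12 h2 hB (by ring) (fun s a b c => (hq s a b (by
    rw [c]
    rw [show t0 + R - t0 = R by ring, abs_of_pos hR])).2)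
  rw [← hl, ← hr]
  rw [show t0 + -R = t0 - R by ring] at hbot
  simp only [hF] at key
  set P := ∫ x in x1..x2, cexp (((x : ℂ) + ((t0 - R : ℝ) : ℂ) * I - ((1 / 2 : ℝ) + (t0 : ℂ) * I)) ^ 2) *
      q ((x : ℂ) + ((t0 - R : ℝ) : ℂ) * I) with hP
  set Q := ∫ x in x1..x2, cexp (((x : ℂ) + ((t0 + R : ℝ) : ℂ) * I - ((1 / 2 : ℝ) + (t0 : ℂ) * I)) ^ 2) *
      q ((x : ℂ) + ((t0 + R : ℝ) : ℂ) * I) with hQ
  set U := ∫ y in (t0 - R)..(t0 + R), cexp (((x2 : ℂ) + (y : ℂ) * I - ((1 / 2 : ℝ) + (t0 : ℂ) * I)) ^ 2) *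
      q ((x2 : ℂ) + (y : ℂ) * I) with hU
  set V := ∫ y in (t0 - R)..(t0 + R), cexp (((x1 : ℂ) + (y : ℂ) * I - ((1 / 2 : ℝ) + (t0 : ℂ) * I)) ^ 2) *
      q ((x1 : ℂ) + (y : ℂ) * I) with hV
  have e : I * (V - U) = P - Q := by
    simp only [smul_eq_mul] at key
    linear_combination -key
  have e2 : ‖V - U‖ = ‖P - Q‖ := by
    rw [← e, norm_mul, Complex.norm_I, one_mul]
  rw [e2]
  calc ‖P - Q‖ ≤ ‖P‖ + ‖Q‖ := norm_sub_le _ _
    _ ≤ 20 * Real.exp (-R ^ 2) * B + 20 * Real.exp (-R ^ 2) * B := add_le_add hbot htop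
    _ = 40 * Real.exp (-R ^ 2) * B := by ring

end Pool.Agent.H48.WN
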