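import Pool.Agent.H48.WN.Rct

/-!
# [H48 WN RLN] the right line

PROOF. `rct` with `q = ζ'/ζ`, `x1 = 1/2 + d`, `x2 = 2`, `R = L^2`, `L = log T`, `B = T^3`: `q` is differentiable at the points of
the rectangle (`ζ ≠ 0`, `Im s ≥ T - L^2 > 0` so `s ≠ 1`; `ζ` is analytic there, so its derivative is differentiable). So the
integral differs by `40 e^(-L^4) T^3 ≤ 1` from the one over `Re s = 2`, where `|cexp((3/2 + iy)^2)| = e^(9/4 - y^2)` and
`|ζ'/ζ(2 + it)| ≤ sum Lam(n) n^(-2) ≤ 3` (`ArithmeticFunction.LSeries_vonMangoldt_eq_deriv_riemannZeta_div`; `Lam(n) ≤ log n ≤ 2 sqrt n`,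
or any absolute constant). `int e^(-y^2) ≤ 2`. So the constant `C = 1 + 2·e^(9/4)·C1` works.
-/

set_option autoImplicit false

namespace Pool.Agent.H48.WN

open Complex MeasureTheory Finset

private lemma zz_bound : ∃ C1 : ℝ, 0 ≤ C1 ∧ ∀ s : ℂ, s.re = 2 →
    ‖deriv riemannZeta s / riemannZeta s‖ ≤ C1 := by
  refine ⟨∑' n : ℕ, ‖LSeries.term (fun n => ((ArithmeticFunction.vonMangoldt n : ℝ) : ℂ)) 2 n‖,
    tsum_nonneg fun n => norm_nonneg _, ?_⟩
  intro s hs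
  have h1 : 1 < s.re := by
    rw [hs]
    norm_num
  have h2 := ArithmeticFunction.LSeries_vonMangoldt_eq_deriv_riemannZeta_div h1
  have h3 := ArithmeticFunction.LSeriesSummable_vonMangoldt h1
  have h4 : ‖deriv riemannZeta s / riemannZeta s‖ =
      ‖LSeries (fun n => ((ArithmeticFunction.vonMangoldt n : ℝ) : ℂ)) s‖ := by
    rw [h2, neg_div, norm_neg]
  have e : ∀ n, ‖LSeries.term (fun n => ((ArithmeticFunction.vonMangoldt n : ℝ) : ℂ)) s n‖ =
      ‖LSeries.term (fun n => ((ArithmeticFunction.vonMangoldt n : ℝ) : ℂ)) 2 n‖ := by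
    intro n
    rw [LSeries.norm_term_eq, LSeries.norm_term_eq, hs]
    norm_num
  rw [h4]
  unfold LSeries
  refine (norm_tsum_le_tsum_norm h3.norm).trans (le_of_eq ?_)
  exact tsum_congr e

private lemma sq_lt_exp {L : ℝ} (hL : 0 ≤ L) : L ^ 2 < Real.exp L := by
  have h1 := Real.quadratic_le_exp_of_nonneg (x := L / 2) (by linarith)
  have h2 : Real.exp L = Real.exp (L / 2) * Real.exp (L / 2) := by
    rw [← Real.exp_add]
    congr 1
    ring
  have h3 : L < 1 + L / 2 + (L / 2) ^ 2 / 2 := by nlinarith [sq_nonneg (L - 2)]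
  have h4 : L < Real.exp (L / 2) := by linarith
  rw [h2, sq]
  exact mul_self_lt_mul_self hL h4

theorem rln : ∃ C T0 : ℝ, 0 < C ∧ 10 ≤ T0 ∧ ∀ T : ℝ, T0 ≤ T → ∀ d t0 : ℝ, 0 < d → d ≤ 1 / 8 → T ≤ t0 → t0 ≤ 2 * T →
    (∀ s : ℂ, 1 / 2 + d ≤ s.re → s.re ≤ 2 → |s.im - t0| ≤ (Real.log T) ^ 2 →
      riemannZeta s ≠ 0 ∧ ‖deriv riemannZeta s / riemannZeta s‖ ≤ T ^ 3) →
    ‖∫ y in (-(Real.log T) ^ 2)..((Real.log T) ^ 2), cexp (((d : ℝ) + (y : ℂ) * I) ^ 2) *
      (deriv riemannZeta ((1 / 2 + d : ℝ) + ((t0 + y : ℝ) : ℂ) * I) /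
        riemannZeta ((1 / 2 + d : ℝ) + ((t0 + y : ℝ) : ℂ) * I))‖ ≤ C := by
  obtain ⟨C1, hC1, hz⟩ := zz_bound
  refine ⟨1 + C1 * Real.exp (9 / 4) * Real.sqrt Real.pi, Real.exp 10, by positivity, ?_, ?_⟩
  · linarith [Real.add_one_le_exp (10 : ℝ)]
  intro T hT d t0 hd0 hd1 ht1 ht2 hyp
  obtain ⟨L, hL⟩ : ∃ L : ℝ, L = Real.log T := ⟨_, rfl⟩
  have hTpos : 0 < T := lt_of_lt_of_le (Real.exp_pos _) hT
  have hL10 : 10 ≤ L := by
    rw [hL]
    exact (Real.le_log_iff_exp_le hTpos).2 hT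
  have hTL : T = Real.exp L := by rw [hL, Real.exp_log hTpos]
  rw [← hL] at hyp ⊢
  have hLT : L ^ 2 < T := by
    rw [hTL]
    exact sq_lt_exp (by linarith)
  obtain ⟨q, hq⟩ : ∃ q : ℂ → ℂ, q = fun s => deriv riemannZeta s / riemannZeta s := ⟨_, rfl⟩
  have key := rct q t0 (L ^ 2) (1 / 2 + d) 2 (T ^ 3) (by positivity) (by linarith) (by linarith) le_rfl
    (by
      intro s hs1 hs2 hs3
      have h4 := hyp s hs1 hs2 hs3
      rw [abs_le] at hs3
      have him : 0 < s.im := by linarith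
      have hs1' : s ≠ 1 := by
        intro h
        rw [h] at him
        simp at him
      refine ⟨?_, by rw [hq]; exact h4.2⟩
      rw [hq]
      have hd : DifferentiableOn ℂ riemannZeta {(1 : ℂ)}ᶜ := fun z hz =>
        (differentiableAt_riemannZeta hz).differentiableWithinAt
      have han : AnalyticAt ℂ riemannZeta s :=
        hd.analyticAt (isOpen_compl_singleton.mem_nhds hs1')
      exact han.deriv.differentiableAt.div han.differentiableAt h4.1)
  have hright : ‖∫ y in (-(L ^ 2))..(L ^ 2), cexp (((2 - 1 / 2 : ℝ) + (y : ℂ) * I) ^ 2) *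
      q (((2 : ℝ) : ℂ) + ((t0 + y : ℝ) : ℂ) * I)‖ ≤ C1 * Real.exp (9 / 4) * Real.sqrt Real.pi := by
    have hint : Integrable (fun y : ℝ => Real.exp (-1 * y ^ 2)) := integrable_exp_neg_mul_sq one_pos
    have h1 : ‖∫ y in (-(L ^ 2))..(L ^ 2), cexp (((2 - 1 / 2 : ℝ) + (y : ℂ) * I) ^ 2) *
      q (((2 : ℝ) : ℂ) + ((t0 + y : ℝ) : ℂ) * I)‖ ≤
        ∫ y in (-(L ^ 2))..(L ^ 2), C1 * Real.exp (9 / 4) * Real.exp (-1 * y ^ 2) := by
      apply intervalIntegral.norm_integral_le_of_norm_le (by nlinarith)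
      · refine Filter.Eventually.of_forall fun y _ => ?_
        rw [norm_mul, Complex.norm_exp]
        have e2 : ((((2 - 1 / 2 : ℝ) : ℂ) + (y : ℂ) * I) ^ 2).re = 9 / 4 - y ^ 2 := by
          have : (((2 - 1 / 2 : ℝ) : ℂ) + (y : ℂ) * I) ^ 2 =
              ((9 / 4 - y ^ 2 : ℝ) : ℂ) + ((3 * y : ℝ) : ℂ) * I := by
            push_cast
            have hI : I ^ 2 = -1 := Complex.I_sq
            linear_combination (y : ℂ) ^ 2 * hI
          rw [this, Complex.add_re, Complex.ofReal_re, Complex.re_ofReal_mul, Complex.I_re]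
          ring
        rw [e2]
        have h5 : ‖q (((2 : ℝ) : ℂ) + ((t0 + y : ℝ) : ℂ) * I)‖ ≤ C1 := by
          rw [hq]
          apply hz
          simp
        have h6 : Real.exp (9 / 4 - y ^ 2) = Real.exp (9 / 4) * Real.exp (-1 * y ^ 2) := by
          rw [← Real.exp_add]
          congr 1
          ring
        rw [h6]
        calc Real.exp (9 / 4) * Real.exp (-1 * y ^ 2) * ‖q (((2 : ℝ) : ℂ) + ((t0 + y : ℝ) : ℂ) * I)‖
            ≤ Real.exp (9 / 4) * Real.exp (-1 * y ^ 2) * C1 :=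
              mul_le_mul_of_nonneg_left h5 (by positivity)
          _ = C1 * Real.exp (9 / 4) * Real.exp (-1 * y ^ 2) := by ring
      · exact (hint.const_mul _).intervalIntegrable
    refine h1.trans ?_
    rw [intervalIntegral.integral_const_mul]
    refine mul_le_mul_of_nonneg_left ?_ (by positivity)
    rw [intervalIntegral.integral_of_le (by nlinarith)]
    have h2 := setIntegral_le_integral (s := Set.Ioc (-(L ^ 2)) (L ^ 2)) hint
      (Filter.Eventually.of_forall fun y => (Real.exp_pos _).le)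
    refine h2.trans (le_of_eq ?_)
    rw [integral_gaussian, div_one]
  have herr : 40 * Real.exp (-(L ^ 2) ^ 2) * T ^ 3 ≤ 1 := by
    have h1 : (40 : ℝ) ≤ Real.exp 40 := by linarith [Real.add_one_le_exp (40 : ℝ)]
    have h2 : T ^ 3 = Real.exp (3 * L) := by
      rw [hTL, ← Real.exp_nat_mul]
      norm_num
    rw [h2]
    calc 40 * Real.exp (-(L ^ 2) ^ 2) * Real.exp (3 * L)
        ≤ Real.exp 40 * Real.exp (-(L ^ 2) ^ 2) * Real.exp (3 * L) := by gcongr
      _ = Real.exp (40 + -(L ^ 2) ^ 2 + 3 * L) := by rw [Real.exp_add, Real.exp_add]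
      _ ≤ Real.exp 0 := by
          apply Real.exp_le_exp.2
          have h3 : 100 ≤ L ^ 2 := by nlinarith
          have h4 : 100 * L ^ 2 ≤ (L ^ 2) ^ 2 := by nlinarith
          nlinarith
      _ = 1 := Real.exp_zero
  have e1 : (1 / 2 + d - 1 / 2 : ℝ) = d := by ring
  rw [e1] at key
  rw [hq] at key hright
  simp only at key hright
  set U := ∫ y in (-(L ^ 2))..(L ^ 2), cexp (((d : ℝ) + (y : ℂ) * I) ^ 2) *
      (deriv riemannZeta ((1 / 2 + d : ℝ) + ((t0 + y : ℝ) : ℂ) * I) /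
        riemannZeta ((1 / 2 + d : ℝ) + ((t0 + y : ℝ) : ℂ) * I)) with hU
  set V := ∫ y in (-(L ^ 2))..(L ^ 2), cexp (((2 - 1 / 2 : ℝ) + (y : ℂ) * I) ^ 2) *
      (deriv riemannZeta (((2 : ℝ) : ℂ) + ((t0 + y : ℝ) : ℂ) * I) /
        riemannZeta (((2 : ℝ) : ℂ) + ((t0 + y : ℝ) : ℂ) * I)) with hV
  calc ‖U‖ = ‖(U - V) + V‖ := by congr 1; ring
    _ ≤ ‖U - V‖ + ‖V‖ := norm_add_le _ _
    _ ≤ 1 + C1 * Real.exp (9 / 4) * Real.sqrt Real.pi := add_le_add (key.trans herr) hright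

end Pool.Agent.H48.WN
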