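import Pool.Agent.H48.WN.Defs
import Pool.Agent.H48.WN.Ker

/-!
# [H48 WN WRP] the window sum as an integral of products of Dirichlet polynomials

PROOF. `ker` for `φ3(u) = st (b+1+3h) h u · Real.smoothTransition (u + 1)`: smooth, support in `[-1, b+1+4h]`, and
`φ3(u) = st (b+1+3h) h u` for `u ≥ 0`. `L = log T > 0`. Expand: `K(y) Rp(s+iy/L) D4(s+iy/L)` is the finite double sum over `n, m ∈ Icc 1 N` of
`La n · rr(u_n) · st (1+3h) h (u_m) · (n^(-s) m^(-s)) · K(y) e^(-iy(u_n+u_m))`, `u_n = log n/L` (`n^(-iy/L) = e^(-iy u_n)`). Integrate: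
`int K(y) e^(-iy(u_n+u_m)) dy = φ3(u_n + u_m) = st (b+1+3h) h (u_n+u_m)`. If `rr(u_n) ≠ 0` then `u_n > b + h` (`rr_zero_left`); if also
`st (b+1+3h) h (u_n + u_m) ≠ 0` then `u_n + u_m < b + 1 + 4h`, so `u_m < 1 + 3h` and `st (1+3h) h (u_m) = 1`. So the factor
`st (1+3h) h (u_m)` can be dropped and the double sum is `Wn b h T s`.
-/

set_option autoImplicit false

namespace Pool.Agent.H48.WN

open Complex MeasureTheory Finset

theorem wrp_cpow_line (n : ℕ) (hn : 1 ≤ n) (s : ℂ) (y L : ℝ) :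
    (n : ℂ) ^ (-(s + I * ((y / L : ℝ) : ℂ))) =
      (n : ℂ) ^ (-s) * cexp (-(I * ((Real.log n / L : ℝ) : ℂ) * (y : ℂ))) := by
  have hn0 : (n : ℂ) ≠ 0 := by
    have : 0 < n := hn
    exact_mod_cast this.ne'
  rw [neg_add, Complex.cpow_add _ _ hn0]
  congr 1
  rw [Complex.cpow_def_of_ne_zero hn0]
  congr 1
  rw [← Complex.natCast_log]
  push_cast
  ring

theorem wrp_integrable_kexp {K : ℝ → ℂ} (hK : Continuous K) (hKi : Integrable K) (u : ℝ) :
    Integrable (fun y : ℝ => K y * cexp (-(I * (u : ℂ) * (y : ℂ)))) := by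
  refine hKi.mono (by fun_prop) (Filter.Eventually.of_forall fun y => ?_)
  rw [norm_mul]
  have h1 : -(I * (u : ℂ) * (y : ℂ)) = ((-(u * y) : ℝ) : ℂ) * I := by
    push_cast
    ring
  rw [h1, Complex.norm_exp_ofReal_mul_I, mul_one]

theorem wrp (b h : ℝ) (hb : 1 ≤ b) (hh : 0 < h) :
    ∃ K : ℝ → ℂ, Continuous K ∧ Integrable K ∧
      (∀ A : ℕ, ∃ C : ℝ, ∀ y : ℝ, ‖K y‖ ≤ C * (1 + |y|) ^ (-(A : ℝ))) ∧
      ∀ T : ℝ, 3 ≤ T → ∀ s : ℂ, Wn b h T s = ∫ y : ℝ, K y *
        (Rp b h T (s + I * ((y / Real.log T : ℝ) : ℂ)) * D4 b h T (s + I * ((y / Real.log T : ℝ) : ℂ))) := by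
  obtain ⟨φ, hφ⟩ : ∃ φ : ℝ → ℝ, φ = fun u => st (b + 1 + 3 * h) h u * Real.smoothTransition (u + 1) :=
    ⟨_, rfl⟩
  have hφs : ContDiff ℝ (⊤ : ℕ∞) φ := by
    rw [hφ]
    exact (st_contDiff _ _).mul (Real.smoothTransition.contDiff.comp (by fun_prop))
  have hφc : HasCompactSupport φ := by
    refine HasCompactSupport.intro (isCompact_Icc (a := (-1 : ℝ)) (b := b + 1 + 4 * h)) fun u hu => ?_
    rw [hφ]
    show st (b + 1 + 3 * h) h u * Real.smoothTransition (u + 1) = 0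
    rw [Set.mem_Icc, not_and_or, not_le, not_le] at hu
    rcases hu with hu | hu
    · rw [Real.smoothTransition.zero_of_nonpos (by linarith), mul_zero]
    · rw [st_zero hh (by linarith), zero_mul]
  obtain ⟨K, hK, hKi, hKf, hKd⟩ := ker φ hφs hφc
  refine ⟨K, hK, hKi, hKd, fun T hT s => ?_⟩
  obtain ⟨L, hL⟩ : ∃ L, L = Real.log T := ⟨_, rfl⟩
  have hL0 : 0 < L := by
    rw [hL]
    exact Real.log_pos (by linarith)
  obtain ⟨N, hN⟩ : ∃ N, N = NN b T := ⟨_, rfl⟩
  rw [← hL]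
  -- expansion of the product
  have h1 : ∀ y : ℝ, K y * (Rp b h T (s + I * ((y / L : ℝ) : ℂ)) * D4 b h T (s + I * ((y / L : ℝ) : ℂ))) =
      ∑ n ∈ Icc 1 N, ∑ m ∈ Icc 1 N, (La n * ((rr b h (Real.log n / L) : ℝ) : ℂ) * (n : ℂ) ^ (-s) *
        (((st (1 + 3 * h) h (Real.log m / L) : ℝ) : ℂ) * (m : ℂ) ^ (-s))) *
        (K y * cexp (-(I * ((Real.log n / L + Real.log m / L : ℝ) : ℂ) * (y : ℂ)))) := by
    intro y
    unfold Rp D4 Dp
    rw [← hL, ← hN, sum_mul_sum, mul_sum]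
    refine sum_congr rfl fun n hn => ?_
    rw [mul_sum]
    refine sum_congr rfl fun m hm => ?_
    rw [wrp_cpow_line n (mem_Icc.1 hn).1, wrp_cpow_line m (mem_Icc.1 hm).1]
    have h2 : cexp (-(I * ((Real.log n / L + Real.log m / L : ℝ) : ℂ) * (y : ℂ))) =
        cexp (-(I * ((Real.log n / L : ℝ) : ℂ) * (y : ℂ))) *
        cexp (-(I * ((Real.log m / L : ℝ) : ℂ) * (y : ℂ))) := by
      rw [← Complex.exp_add]
      congr 1
      push_cast
      ring
    rw [h2]
    ring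
  rw [integral_congr_ae (Filter.Eventually.of_forall h1), integral_finsetSum]
  swap
  · intro n _
    exact integrable_finsetSum _ fun m _ => (wrp_integrable_kexp hK hKi _).const_mul _
  unfold Wn
  rw [← hN, ← hL]
  refine sum_congr rfl fun n hn => ?_
  rw [integral_finsetSum _ fun m _ => (wrp_integrable_kexp hK hKi _).const_mul _]
  unfold Zp Dp
  rw [← hN, ← hL, mul_sum]
  refine sum_congr rfl fun m hm => ?_
  rw [integral_const_mul, ← hKf]
  have hun : 0 ≤ Real.log n / L := div_nonneg (Real.log_natCast_nonneg n) hL0.le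
  have hum : 0 ≤ Real.log m / L := div_nonneg (Real.log_natCast_nonneg m) hL0.le
  have h3 : φ (Real.log n / L + Real.log m / L) =
      st (b + 1 + 3 * h) h (Real.log m / L + Real.log n / L) := by
    rw [hφ]
    show st (b + 1 + 3 * h) h _ * Real.smoothTransition (_ + 1) = _
    rw [Real.smoothTransition.one_of_one_le (by linarith), mul_one, add_comm (Real.log n / L)]
  have h4 : rr b h (Real.log n / L) * st (1 + 3 * h) h (Real.log m / L) *
      st (b + 1 + 3 * h) h (Real.log m / L + Real.log n / L) =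
      rr b h (Real.log n / L) * st (b + 1 + 3 * h) h (Real.log m / L + Real.log n / L) := by
    by_cases h5 : Real.log n / L ≤ b + h
    · rw [rr_zero_left hh h5]
      ring
    · by_cases h6 : b + 1 + 4 * h ≤ Real.log m / L + Real.log n / L
      · rw [st_zero (a := b + 1 + 3 * h) hh (by linarith)]
        ring
      · push Not at h5 h6
        rw [st_one (a := 1 + 3 * h) hh (by linarith)]
        ring
  rw [h3]
  have h5 : ((rr b h (Real.log n / L) : ℝ) : ℂ) * ((st (1 + 3 * h) h (Real.log m / L) : ℝ) : ℂ) *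
      ((st (b + 1 + 3 * h) h (Real.log m / L + Real.log n / L) : ℝ) : ℂ) =
      ((rr b h (Real.log n / L) : ℝ) : ℂ) *
      ((st (b + 1 + 3 * h) h (Real.log m / L + Real.log n / L) : ℝ) : ℂ) := by
    exact_mod_cast h4
  calc La n * ((rr b h (Real.log n / L) : ℝ) : ℂ) * (n : ℂ) ^ (-s) *
        (1 * ((st (b + 1 + 3 * h) h (Real.log m / L + Real.log n / L) : ℝ) : ℂ) * (m : ℂ) ^ (-s))
      = La n * (n : ℂ) ^ (-s) * (m : ℂ) ^ (-s) * (((rr b h (Real.log n / L) : ℝ) : ℂ) *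
        ((st (b + 1 + 3 * h) h (Real.log m / L + Real.log n / L) : ℝ) : ℂ)) := by ring
    _ = _ := by
        rw [← h5]
        ring

end Pool.Agent.H48.WN
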