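import Pool.Agent.H48.WN.Smt
import Pool.Agent.H48.WN.Big

/-!
# [H48 WN ZAP] zeta by smooth sums, cut-off beyond `T^(1+)`

PROOF. Let `β2 = v1 + |β| + |B| + 16 (A + 5)`, `φ2 = st β2 1` (in `Defs`: `1` up to `β2`, `0` from `B2 = β2 + 1`, smooth),
`ψ = φ2 - φ`: smooth, `0` for `u ≤ β` (`β ≤ β2`), `0` for `u ≥ B2` (`B ≤ B2`). `big` for `φ2` (with `A+1`) and
`smt` for `ψ` (with `A + 1`), both at `N2 = ⌈T^B2⌉ ≥ N'`: `Dp φ2 = Dp φ + Dp ψ` at `N2`, and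
`Dp (φ(·+v)) T N2 s = Dp (φ(·+v)) T N s` since `φ(log m/L + v) = 0` for `m ≥ T^B` (`v ≥ 0`); take a common bound of the
two ranges. So the difference is `≤ 2 T^(-(A+1)) ≤ T^(-A)`.
-/

set_option autoImplicit false

namespace Pool.Agent.H48.WN

open Complex MeasureTheory Finset

theorem dp_trunc (c : ℕ → ℂ) (w : ℝ → ℝ) (B T : ℝ) (hT : 1 < T) (hw : ∀ u, B ≤ u → w u = 0) (N N' : ℕ)
    (hN : T ^ B ≤ N) (hN' : T ^ B ≤ N') (s : ℂ) : Dp c w T N s = Dp c w T N' s := by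
  have key : ∀ N N' : ℕ, N ≤ N' → T ^ B ≤ N → Dp c w T N s = Dp c w T N' s := by
    intro N N' hle hN
    unfold Dp
    apply Finset.sum_subset (Finset.Icc_subset_Icc_right hle)
    intro n hn hn'
    have hn1 : 1 ≤ n := (Finset.mem_Icc.1 hn).1
    have hnN : N < n := by
      by_contra h
      exact hn' (Finset.mem_Icc.2 ⟨hn1, not_lt.1 h⟩)
    have hB : B ≤ Real.log n / Real.log T := by
      rw [le_div_iff₀ (Real.log_pos hT), ← Real.log_rpow (by linarith)]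
      exact Real.log_le_log (Real.rpow_pos_of_pos (by linarith) _)
        (hN.trans (by exact_mod_cast hnN.le))
    rw [hw _ hB]
    simp
  rcases le_total N N' with h | h
  · exact key N N' h hN
  · exact (key N' N h hN').symm

theorem zap (φ : ℝ → ℝ) (hφ : ContDiff ℝ (⊤ : ℕ∞) φ) (β B v1 : ℝ) (h0 : 0 ≤ v1) (h1 : 1 < β - v1)
    (hβ : ∀ u ≤ β, φ u = 1) (hB : ∀ u, B ≤ u → φ u = 0) (A : ℕ) :
    ∃ T0 : ℝ, 3 ≤ T0 ∧ ∀ T : ℝ, T0 ≤ T → ∀ v : ℝ, 0 ≤ v → v ≤ v1 → ∀ N : ℕ, T ^ B ≤ N →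
      ∀ s : ℂ, 1 / 16 ≤ s.re → s.re ≤ 4 → T / 64 ≤ s.im → s.im ≤ 64 * T →
        ‖riemannZeta s - Dp (fun _ => 1) (fun u => φ (u + v)) T N s‖ ≤ T ^ (-(A : ℝ)) := by
  obtain ⟨β2, hβ2⟩ : ∃ β2 : ℝ, β2 = v1 + |β| + |B| + 16 * ((A : ℝ) + 5) := ⟨_, rfl⟩
  have hA : (0 : ℝ) ≤ A := Nat.cast_nonneg A
  have hb1 : β ≤ |β| := le_abs_self β
  have hb2 : B ≤ |B| := le_abs_self B
  have hb3 : 0 ≤ |β| := abs_nonneg β
  have hb4 : 0 ≤ |B| := abs_nonneg B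
  obtain ⟨T1, hT1, H1⟩ := big (st β2 1) (st_contDiff β2 1) β2 (β2 + 1) v1 h0 (A + 1)
    (by push_cast; linarith) (fun u hu => st_one one_pos hu) (fun u hu => st_zero one_pos hu)
  obtain ⟨T2, hT2, H2⟩ := smt (fun u => st β2 1 u - φ u) ((st_contDiff β2 1).sub hφ) β (β2 + 1) v1 h0 h1
    (fun u hu => by
      show st β2 1 u - φ u = 0
      rw [st_one one_pos (by linarith), hβ u hu]; ring)
    (fun u hu => by
      show st β2 1 u - φ u = 0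
      rw [st_zero one_pos hu, hB u (by linarith)]; ring) (A + 1)
  refine ⟨max T1 T2, le_trans hT1 (le_max_left _ _), ?_⟩
  intro T hT v hv0 hv1 N hN s hs1 hs2 hs3 hs4
  have hTT1 : T1 ≤ T := le_trans (le_max_left _ _) hT
  have hTT2 : T2 ≤ T := le_trans (le_max_right _ _) hT
  have hT3 : (3 : ℝ) ≤ T := le_trans hT1 hTT1
  obtain ⟨N2, hN2⟩ : ∃ N2 : ℕ, N2 = max N ⌈T ^ (β2 + 1)⌉₊ := ⟨_, rfl⟩
  have hN2a : T ^ (β2 + 1) ≤ (N2 : ℝ) := by
    refine le_trans (Nat.le_ceil _) ?_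
    rw [hN2]
    exact_mod_cast le_max_right _ _
  have hN2b : T ^ B ≤ (N2 : ℝ) := by
    refine le_trans hN ?_
    rw [hN2]
    exact_mod_cast le_max_left _ _
  have e1 := H1 T hTT1 v hv0 hv1 N2 hN2a s hs1 hs2 hs3 hs4
  have e2 := H2 T hTT2 v hv0 hv1 N2 hN2a s (by linarith) hs2 hs3 hs4
  have e3 : Dp (fun _ => 1) (fun u => φ (u + v)) T N s = Dp (fun _ => 1) (fun u => φ (u + v)) T N2 s :=
    dp_trunc _ _ B T (by linarith) (fun u hu => hB _ (by linarith)) N N2 hN hN2b s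
  have e4 : Dp (fun _ => 1) (fun u => st β2 1 (u + v) - φ (u + v)) T N2 s =
      Dp (fun _ => 1) (fun u => st β2 1 (u + v)) T N2 s - Dp (fun _ => 1) (fun u => φ (u + v)) T N2 s := by
    unfold Dp
    rw [← Finset.sum_sub_distrib]
    apply Finset.sum_congr rfl
    intro n _
    push_cast
    ring
  have e5 : riemannZeta s - Dp (fun _ => 1) (fun u => φ (u + v)) T N s =
      (riemannZeta s - Dp (fun _ => 1) (fun u => st β2 1 (u + v)) T N2 s) +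
        Dp (fun _ => 1) (fun u => st β2 1 (u + v) - φ (u + v)) T N2 s := by
    rw [e4, e3]
    ring
  rw [e5]
  refine le_trans (norm_add_le _ _) ?_
  have e6 : T ^ (-((A + 1 : ℕ) : ℝ)) = T ^ (-(A : ℝ)) * T⁻¹ := by
    rw [← Real.rpow_neg_one, ← Real.rpow_add (by linarith)]
    congr 1
    push_cast
    ring
  have e7 : T ^ (-(A : ℝ)) * T⁻¹ ≤ T ^ (-(A : ℝ)) * (1 / 2) := by
    apply mul_le_mul_of_nonneg_left _ (Real.rpow_nonneg (by linarith) _)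
    rw [inv_le_comm₀ (by linarith) (by norm_num)]
    norm_num
    linarith
  have e8 : (2 : ℝ) * (T ^ (-(A : ℝ)) * (1 / 2)) = T ^ (-(A : ℝ)) := by ring
  rw [e6] at e1 e2
  calc _ ≤ T ^ (-(A : ℝ)) * T⁻¹ + T ^ (-(A : ℝ)) * T⁻¹ := add_le_add e1 e2
    _ ≤ T ^ (-(A : ℝ)) := by linarith

end Pool.Agent.H48.WN
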